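import Pool.Agent.P.MP_5aeb4a_al.Defs

/-! Homomorphisms of Artin groups and identities between positive words. -/

set_option autoImplicit false

namespace Pool.Agent.P.MP_5aeb4a_al

section generic

variable {n : ℕ} {E : List (Fin n × Fin n)} {G : Type} [Group G] {f : Fin n → G}

def Rels.lift (h : Rels E f) : Artin E →* G := PresentedGroup.toGroup h.lift_eq

theorem Rels.lift_of (h : Rels E f) (i : Fin n) : h.lift (PresentedGroup.of i) = f i :=
  PresentedGroup.toGroup.of _

theorem Rels.map {H : Type} [Group H] (h : Rels E f) (θ : G →* H) : Rels E fun i => θ (f i) :=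
  fun i j => ⟨fun e => by simpa using congrArg θ ((h i j).1 e),
    fun e e' => by simpa using congrArg θ ((h i j).2 e e')⟩

theorem Rels.inv (h : Rels E f) : Rels E fun i => (f i)⁻¹ :=
  fun i j => ⟨fun e => by simpa [mul_assoc] using congrArg (·⁻¹) ((h i j).1 e),
    fun e e' => by simpa using congrArg (·⁻¹) ((h i j).2 e e').symm⟩

theorem Rels.mul_central (h : Rels E f) {y : G} (hy : ∀ g, y * g = g * y) :
    Rels E fun i => f i * y := by
  have k : ∀ g t, y * (g * t) = g * (y * t) := fun g t => by rw [← mul_assoc, hy, mul_assoc]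
  refine fun i j => ⟨fun e => ?_, fun e e' => ?_⟩
  · have := congrArg (· * (y * (y * y))) ((h i j).1 e)
    simpa only [mul_assoc, k (f i), k (f j)] using this
  · have := congrArg (· * (y * y)) ((h i j).2 e e')
    simpa only [mul_assoc, k (f i), k (f j)] using this

/-- One move on a positive word. -/
def step (E : List (Fin n × Fin n)) : ℕ → List (Fin n) → List (Fin n)
  | 0, a :: b :: l =>
    if (a, b) ∉ E ∧ (b, a) ∉ E then b :: a :: l
    else if l.head? = some a then b :: a :: b :: l.tail else a :: b :: l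
  | k + 1, a :: l => a :: step E k l
  | _, l => l

theorem Rels.step (h : Rels E f) (k : ℕ) (w : List (Fin n)) :
    ((step E k w).map f).prod = (w.map f).prod := by
  fun_induction MP_5aeb4a_al.step E k w with
  | case1 a b l e => simp [← mul_assoc, (h a b).2 e.1 e.2]
  | case2 a b l e e2 =>
    cases l with
    | nil => simp at e2
    | cons t l =>
      have : t = a := by simpa using e2
      subst this
      by_cases e3 : (t, b) ∈ E
      · simp [← mul_assoc, (h t b).1 e3]
      · simp [← mul_assoc, (h b t).1 (by tauto)]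
  | case3 => rfl
  | case4 k a l ih => simp [ih]
  | case5 => rfl

theorem Rels.steps (h : Rels E f) (ks : List ℕ) {w w' : List (Fin n)}
    (e : ks.foldl (fun l k => MP_5aeb4a_al.step E k l) w = w') :
    (w.map f).prod = (w'.map f).prod := by
  induction ks generalizing w with
  | nil => exact congrArg (fun l => (l.map f).prod) e
  | cons k ks ih => rw [← h.step k, ih e]

end generic

theorem rels_s : Rels edgesD s := rels_of _

theorem rels_σ : Rels edgesA σ := rels_of _

theorem proj_s (i : Fin 5) : proj (s i) = σ (fold i) := PresentedGroup.toGroup.of _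

theorem aext {G : Type} [Group G] {f g : AD →* G} (h : ∀ i, f (s i) = g (s i)) : f = g :=
  PresentedGroup.ext h

theorem bext {G : Type} [Group G] {f g : B5 →* G} (h : ∀ i, f (σ i) = g (σ i)) : f = g :=
  PresentedGroup.ext h

theorem σ_zB (i : Fin 4) : σ i * zB = zB * σ i := by
  have key : ∀ ks : List ℕ, ks.foldl (fun l k => step edgesA k l)
      (i :: [0, 1, 2, 3, 0, 1, 2, 3, 0, 1, 2, 3, 0, 1, 2, 3, 0, 1, 2, 3]) =
      [0, 1, 2, 3, 0, 1, 2, 3, 0, 1, 2, 3, 0, 1, 2, 3, 0, 1, 2, 3] ++ [i] →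
      σ i * zB = zB * σ i := fun ks e => by
    simpa [zB, pow_succ, mul_assoc] using rels_σ.steps ks e
  fin_cases i
  · exact key [4, 3, 1, 5, 3, 2, 5, 4, 3, 8, 9, 10, 12, 13, 15, 16, 18, 19] (by decide)
  · exact key [0, 2, 3, 8, 7, 5, 9, 7, 6, 9, 8, 7, 12, 13, 14, 16, 17, 19] (by decide)
  · exact key [0, 1, 3, 4, 6, 7, 12, 11, 9, 13, 11, 10, 13, 12, 11, 16, 17, 18] (by decide)
  · exact key [0, 1, 2, 4, 5, 7, 8, 10, 11, 16, 15, 13, 17, 15, 14, 17, 16, 15] (by decide)

theorem zB_comm (b : B5) : zB * b = b * zB := by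
  have : (MulAut.conj zB).toMonoidHom = MonoidHom.id B5 := bext fun i => by
    simp [← σ_zB]
  have h := DFunLike.congr_fun this b
  simpa [mul_inv_eq_iff_eq_mul] using h

theorem eps_pow : (σ 0 * σ 1 * σ 2 * σ 3 * σ 3) ^ 4 = zB := by
  simpa [zB, pow_succ, mul_assoc] using rels_σ.steps
    [4, 5, 6, 9, 8, 10, 11, 9, 11, 14, 13, 15, 16, 14, 12, 14, 16, 15]
    (w := [0, 1, 2, 3, 3, 0, 1, 2, 3, 3, 0, 1, 2, 3, 3, 0, 1, 2, 3, 3])
    (w' := [0, 1, 2, 3, 0, 1, 2, 3, 0, 1, 2, 3, 0, 1, 2, 3, 0, 1, 2, 3]) (by decide)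

theorem rels_inc : Rels edgesA fun i => s i.castSucc := fun i j =>
  ⟨fun e => (rels_s _ _).1 (by revert i j; decide), fun e e' =>
    (rels_s _ _).2 (by revert i j; decide) (by revert i j; decide)⟩

/-- The inclusion of the braid group. -/
def inc : B5 →* AD := rels_inc.lift

theorem inc_σ (i : Fin 4) : inc (σ i) = s i.castSucc := rels_inc.lift_of i

theorem inc_zB : inc zB = z := by simp [zB, z, inc_σ]

theorem proj_z : proj z = zB := by simp [zB, z, proj_s, fold]

def sw : Fin 5 → Fin 5 := ![0, 1, 2, 4, 3]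

theorem rels_sw : Rels edgesD fun i => s (sw i) := fun i j =>
  ⟨fun e => (rels_s _ _).1 (by revert i j; decide), fun e e' =>
    (rels_s _ _).2 (by revert i j; decide) (by revert i j; decide)⟩

theorem zeta_zeta : rels_sw.lift.comp rels_sw.lift = MonoidHom.id AD := aext fun i => by
  have : ∀ i, sw (sw i) = i := by decide
  have k : ∀ i, rels_sw.lift (s i) = s (sw i) := rels_sw.lift_of
  simp [k, this]

/-- The graph automorphism. -/
def zeta : MulAut AD := MonoidHom.toMulEquiv rels_sw.lift rels_sw.lift zeta_zeta zeta_zeta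

theorem zeta_s (i : Fin 5) : zeta (s i) = s (sw i) := rels_sw.lift_of i

theorem zeta_sq : zeta * zeta = 1 := MulEquiv.ext fun a => DFunLike.congr_fun zeta_zeta a

/-- The Garside element. -/
def Dl : AD := (s 0 * s 1 * s 2 * s 3 * s 4) ^ 4

theorem Dl_sq : Dl * Dl = c := by rw [Dl, c, ← pow_add]

theorem proj_Dl : proj Dl = zB := by
  rw [← eps_pow]
  simp [Dl, proj_s, fold]

theorem sign_hom (f : AD →* ℤˣ) : f z = 1 ∧ f Dl = 1 := by
  have k : ∀ a b : ℤˣ, a * b * a = b * a * b → a = b := by decide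
  have h1 := k _ _ (((rels_s.map f) 0 1).1 (by decide))
  have h2 := k _ _ (((rels_s.map f) 2 3).1 (by decide))
  have k2 : ∀ a b : ℤˣ, (a * a * b * b) ^ 5 = 1 := by decide
  have k3 : ∀ a : ℤˣ, a ^ 4 = 1 := by decide
  refine ⟨?_, by rw [Dl, map_pow, k3]⟩
  simp only [z, map_pow, map_mul, h1, h2, k2]

theorem Rels.all_eq {G : Type} [Group G] {t : Fin 5 → G} (h : Rels edgesD t) (e : t 2 = t 3)
    (i : Fin 5) : t i = t 0 := by
  have k : ∀ a b : G, a * b * a = b * a * b → a * b = b * a → a = b := fun a b h1 h2 => by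
    rw [mul_assoc, ← h2, ← mul_assoc] at h1
    rw [mul_assoc a a b, h2, ← mul_assoc, h2, mul_assoc b a a, mul_assoc] at h1
    exact mul_left_cancel (mul_left_cancel h1)
  have h1 : t 1 = t 2 := k _ _ ((h 1 2).1 (by decide))
    (e ▸ (h 1 3).2 (by decide) (by decide))
  have h4 : t 2 = t 4 := k _ _ ((h 2 4).1 (by decide))
    (e ▸ (h 3 4).2 (by decide) (by decide))
  have h0 : t 0 = t 1 := k _ _ ((h 0 1).1 (by decide))
    (h1 ▸ (h 0 2).2 (by decide) (by decide))
  fin_cases i <;> simp [h0, h1, ← h4, ← e]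

end Pool.Agent.P.MP_5aeb4a_al
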