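import Pool.Agent.P.MP_5aeb4a_al.KE
import Pool.Agent.P.MP_5aeb4a_al.Art

/-! The embedding of `A[D₅]` in the semidirect product of the free product with the braid group. -/

set_option autoImplicit false

namespace Pool.Agent.P.MP_5aeb4a_al

open SemidirectProduct

theorem al_ext {a b : MulAut K} (h : ∀ j, a (x j) = b (x j)) : a = b :=
  MulEquiv.toMonoidHom_injective (khom_ext h)

theorem rels_al : Rels edgesA al := fun i j =>
  ⟨fun e => al_ext (by revert i j; decide), fun e e' => al_ext (by revert i j; decide)⟩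

def act : B5 →* MulAut K := rels_al.lift

theorem act_σ (i : Fin 4) : act (σ i) = al i := rels_al.lift_of i

abbrev GG : Type := K ⋊[act] B5

theorem equiv_gen {H : Type} [Group H] (fN : K →* H) (fG : B5 →* H)
    (h : ∀ i j, fN (al i (x j)) = fG (σ i) * fN (x j) * (fG (σ i))⁻¹) (g : B5) :
    fN.comp (act g).toMonoidHom = (MulAut.conj (fG g)).toMonoidHom.comp fN := by
  let T : Subgroup B5 :=
    { carrier := {g | ∀ u, fN (act g u) = fG g * fN u * (fG g)⁻¹}
      one_mem' := by simp
      mul_mem' := fun {a b} ha hb u => by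
        rw [map_mul, MulAut.mul_apply, ha, hb]
        simp [mul_assoc]
      inv_mem' := fun {a} ha u => by
        have := ha (act a⁻¹ u)
        rw [map_inv, MulAut.apply_inv_self] at this
        rw [this]
        simp [mul_assoc] }
  have hT : g ∈ T := PresentedGroup.generated_by _ T (fun i u => by
    have := khom_ext (f := fN.comp (al i).toMonoidHom)
      (g := (MulAut.conj (fG (σ i))).toMonoidHom.comp fN) (h i)
    change fN (act (σ i) u) = _
    rw [act_σ]
    exact DFunLike.congr_fun this u) g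
  exact MonoidHom.ext hT

/-- The parity. -/
def par : GG →* ℤˣ := lift sg 1 (equiv_gen sg 1 fun i j => by simp [al_apply, sg_alh])

theorem par_inl (u : K) : par (inl u) = sg u := lift_inl _ _ _ _

theorem par_inr (b : B5) : par (inr b) = 1 := lift_inr _ _ _ _

def th : Fin 5 → GG := ![inr (σ 0), inr (σ 1), inr (σ 2), inr (σ 3), inl (x 4 * x 3) * inr (σ 3)]

theorem th_right (i : Fin 5) : (th i).right = σ (fold i) := by
  fin_cases i <;> simp [th, fold]

theorem rels_th : Rels edgesD th := by
  intro i j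
  refine ⟨fun e => SemidirectProduct.ext ?_ ?_, fun e e' => SemidirectProduct.ext ?_ ?_⟩
  · simp only [mul_left, th_right, act_σ]
    revert i j
    decide
  · simpa only [mul_right, th_right] using (rels_fold i j).1 e
  · simp only [mul_left, th_right, act_σ]
    revert i j
    decide
  · simpa only [mul_right, th_right] using (rels_fold i j).2 e e'

/-- The embedding. -/
def Th : AD →* GG := rels_th.lift

theorem Th_s (i : Fin 5) : Th (s i) = th i := rels_th.lift_of i

theorem Th_right (a : AD) : (Th a).right = proj a :=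
  DFunLike.congr_fun (aext (f := rightHom.comp Th) (g := proj) fun i => by
    simp [Th_s, th_right, proj_s]) a

theorem Th_inc (b : B5) : Th (inc b) = inr b :=
  DFunLike.congr_fun (bext (f := Th.comp inc) (g := inr) fun i => by
    rw [MonoidHom.comp_apply, inc_σ, Th_s]
    fin_cases i <;> rfl) b

theorem Th_z : Th z = inr zB := by rw [← inc_zB, Th_inc]

theorem par_Th (a : AD) : par (Th a) = 1 :=
  DFunLike.congr_fun (aext (f := par.comp Th) (g := 1) fun i => by
    rw [MonoidHom.comp_apply, Th_s]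
    fin_cases i <;> simp [th, par_inl, par_inr, sg_x]) a

/-- The generator of the centre of the semidirect product. -/
def cc : GG := inl p⁻¹ * inr zB

theorem act_zB : ∀ j, act zB (x j) = p * x j * p⁻¹ := by
  simp only [zB, map_pow, map_mul, act_σ]
  decide

theorem cc_comm (g : GG) : cc * g = g * cc := by
  have : (MulAut.conj cc).toMonoidHom = MonoidHom.id GG := by
    refine hom_ext (khom_ext fun j => ?_) (bext fun i => ?_)
    · refine SemidirectProduct.ext ?_ (by simp [cc])
      simp [cc, act_zB, mul_assoc]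
    · refine SemidirectProduct.ext ?_ (by simp [cc, ← σ_zB])
      simp [cc, ← σ_zB, act_σ, al_apply, alh_p]
  have h := DFunLike.congr_fun this g
  simpa [mul_inv_eq_iff_eq_mul] using h

theorem act_p (b : B5) : act b p = p := by
  have := congrArg SemidirectProduct.left (cc_comm (inr b))
  simpa [cc] using this.symm

theorem par_cc : par cc = -1 := by simp [cc, par_inl, par_inr, sg_p]

theorem Th_Dl : Th Dl = inl (x 4) * cc := by
  refine SemidirectProduct.ext ?_ (by simp [Th_right, proj_Dl, cc])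
  simp only [Dl, map_pow, map_mul, Th_s]
  decide

theorem Th_c : Th c = cc * cc := by
  rw [← Dl_sq, map_mul, Th_Dl, mul_assoc, ← mul_assoc cc, cc_comm (inl _), ← mul_assoc, ← mul_assoc,
    ← map_mul, x_mul_x, map_one, one_mul]

section inj

variable {H : Type} [Group H] {S : Fin 4 → H} {X : H}

def xs (S : Fin 4 → H) (X : H) : Lt → H :=
  ![S 0 * (S 1 * (S 2 * (S 3 * X * (S 3)⁻¹) * (S 2)⁻¹) * (S 1)⁻¹) * (S 0)⁻¹,
    S 1 * (S 2 * (S 3 * X * (S 3)⁻¹) * (S 2)⁻¹) * (S 1)⁻¹,
    S 2 * (S 3 * X * (S 3)⁻¹) * (S 2)⁻¹, S 3 * X * (S 3)⁻¹, X]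

theorem cj_comm {a b y : H} (h1 : Commute a b) (h2 : Commute a y) : Commute a (b * y * b⁻¹) :=
  (h1.mul_right h2).mul_right h1.inv_right

theorem cj_up {a b y : H} (h1 : a * b * a = b * a * b) (h2 : Commute a y) :
    Commute b (a * (b * y * b⁻¹) * a⁻¹) := by
  have e : b = (a * b) * a * (a * b)⁻¹ := by rw [h1]; group
  have e2 : a * (b * y * b⁻¹) * a⁻¹ = (a * b) * y * (a * b)⁻¹ := by group
  rw [e2]
  nth_rewrite 1 [e]
  exact h2.conj _

theorem cj_down {a b y : H} (h1 : a * b * a = b * a * b) (h2 : Commute a y)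
    (h3 : Commute b (y * b * y)) : Commute a ((b * y * b⁻¹) * a * (b * y * b⁻¹)) := by
  have e : a = (b * a) * b * (b * a)⁻¹ := by rw [← h1]; group
  have e1 : b * y * b⁻¹ = (b * a) * y * (b * a)⁻¹ := by rw [mul_assoc b a, h2.eq]; group
  have := h3.conj (b * a)
  rw [← conj_mul, ← conj_mul, ← e, ← e1] at this
  exact this

theorem cj_self {a y : H} (hy : y * y = 1) (h : Commute a (y * a * y)) :
    (a * y * a⁻¹) * y * (a * y * a⁻¹) = a * (a * y * a⁻¹) * a⁻¹ := by
  have e : y⁻¹ = y := inv_eq_of_mul_eq_one_right hy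
  have h2 := h.inv_right.eq
  simp only [mul_inv_rev, e] at h2
  have h3 : y * (a⁻¹ * (y * (a * y))) = a * (y * a⁻¹) := by
    have := congrArg (· * y) h2
    simp only [mul_assoc, hy, mul_one] at this
    exact this.symm
  calc _ = a * (y * (a⁻¹ * (y * (a * y)))) * a⁻¹ := by group
    _ = _ := by rw [h3]; group

theorem xs_sq (hX : X * X = 1) (j : Lt) : xs S X j * xs S X j = 1 := by
  fin_cases j <;> simp [xs, hX, conj_mul, -mul_inv_rev]

theorem xs_equiv (hS : Rels edgesA S) (hX : X * X = 1) (h0 : Commute (S 0) X) (h1 : Commute (S 1) X)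
    (h2 : Commute (S 2) X) (h3 : Commute (S 3) (X * S 3 * X)) (i : Fin 4) (j : Lt) :
    klift (xs S X) (xs_sq hX) (al i (x j)) = S i * xs S X j * (S i)⁻¹ := by
  have b01 := (hS 0 1).1 (by decide)
  have b12 := (hS 1 2).1 (by decide)
  have b23 := (hS 2 3).1 (by decide)
  have c02 : Commute (S 0) (S 2) := (hS 0 2).2 (by decide) (by decide)
  have c03 : Commute (S 0) (S 3) := (hS 0 3).2 (by decide) (by decide)
  have c13 : Commute (S 1) (S 3) := (hS 1 3).2 (by decide) (by decide)
  have a03 : Commute (S 0) (xs S X 3) := cj_comm c03 h0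
  have a13 : Commute (S 1) (xs S X 3) := cj_comm c13 h1
  have a02 : Commute (S 0) (xs S X 2) := cj_comm c02 a03
  have u32 : Commute (S 3) (xs S X 2) := cj_up b23 h2
  have u31 : Commute (S 3) (xs S X 1) := cj_comm c13.symm u32
  have u30 : Commute (S 3) (xs S X 0) := cj_comm c03.symm u31
  have u21 : Commute (S 2) (xs S X 1) := cj_up b12 a13
  have u20 : Commute (S 2) (xs S X 0) := cj_comm c02.symm u21
  have u10 : Commute (S 1) (xs S X 0) := cj_up b01 a02
  have d2 : Commute (S 2) (xs S X 3 * S 2 * xs S X 3) := cj_down b23 h2 h3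
  have d1 : Commute (S 1) (xs S X 2 * S 1 * xs S X 2) := cj_down b12 a13 d2
  have d0 : Commute (S 0) (xs S X 1 * S 0 * xs S X 1) := cj_down b01 a02 d1
  have st : ∀ i : Fin 4, xs S X i.castSucc = S i * xs S X i.succ * (S i)⁻¹ := fun i => by
    fin_cases i <;> rfl
  rw [al_apply, alh_x, alf]
  split_ifs with e1 e2
  · rw [map_mul, map_mul, klift_x, klift_x, e1, st]
    refine cj_self (xs_sq hX _) ?_
    fin_cases i
    exacts [d0, d1, d2, h3]
  · rw [klift_x, e2, st]
  · rw [klift_x, eq_mul_inv_iff_mul_eq]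
    refine (Commute.eq ?_).symm
    fin_cases i <;> fin_cases j <;> first | assumption | exact absurd rfl e1 | exact absurd rfl e2

end inj

abbrev HH : Type := AD ⋊[MonoidHom.id (MulAut AD)] MulAut AD

theorem zeta_conj (a : AD) : (inr zeta * inl a * inr zeta : HH) = inl (zeta a) := by
  refine SemidirectProduct.ext (by simp) (by simp [zeta_sq])

theorem zeta_comm {a : AD} (h : zeta a = a) : Commute (inl a : HH) (inr zeta) :=
  SemidirectProduct.ext (by simp [h]) (by simp)

theorem zeta_inv : (inr zeta * inr zeta : HH) = 1 := by rw [← map_mul, zeta_sq, map_one]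

def La : GG →* HH :=
  lift (klift (xs (fun i => inl (inc (σ i))) (inr zeta)) (xs_sq zeta_inv)) (inl.comp inc)
    (equiv_gen _ _ fun i j => by
      rw [klift_x]
      refine xs_equiv ((rels_σ.map inc).map inl) zeta_inv (zeta_comm ?_) (zeta_comm ?_)
        (zeta_comm ?_) ?_ i j
      · rw [inc_σ, zeta_s]; rfl
      · rw [inc_σ, zeta_s]; rfl
      · rw [inc_σ, zeta_s]; rfl
      · rw [zeta_conj, inc_σ, zeta_s]
        exact Commute.map ((rels_s 3 4).2 (by decide) (by decide)) inl)

theorem th_four : th 4 = inl (x 4) * inr (σ 3) * inl (x 4) :=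
  SemidirectProduct.ext (by decide) (by simp [th])

theorem Th_inj : Function.Injective Th := by
  have : La.comp Th = inl := aext fun i => by
    rw [MonoidHom.comp_apply, Th_s]
    have k : ∀ i : Fin 4, La (inr (σ i)) = inl (s i.castSucc) := fun i => by
      rw [La, lift_inr, MonoidHom.comp_apply, inc_σ]
    fin_cases i
    · exact k 0
    · exact k 1
    · exact k 2
    · exact k 3
    · have e : La (inl (x 4)) = inr zeta := by
        rw [La, lift_inl, klift_x]
        rfl
      change La (th 4) = inl (s 4)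
      rw [th_four, map_mul, map_mul, e, k, zeta_conj, zeta_s]
      rfl
  intro a b h
  apply (inl_injective : Function.Injective (inl : AD → HH))
  rw [← this, MonoidHom.comp_apply, h]
  rfl

theorem conj_by_Th (g : GG) : ∃ h : AD, ∀ y, g * y * g⁻¹ = Th h * y * (Th h)⁻¹ := by
  have mul : ∀ a b : GG, (∃ h : AD, ∀ y, a * y * a⁻¹ = Th h * y * (Th h)⁻¹) →
      (∃ h : AD, ∀ y, b * y * b⁻¹ = Th h * y * (Th h)⁻¹) →
      ∃ h : AD, ∀ y, a * b * y * (a * b)⁻¹ = Th h * y * (Th h)⁻¹ := by
    rintro a b ⟨h, ha⟩ ⟨k, hb⟩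
    refine ⟨h * k, fun y => ?_⟩
    have := ha (b * y * b⁻¹)
    nth_rewrite 2 [hb] at this
    simpa [mul_assoc] using this
  have h4 : ∀ j, ∃ b : B5, x j = act b (x 4) := fun j => by
    fin_cases j
    · exact ⟨σ 0 * σ 1 * σ 2 * σ 3, by decide⟩
    · exact ⟨σ 1 * σ 2 * σ 3, by decide⟩
    · exact ⟨σ 2 * σ 3, by decide⟩
    · exact ⟨σ 3, by decide⟩
    · exact ⟨1, by decide⟩
  have hr : ∀ b : B5, ∃ h : AD, ∀ y, inr b * y * (inr b)⁻¹ = Th h * y * (Th h)⁻¹ := fun b =>
    ⟨inc b, fun y => by rw [Th_inc]⟩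
  rw [← inl_left_mul_inr_right g]
  refine mul _ _ ?_ (hr _)
  induction g.left using K.ind with
  | h1 => exact ⟨1, by simp⟩
  | hx i u ih =>
    rw [map_mul]
    refine mul _ _ ?_ ih
    obtain ⟨b, hb⟩ := h4 i
    rw [hb, inl_aut]
    refine mul _ _ (mul _ _ (hr _) ⟨Dl, fun y => ?_⟩) (hr _)
    rw [Th_Dl, mul_assoc _ cc, cc_comm]
    group

theorem Dl_s (i : Fin 5) : Dl * s i = s (sw i) * Dl := by
  apply Th_inj
  rw [map_mul, map_mul, Th_Dl, Th_s, Th_s, mul_assoc, cc_comm, ← mul_assoc, ← mul_assoc]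
  congr 1
  refine SemidirectProduct.ext ?_ ?_
  · revert i
    decide
  · fin_cases i <;> simp [th_right, fold, sw]

theorem c_comm (a : AD) : c * a = a * c := by
  apply Th_inj
  rw [map_mul, map_mul, Th_c, mul_assoc, cc_comm, ← mul_assoc, cc_comm, mul_assoc]

theorem z_comm (i : Fin 4) : s i.castSucc * z = z * s i.castSucc := by
  rw [← inc_zB, ← inc_σ, ← map_mul, σ_zB, map_mul]

end Pool.Agent.P.MP_5aeb4a_al
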