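import Pool.Agent.P.MP_5aeb4a_al.Art

/-! Wreath products, the permutation of a braid and crossing numbers. -/

set_option autoImplicit false

namespace Pool.Agent.P.MP_5aeb4a_al

abbrev S5 : Type := Equiv.Perm (Fin 5)

@[ext]
structure Wr (X M : Type) where
  π : S5
  μ : X → M

namespace Wr

variable {X M : Type} [MulAction S5 X] [Group M]

instance : Mul (Wr X M) := ⟨fun a b => ⟨a.π * b.π, fun j => a.μ (b.π • j) * b.μ j⟩⟩

instance : One (Wr X M) := ⟨⟨1, fun _ => 1⟩⟩

instance : Inv (Wr X M) := ⟨fun a => ⟨a.π⁻¹, fun j => (a.μ (a.π⁻¹ • j))⁻¹⟩⟩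

@[simp] theorem mul_π (a b : Wr X M) : (a * b).π = a.π * b.π := rfl

@[simp] theorem mul_μ (a b : Wr X M) (j : X) : (a * b).μ j = a.μ (b.π • j) * b.μ j := rfl

omit [MulAction S5 X] in
@[simp] theorem one_π : (1 : Wr X M).π = 1 := rfl

omit [MulAction S5 X] in
@[simp] theorem one_μ (j : X) : (1 : Wr X M).μ j = 1 := rfl

@[simp] theorem inv_π (a : Wr X M) : a⁻¹.π = a.π⁻¹ := rfl

@[simp] theorem inv_μ (a : Wr X M) (j : X) : a⁻¹.μ j = (a.μ (a.π⁻¹ • j))⁻¹ := rfl

instance : Group (Wr X M) :=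
  Group.ofLeftAxioms
    (fun a b c => Wr.ext (by simp [mul_assoc]) (funext fun j => by simp [mul_assoc, mul_smul]))
    (fun a => Wr.ext (by simp) (funext fun j => by simp))
    (fun a => Wr.ext (by simp) (funext fun j => by simp))

def πh : Wr X M →* S5 where
  toFun := Wr.π
  map_one' := rfl
  map_mul' _ _ := rfl

end Wr

def sp (i : Fin 4) : S5 := Equiv.swap i.castSucc i.succ

theorem rels_sp : Rels edgesA sp := fun i j =>
  ⟨fun e => by revert i j; decide, fun e e' => by revert i j; decide⟩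

/-- The permutation of a braid. -/
def pm : B5 →* S5 := rels_sp.lift

theorem pm_σ (i : Fin 4) : pm (σ i) = sp i := rels_sp.lift_of i

abbrev Zm : Type := Multiplicative ℤ

abbrev WL : Type := Wr (Fin 5 × Fin 5) Zm

def lkg (i : Fin 4) : WL :=
  ⟨sp i, fun q => Multiplicative.ofAdd
    (if q = (i.castSucc, i.succ) ∨ q = (i.succ, i.castSucc) then 1 else 0)⟩

instance : DecidableEq WL := fun a b =>
  decidable_of_iff (a.π = b.π ∧ ∀ q, a.μ q = b.μ q) (by rw [Wr.ext_iff, funext_iff])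

theorem rels_lkg : Rels edgesA lkg := by
  unfold Rels
  decide +kernel

/-- The crossing numbers of a braid. -/
def Lk : B5 →* WL := rels_lkg.lift

theorem Lk_σ (i : Fin 4) : Lk (σ i) = lkg i := rels_lkg.lift_of i

theorem Lk_π (g : B5) : (Lk g).π = pm g :=
  DFunLike.congr_fun (bext (f := Wr.πh.comp Lk) (g := pm) fun i => by
    rw [MonoidHom.comp_apply, Lk_σ, pm_σ]
    rfl) g

theorem conjP {a w w' : WL} (ha : a.π = 1) (h : w.π = w'.π) : w * a * w⁻¹ = w' * a * w'⁻¹ :=
  Wr.ext (by simp [h]) (funext fun q => by simp [ha, h, mul_comm])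

theorem commP {a w : WL} (ha : a.π = 1) (h : w * a = a * w) (q : Fin 5 × Fin 5) :
    a.μ (w.π • q) = a.μ q := by
  have := congrFun (congrArg Wr.μ h) q
  simp only [Wr.mul_μ, ha, one_smul] at this
  rw [mul_comm] at this
  exact (mul_right_cancel this).symm

theorem zpowP {a : WL} (ha : a.π = 1) (m : ℤ) :
    (a ^ m).π = 1 ∧ ∀ q, (a ^ m).μ q = a.μ q ^ m := by
  have h1 : ∀ m : ℤ, (a ^ m).π = 1 := fun m => by
    have := map_zpow (Wr.πh (X := Fin 5 × Fin 5) (M := Zm)) a m
    change (a ^ m).π = a.π ^ m at this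
    rw [this, ha, one_zpow]
  refine ⟨h1 m, fun q => ?_⟩
  induction m with
  | zero => simp
  | succ n ih => rw [zpow_add_one, zpow_add_one, Wr.mul_μ, ha, one_smul, ih]
  | pred n ih => rw [zpow_sub_one, zpow_sub_one, Wr.mul_μ, Wr.inv_μ, Wr.inv_π, ha]; simp only [inv_one, one_smul, ih]

theorem pm_surj : Function.Surjective pm := by
  intro π
  have h : π ∈ Submonoid.closure (Set.range fun i : Fin 4 => Equiv.swap i.castSucc i.succ) := by
    rw [Equiv.Perm.mclosure_swap_castSucc_succ]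
    trivial
  induction h using Submonoid.closure_induction with
  | mem a ha =>
    obtain ⟨i, rfl⟩ := ha
    exact ⟨σ i, pm_σ i⟩
  | one => exact ⟨1, map_one _⟩
  | mul a b _ _ ha hb =>
    obtain ⟨a, rfl⟩ := ha
    obtain ⟨b, rfl⟩ := hb
    exact ⟨a * b, map_mul _ _ _⟩

end Pool.Agent.P.MP_5aeb4a_al
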