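import Pool.Agent.P.MP_5aeb4a_al.FC
import Pool.Agent.P.MP_5aeb4a_al.Wr
import Pool.Agent.P.MP_5aeb4a_al.Sd

/-! Combing: the stabiliser of the last strand is a semidirect product. -/

set_option autoImplicit false

namespace Pool.Agent.P.MP_5aeb4a_al

open SemidirectProduct Fr

abbrev MM : Type := F ⋊[act4] B4

theorem rels_inc4 : Rels edges4 fun i => σ i.castSucc := fun i j =>
  ⟨fun e => (rels_σ _ _).1 (by revert i j; decide), fun e e' =>
    (rels_σ _ _).2 (by revert i j; decide) (by revert i j; decide)⟩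

def inc4 : B4 →* B5 := rels_inc4.lift

theorem inc4_τ (i : Fin 3) : inc4 (τ i) = σ i.castSucc := rels_inc4.lift_of i

theorem text {G : Type} [Group G] {f g : B4 →* G} (h : ∀ i, f (τ i) = g (τ i)) : f = g :=
  PresentedGroup.ext h

def Ys : Fin 4 → B5 :=
  ![σ 0 * (σ 1 * (σ 2 * (σ 3 * σ 3) * (σ 2)⁻¹) * (σ 1)⁻¹) * (σ 0)⁻¹,
    σ 1 * (σ 2 * (σ 3 * σ 3) * (σ 2)⁻¹) * (σ 1)⁻¹, σ 2 * (σ 3 * σ 3) * (σ 2)⁻¹, σ 3 * σ 3]

theorem cj_self2 {H : Type} [Group H] {a t : H} (h : Commute a (t * a * t)) :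
    (a * t * a⁻¹)⁻¹ * t * (a * t * a⁻¹) = a * (a * t * a⁻¹) * a⁻¹ := by
  calc _ = a * t⁻¹ * (a⁻¹ * (t * a * t)) * a⁻¹ := by group
    _ = _ := by rw [h.inv_left.eq]; group

theorem b2_rel : Commute (σ 2) (σ 3 * σ 3 * σ 2 * (σ 3 * σ 3)) := by
  have := rels_σ.steps [2, 0, 3, 1] (w := [2, 3, 3, 2, 3, 3]) (w' := [3, 3, 2, 3, 3, 2]) (by decide)
  simpa [Commute, SemiconjBy, mul_assoc] using this

theorem Ys_equiv (i : Fin 3) (j : Fin 4) :
    flift Ys (fa i (y j)) = σ i.castSucc * Ys j * (σ i.castSucc)⁻¹ := by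
  have hS := rels_σ
  have b01 := (hS 0 1).1 (by decide)
  have b12 := (hS 1 2).1 (by decide)
  have c02 : Commute (σ 0) (σ 2) := (hS 0 2).2 (by decide) (by decide)
  have c03 : Commute (σ 0) (σ 3) := (hS 0 3).2 (by decide) (by decide)
  have c13 : Commute (σ 1) (σ 3) := (hS 1 3).2 (by decide) (by decide)
  have a03 : Commute (σ 0) (Ys 3) := c03.mul_right c03
  have a13 : Commute (σ 1) (Ys 3) := c13.mul_right c13
  have a02 : Commute (σ 0) (Ys 2) := cj_comm c02 a03
  have u21 : Commute (σ 2) (Ys 1) := cj_up b12 a13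
  have u20 : Commute (σ 2) (Ys 0) := cj_comm c02.symm u21
  have u10 : Commute (σ 1) (Ys 0) := cj_up b01 a02
  have d2 : Commute (σ 2) (Ys 3 * σ 2 * Ys 3) := b2_rel
  have d1 : Commute (σ 1) (Ys 2 * σ 1 * Ys 2) := cj_down b12 a13 d2
  have d0 : Commute (σ 0) (Ys 1 * σ 0 * Ys 1) := cj_down b01 a02 d1
  have st : ∀ i : Fin 3, Ys i.castSucc = σ i.castSucc * Ys i.succ * (σ i.castSucc)⁻¹ := fun i => by
    fin_cases i <;> rfl
  rw [fa_apply, fh_y, faf]
  split_ifs with e1 e2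
  · rw [map_mul, map_mul, map_inv, flift_y, flift_y, e1, st]
    refine cj_self2 ?_
    fin_cases i
    exacts [d0, d1, d2]
  · rw [flift_y, e2, st]
  · rw [flift_y, eq_mul_inv_iff_mul_eq]
    refine (Commute.eq ?_).symm
    fin_cases i <;> fin_cases j <;> first | assumption | exact absurd rfl e1 | exact absurd rfl e2

def La5 : MM →* B5 :=
  lift (flift Ys) inc4 fun g => MonoidHom.ext (by
    change ∀ u, flift Ys (act4 g u) = inc4 g * flift Ys u * (inc4 g)⁻¹
    induction g using art_ind with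
    | h1 => simp
    | hm a b ha hb =>
      intro u
      rw [map_mul, MulAut.mul_apply, ha, hb]
      simp [mul_assoc]
    | hi a ha =>
      intro u
      have := ha (act4 a⁻¹ u)
      rw [map_inv, MulAut.apply_inv_self] at this
      rw [this]
      simp [mul_assoc]
    | hg i =>
      intro u
      have := fhom_ext (f := (flift Ys).comp (fa i).toMonoidHom)
        (g := (MulAut.conj (σ i.castSucc)).toMonoidHom.comp (flift Ys)) fun j => by
          simpa using Ys_equiv i j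
      change flift Ys (act4 (τ i) u) = inc4 (τ i) * _ * (inc4 (τ i))⁻¹
      rw [act4_τ, inc4_τ]
      exact DFunLike.congr_fun this u)

theorem La5_inr (b : B4) : La5 (inr b) = inc4 b := lift_inr _ _ _ _

theorem La5_y (j : Fin 4) : La5 (inl (y j)) = Ys j := by rw [La5, lift_inl, flift_y]

def cmL (i : Fin 4) (j : Fin 5) : F := if j = i.castSucc then y i else 1

def cmW : Fin 4 → Fin 5 → List (Fin 3) :=
  ![![[], [], [0], [0], [0]], ![[0], [], [], [1], [1]], ![[1], [1], [], [], [2]],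
    ![[2], [2], [2], [], []]]

def cmg (i : Fin 4) : Wr (Fin 5) MM := ⟨sp i, fun j => ⟨cmL i j, ((cmW i j).map τ).prod⟩⟩

theorem step_or {w w' : List (Fin 3)} (h : w = w' ∨ step edges4 0 w = w') :
    (w.map τ).prod = (w'.map τ).prod := by
  rcases h with rfl | rfl
  · rfl
  · exact (rels_τ.step 0 w).symm

theorem rels_cmg : Rels edgesA cmg := by
  intro i j
  refine ⟨fun e => Wr.ext ((rels_sp i j).1 e) (funext fun k => SemidirectProduct.ext ?_ ?_),
    fun e e' => Wr.ext ((rels_sp i j).2 e e') (funext fun k => SemidirectProduct.ext ?_ ?_)⟩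
  · revert i j k
    decide
  · simp only [Wr.mul_μ, mul_right, cmg, ← List.prod_append, ← List.map_append]
    refine step_or ?_
    revert i j k
    decide
  · revert i j k
    decide
  · simp only [Wr.mul_μ, mul_right, cmg, ← List.prod_append, ← List.map_append]
    refine step_or ?_
    revert i j k
    decide

def Ph : B5 →* Wr (Fin 5) MM := rels_cmg.lift

theorem Ph_σ (i : Fin 4) : Ph (σ i) = cmg i := rels_cmg.lift_of i

theorem Ph_π (g : B5) : (Ph g).π = pm g :=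
  DFunLike.congr_fun (bext (f := Wr.πh.comp Ph) (g := pm) fun i => by
    rw [MonoidHom.comp_apply, Ph_σ, pm_σ]
    rfl) g

def csW : Fin 5 → List (Fin 4) := ![[0, 1, 2, 3], [1, 2, 3], [2, 3], [3], []]

def cs (j : Fin 5) : B5 := ((csW j).map σ).prod

def stp : Fin 4 → Fin 5 → List ℕ :=
  ![![[], [], [0, 1], [0], []], ![[0, 2, 3], [], [], [0], []], ![[0, 1, 3], [0, 2], [], [], []],
    ![[0, 1, 2], [0, 1], [0], [], []]]

theorem key_gen (i : Fin 4) (j : Fin 5) : σ i * cs j = cs (sp i j) * La5 ((cmg i).μ j) := by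
  by_cases e : j = i.castSucc
  · subst e
    have e1 : (cmg i).μ i.castSucc = inl (y i) := by fin_cases i <;> rfl
    have e2 : sp i i.castSucc = i.succ := Equiv.swap_apply_left _ _
    rw [e1, e2, La5_y]
    fin_cases i
    · have := rels_σ.steps [4, 3, 1, 0, 5, 3, 2, 1, 5, 4, 3, 2] (w := [0, 0, 1, 2, 3, 0, 1, 2])
        (w' := [1, 2, 3, 0, 1, 2, 3, 3]) (by decide)
      simpa [cs, csW, Ys, ← mul_assoc, eq_mul_inv_iff_mul_eq] using this
    · have := rels_σ.steps [3, 1, 0, 3, 2, 1] (w := [1, 1, 2, 3, 1, 2])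
        (w' := [2, 3, 1, 2, 3, 3]) (by decide)
      simpa [cs, csW, Ys, ← mul_assoc, eq_mul_inv_iff_mul_eq] using this
    · have := rels_σ.steps [1, 0] (w := [2, 2, 3, 2]) (w' := [3, 2, 3, 3]) (by decide)
      simpa [cs, csW, Ys, ← mul_assoc, eq_mul_inv_iff_mul_eq] using this
    · simp [cs, csW, Ys]
  · have e1 : (cmg i).μ j = inr ((cmW i j).map τ).prod :=
      SemidirectProduct.ext (by simp [cmg, cmL, e]) rfl
    have e2 : ∀ w : List (Fin 3), inc4 (w.map τ).prod = ((w.map Fin.castSucc).map σ).prod := by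
      intro w
      rw [map_list_prod, List.map_map, List.map_map]
      congr 2
    rw [e1, La5_inr, e2, cs, cs, ← List.prod_append, ← List.map_append]
    refine Eq.trans ?_ (rels_σ.steps (stp i j) (w := i :: csW j) (by clear e1; revert i j; decide))
    simp

theorem key_all (g : B5) : ∀ j, g * cs j = cs (pm g j) * La5 ((Ph g).μ j) := by
  induction g using art_ind with
  | h1 => simp
  | hm a b ha hb =>
    intro j
    rw [mul_assoc, hb, ← mul_assoc, ha]
    simp [Ph_π, mul_assoc]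
  | hi a ha =>
    intro j
    have := ha ((pm a)⁻¹ j)
    rw [Equiv.Perm.inv_def, Equiv.apply_symm_apply, ← Equiv.Perm.inv_def] at this
    simp only [map_inv, Wr.inv_μ, Ph_π, Equiv.Perm.smul_def]
    rw [eq_mul_inv_iff_mul_eq, mul_assoc, ← this, inv_mul_cancel_left]
  | hg i =>
    intro j
    change σ i * _ = cs (pm (σ i) j) * La5 ((Ph (σ i)).μ j)
    rw [pm_σ, Ph_σ, key_gen]

theorem La5_surj {g : B5} (h : pm g 4 = 4) : La5 ((Ph g).μ 4) = g := by
  have := key_all g 4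
  rw [h] at this
  simpa [cs, csW] using this.symm

theorem La5_spec (m : MM) : pm (La5 m) 4 = 4 ∧ (Ph (La5 m)).μ 4 = m := by
  let T : Subgroup MM :=
    { carrier := {m | pm (La5 m) 4 = 4 ∧ (Ph (La5 m)).μ 4 = m}
      one_mem' := by simp
      mul_mem' := fun {a b} ha hb => by
        simp only [Set.mem_ofPred_eq, map_mul, Wr.mul_μ, Ph_π, Equiv.Perm.smul_def,
          Equiv.Perm.mul_apply, hb.1, ha.1, ha.2, hb.2, and_self]
      inv_mem' := fun {a} ha => by
        have e : (pm (La5 a))⁻¹ 4 = 4 := Equiv.Perm.inv_eq_iff_eq.2 ha.1.symm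
        simp only [Set.mem_ofPred_eq, map_inv, Wr.inv_μ, Ph_π, Equiv.Perm.smul_def, e, ha.2,
          and_self] }
  have h1 : ∀ b, (inr b : MM) ∈ T := fun b => by
    induction b using art_ind with
    | h1 => exact T.one_mem
    | hm a b ha hb => rw [map_mul]; exact T.mul_mem ha hb
    | hi a ha => rw [map_inv]; exact T.inv_mem ha
    | hg i =>
      change pm (La5 (inr (τ i))) 4 = 4 ∧ (Ph (La5 (inr (τ i)))).μ 4 = inr (τ i)
      rw [La5_inr, inc4_τ, pm_σ, Ph_σ]
      fin_cases i <;> exact ⟨by decide, SemidirectProduct.ext rfl (by simp [cmg, cmW])⟩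
  have h3 : (inl (y 3) : MM) ∈ T := by
    change pm (La5 (inl (y 3))) 4 = 4 ∧ (Ph (La5 (inl (y 3)))).μ 4 = inl (y 3)
    rw [La5_y]
    exact ⟨by decide, SemidirectProduct.ext (by decide) rfl⟩
  have h4 : ∀ j, (inl (y j) : MM) ∈ T := fun j => by
    have : ∃ b, y j = act4 b (y 3) := by
      fin_cases j
      · exact ⟨τ 0 * τ 1 * τ 2, by decide⟩
      · exact ⟨τ 1 * τ 2, by decide⟩
      · exact ⟨τ 2, by decide⟩
      · exact ⟨1, by decide⟩
    obtain ⟨b, hb⟩ := this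
    rw [hb, inl_aut]
    exact T.mul_mem (T.mul_mem (h1 _) h3) (h1 _)
  have h5 : ∀ u, (inl u : MM) ∈ T := fun u => by
    induction u using F.ind with
    | h1 => exact T.one_mem
    | hx a u ih =>
      rw [map_mul]
      refine T.mul_mem ?_ ih
      rcases x_cases a with e | e <;> rw [e]
      · exact h4 _
      · rw [map_inv]
        exact T.inv_mem (h4 _)
  have : m ∈ T := by
    rw [← inl_left_mul_inr_right m]
    exact T.mul_mem (h5 _) (h1 _)
  exact this

theorem La5_inj : Function.Injective La5 := fun a b h => by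
  rw [← (La5_spec a).2, h, (La5_spec b).2]

def z4 : B4 := (τ 0 * τ 1 * τ 2) ^ 4

theorem La5_zB : ∃ m, La5 m = zB ∧ m.right = z4 := by
  have h1 := La5_surj (g := σ 3 * σ 2 * σ 1 * σ 0 * σ 0 * σ 1 * σ 2 * σ 3) (by decide)
  refine ⟨(Ph (σ 3 * σ 2 * σ 1 * σ 0 * σ 0 * σ 1 * σ 2 * σ 3)).μ 4 * inr z4, ?_, ?_⟩
  · rw [map_mul, h1, La5_inr]
    have := rels_σ.steps [11, 10, 8, 7, 5, 4, 2, 1, 0, 8, 7, 5, 4, 2, 1, 5, 4, 2, 15, 14, 16, 17,
      15, 13, 12, 11, 13, 15, 17, 16, 14, 12, 10, 9, 8, 10, 12, 14, 13, 11, 9, 7, 6, 5, 7, 9, 11,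
      10, 8, 6, 4, 6, 8, 7]
      (w := [0, 1, 2, 3, 0, 1, 2, 3, 0, 1, 2, 3, 0, 1, 2, 3, 0, 1, 2, 3])
      (w' := [3, 2, 1, 0, 0, 1, 2, 3, 0, 1, 2, 0, 1, 2, 0, 1, 2, 0, 1, 2]) (by decide)
    simpa [zB, z4, pow_succ, mul_assoc, inc4_τ] using this.symm
  · rw [mul_right, right_inr]
    exact mul_eq_right.2 rfl

theorem Lk_inl (u : F) : (Lk (La5 (inl u))).π = 1 ∧ (Lk (La5 (inl u))).μ (3, 4) = ex 3 u ^ 2 ∧
    ∀ i j : Fin 4, (Lk (La5 (inl u))).μ (i.castSucc, j.castSucc) = 1 := by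
  have h1 : ∀ j, (Lk (Ys j)).π = 1 ∧ (Lk (Ys j)).μ (3, 4) = ex 3 (y j) ^ 2 ∧
      ∀ i k : Fin 4, (Lk (Ys j)).μ (i.castSucc, k.castSucc) = 1 := by decide +kernel
  induction u using F.ind with
  | h1 => simp
  | hx a u ih =>
    have := h1 a.1
    rcases x_cases a with e | e <;>
      simp [e, La5_y, this.1, this.2.1, this.2.2, ih.1, ih.2.1, ih.2.2, mul_pow]

end Pool.Agent.P.MP_5aeb4a_al
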