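import Pool.Agent.P.MP_5aeb4a_al.Sd

/-! Lifts of the projection to the semidirect product. -/

set_option autoImplicit false

namespace Pool.Agent.P.MP_5aeb4a_al

open SemidirectProduct

theorem eq_inl {g : GG} (h : g.right = 1) : g = inl g.left :=
  SemidirectProduct.ext rfl h

theorem comm_left {t : GG} {u v : K} {i : Fin 4} (ht : t.right = σ i) (h : t * inl u = inl v * t) :
    t.left * alh i u = v * t.left := by
  have := congrArg SemidirectProduct.left h
  simpa [ht, act_σ, al_apply] using this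

theorem fold_cs : ∀ i : Fin 4, fold i.castSucc = i := by decide

theorem core2 {ψ : AD →* GG} (hr : ∀ i, (ψ (s i)).right = σ (fold i)) {j : ℤ} (hj : j ≠ 0)
    (hv : (ψ z * cc⁻¹) ^ 5 = inl (p ^ j)) :
    (∃ a : ℤ, ∀ i, ψ (s i) = inl (p ^ a) * inr (σ (fold i))) ∨
      ∃ g : K, ∀ i, ψ (s i) = inl g * th i * (inl g)⁻¹ := by
  have hR : ∀ a, (ψ a).right = proj a := fun a =>
    DFunLike.congr_fun (aext (f := rightHom.comp ψ) (g := proj) fun i => by
      simp [hr, proj_s]) a
  have hc : ∀ a : AD, a * z = z * a → ψ a * inl (p ^ j) = inl (p ^ j) * ψ a := fun a ha => by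
    have h1 : Commute (ψ a) (ψ z) := Commute.map ha ψ
    have h2 : Commute (ψ a) cc := (cc_comm _).symm
    exact hv ▸ ((h1.mul_right h2.inv_right).pow_right 5).eq
  have h1 : ∀ i : Fin 4, ∃ a : ℤ, (ψ (s i.castSucc)).left = p ^ a := fun i => by
    have := comm_left ((hr _).trans (by rw [fold_cs])) (hc _ (z_comm i))
    rw [map_zpow, alh_p] at this
    exact cent hj (mul_inv_eq_iff_eq_mul.2 this)
  choose a ha using h1
  have h2 : ∀ i k : Fin 4, (i.castSucc, k.castSucc) ∈ edgesD → a i = a k := fun i k e => by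
    have := congrArg SemidirectProduct.left (((rels_s.map ψ) _ _).1 e)
    simp only [mul_left, ha, map_zpow, act_p, ← zpow_add] at this
    have h3 := p_zpow_eq_one (j := a i + a k + a i - (a k + a i + a k)) (by
      rw [zpow_sub, this, mul_inv_cancel])
    omega
  have h3 : ∀ i : Fin 4, (ψ (s i.castSucc)).left = p ^ a 0 := fun i => by
    have e1 := h2 0 1 (by decide)
    have e2 := h2 1 2 (by decide)
    have e3 := h2 2 3 (by decide)
    rw [ha]
    fin_cases i <;> simp [e1, e2, e3]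
  generalize a 0 = a at h3
  clear ha h2
  have h4 : ∀ i : Fin 4, ψ (s i.castSucc) = inl (p ^ a) * inr (σ i) := fun i =>
    SemidirectProduct.ext (by simp [h3, -map_zpow]) (by simp [hr, fold_cs, -map_zpow])
  obtain ⟨ρ, hρ⟩ : ∃ ρ : K, ψ Dl * cc⁻¹ = inl ρ :=
    ⟨_, eq_inl (by simp [hR, proj_Dl, cc])⟩
  have q1 : sg ρ = -1 := by
    rw [← par_inl, ← hρ, map_mul, map_inv, par_cc]
    have := (sign_hom (par.comp ψ)).2
    rw [MonoidHom.comp_apply] at this
    rw [this]
    rfl
  have ci : ∀ g : GG, cc⁻¹ * g = g * cc⁻¹ := fun g => (Commute.inv_left (cc_comm g)).eq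
  have q2 : ∀ i, inl ρ * ψ (s i) = ψ (s (sw i)) * inl ρ := fun i => by
    rw [← hρ, mul_assoc, ci, ← mul_assoc, ← map_mul, Dl_s, map_mul, mul_assoc]
  have q3 : ρ * ρ * p ^ j * (ρ * ρ)⁻¹ = p ^ j := by
    have e : (inl (ρ * ρ) : GG) = ψ c * (cc⁻¹ * cc⁻¹) := by
      rw [map_mul, ← hρ, ← Dl_sq, map_mul, mul_assoc, ← mul_assoc cc⁻¹, ci (ψ Dl)]
      simp only [mul_assoc]
    rw [mul_inv_eq_iff_eq_mul]
    apply (inl_injective : Function.Injective (inl : K → GG))
    rw [map_mul _ _ (p ^ j), map_mul _ (p ^ j), e, ← mul_assoc (inl _), ← hc c (c_comm z)]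
    simp only [mul_assoc, ci]
  obtain ⟨m, hm⟩ := cent hj q3
  by_cases m0 : m ≠ 0
  · obtain ⟨b, hb⟩ := cent (g := ρ) m0 (by rw [← hm]; simp [mul_assoc])
    refine Or.inl ⟨a, fun i => ?_⟩
    have e := q2 3
    have e2 : inl ρ * ψ (s 3) = ψ (s 3) * inl ρ := by
      rw [show (3 : Fin 5) = (3 : Fin 4).castSucc from rfl, h4, hb]
      refine SemidirectProduct.ext ?_ (by simp [-map_zpow])
      simp only [mul_left, mul_right, left_inl, right_inl, left_inr, right_inr, map_one, one_mul,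
        mul_one, MulAut.one_apply]
      rw [map_zpow, act_p, ← zpow_add, ← zpow_add, add_comm]
    have e3 : ψ (s 4) = ψ (s 3) := mul_right_cancel (e.symm.trans e2)
    fin_cases i
    exacts [h4 0, h4 1, h4 2, h4 3, e3.trans (h4 3)]
  rw [not_not.1 m0, zpow_zero] at hm
  obtain ⟨g, k, hg⟩ := invol hm (fun h => by
    rw [h, map_one] at q1
    exact absurd q1 (by decide))
  have q4 : ∀ i : Fin 4, i ≠ 3 → p ^ a * alh i ρ = ρ * p ^ a := fun i hi => by
    have e : sw i.castSucc = i.castSucc := by revert i; decide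
    have := q2 i.castSucc
    rw [e] at this
    rw [← h3 i]
    exact comm_left ((hr _).trans (by rw [fold_cs])) this.symm
  have q5 : ∀ i : Fin 4, i ≠ 3 →
      (g⁻¹ * p ^ a * alh i g) * alh i (x k) * (g⁻¹ * p ^ a * alh i g)⁻¹ = x k := fun i hi => by
    have := congrArg (fun t => g⁻¹ * t * (p ^ a)⁻¹ * g) (q4 i hi)
    simpa [hg, mul_assoc] using this
  have q6 : k = 4 := by
    have := fun i hi => cls (isConj_iff.2 ⟨_, q5 i hi⟩)
    have key : ∀ k : Lt, (∀ i : Fin 4, i ≠ 3 → k ≠ i.castSucc ∧ k ≠ i.succ) → k = 4 := by decide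
    exact key k this
  subst q6
  have q7 : ∀ i : Fin 4, i ≠ 3 → (g⁻¹ * p ^ a * alh i g = 1 ∧ sg (p ^ a) = 1) ∨
      (g⁻¹ * p ^ a * alh i g = x 4 ∧ sg (p ^ a) = -1) := fun i hi => by
    have e : alh i (x 4) = x 4 := by revert i; decide
    have e2 : sg (g⁻¹ * p ^ a * alh i g) = sg (p ^ a) := by
      rw [map_mul, map_mul, sg_alh, map_inv, mul_right_comm, inv_mul_cancel, one_mul]
    have := q5 i hi
    rw [e] at this
    rcases comm_x this with h | h
    · exact Or.inl ⟨h, by rw [← e2, h, map_one]⟩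
    · exact Or.inr ⟨h, by rw [← e2, h, sg_x]⟩
  have q8 : ∀ i : Fin 4, i ≠ 3 → alh i g = alh 0 g := fun i hi => by
    apply mul_left_cancel (a := g⁻¹ * p ^ a)
    rcases q7 i hi with h | h <;> rcases q7 0 (by decide) with h' | h'
    · rw [h.1, h'.1]
    · exact absurd (h.2.symm.trans h'.2) (by decide)
    · exact absurd (h.2.symm.trans h'.2) (by decide)
    · rw [h.1, h'.1]
  have q9 : alh 0 g = g := fix2 (q8 2 (by decide)).symm
  have a0 : a = 0 := by
    have : p ^ (a + a) = 1 := by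
      have e : p ^ (a + a) = g * ((g⁻¹ * p ^ a * g) * (g⁻¹ * p ^ a * g)) * g⁻¹ := by
        rw [zpow_add]
        group
      rcases q7 0 (by decide) with h | h <;> rw [q9] at h <;> rw [e, h.1] <;> simp
    have := p_zpow_eq_one this
    omega
  subst a0
  simp only [zpow_zero, map_one, one_mul] at h4
  have t4 : ψ (s 4) = inl ρ * inr (σ 3) * inl ρ := by
    have := q2 3
    rw [show (3 : Fin 5) = (3 : Fin 4).castSucc from rfl, h4] at this
    rw [this, mul_assoc, ← map_mul, hm, map_one, mul_one]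
    rfl
  have q10 : alh 3 (ρ * alh 3 ρ) = ρ * alh 3 ρ := by
    have := congrArg SemidirectProduct.left (((rels_s.map ψ) 3 4).2 (by decide) (by decide))
    beta_reduce at this
    rw [show (3 : Fin 5) = (3 : Fin 4).castSucc from rfl, h4, t4] at this
    simpa [act_σ, al_apply] using this
  rw [hg] at q10
  obtain ⟨g', e1, e2⟩ := lem4 g q10
  have q11 : ∀ i, alh i g' = g' := fun i => by
    by_cases hi : i = 3
    · rw [hi, e2]
    have e : alh i (x 4) = x 4 := by revert i; decide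
    have e3 : alh i g = g := (q8 i hi).trans q9
    rcases comm_x (g := g⁻¹ * g') (j := 4) (by
      have := congrArg (fun t => g⁻¹ * t * g) e1
      simpa [mul_assoc] using this.symm) with h | h
    · rw [← inv_mul_eq_one.1 h, e3]
    · rw [inv_mul_eq_iff_eq_mul.1 h, map_mul, e3, e]
  have q12 : ∀ i, (inr (σ i) : GG) = inl g' * inr (σ i) * (inl g')⁻¹ := fun i =>
    SemidirectProduct.ext (by simp [act_σ, al_apply, q11]) (by simp)
  refine Or.inr ⟨g', fun i => ?_⟩
  fin_cases i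
  · exact (h4 0).trans (q12 0)
  · exact (h4 1).trans (q12 1)
  · exact (h4 2).trans (q12 2)
  · exact (h4 3).trans (q12 3)
  · change ψ (s 4) = inl g' * th 4 * (inl g')⁻¹
    rw [t4, th_four, hg, e1]
    nth_rewrite 1 [q12 3]
    simp [mul_assoc]

theorem core {ψ : AD →* GG} (hr : ∀ i, (ψ (s i)).right = σ (fold i)) :
    (∃ (g : GG) (a : ℤ), ∀ i, ψ (s i) = g * (inl (p ^ a) * inr (σ (fold i))) * g⁻¹) ∨
      ∃ g : GG, ∀ i, ψ (s i) = g * th i * g⁻¹ := by
  have hR : ∀ a, (ψ a).right = proj a := fun a =>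
    DFunLike.congr_fun (aext (f := rightHom.comp ψ) (g := proj) fun i => by
      simp [hr, proj_s]) a
  obtain ⟨v, hv⟩ : ∃ v : K, ψ z * cc⁻¹ = inl v := ⟨_, eq_inl (by simp [hR, proj_z, cc])⟩
  have q1 : sg v = -1 := by
    rw [← par_inl, ← hv, map_mul, map_inv, par_cc]
    have := (sign_hom (par.comp ψ)).1
    rw [MonoidHom.comp_apply] at this
    rw [this]
    rfl
  have q2 : Inv v := fun i => by
    have h1 : Commute (ψ (s i.castSucc)) (ψ z) := Commute.map (z_comm i) ψ
    have h2 : Commute (ψ (s i.castSucc)) cc := (cc_comm _).symm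
    have h3 := (h1.mul_right h2.inv_right).eq
    rw [hv] at h3
    exact isConj_iff.2 ⟨_, mul_inv_eq_iff_eq_mul.2 (comm_left ((hr _).trans (by rw [fold_cs])) h3)⟩
  obtain ⟨g, j, hj, hg⟩ := lemA q2 (fun h => by
    rw [h, map_one] at q1
    exact absurd q1 (by decide))
  have key := core2 (ψ := (MulAut.conj (inl g)).toMonoidHom.comp ψ) (fun i => by simp [hr]) hj (by
    have ci : cc⁻¹ * (inl g)⁻¹ = (inl g)⁻¹ * cc⁻¹ := (Commute.inv_left (cc_comm _)).eq
    have : (inl g * ψ z * (inl g)⁻¹ * cc⁻¹ : GG) = inl (g * v * g⁻¹) := by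
      rw [map_mul, map_mul, ← hv, map_inv, mul_assoc, ← ci]
      simp only [mul_assoc]
    rw [← hg, ← conj_pow, map_pow, ← this]
    rfl)
  simp only [MonoidHom.comp_apply, MulEquiv.coe_toMonoidHom, MulAut.conj_apply] at key
  rcases key with ⟨a, h⟩ | ⟨k, h⟩
  · exact Or.inl ⟨(inl g)⁻¹, a, fun i => by rw [← h]; group⟩
  · refine Or.inr ⟨(inl g)⁻¹ * inl k, fun i => ?_⟩
    have := congrArg (fun t => (inl g)⁻¹ * t * inl g) (h i)
    simpa [mul_assoc] using this

end Pool.Agent.P.MP_5aeb4a_al
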