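import Mathlib

/-! Artin groups of type `D₅` and `A₄`. -/

set_option autoImplicit false

namespace Pool.Agent.P.MP_5aeb4a_al

/-- The relators of the Artin group of the graph whose edges are the pairs `(i, j)` in `E`:
`i j i = j i j` for an edge, `i j = j i` otherwise. -/
def artinRels {n : ℕ} (E : List (Fin n × Fin n)) : Set (FreeGroup (Fin n)) :=
  {w | ∃ i j, ((i, j) ∈ E ∧ w = FreeGroup.of i * FreeGroup.of j * FreeGroup.of i *
      (FreeGroup.of j * FreeGroup.of i * FreeGroup.of j)⁻¹) ∨
    ((i, j) ∉ E ∧ (j, i) ∉ E ∧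
      w = FreeGroup.of i * FreeGroup.of j * (FreeGroup.of j * FreeGroup.of i)⁻¹)}

/-- The Artin group of the graph. -/
abbrev Artin {n : ℕ} (E : List (Fin n × Fin n)) : Type := PresentedGroup (artinRels E)

/-- The edges of the Coxeter graph `D₅` on the vertices `0, …, 4`. -/
def edgesD : List (Fin 5 × Fin 5) := [(0, 1), (1, 2), (2, 3), (2, 4)]

/-- The edges of the Coxeter graph `A₄` on the vertices `0, …, 3`. -/
def edgesA : List (Fin 4 × Fin 4) := [(0, 1), (1, 2), (2, 3)]

/-- The Artin group `A[D₅]`. -/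
abbrev AD : Type := Artin edgesD

/-- The braid group on five strands. -/
abbrev B5 : Type := Artin edgesA

/-- The standard generators of `A[D₅]`. -/
def s (i : Fin 5) : AD := PresentedGroup.of i

/-- The standard generators of the braid group. -/
def σ (i : Fin 4) : B5 := PresentedGroup.of i

/-- The family `f` satisfies the Artin relations of `E`. -/
def Rels {n : ℕ} (E : List (Fin n × Fin n)) {G : Type} [Group G] (f : Fin n → G) : Prop :=
  ∀ i j, ((i, j) ∈ E → f i * f j * f i = f j * f i * f j) ∧
    ((i, j) ∉ E → (j, i) ∉ E → f i * f j = f j * f i)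

theorem Rels.lift_eq {n : ℕ} {E : List (Fin n × Fin n)} {G : Type} [Group G] {f : Fin n → G}
    (h : Rels E f) : ∀ w ∈ artinRels E, FreeGroup.lift f w = 1 := by
  rintro w ⟨i, j, ⟨e, rfl⟩ | ⟨e, e', rfl⟩⟩
  · simp only [map_mul, map_inv, FreeGroup.lift_apply_of, (h i j).1 e, mul_inv_cancel]
  · simp only [map_mul, map_inv, FreeGroup.lift_apply_of, (h i j).2 e e', mul_inv_cancel]

theorem rels_of {n : ℕ} (E : List (Fin n × Fin n)) :
    Rels E (PresentedGroup.of : Fin n → Artin E) := fun i j =>
  ⟨fun e => by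
    have := PresentedGroup.one_of_mem (rels := artinRels E) ⟨i, j, Or.inl ⟨e, rfl⟩⟩
    simp only [map_mul, map_inv, mul_inv_eq_one] at this
    exact this, fun e e' => by
    have := PresentedGroup.one_of_mem (rels := artinRels E) ⟨i, j, Or.inr ⟨e, e', rfl⟩⟩
    simp only [map_mul, map_inv, mul_inv_eq_one] at this
    exact this⟩

/-- The folding of the vertices: `0, 1, 2, 3, 4 ↦ 0, 1, 2, 3, 3`. -/
def fold : Fin 5 → Fin 4 := ![0, 1, 2, 3, 3]

theorem rels_fold : Rels edgesD fun i => σ (fold i) := fun i j =>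
  ⟨fun e => (rels_of edgesA _ _).1 (by revert i j; decide), fun e e' =>
    (rels_of edgesA _ _).2 (by revert i j; decide) (by revert i j; decide)⟩

/-- The projection `A[D₅] → B₅` sending `s i` to `σ (fold i)`. -/
def proj : AD →* B5 := PresentedGroup.toGroup rels_fold.lift_eq

/-- The generator of the centre of the braid group. -/
def zB : B5 := (σ 0 * σ 1 * σ 2 * σ 3) ^ 5

/-- The generator of the centre of the parabolic subgroup generated by `s 0, …, s 3`. -/
def z : AD := (s 0 * s 1 * s 2 * s 3) ^ 5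

/-- The generator of the centre of `A[D₅]`. -/
def c : AD := (s 0 * s 1 * s 2 * s 3 * s 4) ^ 8

end Pool.Agent.P.MP_5aeb4a_al
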