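import Pool.Agent.P.MP_5aeb4a_al.K3

/-! Elements whose blocks of one kind are powers of a fixed element; twists. -/

set_option autoImplicit false

namespace Pool.Agent.P.MP_5aeb4a_al

open Subgroup

variable {β : Lt → Lt} {k : Lt} {l u v s d h g : K}

/-- All blocks of kind `k` are powers of `l`. -/
inductive InP (β : Lt → Lt) (k : Lt) (l : K) : K → Prop
  | one : InP β k l 1
  | step (j : Lt) (s d : K) : s ≠ 1 → In β j s → hb β d ≠ some j → (j = k → s ∈ zpowers l) →
      InP β k l d → InP β k l (s * d)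

theorem InP.blk {j : Lt} (hu : InP β k l u) (hg : In β j g) (hc : j = k → g ∈ zpowers l) :
    InP β k l (g * u) := by
  by_cases g1 : g = 1
  · rwa [g1, one_mul]
  cases hu with
  | one => exact InP.step j g 1 g1 hg (by simp [hb_one]) hc InP.one
  | step i s d s1 hs hd hs' hp =>
    by_cases e : j = i
    · subst e
      rw [← mul_assoc]
      by_cases e2 : g * s = 1
      · rwa [e2, one_mul]
      · exact InP.step j _ d e2 (hg.mul hs) hd (fun e => mul_mem (hc e) (hs' e)) hp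
    · refine InP.step j g _ g1 hg ?_ hc (InP.step i s d s1 hs hd hs' hp)
      rw [hs.hb_cat s1 hd]
      exact fun e2 => e (Option.some.inj e2).symm

theorem InP.mul (hu : InP β k l u) (hv : InP β k l v) : InP β k l (u * v) := by
  induction hu with
  | one => rwa [one_mul]
  | step j s d _ hs _ hs' _ ih => rw [mul_assoc]; exact ih.blk hs hs'

theorem inP_blk {j : Lt} (hg : In β j g) (hc : j = k → g ∈ zpowers l) : InP β k l g := by
  simpa using InP.one.blk hg hc

theorem InP.inv (hu : InP β k l u) : InP β k l u⁻¹ := by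
  induction hu with
  | one => simpa using InP.one
  | step j s d _ hs _ hs' _ ih =>
    rw [mul_inv_rev]
    exact ih.mul (inP_blk hs.inv fun e => inv_mem (hs' e))

theorem InP.zpow (hu : InP β k l u) (n : ℤ) : InP β k l (u ^ n) := by
  induction n with
  | zero => simpa using InP.one
  | succ n ih => rw [zpow_add_one]; exact ih.mul hu
  | pred n ih => rw [zpow_sub_one]; exact ih.mul hu.inv

theorem In.zpow (hu : In β k u) (n : ℤ) : In β k (u ^ n) := by
  induction n with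
  | zero => simpa using in_one
  | succ n ih => rw [zpow_add_one]; exact ih.mul hu
  | pred n ih => rw [zpow_sub_one]; exact ih.mul hu.inv

theorem In.of_mem (hl : In β k l) (hs : s ∈ zpowers l) : In β k s := by
  obtain ⟨n, rfl⟩ := mem_zpowers_iff.1 hs
  exact hl.zpow n

theorem inP_x {j : Lt} (hj : β j ≠ k) : InP β k l (x j) := inP_blk (in_x j) fun e => absurd e hj

theorem InP.fix {θ : K →* K} (h1 : θ l = l) (h2 : ∀ j, β j ≠ k → θ (x j) = x j)
    (hu : InP β k l u) : θ u = u := by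
  induction hu with
  | one => exact map_one θ
  | step j s d _ hs _ hs' _ ih =>
    rw [map_mul, ih]
    congr 1
    by_cases e : j = k
    · obtain ⟨n, rfl⟩ := mem_zpowers_iff.1 (hs' e)
      rw [map_zpow, h1]
    · exact hom_eq_of_letters (g := MonoidHom.id K) fun i hi => h2 i (hs i hi ▸ e)

theorem decP (β : Lt → Lt) (k : Lt) (l u : K) : InP β k l u ∨ ∃ q s d, InP β k l q ∧ In β k s ∧
    s ∉ zpowers l ∧ hb β d ≠ some k ∧ u = q * (s * d) := by
  induction u using block_ind β with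
  | h1 => exact Or.inl InP.one
  | hs j s d s1 hs hd ih =>
    by_cases e : j = k → s ∈ zpowers l
    · rcases ih with ih | ⟨q, t, f, h1, h2, h3, h4, rfl⟩
      · exact Or.inl (ih.blk hs e)
      · exact Or.inr ⟨s * q, t, f, h1.blk hs e, h2, h3, h4, (mul_assoc _ _ _).symm⟩
    · push Not at e
      obtain ⟨rfl, e⟩ := e
      exact Or.inr ⟨1, s, d, InP.one, hs, e, hd, (one_mul _).symm⟩

theorem InP.split (hh : InP β k l h) :
    ∃ c e, c ∈ zpowers l ∧ InP β k l e ∧ hb β e ≠ some k ∧ h = c * e := by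
  cases hh with
  | one => exact ⟨1, 1, one_mem _, InP.one, by simp [hb_one], by simp⟩
  | step j s d s1 hs hd hs' hp =>
    by_cases e : j = k
    · exact ⟨s, d, hs' e, hp, e ▸ hd, rfl⟩
    · refine ⟨1, s * d, one_mem _, InP.step j s d s1 hs hd hs' hp, ?_, by simp⟩
      rw [hs.hb_cat s1 hd]
      simpa using e

theorem InP.hb_bad (hh : InP β k l h) (hs : In β k s) (hs' : s ∉ zpowers l)
    (hd : hb β d ≠ some k) (h1 : h ≠ 1) : hb β (h * (s * d)) = hb β h := by
  induction hh with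
  | one => exact absurd rfl h1
  | step j t f t1 ht hf ht' hp ih =>
    rw [ht.hb_cat t1 hf, mul_assoc]
    by_cases f1 : f = 1
    · rw [f1, one_mul]
      by_cases e : j = k
      · subst e
        rw [← mul_assoc]
        refine (ht.mul hs).hb_cat (fun e => hs' ?_) hd
        rw [← inv_eq_of_mul_eq_one_right e]
        exact inv_mem (ht' rfl)
      · refine ht.hb_cat t1 ?_
        rw [hs.hb_cat (fun e => hs' (e ▸ one_mem _)) hd]
        exact fun e2 => e (Option.some.inj e2).symm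
    · exact ht.hb_cat t1 (by rwa [ih f1])

theorem InP.head (hh : InP β k l h) (hs : In β k s) (hs' : s ∉ zpowers l)
    (hd : hb β d ≠ some k) :
    h ∈ zpowers l ∨ ∃ c e, c ∈ zpowers l ∧ hb β e ≠ some k ∧ h * (s * d) = c * e := by
  obtain ⟨c, e, hc, he, he', rfl⟩ := hh.split
  by_cases e1 : e = 1
  · exact Or.inl (by rwa [e1, mul_one])
  · exact Or.inr ⟨c, e * (s * d), hc, by rwa [he.hb_bad hs hs' hd e1], mul_assoc _ _ _⟩

theorem hb_mul_P (hl : In β k l) (hd : ¬ InP β k l d) (hh : InP β k l h) :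
    hb β (d * h) = hb β d := by
  rcases decP β k l d⁻¹ with e | ⟨q, s, e, h1, h2, h3, h4, h5⟩
  · exact absurd (by simpa using e.inv) hd
  have key : ∀ q, InP β k l q → hb β (e⁻¹ * (s⁻¹ * q)) = if e = 1 then some k else hb β e⁻¹ := by
    intro q hq
    obtain ⟨c, f, hc, -, hf, rfl⟩ := hq.split
    have h6 : hb β (s⁻¹ * (c * f)) = some k := by
      rw [← mul_assoc]
      refine (h2.inv.mul (hl.of_mem hc)).hb_cat (fun e => h3 ?_) hf
      rwa [inv_mul_eq_one.1 e]
    split_ifs with e1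
    · rwa [e1, inv_one, one_mul]
    · refine hb_mul (inv_ne_one.2 e1) fun k' hk' => ?_
      rw [h6]
      rintro ⟨rfl⟩
      exact h4 (by simpa using hk')
  have e2 : d = e⁻¹ * (s⁻¹ * q⁻¹) := by rw [← inv_inv d, h5]; simp [mul_assoc]
  rw [e2, key _ h1.inv, mul_assoc, mul_assoc, key _ (h1.inv.mul hh)]

/-- The block lemma. -/
theorem blk_lem {θ : K →* K} {h' y : K} (hl : In β k l) (R : Resp β θ)
    (hθ : ∀ u, InP β k l u → θ u = u) (hh : InP β k l h) (hh' : InP β k l h')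
    (e : h * θ y = y * h') (hy : ¬ InP β k l y) :
    ∃ q s c, In β k s ∧ s ∉ zpowers l ∧ c ∈ zpowers l ∧ InP β k l q ∧ q⁻¹ * h * q = c ∧
      (c * θ s = s ∨ IsConj h' (s⁻¹ * c * θ s)) := by
  rcases decP β k l y with h0 | ⟨q, s, d, h1, h2, h3, h4, rfl⟩
  · exact absurd h0 hy
  have e1 : q⁻¹ * h * q * (θ s * θ d) = s * (d * h') := by
    rw [map_mul, map_mul, hθ q h1] at e
    rw [mul_assoc, mul_assoc, e]
    simp [mul_assoc]
  have t1 : θ s ∉ zpowers l := fun t => h3 (by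
    rwa [← R.1 (hθ _ (inP_blk (hl.of_mem t) fun _ => t))])
  have t2 : hb β (θ d) ≠ some k := by rwa [R.hb_eq]
  have t3 : ∃ c e, c ∈ zpowers l ∧ hb β e ≠ some k ∧ d * h' = c * e := by
    by_cases dP : InP β k l d
    · obtain ⟨c, e, a1, -, a2, a3⟩ := (dP.mul hh').split
      exact ⟨c, e, a1, a2, a3⟩
    · exact ⟨1, d * h', one_mem _, by rwa [hb_mul_P hl dP hh'], by simp⟩
  have t4 : q⁻¹ * h * q ∈ zpowers l := by
    refine (((h1.inv.mul hh).mul h1).head (R.in h2) t1 t2).resolve_right ?_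
    rintro ⟨c, f, a1, a2, a3⟩
    obtain ⟨c', f', b1, b2, b3⟩ := t3
    rw [a3, b3, ← mul_assoc] at e1
    have := (block_uniq (hl.of_mem a1) (h2.mul (hl.of_mem b1)) a2 b2 e1).1
    exact h3 (by rw [← mul_inv_eq_iff_eq_mul.2 this]; exact mul_mem a1 (inv_mem b1))
  refine ⟨q, s, _, h2, h3, t4, h1, rfl, ?_⟩
  by_cases dP : InP β k l d
  · refine Or.inr (isConj_iff.2 ⟨d, ?_⟩)
    rw [hθ d dP] at e1
    rw [mul_inv_eq_iff_eq_mul, mul_assoc, mul_assoc, e1, inv_mul_cancel_left]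
  · rw [← mul_assoc] at e1
    exact Or.inl (block_uniq ((hl.of_mem t4).mul (R.in h2)) h2 t2
      (by rwa [hb_mul_P hl dP hh']) e1).1

theorem maln {w : K} (hw : In β k w) (w1 : w ≠ 1) (h : In β k (g * w * g⁻¹)) : In β k g := by
  obtain ⟨s, d, hs, hd, rfl⟩ := split_block β k g
  by_cases d1 : d = 1
  · rwa [d1, mul_one]
  exfalso
  have h1 := hb_conj hd d1 hw w1
  have h2 : In β k (d * w * d⁻¹) := by
    have := (hs.inv.mul h).mul hs
    simpa [mul_assoc] using this
  rw [h2.hb_eq (fun e => w1 (by simpa using e))] at h1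
  exact hd h1.symm

theorem hb_mul_in (hd : hb β d ≠ some k) (h1 : d ≠ 1) (hs : In β k s) :
    hb β (d * s) = hb β d := by
  obtain ⟨t, e, ht, he, h⟩ := split_block β k d⁻¹
  have h2 : d = e⁻¹ * t⁻¹ := by rw [← mul_inv_rev, ← h, inv_inv]
  have e1 : e⁻¹ ≠ 1 := fun h0 => by
    rw [h0, one_mul] at h2
    exact hd (h2 ▸ ht.inv.hb_eq (h2 ▸ h1))
  have key : ∀ w, In β k w → hb β (e⁻¹ * w) = hb β e⁻¹ := fun w hw => by
    refine hb_mul e1 fun k' hk' => ?_
    by_cases s1 : w = 1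
    · simp [s1, hb_one]
    · rw [hw.hb_eq s1]
      rintro ⟨rfl⟩
      exact he (by simpa using hk')
  rw [h2, mul_assoc, key _ (ht.inv.mul hs), key _ ht.inv]

theorem split3 (β : Lt → Lt) (k : Lt) (u : K) : ∃ s e t, In β k s ∧ In β k t ∧ hb β e ≠ some k ∧
    hb β e⁻¹ ≠ some k ∧ u = s * (e * t) := by
  obtain ⟨s, d, hs, hd, rfl⟩ := split_block β k u
  obtain ⟨t, e, ht, he, h⟩ := split_block β k d⁻¹
  have h2 : e⁻¹ = d * t := by rw [← inv_inv d, h]; simp
  refine ⟨s, e⁻¹, t⁻¹, hs, ht.inv, ?_, by rwa [inv_inv], by rw [h2]; simp⟩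
  by_cases d1 : d = 1
  · have : e = t⁻¹ := by rw [← inv_inv e, h2, d1, one_mul]
    by_cases t1 : t = 1
    · simp [h2, d1, t1, hb_one]
    · exact absurd (this ▸ ht.inv.hb_eq (inv_ne_one.2 t1)) he
  · rwa [h2, hb_mul_in hd d1 ht]

theorem len_cat (hs : In β k s) (hd : hb β d ≠ some k) : len (s * d) = len s + len d := by
  simp [len, cat (hs.nc hd)]

theorem exists_blk (β : Lt → Lt) (u : K) : ∃ v, IsConj u v ∧
    ((∃ k, In β k v) ∨ ∀ k, hb β v⁻¹ = some k → hb β v ≠ some k) := by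
  induction h : len u using Nat.strong_induction_on generalizing u with
  | _ n ih =>
    by_cases hc : ∀ k, hb β u⁻¹ = some k → hb β u ≠ some k
    · exact ⟨u, IsConj.refl u, Or.inr hc⟩
    simp only [not_forall, not_not] at hc
    obtain ⟨k, h1, h2⟩ := hc
    obtain ⟨s, d, hs, hd1, e⟩ := split_block β k u
    have hl : len u = len s + len d := by rw [e, len_cat hs hd1]
    by_cases d1 : d = 1
    · exact ⟨u, IsConj.refl u, Or.inl ⟨k, by rw [e, d1, mul_one]; exact hs⟩⟩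
    have c : IsConj u (d * s) := isConj_iff.2 ⟨s⁻¹, by simp [e]⟩
    obtain ⟨t, f, ht, hf, e2⟩ := split_block β k d⁻¹
    have hl2 : len d⁻¹ = len t + len f := by rw [e2, len_cat ht hf]
    by_cases t1 : s⁻¹ * t = 1
    · have e3 : d * s = f⁻¹ := by
        rw [← inv_inj, mul_inv_rev, e2, ← mul_assoc, t1, one_mul, inv_inv]
      have s1 : len s ≠ 0 := fun h0 => by
        rw [e, l_eq_nil.1 (List.length_eq_zero_iff.1 h0), one_mul] at h2
        exact hd1 h2
      obtain ⟨v, c2, hv⟩ := ih (len (d * s)) (by rw [e3, len_inv]; rw [len_inv] at hl2; omega)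
        (d * s) rfl
      exact ⟨v, c.trans c2, hv⟩
    · refine ⟨d * s, c, Or.inr fun k' hk => ?_⟩
      rw [mul_inv_rev, e2, ← mul_assoc, (hs.inv.mul ht).hb_cat t1 hf] at hk
      cases hk
      rwa [hb_mul_in hd1 d1 hs]

/-- A twist along `l`. -/
structure Tw (β : Lt → Lt) (k : Lt) (l : K) (θ : K →* K) (n : ℤ) : Prop where
  hl : In β k l
  cent : ∀ (g : K) (j : ℤ), j ≠ 0 → g * l ^ j * g⁻¹ = l ^ j → g ∈ zpowers l
  resp : Resp β θ
  hn : n ≠ 0
  fix : ∀ u, InP β k l u → θ u = u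
  cj : ∀ s, In β k s → θ s = l ^ n * s * (l ^ n)⁻¹

variable {θ : K →* K} {n : ℤ}

theorem Tw.of_fix (T : Tw β k l θ n) (e : θ u = u) : InP β k l u := by
  rcases decP β k l u with h0 | ⟨q, s, d, h1, h2, h3, h4, rfl⟩
  · exact h0
  rw [map_mul, map_mul, T.fix q h1] at e
  have := (block_uniq (T.resp.in h2) h2 (by rwa [T.resp.hb_eq]) h4 (mul_left_cancel e)).1
  rw [T.cj s h2, mul_inv_eq_iff_eq_mul] at this
  exact absurd (T.cent s n T.hn (by rw [← this, mul_inv_cancel_right])) h3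

theorem Tw.cls (T : Tw β k l θ n) (hu : IsConj (θ u) u) :
    ∃ v, IsConj u v ∧ (In β k v ∨ InP β k l v) := by
  obtain ⟨v, c, ⟨j, hv⟩ | hv⟩ := exists_blk β u
  · refine ⟨v, c, ?_⟩
    by_cases e : j = k
    · exact Or.inl (e ▸ hv)
    · exact Or.inr (inP_blk hv fun e' => absurd e' e)
  refine ⟨v, c, Or.inr ?_⟩
  rcases decP β k l v with h0 | ⟨q, s, d, h1, h2, h3, h4, h5⟩
  · exact h0
  exfalso
  obtain ⟨a, e, a1, a2, a3, a4⟩ := h1.inv.split
  have b1 : In β k (a⁻¹ * s) := (T.hl.of_mem a1).inv.mul h2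
  have b2 : a⁻¹ * s ∉ zpowers l := fun t => h3 (by simpa using mul_mem a1 t)
  have b3 : v = e⁻¹ * (a⁻¹ * s * d) := by rw [h5, ← inv_inv q, a4]; simp [mul_assoc]
  generalize a⁻¹ * s = t at b1 b2 b3
  have cv : IsConj v (θ v) := (c.symm.trans hu.symm).trans (θ.map_isConj c)
  have bm : ∀ m : ℕ, In β k (l ^ (n * m) * t * (l ^ (n * m))⁻¹) := fun m =>
    ((T.hl.zpow _).mul b1).mul (T.hl.zpow _).inv
  have key : ∀ m : ℕ, ∃ f w, hb β f ≠ some k ∧ IsConj v w ∧ hb β w = hb β v ∧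
      hb β w⁻¹ = hb β v⁻¹ ∧ w = e⁻¹ * (l ^ (n * m) * t * (l ^ (n * m))⁻¹ * f) := by
    intro m
    induction m with
    | zero => exact ⟨d, v, h4, IsConj.refl v, rfl, rfl, by simpa using b3⟩
    | succ m ih =>
      obtain ⟨f, w, c1, c2, c3, c4, c5⟩ := ih
      refine ⟨θ f, θ w, by rwa [T.resp.hb_eq], cv.trans (θ.map_isConj c2), by rwa [T.resp.hb_eq],
        by rwa [← map_inv, T.resp.hb_eq], ?_⟩
      rw [c5, map_mul, T.fix _ a2.inv, map_mul, T.cj _ (bm m)]
      push_cast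
      rw [mul_add, mul_one, add_comm, zpow_add]
      simp [mul_assoc]
  have bd : ∀ m : ℕ, (l ^ (n * m) * t * (l ^ (n * m))⁻¹).l ∈ {w : List Lt | w.length ≤ len v} := by
    intro m
    obtain ⟨f, w, c1, c2, c3, c4, c5⟩ := key m
    have d1 := (cr_of_hb (β := β) (u := w) (by rwa [c3, c4])).len_le c2
    have d2 : (l ^ (n * m) * t * (l ^ (n * m))⁻¹) ≠ 1 := fun e => b2 (by
      have : t = 1 := by simpa using e
      exact this ▸ one_mem _)
    have d3 := congrArg List.length (cat (β := β) (u := e⁻¹)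
      (v := l ^ (n * m) * t * (l ^ (n * m))⁻¹ * f) fun k' hk' => by
        rw [(bm m).hb_cat d2 c1]
        rintro ⟨rfl⟩
        exact a3 (by simpa using hk'))
    have d4 := len_cat (bm m) c1
    rw [← c5, List.length_append] at d3
    unfold len at *
    simp only [Set.mem_ofPred_eq]
    omega
  obtain ⟨m, m', hm, e⟩ := (List.finite_length_le Lt (len v)).exists_lt_map_eq_of_forall_mem bd
  refine b2 (T.cent t (n * m' - n * m) (by
    rw [← mul_sub]
    exact mul_ne_zero T.hn (by omega)) ?_)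
  have e2 := congrArg (fun y => (l ^ (n * m))⁻¹ * y * l ^ (n * m') * t⁻¹) (K.ext e)
  simp only [mul_assoc, inv_mul_cancel_left, mul_inv_cancel, mul_one] at e2
  rw [sub_eq_neg_add, zpow_add, zpow_neg]
  simpa only [mul_assoc] using e2

theorem Tw.two (T : Tw β k l θ n) (hg : In β k g) (e : g * θ u = u * g) :
    In β k u ∨ ∃ v, IsConj u v ∧ InP β k l v := by
  obtain ⟨s, f, t, hs, ht, h1, h2, rfl⟩ := split3 β k u
  by_cases f1 : f = 1
  · exact Or.inl (by rw [f1, one_mul]; exact hs.mul ht)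
  right
  rw [map_mul, ← mul_assoc, mul_assoc s, mul_assoc f] at e
  obtain ⟨e1, e2⟩ := block_uniq (hg.mul (T.resp.in hs)) hs
    (by rwa [T.resp.hb_eq, hb_mul_in h1 f1 ht]) (by rwa [hb_mul_in h1 f1 (ht.mul hg)]) e
  have e3 : (θ t)⁻¹ * θ f⁻¹ = (t * g)⁻¹ * f⁻¹ := by
    rw [← mul_inv_rev, ← e2]
    simp
  obtain ⟨e4, e5⟩ := block_uniq (T.resp.in ht).inv (ht.mul hg).inv (by rwa [T.resp.hb_eq]) h2 e3
  refine ⟨f * (t * s), isConj_iff.2 ⟨s⁻¹, by simp [mul_assoc]⟩, InP.mul ?_ (T.of_fix ?_)⟩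
  · simpa using (T.of_fix e5).inv
  · rw [map_mul, inv_inj.1 e4, mul_assoc, e1]

end Pool.Agent.P.MP_5aeb4a_al
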