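import Pool.Agent.P.MP_5aeb4a_al.R4
import Pool.Agent.P.MP_5aeb4a_al.EB

/-! Braid pairs and braid triples over the braid group on three strands. -/

set_option autoImplicit false

namespace Pool.Agent.P.MP_5aeb4a_al

open SemidirectProduct

theorem e3_kb {a b : Multiplicative ℤ} (h : a * b * a = b * a * b) : a = b := by
  have := congrArg Multiplicative.toAdd h
  simp only [toAdd_mul] at this
  exact Multiplicative.toAdd.injective (by omega)

theorem e3_eq {a b : B3} (h : ρ a = ρ b) (e : ex3 a = ex3 b) : a = b := by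
  obtain ⟨n, hn⟩ := ker_ρ (g := a * b⁻¹) (by rw [map_mul, map_inv, h, mul_inv_cancel])
  have := congrArg (fun a => (ex3 a).toAdd) hn
  simp only [map_mul, map_inv, map_zpow, ex3_D3, e, mul_inv_cancel] at this
  have n0 : n = 0 := by
    simp at this
    omega
  rwa [n0, zpow_zero, mul_inv_eq_one] at hn

theorem e3_bc {G : Type} [Group G] {a b : G} (h1 : a * b * a = b * a * b) (h2 : a * b = b * a) :
    a = b := by
  rw [← h2] at h1
  exact mul_left_cancel h1

theorem fold3 {t : Fin 3 → B3} (R : Rels edges4 t) : t 0 = t 2 := by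
  have b01 := (R 0 1).1 (by decide)
  have b12 := (R 1 2).1 (by decide)
  have c02 := (R 0 2).2 (by decide) (by decide)
  have x01 : ex3 (t 0) = ex3 (t 1) := e3_kb (((R.map ex3) 0 1).1 (by decide))
  have x12 : ex3 (t 1) = ex3 (t 2) := e3_kb (((R.map ex3) 1 2).1 (by decide))
  by_cases n1 : ρ (t 0) = ρ (t 1)
  · have e := e3_eq n1 x01
    exact e.trans (e3_bc b12 (by rwa [← e]))
  by_cases n2 : ρ (t 1) = ρ (t 2)
  · have e := e3_eq n2 x12
    exact (e3_bc b01 (by rwa [e])).trans e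
  have := Af.comm_braid (((R.map ρ) 0 1).1 (by decide)) (((R.map ρ) 1 2).1 (by decide))
    (((R.map ρ) 0 2).2 (by decide) (by decide)) (by rwa [lin_ρ, lin_ρ]) (by rwa [lin_ρ, lin_ρ])
  rw [lin_ρ, lin_ρ] at this
  exact e3_eq this (x01.trans x12)

theorem e3_norm {a b : B3} (h : a * b * a = b * a * b) (hn : ρ a ≠ ρ b)
    (ht : (ρ a).a + (ρ a).d = 2) :
    ∃ (g : B3) (ε m : ℤ), (ε = 1 ∨ ε = -1) ∧ a = g * (υ 0 ^ ε * (D3 ^ 2) ^ m) * g⁻¹ ∧
      b = g * (υ 1 ^ ε * (D3 ^ 2) ^ m) * g⁻¹ := by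
  obtain ⟨g, ε, hε, g0, g1⟩ : ∃ (g : B3) (ε : ℤ), (ε = 1 ∨ ε = -1) ∧
      ρ (g * a * g⁻¹) = ρ (υ 0 ^ ε) ∧ ρ (g * b * g⁻¹) = ρ (υ 1 ^ ε) := by
    by_cases z : (ρ a).a - 1 ≠ 0 ∨ (ρ a).c ≠ 0
    · exact normal3 h hn z (by linear_combination (ρ a).a * ht - (ρ a).det)
        (by linear_combination (ρ a).c * ht)
    · push Not at z
      exact normal3 h hn (e := 1) (f := 0) (Or.inl one_ne_zero) (by linear_combination z.1)
        (by linear_combination z.2)
  obtain ⟨k, hk⟩ := ker_ρ (g := (υ 0 ^ ε)⁻¹ * (g * a * g⁻¹)) (by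
    rw [map_mul, map_inv, g0, inv_mul_cancel])
  rw [inv_mul_eq_iff_eq_mul] at hk
  have e4 : (D3 ^ 4) ^ k = (D3 ^ 2) ^ (2 * k) := by rw [zpow_mul, zpow_two, ← pow_add]
  have x01 : ex3 a = ex3 b := e3_kb (by simpa using congrArg ex3 h)
  have hb : g * b * g⁻¹ = υ 1 ^ ε * (D3 ^ 4) ^ k := e3_eq (by
      have : ρ (D3 ^ 4) = 1 := by decide
      rw [g1, map_mul, map_zpow ρ (D3 ^ 4), this, one_zpow, mul_one]) (by
      have e : ∀ i, ex3 (υ i) = Multiplicative.ofAdd 1 := (rels_one edges3).lift_of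
      have := congrArg ex3 hk
      simp only [map_mul, map_zpow, e, x01] at this ⊢
      exact this)
  refine ⟨g⁻¹, ε, 2 * k, hε, ?_, ?_⟩
  · rw [← e4, ← hk]
    simp [mul_assoc]
  · rw [← e4, ← hb]
    simp [mul_assoc]

theorem norm3 {a b : B3} (h : a * b * a = b * a * b) (hn : ρ a ≠ ρ b)
    (ht : (ρ a).a + (ρ a).d = 2 ∨ (ρ a).a + (ρ a).d = -2) :
    ∃ (g : B3) (ε m : ℤ), (ε = 1 ∨ ε = -1) ∧ a = g * (υ 0 ^ ε * (D3 ^ 2) ^ m) * g⁻¹ ∧
      b = g * (υ 1 ^ ε * (D3 ^ 2) ^ m) * g⁻¹ := by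
  rcases ht with ht | ht
  · exact e3_norm h hn ht
  have k : ∀ g t, D3 ^ 2 * (g * t) = g * (D3 ^ 2 * t) := fun g t => by
    rw [← mul_assoc, D3_sq_comm, mul_assoc]
  obtain ⟨g, ε, m, hε, ha, hb⟩ := e3_norm (a := a * D3 ^ 2) (b := b * D3 ^ 2) (by
      have := congrArg (· * (D3 ^ 2 * (D3 ^ 2 * D3 ^ 2))) h
      simpa only [mul_assoc, k a, k b] using this)
    (fun e => hn (by simpa only [map_mul, mul_left_inj] using e)) (by
      have e : ρ (D3 ^ 2) = ⟨-1, 0, 0, -1, 0, 0, by decide⟩ := by decide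
      simp only [map_mul, e, Af.mul_a, Af.mul_d]
      linear_combination -ht)
  have fin : ∀ y w : B3, y * D3 ^ 2 = g * (w * (D3 ^ 2) ^ m) * g⁻¹ →
      y = g * (w * (D3 ^ 2) ^ (m - 1)) * g⁻¹ := fun y w e => by
    rw [← mul_left_inj (D3 ^ 2), e, mul_assoc _ g⁻¹, ← D3_sq_comm, zpow_sub_one]
    simp only [mul_assoc, inv_mul_cancel_left]
  exact ⟨g, ε, m - 1, hε, fin _ _ ha, fin _ _ hb⟩

theorem lift3 {a b : G3} (h : a * b * a = b * a * b) (ka : kh a = a) (kb : kh b = b)
    (ra : a.right = υ 0) (rb : b.right = υ 1) :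
    ∃ (g : K) (i : ℤ), kap g = g ∧ a = inl g * (inl (p3 ^ i) * inr (υ 0)) * (inl g)⁻¹ ∧
      b = inl g * (inl (p3 ^ i) * inr (υ 1)) * (inl g)⁻¹ := by
  have c1 : a * (a * b * a) = a * b * a * b := by
    nth_rewrite 1 [h]
    simp only [mul_assoc]
  have c2 : b * (a * b * a) = a * b * a * a := by
    nth_rewrite 2 [h]
    simp only [mul_assoc]
  have kw : kh (a * b * a) = a * b * a := by rw [map_mul, map_mul, ka, kb]
  have rw' : (a * b * a).right = D3 := by rw [mul_right, mul_right, ra, rb, D3]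
  obtain ⟨w, hw⟩ : ∃ w, a * b * a = w := ⟨_, rfl⟩
  rw [hw] at c1 c2 kw rw'
  have ca : Commute a (w * w) := by
    change a * _ = _ * a
    rw [← mul_assoc, c1, mul_assoc, c2, mul_assoc]
  have cb : Commute b (w * w) := by
    change b * _ = _ * b
    rw [← mul_assoc, c2, mul_assoc, c1, mul_assoc]
  obtain ⟨v, hv⟩ : ∃ v : K, w * w * c3⁻¹ = inl v := ⟨_, eq_inl3 (by
    rw [mul_right, mul_right, rw', inv_right]
    simp [c3, pow_two])⟩
  have q1 : sg v = -1 := by
    rw [← par3_inl, ← hv, map_mul, map_inv, par3_c3, map_mul, Int.units_mul_self]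
    rfl
  have q0 : kap v = v := inl_injective (by
    rw [← kh_inl, ← hv, map_mul, map_inv, map_mul, kw, kh_c3])
  have va : Commute a (inl v) := hv ▸ ca.mul_right (Commute.inv_right (c3_comm ka).symm)
  have vb : Commute b (inl v) := hv ▸ cb.mul_right (Commute.inv_right (c3_comm kb).symm)
  have q2 : ∀ y : G3, Commute y (inl v) → IsConj (act3 y.right v) v := fun y hy => by
    have h4 := congrArg SemidirectProduct.left hy.eq
    simp only [mul_left, left_inl, right_inl, map_one, MulAut.one_apply] at h4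
    exact isConj_iff.2 ⟨_, mul_inv_eq_iff_eq_mul.2 h4⟩
  obtain ⟨g, j, hj, hg⟩ := lemA3 (q0 ▸ in_kap v) (fun i hi => by
    have : i = 2 ∨ i = 3 := by revert i; decide
    rcases this with rfl | rfl
    · have := q2 b vb
      rwa [rb, act3_1] at this
    · have := q2 a va
      rwa [ra, act3_0] at this) (fun h => by
    rw [h, map_one] at q1
    exact absurd q1 (by decide))
  have hg' := congrArg kap hg
  rw [map_mul, map_mul, map_pow, map_inv, q0, map_zpow, kap_x.2.2] at hg'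
  have kg := kap_kap g
  generalize kap g = u at hg' kg
  have h1 : ∀ y : G3, Commute y (inl v) →
      ∃ i : ℤ, inl u * y * (inl u)⁻¹ = inl (p3 ^ i) * inr y.right := fun y hy => by
    have e : Commute (inl u * y * (inl u)⁻¹) (inl (p3 ^ j)) := by
      have := (hy.pow_right 6).map (MulAut.conj (inl u : G3))
      simp only [MulAut.conj_apply] at this
      rw [← hg', map_mul, map_mul, map_pow, map_inv]
      exact this
    have e2 := congrArg SemidirectProduct.left e.eq
    generalize hz : inl u * y * (inl u)⁻¹ = z' at e2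
    simp only [mul_left, left_inl, right_inl, map_one, MulAut.one_apply] at e2
    rw [map_zpow, act3_p] at e2
    obtain ⟨i, hi⟩ := cent3 hj (mul_inv_eq_iff_eq_mul.2 e2)
    exact ⟨i, SemidirectProduct.ext (by simp [hi, -map_zpow]) (by simp [← hz, -map_zpow])⟩
  obtain ⟨i, hi⟩ := h1 a va
  obtain ⟨i', hi'⟩ := h1 b vb
  have e0 : i' = i := by
    have h2 := congrArg (fun y => (inl u * y * (inl u)⁻¹ : G3)) h
    simp only [← conj_mul] at h2
    rw [hi, hi'] at h2
    have := congrArg SemidirectProduct.left h2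
    simp only [mul_left, left_inl, left_inr, map_one, mul_one] at this
    simp only [map_zpow, act3_p, ← zpow_add] at this
    have h3 := len_p3_zpow (i + i' + i - (i' + i + i'))
    rw [zpow_sub, this, mul_inv_cancel] at h3
    have : len 1 = 0 := rfl
    omega
  subst e0
  refine ⟨u⁻¹, i', by rw [map_inv, kg], ?_, ?_⟩
  · rw [← ra, ← hi]
    simp [mul_assoc]
  · rw [← rb, ← hi']
    simp [mul_assoc]

def e3_ret : K →* K := klift (fun j => if j = 4 then 1 else x j) (by decide)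

theorem e3_nc {q : K} {i n : ℤ} (h : q⁻¹ * p3 ^ i * q = r 2 ^ n) : i = 0 := by
  by_contra hi
  have e : e3_ret p3 = r 2 ∧ e3_ret (r 2) = r 2 := by decide
  have h1 := congrArg e3_ret h
  rw [map_mul, map_mul, map_zpow, map_zpow, map_inv, e.1, e.2, ← h] at h1
  obtain ⟨g, hg⟩ : ∃ g : K, g * r 2 ^ i * g⁻¹ = p3 ^ i := ⟨q * (e3_ret q)⁻¹, by
    have := congrArg (fun t => q * t * q⁻¹) h1
    simpa [mul_assoc] using this⟩
  obtain ⟨m, hm⟩ : ∃ m : ℕ, i.natAbs = m + 1 := ⟨i.natAbs - 1, by omega⟩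
  have h2 : g * r 2 ^ (m + 1) * g⁻¹ = p3 ^ (m + 1) := by
    rw [← hm, ← zpow_natCast, ← zpow_natCast]
    rcases Int.natAbs_eq i with e | e
    · rw [← e, hg]
    · have : (i.natAbs : ℤ) = -i := by omega
      rw [this, zpow_neg, zpow_neg, ← conj_inv, hg]
  have h3 := ((cr_ps3 0).cr_pow m).len_le (isConj_iff.2 ⟨g, h2⟩)
  rw [len_ps3, ((cr_r 2).pow m).1, len_r] at h3
  omega

theorem e3_tri {T : Fin 3 → G3} (R : Rels edges4 T) (hk : ∀ i, kh (T i) = T i)
    (hr : ∀ i, (T i).right = υ (f3 i)) (hn : T 0 ≠ T 2) {a : ℤ}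
    (h4 : T 0 = inl (p3 ^ a) * inr (υ 0)) (h5 : T 1 = inl (p3 ^ a) * inr (υ 1)) :
    ∃ g : K, kap g = g ∧ ∀ i, T i = inl g * th3 i * (inl g)⁻¹ := by
  have hs : ∀ i, R.lift (τ i) = T i := R.lift_of
  generalize R.lift = φ at hs
  have hR : ∀ y, (φ y).right = r4 y := fun y =>
    DFunLike.congr_fun (text (f := rightHom.comp φ) (g := r4) fun i => by
      simp [hs, hr, r4_τ]) y
  have hK : ∀ y, kh (φ y) = φ y := fun y =>
    DFunLike.congr_fun (text (f := kh.comp φ) (g := φ) fun i => by simp [hs, hk]) y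
  obtain ⟨u, hu⟩ : ∃ u : K, φ Dl4 * c3⁻¹ = inl u := ⟨_, eq_inl3 (by
    have := congrArg SemidirectProduct.right Th3_Dl4
    rw [mul_right, hR, inv_right, mul_inv_eq_one]
    rw [mul_right, right_inl, one_mul] at this
    exact this)⟩
  have q0 : kap u = u := inl_injective (by
    rw [← kh_inl, ← hu, map_mul, map_inv, hK, kh_c3])
  have ci : ∀ y, c3⁻¹ * φ y = φ y * c3⁻¹ := fun y => (Commute.inv_left (c3_comm (hK y))).eq
  have q2 : ∀ i, inl u * T i = T (sw4 i) * inl u := fun i => by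
    rw [← hs, ← hs, ← hu, mul_assoc, ci, ← mul_assoc, ← map_mul, Dl4_τ, map_mul, mul_assoc]
  have np : ∀ l : ℤ, u ≠ p3 ^ l := fun l hl => by
    have e2 : inl u * T 0 = T 0 * inl u := by
      rw [h4, hl]
      refine SemidirectProduct.ext ?_ (by simp [-map_zpow])
      simp only [mul_left, left_inl, left_inr, map_one, mul_one, right_inl, MulAut.one_apply]
      rw [map_zpow, act3_p, ← zpow_add, ← zpow_add, add_comm]
    exact hn (mul_right_cancel ((q2 0).symm.trans e2)).symm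
  have q4 : p3 ^ a * alh 2 u = u * p3 ^ a := by
    have := q2 1
    rw [show sw4 1 = 1 from rfl, h5] at this
    simpa [act3_1, al_apply, -map_zpow] using (congrArg SemidirectProduct.left this).symm
  have a0 : a = 0 := by
    by_contra a0
    have fx : ∀ y, InP (bl 2) (2 : Fin 4).castSucc (r 2) y → alh 2 y = y := fun y hy =>
      hy.fix (alh_r 2) (by decide)
    have pP : InP (bl 2) (2 : Fin 4).castSucc (r 2) (p3 ^ a) := by
      have : p3 = r 2 * x 4 := by decide
      rw [this]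
      exact ((inP_blk (in_r 2) fun _ => Subgroup.mem_zpowers _).mul (inP_x (by decide))).zpow a
    by_cases hy : InP (bl 2) (2 : Fin 4).castSucc (r 2) u
    · rw [fx u hy] at q4
      obtain ⟨l, hl⟩ := cent3 (g := u) a0 (by rw [← q4, mul_inv_cancel_right])
      exact np l hl
    · obtain ⟨q, -, c, -, -, hc, -, e, -⟩ := blk_lem (in_r 2) (resp_al 2) fx pP pP q4 hy
      obtain ⟨n, rfl⟩ := Subgroup.mem_zpowers_iff.1 hc
      exact a0 (e3_nc e)
  subst a0
  simp only [zpow_zero, map_one, one_mul, mul_one] at h4 h5 q4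
  have q3 : u * u * p3 ^ (1 : ℤ) * (u * u)⁻¹ = p3 ^ (1 : ℤ) := by
    have e : (inl (u * u) : G3) = φ z4 * (c3⁻¹ * c3⁻¹) := by
      rw [map_mul, ← hu, ← Dl4_sq, map_mul, mul_assoc, ← mul_assoc c3⁻¹, ci Dl4]
      simp only [mul_assoc]
    have cp : Commute c3⁻¹ (inl p3 : G3) :=
      Commute.inv_left (c3_comm (by rw [kh_inl, kap_x.2.2]))
    have e3 : φ z3 = inr (D3 ^ 2) :=
      DFunLike.congr_fun (uext (f := φ.comp inc3) (g := inr) fun i => by
        rw [MonoidHom.comp_apply, inc3_υ, hs]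
        fin_cases i
        exacts [h4, h5]) (D3 ^ 2)
    have e1 : (φ z3 * c3⁻¹ : G3) = inl p3 := by
      rw [e3, mul_inv_eq_iff_eq_mul, c3, ← mul_assoc, ← map_mul]
      simp
    have cz : Commute (φ z4) (inl p3) :=
      e1 ▸ (Commute.map (z4_comm z3) φ).mul_right (ci z4).symm
    rw [zpow_one, mul_inv_eq_iff_eq_mul]
    apply (inl_injective : Function.Injective (inl : K → G3))
    rw [map_mul _ _ p3, map_mul _ p3, e]
    exact (Commute.mul_left cz (cp.mul_left cp)).eq
  obtain ⟨m, hm⟩ := cent3 one_ne_zero q3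
  by_cases m0 : m ≠ 0
  · obtain ⟨l, hl⟩ := cent3 (g := u) m0 (by rw [← hm]; simp [mul_assoc])
    exact absurd hl (np l)
  rw [not_not.1 m0, zpow_zero] at hm
  obtain ⟨g, k, hg⟩ := invol hm (by simpa using np 0)
  have q5 : (g⁻¹ * alh 2 g) * alh 2 (x k) * (g⁻¹ * alh 2 g)⁻¹ = x k := by
    have := congrArg (fun t => g⁻¹ * t * g) q4
    simpa [hg, mul_assoc] using this
  have q6 : k = 4 := by
    have k1 := cls (isConj_iff.2 ⟨_, q5⟩)
    have k2 : chi k (kap (x k)) = chi k (x k) := by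
      have := congrArg (chi k) q0
      rw [hg] at this
      simpa only [map_mul, map_inv, mul_inv_cancel_comm] using this
    have key : ∀ k : Lt, k ≠ (2 : Fin 4).castSucc ∧ k ≠ (2 : Fin 4).succ →
      chi k (kap (x k)) = chi k (x k) → k = 4 := by decide
    exact key k k1 k2
  subst q6
  have e4 : alh 2 (x 4) = x 4 := by decide
  have q9 : alh 2 g = g := by
    rw [e4] at q5
    rcases comm_x q5 with h | h
    · exact (inv_mul_eq_one.1 h).symm
    · have := congrArg sg h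
      rw [map_mul, sg_alh, map_inv, inv_mul_cancel, sg_x] at this
      exact absurd this (by decide)
  have t4 : T 2 = inl u * inr (υ 0) * inl u := by
    have := q2 0
    rw [h4] at this
    rw [this, mul_assoc, ← map_mul, hm, map_one, mul_one]
    rfl
  have q10 : alh 3 (u * alh 3 u) = u * alh 3 u := by
    have := congrArg SemidirectProduct.left ((R 0 2).2 (by decide) (by decide))
    rw [h4, t4] at this
    simpa [act3_0, al_apply] using this
  rw [hg] at q10
  obtain ⟨g', e1, e2⟩ := lem4 g q10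
  have q11 : alh 2 g' = g' := by
    rcases comm_x (g := g⁻¹ * g') (j := 4) (by
      have := congrArg (fun t => g⁻¹ * t * g) e1
      simpa [mul_assoc] using this.symm) with h | h
    · rw [← inv_mul_eq_one.1 h, q9]
    · rw [inv_mul_eq_iff_eq_mul.1 h, map_mul, q9, e4]
  have q12 : (inr (υ 0) : G3) = inl g' * inr (υ 0) * (inl g')⁻¹ :=
    SemidirectProduct.ext (by simp [act3_0, al_apply, e2]) (by simp)
  have q13 : (inr (υ 1) : G3) = inl g' * inr (υ 1) * (inl g')⁻¹ :=
    SemidirectProduct.ext (by simp [act3_1, al_apply, q11]) (by simp)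
  have q14 : ∀ i, T i = inl g' * Th3 (τ i) * (inl g')⁻¹ := fun i => by
    fin_cases i
    · exact h4.trans q12
    · exact h5.trans q13
    · change T 2 = inl g' * th3 2 * (inl g')⁻¹
      rw [t4, th3_two, hg, e1]
      nth_rewrite 1 [q12]
      simp [mul_assoc]
  refine ⟨kap g', kap_kap _, fun i => ?_⟩
  rw [← hk i, q14, map_mul, map_mul, map_inv, kh_inl, kh_Th3, Th3_τ]

theorem tri3 {T : Fin 3 → G3} (R : Rels edges4 T) (hk : ∀ i, kh (T i) = T i)
    (hr : ∀ i, (T i).right = υ (f3 i)) (hn : T 0 ≠ T 2) :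
    ∃ g : K, kap g = g ∧ ∀ i, T i = inl g * th3 i * (inl g)⁻¹ := by
  obtain ⟨g, a, kg, h0, h1⟩ := lift3 ((R 0 1).1 (by decide)) (hk 0) (hk 1) (hr 0) (hr 1)
  have R1 := R.map (MulAut.conj (inl g : G3)⁻¹).toMonoidHom
  simp only [MulEquiv.coe_toMonoidHom, MulAut.conj_apply] at R1
  obtain ⟨g', kg', h⟩ := e3_tri R1 (a := a)
    (fun i => by simp only [map_mul, map_inv, kh_inl, kg, hk])
    (fun i => by simp [hr]) (fun e => hn (by simpa using e))
    (by rw [h0]; simp only [mul_assoc, inv_mul_cancel_left, inv_inv, inv_mul_cancel, mul_one])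
    (by rw [h1]; simp only [mul_assoc, inv_mul_cancel_left, inv_inv, inv_mul_cancel, mul_one])
  refine ⟨g * g', by rw [map_mul, kg, kg'], fun i => ?_⟩
  have := congrArg (fun y => inl g * y * (inl g)⁻¹) (h i)
  simpa [mul_assoc] using this

end Pool.Agent.P.MP_5aeb4a_al
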