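import Pool.Agent.P.MP_5aeb4a_al.EL
import Pool.Agent.P.MP_5aeb4a_al.E3

/-! Triples with different leaves: the braid group on four strands and the folded case. -/

set_option autoImplicit false

namespace Pool.Agent.P.MP_5aeb4a_al

open SemidirectProduct

theorem Rels.mul_cm {n : ℕ} {E : List (Fin n × Fin n)} {G : Type} [Group G] {f : Fin n → G}
    (h : Rels E f) {y : G} (hy : ∀ i, y * f i = f i * y) : Rels E fun i => f i * y := by
  have k : ∀ i t, y * (f i * t) = f i * (y * t) := fun i t => by rw [← mul_assoc, hy, mul_assoc]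
  refine fun i j => ⟨fun e => ?_, fun e e' => ?_⟩
  · have := congrArg (· * (y * (y * y))) ((h i j).1 e)
    simpa only [mul_assoc, k i, k j] using this
  · have := congrArg (· * (y * y)) ((h i j).2 e e')
    simpa only [mul_assoc, k i, k j] using this

theorem Rels.of_inj {n : ℕ} {E : List (Fin n × Fin n)} {G H : Type} [Group G] [Group H]
    {f : Fin n → G} {θ : G →* H} (hθ : Function.Injective θ) (h : Rels E fun i => θ (f i)) :
    Rels E f := fun i j =>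
  ⟨fun e => hθ (by simpa using (h i j).1 e), fun e e' => hθ (by simpa using (h i j).2 e e')⟩

theorem c3z {g : G3} (h : kh g = g) (m : ℤ) : c3 ^ m * g = g * c3 ^ m :=
  (Commute.zpow_left (c3_comm h) m).eq

theorem kh_c3z (m : ℤ) : kh (c3 ^ m) = c3 ^ m := by rw [map_zpow, kh_c3]

theorem c3z_right (m : ℤ) : (c3 ^ m).right = (D3 ^ 2) ^ m := by
  rw [← rightHom_eq_right, map_zpow]
  simp [c3, -map_pow]

theorem c3z_eq (m : ℤ) : c3 ^ m = inl (p3 ^ (-m)) * inr ((D3 ^ 2) ^ m) := by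
  have : Commute (inl p3⁻¹ : G3) (inr (D3 ^ 2)) :=
    SemidirectProduct.ext (by simp [act3_p, -map_pow]) (by simp [-map_pow])
  rw [c3, this.mul_zpow, ← map_zpow, ← map_zpow, inv_zpow']

theorem c3z_even {m : ℤ} (h : par3 (c3 ^ m) = 1) : ∃ q : ℤ, c3 ^ m = Th3 (z4 ^ q) := by
  rcases Int.even_or_odd' m with ⟨q, rfl | rfl⟩
  · exact ⟨q, by rw [map_zpow, Th3_z4, zpow_mul, zpow_two]⟩
  · exfalso
    rw [map_zpow, par3_c3, zpow_add, zpow_mul] at h
    simp at h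

theorem kh_mk (g : G3) : kh g = inl (kap g.left) * inr g.right := by
  conv_lhs => rw [← inl_left_mul_inr_right g, map_mul, kh_inl, kh_inr]

theorem kh_of_in {g : G3} (h : In b3 2 g.left) : kh g = g := by
  rw [kh_mk, kap_of_in h, inl_left_mul_inr_right]

theorem in_act3 {u : K} (h : In b3 2 u) (b : B3) : In b3 2 (act3 b u) := by
  have : kh (inr b * inl u * inr b⁻¹) = inr b * inl u * inr b⁻¹ := by
    rw [map_mul, map_mul, kh_inr, kh_inr, kh_inl, kap_of_in h]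
  rw [← inl_aut, kh_inl] at this
  rw [← inl_injective this]
  exact in_kap _

theorem act3_low (b : B3) : ∀ j, b3 j ≠ 2 → act3 b (x j) = x j := by
  induction b using art_ind with
  | h1 => simp
  | hm a b ha hb => intro j hj; rw [map_mul, MulAut.mul_apply, hb j hj, ha j hj]
  | hi a ha =>
    intro j hj
    conv_lhs => rw [← ha j hj, map_inv, MulAut.inv_apply_self]
  | hg i =>
    revert i
    decide

theorem act3_P {u : K} (h : InP b3 2 p3 u) (b : B3) : act3 b u = u :=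
  h.fix (θ := (act3 b).toMonoidHom) (act3_p b) (act3_low b)

theorem tw3 {n : ℤ} (hn : n ≠ 0) : Tw b3 2 p3 (act3 ((D3 ^ 2) ^ n)).toMonoidHom n := by
  have cjn : ∀ s, In b3 2 s → act3 ((D3 ^ 2) ^ n) s = p3 ^ n * s * (p3 ^ n)⁻¹ := fun s hs => by
    have := congrArg SemidirectProduct.left (c3z (g := inl s) (by rw [kh_inl, kap_of_in hs]) n)
    rw [c3z_eq] at this
    simp only [mul_left, left_inl, left_inr, right_inl, right_inr, mul_right, map_one, mul_one,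
      one_mul, MulAut.one_apply, zpow_neg] at this
    rw [mul_assoc, ← this, mul_inv_cancel_left]
  have hl : In b3 2 p3 := by
    unfold In
    decide
  refine ⟨hl, fun g j hj h => ?_, ⟨(act3 _).injective, fun i => ?_⟩, hn,
    fun u hu => act3_P hu _, cjn⟩
  · obtain ⟨m, hm⟩ := cent3 hj h
    exact Subgroup.mem_zpowers_iff.2 ⟨m, hm.symm⟩
  · by_cases e : b3 i = 2
    · exact e ▸ in_act3 (e ▸ in_x i) _
    · change In b3 (b3 i) (act3 _ (x i))
      rw [act3_low _ i e]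
      exact in_x i

theorem sg_ac4 (b : B4) (u : K) : sg (ac4 b u) = sg u := by
  rw [← par4_inl, inl_aut, map_mul, map_mul, par4_inr, par4_inr, par4_inl, one_mul, mul_one]

theorem in_b4 {u : K} (h : In b3 2 u) : In b4 1 u := fun j hj => by
  have : ∀ j, b3 j = 2 → b4 j = 1 := by decide
  exact this j (h j hj)

theorem notP {g : G4} (hg : Ok g) {b : B3} (hb : g.right = inc3 b) {u y : K} (hu : Ev u)
    (c : IsConj u y) (hy : InP b3 2 p3 y) : ∃ k, Ev k ∧ cj g u = k * u * k⁻¹ := by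
  obtain ⟨h, hh⟩ := isConj_iff.1 c.symm
  have e1 : u = kap4 h * kap4 y * (kap4 h)⁻¹ := by
    rw [← map_inv, ← map_mul, ← map_mul, hh, kap4_of_in hu.2]
  have e2 : ac4 g.right (kap4 y) = kap4 y := by rw [← kap4_ac4, hb, ac4_inc3, act3_P hy]
  refine ⟨g.left * ac4 g.right (kap4 h) * (kap4 h)⁻¹, ⟨?_, ?_⟩, ?_⟩
  · rw [map_mul, map_mul, sg_ac4, hg.ev.1, map_inv, one_mul, mul_inv_cancel]
  · refine (hg.ev.2.mul ?_).mul (in_kap4 h).inv
    rw [← kap4_ac4]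
    exact in_kap4 _
  · rw [cj_apply, e1, map_mul, map_mul, map_inv, e2]
    group

theorem par4_io (g : G3) : par4 (io g) = par3 g := by
  conv_rhs => rw [← inl_left_mul_inr_right g, map_mul, par3_inl, par3_inr, mul_one]
  rw [par4_left, io_left]

theorem fold4 {T : Fin 3 → G4} (R : Rels edges4 T) (ok : ∀ i, Ok (T i)) {m : ℤ}
    (hr : ∀ i, (T i).right = inc3 (υ (f3 i) * (D3 ^ 2) ^ m)) (hn : T 0 ≠ T 2) :
    ∃ g : K, kap4 g = g ∧ ∀ i, T i = inl g * io (th3 i * c3 ^ m) * (inl g)⁻¹ := by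
  have inj : Function.Injective (inl : K → G4) := inl_injective
  obtain ⟨-, u, v, u1, v1, eu, ev, hu, hv, e1, e4, g3, g4⟩ :=
    graded3 R ok (by rw [hr, hr]; rfl) hn
  have hs : ∀ i, R.lift (τ i) = T i := R.lift_of
  obtain ⟨θ, hθ⟩ : ∃ θ, θ = R.lift z4 := ⟨_, rfl⟩
  have c0 : ∀ i, Commute θ (T i) := fun i => by
    rw [hθ, ← hs]
    exact Commute.map (z4_comm _) _
  have cu : Commute θ (inl u) := hu ▸ (c0 0).mul_right (c0 2).inv_right
  have cv : Commute θ (inl v) :=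
    hv ▸ (((c0 1).mul_right cu).mul_right (c0 1).inv_right).mul_right cu.inv_right
  have fu : cj θ u = u := inj (by rw [← cj_inl, cu.eq, mul_inv_cancel_right])
  have fv : cj θ v = v := inj (by rw [← cj_inl, cv.eq, mul_inv_cancel_right])
  have rθ : θ.right = inc3 ((D3 ^ 2) ^ (2 + 12 * m)) := by
    have c : ∀ g, Commute ((D3 ^ 2) ^ m) g := fun g => Commute.zpow_left (D3_sq_comm g) m
    have e : υ 0 * (D3 ^ 2) ^ m * (υ 1 * (D3 ^ 2) ^ m) * (υ 0 * (D3 ^ 2) ^ m) =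
        D3 * (D3 ^ 2) ^ (3 * m) := by
      rw [show 3 * m = m + (m + m) by ring, zpow_add, zpow_add]
      generalize (D3 ^ 2) ^ m = W at c
      simp only [D3, mul_assoc, (c (υ _)).left_comm]
    have c2 : Commute D3 ((D3 ^ 2) ^ (3 * m)) := (Commute.zpow_left (D3_sq_comm D3) _).symm
    rw [hθ, z4, map_pow, map_mul, map_mul, hs, hs, hs, ← rightHom_eq_right, map_pow, map_mul,
      map_mul, rightHom_eq_right, hr, hr, hr, ← map_mul, ← map_mul, ← map_pow]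
    congr 1
    change (υ 0 * (D3 ^ 2) ^ m * (υ 1 * (D3 ^ 2) ^ m) * (υ 0 * (D3 ^ 2) ^ m)) ^ 4 = _
    rw [e, c2.mul_pow, zpow_add, ← zpow_natCast (_ ^ (3 * m)), ← zpow_mul, zpow_two, ← pow_add]
    congr 2
    push_cast
    ring
  have W := tw3 (n := 2 + 12 * m) (by omega)
  have aθ : ∀ y, ac4 θ.right y = (act3 ((D3 ^ 2) ^ (2 + 12 * m))).toMonoidHom y := fun y => by
    rw [rθ, ac4_inc3]
    rfl
  obtain ⟨y, cy, hy⟩ := W.cls (u := u) (isConj_iff.2 ⟨θ.left, by rw [← aθ]; exact fu⟩)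
  have hy : In b3 2 y := hy.resolve_right fun hy => by
    obtain ⟨k, hk, e⟩ := notP (ok 1) (hr 1) eu cy hy
    exact g3 k hk e
  obtain ⟨h, kh4h, hh⟩ : ∃ h, kap4 h = h ∧ h * u * h⁻¹ = y := by
    obtain ⟨h, hh⟩ := isConj_iff.1 cy
    refine ⟨kap4 h, kap4_kap4 h, ?_⟩
    have := congrArg kap4 hh
    rwa [map_mul, map_mul, map_inv, kap4_of_in eu.2, kap4_of_in (in_b4 hy)] at this
  have tr : ∀ (g : G4) (w : K), cj g w = w → (inl h * g * (inl h)⁻¹ : G4).left *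
      ac4 g.right (h * w * h⁻¹) * (inl h * g * (inl h)⁻¹ : G4).left⁻¹ = h * w * h⁻¹ := by
    intro g w e
    have e2 : ac4 g.right w = g.left⁻¹ * w * g.left := by
      conv_rhs => rw [← e, cj_apply]
      group
    simp [e2, mul_assoc]
  have y1 : y ≠ 1 := fun e => u1 (by simpa [e] using hh)
  have ml : ∀ (g : G4) (b : B3) (w : K), g.right = inc3 b → cj g w = w → w ≠ 1 →
      In b3 2 (h * w * h⁻¹) → In b3 2 (inl h * g * (inl h)⁻¹ : G4).left := by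
    intro g b w e1 e2 e3 e4
    have := tr g w e2
    rw [e1, ac4_inc3] at this
    exact maln (in_act3 e4 b) (by simpa using e3) (this.symm ▸ e4)
  have l0 := ml θ _ u rθ fu u1 (hh ▸ hy)
  have lv : In b3 2 (h * v * h⁻¹) := by
    have := tr θ v fv
    rw [mul_inv_eq_iff_eq_mul, aθ] at this
    refine (W.two l0 this).resolve_right ?_
    rintro ⟨w, cw, hw⟩
    obtain ⟨k, hk, e⟩ := notP (ok 0) (hr 0) ev ((isConj_iff.2 ⟨h, rfl⟩).trans cw) hw
    exact g4 k hk e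
  have l1 := ml (T 0) _ u (hr 0) e1 u1 (hh ▸ hy)
  have l2 := ml (T 1) _ v (hr 1) e4 v1 lv
  have l3 : In b3 2 (inl h * T 2 * (inl h)⁻¹ : G4).left := by
    have : (inl h * T 2 * (inl h)⁻¹ : G4) = (inl y)⁻¹ * (inl h * T 0 * (inl h)⁻¹) := by
      rw [← hh, map_mul, map_mul, map_inv, hu]
      group
    rw [this, ← map_inv inl y, mul_left, left_inl, right_inl, map_one, MulAut.one_apply]
    exact hy.inv.mul l1
  let S : Fin 3 → G3 := fun i => ⟨(inl h * T i * (inl h)⁻¹ : G4).left, υ (f3 i) * (D3 ^ 2) ^ m⟩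
  have iS : ∀ i, io (S i) = inl h * T i * (inl h)⁻¹ := fun i =>
    SemidirectProduct.ext (io_left _) (by rw [io_right]; simp [S, hr, -map_pow])
  have kS : ∀ i, kh (S i) = S i := fun i => kh_of_in (by
    fin_cases i
    exacts [l1, l2, l3])
  have RS : Rels edges4 S := Rels.of_inj io_inj (by
    simp only [iS]
    exact R.map (MulAut.conj (inl h)).toMonoidHom)
  obtain ⟨g, kg, hg⟩ := tri3 (RS.mul_cm fun i => c3z (kS i) (-m))
    (fun i => by rw [map_mul, kS, kh_c3z])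
    (fun i => by rw [mul_right, c3z_right, mul_assoc, ← zpow_add, add_neg_cancel, zpow_zero, mul_one])
    (fun e => hn (by simpa [iS] using congrArg io (mul_right_cancel e)))
  refine ⟨h⁻¹ * g, by rw [map_mul, map_inv, kh4h, kap4_of_in (in_b4 (kg ▸ in_kap g))], fun i => ?_⟩
  have e2 : S i = inl g * (th3 i * c3 ^ m) * (inl g)⁻¹ := by
    have := hg i
    rw [zpow_neg, mul_inv_eq_iff_eq_mul, mul_assoc, ← c3z (by rw [map_inv, kh_inl, kg])] at this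
    rw [this]
    simp only [mul_assoc]
  have e3 := iS i
  rw [e2, map_mul, map_mul, map_inv, io_inl] at e3
  rw [map_mul, map_inv, mul_inv_rev, mul_assoc (inl h)⁻¹, mul_assoc (inl h)⁻¹, ← mul_assoc _ (inl g)⁻¹,
    e3]
  group

theorem nf_tri {T : Fin 3 → G4} (R : Rels edges4 T) (ok : ∀ i, Ok (T i))
    (hr : (T 0).right = (T 2).right) (hn : T 0 ≠ T 2) : ∃ (g : B3) (ε m : ℤ), (ε = 1 ∨ ε = -1) ∧
      ∀ i, r4 (T i).right = g * (υ (f3 i) ^ ε * (D3 ^ 2) ^ m) * g⁻¹ := by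
  obtain ⟨⟨h1, h2⟩, -⟩ := graded3 R ok hr hn
  obtain ⟨g, ε, m, hε, e1, e2⟩ :=
    norm3 ((((R.map rightHom).map r4) 0 1).1 (by decide)) h2 h1
  refine ⟨g, ε, m, hε, fun i => ?_⟩
  fin_cases i
  exacts [e1, e2, hr ▸ e1]

theorem inv_nf {a g y : B3} {m : ℤ} (h : a = g * (y ^ (-1 : ℤ) * (D3 ^ 2) ^ m) * g⁻¹) :
    a⁻¹ = g * (y * (D3 ^ 2) ^ (-m)) * g⁻¹ := by
  rw [h, ← (Commute.zpow_left (D3_sq_comm y) (-m)).eq]
  simp [mul_assoc]

theorem ok_Th4 (a : AD4) : Ok (Th4 a) := ⟨kh4_Th4 a, par4_Th4 a⟩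

theorem z4z (m : ℤ) (y : B4) : z4 ^ m * y = y * z4 ^ m := (Commute.zpow_left (z4_comm y) m).eq

theorem pos3 {t : Fin 3 → B4} (R : Rels edges4 t) (hn : t 0 ≠ t 2) {g : B3} {m : ℤ}
    (hr : ∀ i, r4 (t i) = g * (υ (f3 i) * (D3 ^ 2) ^ m) * g⁻¹) :
    ∃ (h : B4) (q : ℤ), ∀ i, t i = h * (τ i * z4 ^ q) * h⁻¹ := by
  have R1 := (R.map (MulAut.conj (inc3 g⁻¹)).toMonoidHom).map Th3
  obtain ⟨k, kk, hk⟩ := tri3 (R1.mul_cm fun i => c3z (kh_Th3 _) (-m))
    (fun i => by rw [map_mul, kh_Th3, kh_c3z])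
    (fun i => by
      rw [mul_right, c3z_right]
      change r4 (inc3 g⁻¹ * t i * (inc3 g⁻¹)⁻¹) * _ = _
      rw [map_mul, map_mul, map_inv r4, r4_inc3, hr]
      group)
    (fun e => hn (by simpa using Th3_inj (mul_right_cancel e)))
  obtain ⟨q, hq⟩ := c3z_even (m := m) (by
    have := congrArg par3 (hk 0)
    rw [← Th3_τ] at this
    simp only [map_mul par3, map_inv par3, par3_Th3, zpow_neg, one_mul, mul_one,
      mul_inv_cancel] at this
    exact inv_eq_one.1 this)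
  obtain ⟨h, hh⟩ := conj_by_Th3 k
  refine ⟨inc3 g * h, q, fun i => ?_⟩
  have := hk i
  rw [zpow_neg, mul_inv_eq_iff_eq_mul, hq, ← Th3_τ, ← kk, hh, ← map_mul Th3] at this
  have e := congrArg (fun a => inc3 g * a * (inc3 g)⁻¹) (Th3_inj this)
  rw [mul_assoc _ h⁻¹, ← z4z q h⁻¹] at e
  simpa [mul_assoc] using e

theorem endB4 {t : Fin 3 → B4} (R : Rels edges4 t) (hn : t 0 ≠ t 2) :
    ∃ (h : B4) (ε q : ℤ), (ε = 1 ∨ ε = -1) ∧ ∀ i, t i = h * (τ i ^ ε * z4 ^ q) * h⁻¹ := by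
  have e : ∀ a, (Th4 (in23 a)).right = inc3 (r4 a) := fun a => by
    rw [Th4_in23, io_right]
    rfl
  obtain ⟨g, ε, m, hε, h⟩ := nf_tri ((R.map in23).map Th4) (fun _ => ok_Th4 _)
    (by rw [e, e, fold3 (R.map r4)])
    (fun h => hn (Th3_inj (io_inj (by simpa only [Th4_in23] using h))))
  simp only [e, r4_inc3] at h
  rcases hε with rfl | rfl
  · obtain ⟨a, q, k⟩ := pos3 R hn (by simpa only [zpow_one] using h)
    exact ⟨a, 1, q, Or.inl rfl, by simpa only [zpow_one] using k⟩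
  · obtain ⟨a, q, k⟩ := pos3 R.inv (fun e => hn (inv_inj.1 e)) fun i => by
      rw [map_inv]
      exact inv_nf (h i)
    refine ⟨a, -1, -q, Or.inr rfl, fun i => ?_⟩
    rw [inv_eq_iff_eq_inv.1 (k i), ← z4z q]
    simp [mul_assoc]

theorem pair4 {y z : B4} (hb : y * z * y = z * y * z) {g : B3} {m : ℤ}
    (h0 : r4 y = g * (υ 0 * (D3 ^ 2) ^ m) * g⁻¹) (h1 : r4 z = g * (υ 1 * (D3 ^ 2) ^ m) * g⁻¹) :
    ∃ (h : B4) (n q : ℤ), y = h * (inc3 (υ 0 * (D3 ^ 2) ^ n) * z4 ^ q) * h⁻¹ ∧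
      z = h * (inc3 (υ 1 * (D3 ^ 2) ^ n) * z4 ^ q) * h⁻¹ := by
  have rt : ∀ (a : B4) (b : B3), r4 a = g * (b * (D3 ^ 2) ^ m) * g⁻¹ →
      (Th3 (inc3 g⁻¹ * a * (inc3 g⁻¹)⁻¹) * c3 ^ (-m)).right = b := fun a b e => by
    rw [mul_right, c3z_right]
    change r4 (inc3 g⁻¹ * a * (inc3 g⁻¹)⁻¹) * _ = _
    rw [map_mul, map_mul, map_inv r4, r4_inc3, e]
    group
  have cm : ∀ a t, c3 ^ (-m) * (Th3 a * t) = Th3 a * (c3 ^ (-m) * t) := fun a t => by
    rw [← mul_assoc, c3z (kh_Th3 a), mul_assoc]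
  obtain ⟨k, i, kk, e0, e1⟩ := lift3 (a := Th3 (inc3 g⁻¹ * y * (inc3 g⁻¹)⁻¹) * c3 ^ (-m))
    (b := Th3 (inc3 g⁻¹ * z * (inc3 g⁻¹)⁻¹) * c3 ^ (-m)) (by
      have := congrArg (fun a => Th3 (inc3 g⁻¹ * a * (inc3 g⁻¹)⁻¹) *
        (c3 ^ (-m) * (c3 ^ (-m) * c3 ^ (-m)))) hb
      simp only [← conj_mul, map_mul Th3 (_ * _ * _⁻¹ * (_ * _ * _⁻¹)),
        map_mul Th3 (_ * _ * _⁻¹) (_ * _ * _⁻¹)] at this
      generalize inc3 g⁻¹ * y * (inc3 g⁻¹)⁻¹ = y' at this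
      generalize inc3 g⁻¹ * z * (inc3 g⁻¹)⁻¹ = z' at this
      simpa only [mul_assoc, cm] using this)
    (by rw [map_mul, kh_Th3, kh_c3z]) (by rw [map_mul, kh_Th3, kh_c3z]) (rt _ _ h0) (rt _ _ h1)
  have e2 : ∀ b : B3, (inl (p3 ^ i) * inr b * c3 ^ m : G3) =
      Th3 (inc3 (b * (D3 ^ 2) ^ i)) * c3 ^ (m - i) := fun b => by
    have : (inl (p3 ^ i) : G3) = c3 ^ (-i) * inr ((D3 ^ 2) ^ i) := by
      rw [c3z_eq, neg_neg, mul_assoc, ← map_mul inr, ← zpow_add, neg_add_cancel]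
      simp
    rw [Th3_inc3, this, mul_assoc (c3 ^ _), ← map_mul inr, (Commute.zpow_left (D3_sq_comm b) i).eq,
      c3z (kh_inr _), mul_assoc, ← zpow_add, neg_add_eq_sub]
  obtain ⟨h, hh⟩ := conj_by_Th3 k
  rw [kk] at hh
  have e3 : ∀ (a : B4) (b : B3), Th3 (inc3 g⁻¹ * a * (inc3 g⁻¹)⁻¹) * c3 ^ (-m) =
      inl k * (inl (p3 ^ i) * inr b) * (inl k)⁻¹ → Th3 (inc3 g⁻¹ * a * (inc3 g⁻¹)⁻¹) =
      inl k * (Th3 (inc3 (b * (D3 ^ 2) ^ i)) * c3 ^ (m - i)) * (inl k)⁻¹ := fun a b e => by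
    rw [zpow_neg, mul_inv_eq_iff_eq_mul, mul_assoc _ (inl k)⁻¹,
      ← c3z (by rw [map_inv, kh_inl, kk])] at e
    rw [e, ← e2]
    simp only [mul_assoc]
  obtain ⟨q, hq⟩ := c3z_even (m := m - i) (by
    have := congrArg par3 (e3 _ _ e0)
    simp only [map_mul par3, map_inv par3, par3_Th3, one_mul, mul_inv_cancel_comm] at this
    exact this.symm)
  have e4 : ∀ (a : B4) (b : B3), Th3 (inc3 g⁻¹ * a * (inc3 g⁻¹)⁻¹) * c3 ^ (-m) =
      inl k * (inl (p3 ^ i) * inr b) * (inl k)⁻¹ →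
      a = inc3 g * h * (inc3 (b * (D3 ^ 2) ^ i) * z4 ^ q) * (inc3 g * h)⁻¹ := fun a b e => by
    have := e3 a b e
    rw [hq, ← map_mul Th3, hh] at this
    have e := congrArg (fun a => inc3 g * a * (inc3 g)⁻¹) (Th3_inj this)
    simpa [mul_assoc, -map_pow, -map_zpow] using e
  exact ⟨inc3 g * h, i, q, e4 _ _ e0, e4 _ _ e1⟩

theorem c4z (m : ℤ) (y : AD4) : c4 ^ m * y = y * c4 ^ m := (Commute.zpow_left (c4_comm y) m).eq

theorem pos4 {T : Fin 3 → AD4} (R : Rels edges4 T) (hr : pr4 (T 0) = pr4 (T 2)) (hn : T 0 ≠ T 2)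
    {g : B3} {m : ℤ} (h : ∀ i, r4 (pr4 (T i)) = g * (υ (f3 i) * (D3 ^ 2) ^ m) * g⁻¹) :
    ∃ (a : AD4) (π : Equiv.Perm (Fin 4)) (hπ : π 1 = 1) (m q : ℤ),
      ∀ i, T i = a * gr π hπ (![s4 2, s4 1, s4 3] i * zz 2 3 ^ m * c4 ^ q) * a⁻¹ := by
  obtain ⟨b, n, q, e0, e1⟩ := pair4 (((R.map pr4) 0 1).1 (by decide)) (h 0) (h 1)
  have e : ∀ i, pr4 (T i) = b * (inc3 (υ (f3 i) * (D3 ^ 2) ^ n) * z4 ^ q) * b⁻¹ := fun i => by
    fin_cases i
    exacts [e0, e1, hr ▸ e0]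
  have R1 := ((R.map (MulAut.conj (in4 b⁻¹)).toMonoidHom).mul_central (c4z (-q))).map Th4
  obtain ⟨k, kk, hk⟩ := fold4 R1 (fun _ => ok_Th4 _) (m := n) (fun i => by
      change pr4 (in4 b⁻¹ * T i * (in4 b⁻¹)⁻¹ * c4 ^ (-q)) = _
      rw [map_mul, map_mul, map_mul, map_inv pr4, pr4_in4, e, map_zpow, pr4_c4]
      group)
    (fun e => hn (by simpa using Th4_inj e))
  obtain ⟨l, hl⟩ := c3z_even (m := n) (by
    have := congrArg par4 (hk 0)
    rw [← Th3_τ] at this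
    simp only [map_mul par4, map_inv par4, par4_Th4, par4_io, map_mul par3, par3_Th3, one_mul,
      mul_inv_cancel_comm] at this
    exact this.symm)
  obtain ⟨a, π, hπ, ha⟩ := conj_by_Th4 (g := inl k) (by rw [kh4_inl, kk])
  refine ⟨in4 b * a, π, hπ, l, q, fun i => ?_⟩
  have := hk i
  rw [hl, ← Th3_τ, ← map_mul Th3, ← Th4_in23, ha, map_mul in23, map_zpow in23, in23, tr4_z4,
    tr4_τ] at this
  have e := congrArg (fun y => in4 b * (y * c4 ^ q) * (in4 b)⁻¹) (Th4_inj this)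
  rw [mul_assoc _ a⁻¹, ← c4z q a⁻¹] at e
  rw [map_mul (gr π hπ) _ (c4 ^ q), map_zpow _ c4, gr_c4]
  simpa [mul_assoc, -map_zpow] using e

theorem fold4A {T : Fin 3 → AD4} (R : Rels edges4 T) (hr : pr4 (T 0) = pr4 (T 2))
    (hn : T 0 ≠ T 2) : ∃ (a : AD4) (π : Equiv.Perm (Fin 4)) (hπ : π 1 = 1) (ε m q : ℤ),
      (ε = 1 ∨ ε = -1) ∧
      ∀ i, T i = a * gr π hπ (![s4 2, s4 1, s4 3] i ^ ε * zz 2 3 ^ m * c4 ^ q) * a⁻¹ := by
  obtain ⟨g, ε, m, hε, h⟩ := nf_tri (R.map Th4) (fun _ => ok_Th4 _) hr fun h => hn (Th4_inj h)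
  simp only [Th4_right] at h
  rcases hε with rfl | rfl
  · obtain ⟨a, π, hπ, n, q, k⟩ := pos4 R hr hn (by simpa only [zpow_one] using h)
    exact ⟨a, π, hπ, 1, n, q, Or.inl rfl, by simpa only [zpow_one] using k⟩
  · obtain ⟨a, π, hπ, n, q, k⟩ := pos4 R.inv (by simp only [map_inv, hr])
      (fun e => hn (inv_inj.1 e)) fun i => by
        rw [map_inv, map_inv]
        exact inv_nf (h i)
    refine ⟨a, π, hπ, -1, -n, -q, Or.inr rfl, fun i => ?_⟩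
    have c : Commute (zz 2 3) (![s4 2, s4 1, s4 3] i) := by
      fin_cases i <;> exact zz_comm (by decide) (by decide) (by decide) (by decide)
    rw [inv_eq_iff_eq_inv.1 (k i), ← (c.zpow_left n).eq, ← c4z q, conj_inv, ← map_inv]
    simp [mul_assoc, -map_mul, -map_inv, -map_zpow]

end Pool.Agent.P.MP_5aeb4a_al
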