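import Pool.Agent.P.MP_5aeb4a_al.EG4

/-! The two rigid families of endomorphisms of `A[D₄]`. -/

set_option autoImplicit false

namespace Pool.Agent.P.MP_5aeb4a_al

/-- The leaves are folded into two leaves. -/
def GdII (t : Fin 4 → AD4) : Prop :=
  ∃ (f : Fin 4 → Fin 4) (i j : Fin 4) (a : AD4) (ε m q : ℤ), (ε = 1 ∨ ε = -1) ∧ i ≠ 1 ∧ j ≠ 1 ∧
    i ≠ j ∧ f 1 = 1 ∧ (∀ l, l ≠ 1 → f l = i ∨ f l = j) ∧
    ∀ l, t l = a * (s4 (f l) ^ ε * zz i j ^ m * c4 ^ q) * a⁻¹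

/-- The leaves are permuted. -/
def GdIII (t : Fin 4 → AD4) : Prop :=
  ∃ (f : Equiv.Perm (Fin 4)) (a : AD4) (ε q : ℤ), (ε = 1 ∨ ε = -1) ∧ f 1 = 1 ∧
    ∀ l, t l = a * (s4 (f l) ^ ε * c4 ^ q) * a⁻¹

def Gd (t : Fin 4 → AD4) : Prop := GdII t ∨ GdIII t

end Pool.Agent.P.MP_5aeb4a_al
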