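import Pool.Agent.P.MP_5aeb4a_al.EG4

/-! Lifts of the identity of the braid group on four strands. -/

set_option autoImplicit false

namespace Pool.Agent.P.MP_5aeb4a_al

open SemidirectProduct

theorem p4_zero {j : ℤ} (h : p4 ^ j = 1) : j = 0 := by
  have h3 := len_p4_zpow j
  rw [h] at h3
  have : len 1 = 0 := rfl
  omega

theorem no_root {g : G4} (hk : kh4 g = g) (hp : par4 g = 1) (hr : g.right = τ 0 * τ 1 * τ 2) :
    g ^ 4 ≠ cc4 := by
  intro h
  have h1 := congrArg (fun t => chi 1 (SemidirectProduct.left t)) h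
  simp only [pow_succ, pow_zero, one_mul, mul_left, mul_right, hr, map_mul (chi 1)] at h1
  have h2 : ∀ u : K, chi 1 u * chi 1 (ac4 (τ 0 * τ 1 * τ 2) u) *
      chi 1 (ac4 (τ 0 * τ 1 * τ 2 * (τ 0 * τ 1 * τ 2)) u) *
      chi 1 (ac4 (τ 0 * τ 1 * τ 2 * (τ 0 * τ 1 * τ 2) * (τ 0 * τ 1 * τ 2)) u) = sg (kap4 u) :=
    fun u => DFunLike.congr_fun (khom_ext
      (f := chi 1 * (chi 1).comp (ac4 (τ 0 * τ 1 * τ 2)).toMonoidHom *
        (chi 1).comp (ac4 (τ 0 * τ 1 * τ 2 * (τ 0 * τ 1 * τ 2))).toMonoidHom *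
        (chi 1).comp (ac4 (τ 0 * τ 1 * τ 2 * (τ 0 * τ 1 * τ 2) * (τ 0 * τ 1 * τ 2))).toMonoidHom)
      (g := sg.comp kap4) (by decide)) u
  rw [h2, ← kh4_left, hk, ← par4_left, hp] at h1
  revert h1
  decide

theorem lift4 {T : Fin 3 → G4} (R : Rels edges4 T) (hk : ∀ i, kh4 (T i) = T i)
    (hp : ∀ i, par4 (T i) = 1) (hr : ∀ i, (T i).right = τ i) :
    ∃ (g : K) (a : ℤ), kap4 g = g ∧ ∀ i, T i = inl g * (inl (p4 ^ a) * inr (τ i)) * (inl g)⁻¹ := by
  have hs : ∀ i, R.lift (τ i) = T i := R.lift_of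
  generalize R.lift = ψ at hs
  simp only [← hs] at hr hk hp ⊢
  have hk' : ∀ a, kh4 (ψ a) = ψ a := fun a =>
    DFunLike.congr_fun (text (f := kh4.comp ψ) (g := ψ) hk) a
  have hp' : ∀ a, par4 (ψ a) = 1 := fun a =>
    DFunLike.congr_fun (text (f := par4.comp ψ) (g := 1) hp) a
  have hR : ∀ a, (ψ a).right = a := fun a =>
    DFunLike.congr_fun (text (f := rightHom.comp ψ) (g := MonoidHom.id _) hr) a
  obtain ⟨v, hv⟩ : ∃ v : K, ψ z4 * cc4⁻¹ = inl v := ⟨_, eq_inl4 (by simp [hR, cc4])⟩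
  have q1 : v ≠ 1 := fun h => by
    rw [h, map_one, mul_inv_eq_one, z4, map_pow] at hv
    exact no_root (hk' _) (hp' _) (hR _) hv
  have q0 : kap4 v = v := inl_injective (by
    rw [← kh4_inl, ← hv, map_mul, map_inv, hk', kh4_cc4])
  have q2 : ∀ a, (ψ a).left * ac4 a v = v * (ψ a).left := fun a => by
    have h1 : Commute (ψ a) (ψ z4) := Commute.map (z4_comm a).symm ψ
    have h2 : Commute (ψ a) cc4 := (cc4_comm (hk' _)).symm
    have h3 := (h1.mul_right h2.inv_right).eq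
    rw [hv] at h3
    simpa [hR] using congrArg SemidirectProduct.left h3
  have q3 : ∀ a, IsConj (ac4 a v) v := fun a =>
    isConj_iff.2 ⟨_, mul_inv_eq_iff_eq_mul.2 (q2 a)⟩
  obtain ⟨g, j, hj, hg⟩ := lemA4 (q0 ▸ in_kap4 v) (fun i hi => by
    have : i = 1 ∨ i = 2 ∨ i = 3 := by revert i; decide
    rcases this with rfl | rfl | rfl
    exacts [q3 (τ 2), q3 (τ 1), q3 (τ 0)]) q1
  have hg' := congrArg kap4 hg
  rw [map_mul, map_mul, map_pow, map_inv, q0, map_zpow, kap4_x.2.2] at hg'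
  generalize hw : kap4 g = w at hg'
  have w0 : kap4 w = w := by rw [← hw, kap4_kap4]
  have h1 : ∀ a, ∃ m : ℤ, (inl w * ψ a * (inl w)⁻¹ : G4).left = p4 ^ m := fun a => by
    have c1 : Commute (ψ a) (inl v) := SemidirectProduct.ext (by simpa [hR] using q2 a) (by simp)
    have c2 := (c1.pow_right 8).conj (inl w)
    rw [← map_pow, ← map_inv, ← map_mul, ← map_mul, hg', map_inv] at c2
    have := congrArg SemidirectProduct.left c2.eq
    rw [mul_left, mul_left (inl _), left_inl, right_inl, map_one, MulAut.one_apply, map_zpow,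
      ac4_p4] at this
    exact cent4 hj (mul_inv_eq_iff_eq_mul.2 this)
  choose m hm using h1
  have R' := (rels_τ.map ψ).map (MulAut.conj (inl w : G4)).toMonoidHom
  have h2 : ∀ i k : Fin 3, (i, k) ∈ edges4 → m (τ i) = m (τ k) := fun i k e => by
    have := congrArg SemidirectProduct.left ((R' i k).1 e)
    simp only [MulEquiv.coe_toMonoidHom, MulAut.conj_apply] at this
    rw [mul_left (_ * _) (_ * _ * _), mul_left (_ * _ * _) (_ * _ * _),
      mul_left (_ * _) (_ * _ * _), mul_left (_ * _ * _) (_ * _ * _)] at this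
    simp only [hm, map_zpow, ac4_p4, ← zpow_add] at this
    have h3 := p4_zero (j := m (τ i) + m (τ k) + m (τ i) - (m (τ k) + m (τ i) + m (τ k))) (by
      rw [zpow_sub, this, mul_inv_cancel])
    omega
  refine ⟨w⁻¹, m (τ 0), by rw [map_inv, w0], fun i => ?_⟩
  have h3 : m (τ i) = m (τ 0) := by
    have e1 := h2 0 1 (by decide)
    have e2 := h2 1 2 (by decide)
    fin_cases i
    exacts [rfl, e1.symm, (e1.trans e2).symm]
  have h4 : (inl w * ψ (τ i) * (inl w)⁻¹ : G4) = inl (p4 ^ m (τ 0)) * inr (τ i) :=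
    SemidirectProduct.ext (by rw [hm, h3]; simp [-map_zpow]) (by simp [hR, -map_zpow])
  rw [← h4, map_inv]
  group

end Pool.Agent.P.MP_5aeb4a_al
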