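import Pool.Agent.P.MP_5aeb4a_al.E5
import Pool.Agent.P.MP_5aeb4a_al.ES4
import Pool.Agent.P.MP_5aeb4a_al.EGd

/-! The third leaf. -/

set_option autoImplicit false

namespace Pool.Agent.P.MP_5aeb4a_al

open SemidirectProduct

theorem e6_odd {i : Fin 4} {m : ℤ} :
    alh i (r i ^ m * x i.castSucc) = r i * (r i ^ m * x i.castSucc) := by
  rw [alh_odd, add_comm, zpow_one_add, mul_assoc]

theorem e6_fix {i : Fin 4} {g : K} (h : In (bl i) i.castSucc g) (e : alh i g = g) :
    ∃ m : ℤ, g = r i ^ m := by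
  obtain ⟨m, hm | hm⟩ := in_form h
  · exact ⟨m, hm⟩
  · rw [hm, e6_odd] at e
    exact absurd (mul_eq_right.1 e) (r_ne_one i)

theorem third {y : B4} (h0 : y * τ 0 = τ 0 * y) (h2 : y * τ 2 = τ 2 * y)
    (h1 : y * τ 1 * y = τ 1 * y * τ 1) : y = τ 0 ∨ y = τ 2 := by
  by_cases hn : y = τ 0
  · exact Or.inl hn
  right
  have R : Rels edges4 ![τ 0, τ 1, y] := fun a b => by
    refine ⟨fun e => ?_, fun e e' => ?_⟩
    · fin_cases a <;> fin_cases b <;>
        first | exact absurd e (by decide) | exact (rels_τ 0 1).1 (by decide) | exact h1.symm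
    · fin_cases a <;> fin_cases b <;>
        first | rfl | exact absurd (by decide) e | exact absurd (by decide) e' | exact h0 |
          exact h0.symm
  have e : r4 (τ 0) = r4 y := fold3 (R.map r4)
  obtain ⟨g, -, hg⟩ := tri3 (R.map Th3) (fun i => kh_Th3 _) (fun i => by
    fin_cases i
    exacts [r4_τ 0, r4_τ 1, e.symm.trans (r4_τ 0)]) (fun e => hn (Th3_inj e).symm)
  have g0 : Th3 (τ 0) = inl g * th3 0 * (inl g)⁻¹ := hg 0
  have g2 : Th3 y = inl g * th3 2 * (inl g)⁻¹ := hg 2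
  have f0 : alh 3 g = g := by
    have := congrArg SemidirectProduct.left g0
    rw [Th3_τ] at this
    simp only [th3, Matrix.cons_val_zero, mul_left, mul_right, left_inl, right_inl, left_inr,
      right_inr, map_one, mul_one, one_mul, ← map_inv, act3_0, al_apply] at this
    rw [map_inv, eq_comm, mul_inv_eq_one] at this
    exact this.symm
  have t2 : th3 2 = inl (r 3)⁻¹ * inr (υ 0) := rfl
  have g3 : Th3 y = inl (g * (r 3)⁻¹ * g⁻¹) * inr (υ 0) := by
    rw [g2, t2]
    exact SemidirectProduct.ext (by simp [act3_0, al_apply, f0]) (by simp)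
  have c := congrArg (fun a => (Th3 a).left) h2
  beta_reduce at c
  rw [map_mul, map_mul, g3, Th3_τ, t2] at c
  simp only [mul_left, mul_right, left_inl, right_inl, left_inr, right_inr, map_one, mul_one,
    one_mul, act3_0, al_apply] at c
  simp only [map_mul, map_inv, alh_r, f0] at c
  have i1 : In (bl 3) (3 : Fin 4).castSucc (g * (r 3)⁻¹ * g⁻¹) :=
    maln (in_r 3).inv (inv_ne_one.2 (r_ne_one 3)) (by
      rw [c, mul_inv_cancel_right]
      exact (in_r 3).inv)
  obtain ⟨m, hm⟩ := e6_fix (maln (in_r 3).inv (inv_ne_one.2 (r_ne_one 3)) i1) f0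
  apply Th3_inj
  rw [g3, Th3_τ, t2, hm, ← (Commute.zpow_self (r 3) m).inv_right.eq.symm, mul_inv_cancel_right]

def e6_ret : K →* K := klift (fun j => if 3 ≤ j then x j else 1) (by decide)

theorem e6_nc {q : K} {i n : ℤ} (h : q⁻¹ * p4 ^ i * q = r 3 ^ n) : i = 0 := by
  by_contra hi
  have e : e6_ret p4 = r 3 ∧ e6_ret (r 3) = r 3 := by decide
  have h1 := congrArg e6_ret h
  rw [map_mul, map_mul, map_zpow, map_zpow, map_inv, e.1, e.2, ← h] at h1
  obtain ⟨g, hg⟩ : ∃ g : K, g * r 3 ^ i * g⁻¹ = p4 ^ i := ⟨q * (e6_ret q)⁻¹, by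
    have := congrArg (fun t => q * t * q⁻¹) h1
    simpa [mul_assoc] using this⟩
  obtain ⟨m, hm⟩ : ∃ m : ℕ, i.natAbs = m + 1 := ⟨i.natAbs - 1, by omega⟩
  have h2 : g * r 3 ^ (m + 1) * g⁻¹ = p4 ^ (m + 1) := by
    rw [← hm, ← zpow_natCast, ← zpow_natCast]
    rcases Int.natAbs_eq i with e | e
    · rw [← e, hg]
    · have : (i.natAbs : ℤ) = -i := by omega
      rw [this, zpow_neg, zpow_neg, ← conj_inv, hg]
  have h3 := ((cr_ps4 0).cr_pow m).len_le (isConj_iff.2 ⟨g, h2⟩)
  rw [len_ps4, ((cr_r 3).pow m).1, len_r] at h3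
  omega

theorem e6_inP {β : Lt → Lt} {k : Lt} {l u : K} (h : ∀ j ∈ u.l, β j ≠ k) : InP β k l u := by
  rw [← ev_self u]
  generalize u.l = m at h ⊢
  induction m with
  | nil => exact InP.one
  | cons i m ih =>
    rw [ev_cons]
    exact (inP_x (h i (by simp))).mul (ih fun j hj => h j (List.mem_cons_of_mem _ hj))

theorem e6_one {g : K} (h : In (bl 3) (3 : Fin 4).castSucc (g⁻¹ * alh 1 g)) : alh 1 g = g := by
  have fx : ∀ y, InP (bl 1) (1 : Fin 4).castSucc (r 1) y → alh 1 y = y := fun y hy =>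
    hy.fix (alh_r 1) (by decide)
  refine fx g (by_contra fun hy => ?_)
  have k1 : ∀ j, bl 3 j = (3 : Fin 4).castSucc → bl 1 j ≠ (1 : Fin 4).castSucc := by decide
  have k2 : ∀ j, bl 3 j = (3 : Fin 4).castSucc → chi 1 (x j) = 1 := by decide
  obtain ⟨q, s, c, hs, hs', -, -, e, e'⟩ := blk_lem (in_r 1) (resp_al 1) fx InP.one
    (e6_inP fun j hj => k1 j (h j hj)) (by rw [one_mul, mul_inv_cancel_left]) hy
  rw [mul_one, inv_mul_cancel] at e
  subst e
  obtain ⟨m, rfl | rfl⟩ := in_form hs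
  · exact hs' (Subgroup.zpow_mem_zpowers _ _)
  rw [e6_odd, one_mul, mul_one] at e'
  rcases e' with e' | e'
  · exact r_ne_one 1 (mul_eq_right.1 e')
  · have h1 := isConj_iff_eq.1 ((chi 1).map_isConj e')
    rw [hom_eq_of_letters (g := 1) fun j hj => k2 j (h j hj), map_mul (chi 1),
      map_mul (chi 1) (r 1), map_inv (chi 1), mul_comm (chi 1 (r 1)), inv_mul_cancel_left,
      MonoidHom.one_apply] at h1
    exact absurd h1 (by decide)

theorem e6_core {U : Fin 4 → G4} (R : Rels edgesD4 U) (ok : ∀ i, Ok (U i))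
    (hr : (U 3).right = τ 0) {a : ℤ} (h0 : U 0 = inl (p4 ^ a) * inr (τ 2))
    (h1 : U 1 = inl (p4 ^ a) * inr (τ 1)) (h2 : U 2 = inl (p4 ^ a) * inr (τ 0)) (hn : U 2 ≠ U 3) :
    ∃ g : K, kap4 g = g ∧ ∀ i, U i = inl g * th4 i * (inl g)⁻¹ := by
  have a0 : a = 0 := by
    by_contra a0
    obtain ⟨k, hk⟩ : ∃ k : K, U 3 = inl (k * p4 ^ a) * inr (τ 0) :=
      ⟨(U 3).left * (p4 ^ a)⁻¹, SemidirectProduct.ext (by simp [-map_zpow]) (by simp [hr])⟩
    have q : p4 ^ a * alh 3 k = k * p4 ^ a := by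
      have := congrArg SemidirectProduct.left (R.cm4 (i := 2) (j := 3) (by decide) (by decide))
      rw [hk, h2] at this
      simp only [mul_left, mul_right, left_inl, right_inl, left_inr, right_inr, map_one, mul_one,
        one_mul] at this
      rw [map_mul, map_zpow, ac4_p4, ← mul_assoc, ac4_0, al_apply] at this
      exact mul_right_cancel this
    have fx : ∀ y, InP (bl 3) (3 : Fin 4).castSucc (r 3) y → alh 3 y = y := fun y hy =>
      hy.fix (alh_r 3) (by decide)
    have pP : InP (bl 3) (3 : Fin 4).castSucc (r 3) (p4 ^ a) := by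
      have : p4 = x 1 * x 2 * r 3 := by decide
      rw [this]
      exact (((inP_x (by decide)).mul (inP_x (by decide))).mul
        (inP_blk (in_r 3) fun _ => Subgroup.mem_zpowers _)).zpow a
    by_cases hy : InP (bl 3) (3 : Fin 4).castSucc (r 3) k
    · rw [fx k hy] at q
      obtain ⟨l, rfl⟩ := cent4 (g := k) a0 (by rw [← q, mul_inv_cancel_right])
      have := congrArg SemidirectProduct.left (R.br4 (i := 3) (by decide))
      rw [hk, h1, ← zpow_add] at this
      simp only [mul_left, left_inl, left_inr, map_one, mul_one] at this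
      simp only [map_zpow, ac4_p4, ← zpow_add] at this
      have h3 := p4_zero (j := l + a + a + (l + a) - (a + (l + a) + a)) (by
        rw [zpow_sub, this, mul_inv_cancel])
      have l0 : l = 0 := by omega
      rw [l0, zpow_zero, one_mul, ← h2] at hk
      exact hn hk.symm
    · obtain ⟨q, -, c, -, -, hc, -, e, -⟩ := blk_lem (in_r 3) (resp_al 3) fx pP pP q hy
      obtain ⟨n, rfl⟩ := Subgroup.mem_zpowers_iff.1 hc
      exact a0 (e6_nc e)
  subst a0
  simp only [zpow_zero, map_one, one_mul] at h0 h1 h2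
  obtain ⟨g, kg, hg⟩ := fold4 (R.tri (i := 2) (j := 3) (by decide) (by decide)) (m := 0)
    (fun i => by
      fin_cases i
      exacts [ok 2, ok 1, ok 3])
    (fun i => by
      rw [zpow_zero, mul_one, inc3_υ]
      fin_cases i
      exacts [congrArg SemidirectProduct.right h2, congrArg SemidirectProduct.right h1, hr]) hn
  simp only [zpow_zero, mul_one] at hg
  have g2 : U 2 = inl g * th4 2 * (inl g)⁻¹ := io_th3.1 ▸ hg 0
  have g1 : U 1 = inl g * th4 1 * (inl g)⁻¹ := io_th3.2.1 ▸ hg 1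
  have g3 : U 3 = inl g * th4 3 * (inl g)⁻¹ := io_th3.2.2 ▸ hg 2
  have t2 : th4 2 = inr (τ 0) := rfl
  have t3 : th4 3 = inl (r 3)⁻¹ * inr (τ 0) := rfl
  have f0 : alh 3 g = g := by
    have := congrArg SemidirectProduct.left g2
    rw [h2, t2] at this
    simp only [mul_left, mul_right, left_inl, right_inl, left_inr,
      right_inr, map_one, mul_one, one_mul, ← map_inv, ac4_0, al_apply] at this
    rw [map_inv, eq_comm, mul_inv_eq_one] at this
    exact this.symm
  have g4 : U 3 = inl (g * (r 3)⁻¹ * g⁻¹) * inr (τ 0) := by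
    rw [g3, t3]
    exact SemidirectProduct.ext (by simp [ac4_0, al_apply, f0]) (by simp)
  have c := congrArg SemidirectProduct.left (R.cm4 (i := 0) (j := 3) (by decide) (by decide))
  have e1 : alh 1 (r 3) = r 3 := by decide
  simp only [h0, g4, mul_left, left_inl, left_inr, right_inr, map_one, mul_one, one_mul, ac4_2,
    al_apply] at c
  rw [map_mul, map_mul, map_inv, map_inv, e1] at c
  have f1 : alh 1 g = g := e6_one (maln (in_r 3).inv (inv_ne_one.2 (r_ne_one 3)) (by
    have := congrArg (fun t => g⁻¹ * t * g) c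
    simp only [mul_assoc, inv_mul_cancel_left, inv_mul_cancel, mul_one] at this
    simp only [mul_assoc, mul_inv_rev, inv_inv, this]
    exact (in_r 3).inv))
  refine ⟨g, kg, fun i => ?_⟩
  fin_cases i
  · change U 0 = inl g * inr (τ 2) * (inl g)⁻¹
    rw [h0]
    exact SemidirectProduct.ext (by simp [ac4_2, al_apply, f1]) (by simp)
  exacts [g1, g2, g3]

theorem core4 {t : Fin 4 → AD4} (R : Rels edgesD4 t) (hr : ∀ i, pr4 (t i) = τ (f4 i)) : Gd t := by
  have RT := R.map Th4
  obtain ⟨g, a, kg, hg⟩ := lift4 (RT.tri (i := 2) (j := 0) (by decide) (by decide))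
    (fun i => by fin_cases i <;> exact kh4_Th4 _) (fun i => by fin_cases i <;> exact par4_Th4 _)
    (fun i => by
      fin_cases i
      exacts [hr 2, hr 1, hr 0])
  have g2 : Th4 (t 2) = inl g * (inl (p4 ^ a) * inr (τ 0)) * (inl g)⁻¹ := hg 0
  have g1 : Th4 (t 1) = inl g * (inl (p4 ^ a) * inr (τ 1)) * (inl g)⁻¹ := hg 1
  have g0 : Th4 (t 0) = inl g * (inl (p4 ^ a) * inr (τ 2)) * (inl g)⁻¹ := hg 2
  by_cases hn : t 2 = t 3
  · left
    obtain ⟨b, π, hπ, hb⟩ := conj_by_Th4 (g := inl g) (by rw [kh4_inl, kg])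
    have e1 : (inl p4 : G4) = Th4 (zz 2 0 * c4⁻¹) := by
      rw [map_mul, map_inv, Th4_zz20, Th4_c4, eq_mul_inv_iff_mul_eq, cc4, ← mul_assoc, ← map_mul]
      simp
    have e2 : ∀ l : Fin 4, l = 2 ∨ l = 0 ∨ l = 1 →
        inl (p4 ^ a) * Th4 (s4 l) = Th4 (s4 l ^ (1 : ℤ) * zz 2 0 ^ a * c4 ^ (-a)) := fun l hl => by
      have c1 : Commute (zz 2 0) (s4 l) := zz_comm (by decide) (by decide) (by decide) hl
      have c2 : ∀ y, Commute c4⁻¹ y := fun y => Commute.inv_left (c4_comm y)
      rw [map_zpow, e1, ← map_zpow, ← map_mul, ((c1.mul_left (c2 _)).zpow_left a).eq,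
        (c2 _).symm.mul_zpow, zpow_one, inv_zpow', mul_assoc]
    have e3 : ∀ l, Th4 (t l) = inl g * (inl (p4 ^ a) * Th4 (s4 (![0, 1, 2, 2] l))) * (inl g)⁻¹ :=
      fun l => by
        rw [Th4_s]
        fin_cases l
        exacts [g0, g1, g2, (congrArg Th4 hn.symm).trans g2]
    refine ⟨fun l => π (![0, 1, 2, 2] l), π 2, π 0, b, 1, a, -a, Or.inl rfl,
      perm_ne hπ _ (by decide), perm_ne hπ _ (by decide), π.injective.ne (by decide), hπ,
      fun l hl => ?_, fun l => Th4_inj ?_⟩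
    · fin_cases l
      exacts [Or.inr rfl, absurd rfl hl, Or.inl rfl, Or.inl rfl]
    · rw [e3, e2 _ (by revert l; decide), hb]
      simp only [map_mul, map_zpow, gr_s, gr_zz, gr_c4]
  · right
    have R1 := RT.map (MulAut.conj (inl g : G4)⁻¹).toMonoidHom
    simp only [MulEquiv.coe_toMonoidHom, MulAut.conj_apply, inv_inv] at R1
    obtain ⟨u, ku, hu⟩ := e6_core R1 (a := a)
      (fun i => ⟨by simp only [map_mul, map_inv, kh4_inl, kg, kh4_Th4], by
        rw [map_mul, map_mul, map_inv, par4_Th4, mul_one, inv_mul_cancel]⟩)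
      (by simp [Th4_right, hr, f4])
      (by rw [g0]; simp only [mul_assoc, inv_mul_cancel_left, inv_mul_cancel, mul_one])
      (by rw [g1]; simp only [mul_assoc, inv_mul_cancel_left, inv_mul_cancel, mul_one])
      (by rw [g2]; simp only [mul_assoc, inv_mul_cancel_left, inv_mul_cancel, mul_one])
      (fun e => hn (Th4_inj (mul_left_cancel (mul_right_cancel e))))
    obtain ⟨b, π, hπ, hb⟩ := conj_by_Th4 (g := inl g * inl u) (by
      rw [map_mul, kh4_inl, kh4_inl, kg, ku])
    refine ⟨π, b, 1, 0, Or.inl rfl, hπ, fun l => Th4_inj ?_⟩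
    rw [zpow_one, zpow_zero, mul_one, ← gr_s π hπ, ← hb, Th4_s]
    have := congrArg (fun y => inl g * y * (inl g)⁻¹) (hu l)
    simpa only [mul_assoc, mul_inv_cancel_left, mul_inv_cancel, mul_one, mul_inv_rev] using this

end Pool.Agent.P.MP_5aeb4a_al
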