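import Pool.Agent.P.MP_5aeb4a_al.EK4

/-! The filtration of the group algebra by the powers of an augmentation module. -/

set_option autoImplicit false

namespace Pool.Agent.P.MP_5aeb4a_al

section abstract

variable {R : Type} [Ring R] [Algebra ℂ R] {I : Submodule ℂ R} {Θ Θ' : R →ₐ[ℂ] R}

/-- The powers `I, I², …`. -/
def Fil (I : Submodule ℂ R) : ℕ → Submodule ℂ R
  | 0 => I
  | r + 1 => Fil I r * I

theorem fil_mul {r : ℕ} {a b : R} (ha : a ∈ Fil I r) (hb : b ∈ I) : a * b ∈ Fil I (r + 1) :=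
  Submodule.mul_mem_mul ha hb

theorem fil_mul2 {r : ℕ} {a b : R} (ha : a ∈ Fil I r) (hb : b ∈ Fil I 1) :
    a * b ∈ Fil I (r + 2) := by
  have : Fil I (r + 2) = Fil I r * (I * I) := mul_assoc _ _ _
  rw [this]
  exact Submodule.mul_mem_mul ha hb

theorem fil_anti (h : I * I ≤ I) (r : ℕ) : Fil I (r + 1) ≤ Fil I r := by
  induction r with
  | zero => exact h
  | succ r ih => exact Submodule.mul_le.2 fun a ha b hb => fil_mul (ih ha) hb

theorem fil_le (h : I * I ≤ I) (r : ℕ) : Fil I r ≤ I := by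
  induction r with
  | zero => exact le_rfl
  | succ r ih => exact (fil_anti h r).trans ih

theorem fil_map (h : ∀ w ∈ I, Θ w ∈ I) (r : ℕ) : ∀ w ∈ Fil I r, Θ w ∈ Fil I r := by
  induction r with
  | zero => exact h
  | succ r ih =>
    intro w hw
    refine Submodule.mul_induction_on hw (fun a ha b hb => ?_) fun a b ha hb => ?_
    · rw [map_mul]
      exact fil_mul (ih a ha) (h b hb)
    · rw [map_add]
      exact add_mem ha hb

theorem fil_sub (h1 : ∀ w ∈ I, Θ w ∈ I) (h2 : ∀ w ∈ I, Θ' w ∈ I)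
    (h : ∀ w ∈ I, Θ w - Θ' w ∈ Fil I 1) (r : ℕ) :
    ∀ w ∈ Fil I r, Θ w - Θ' w ∈ Fil I (r + 1) := by
  induction r with
  | zero => exact h
  | succ r ih =>
    intro w hw
    refine Submodule.mul_induction_on hw (fun a ha b hb => ?_) fun a b ha hb => ?_
    · have : Θ (a * b) - Θ' (a * b) = (Θ a - Θ' a) * Θ b + Θ' a * (Θ b - Θ' b) := by
        rw [map_mul, map_mul]
        noncomm_ring
      rw [this]
      exact add_mem (fil_mul (ih a ha) (h1 b hb)) (fil_mul2 (fil_map h2 r a ha) (h b hb))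
    · have : Θ (a + b) - Θ' (a + b) = (Θ a - Θ' a) + (Θ b - Θ' b) := by
        rw [map_add, map_add]
        abel
      rw [this]
      exact add_mem ha hb

/-- Eigenvectors in the graded piece. -/
def Eig (I : Submodule ℂ R) (Θ : R →ₐ[ℂ] R) (r : ℕ) : Set R :=
  {w | w ∈ Fil I r ∧ ∃ t : ℂ, Θ w - t • w ∈ Fil I (r + 1)}

theorem fil_eig (h : ∀ w ∈ I, Θ w ∈ I) (h0 : I ≤ Submodule.span ℂ (Eig I Θ 0)) (r : ℕ) :
    Fil I r ≤ Submodule.span ℂ (Eig I Θ r) := by
  induction r with
  | zero => exact h0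
  | succ r ih =>
    refine (mul_le_mul' ih h0).trans ?_
    rw [Submodule.span_mul_span]
    refine Submodule.span_mono ?_
    rintro _ ⟨a, ⟨a1, t, a2⟩, b, ⟨b1, u, b2⟩, rfl⟩
    refine ⟨fil_mul a1 b1, t * u, ?_⟩
    have : Θ (a * b) - (t * u) • (a * b) = (Θ a - t • a) * Θ b + t • (a * (Θ b - u • b)) := by
      rw [map_mul, sub_mul, mul_sub, smul_sub, smul_mul_assoc, mul_smul_comm, smul_smul]
      abel
    change Θ (a * b) - (t * u) • (a * b) ∈ _
    rw [this]
    exact add_mem (fil_mul a2 (h b b1)) (Submodule.smul_mem _ _ (fil_mul2 a1 b2))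

theorem no_jordan0 {M : Type} [AddCommGroup M] [Module ℂ M] (T : Module.End ℂ M) {u v : M}
    (hv : v ∈ Submodule.span ℂ {w | ∃ t : ℂ, T w = t • w}) (h1 : T v = v - u) (h2 : T u = u) :
    u = 0 := by
  have k : ∀ w ∈ Submodule.span ℂ {w | ∃ t : ℂ, T w = t • w},
      w - T w ∈ ⨆ t ≠ (1 : ℂ), T.eigenspace t := by
    intro w hw
    induction hw using Submodule.span_induction with
    | mem w hw =>
      obtain ⟨t, ht⟩ := hw
      by_cases e : t = 1
      · simp [ht, e]
      · refine Submodule.mem_iSup_of_mem t (Submodule.mem_iSup_of_mem e ?_)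
        have : w ∈ T.eigenspace t := Module.End.mem_eigenspace_iff.2 ht
        exact sub_mem this (ht ▸ Submodule.smul_mem _ _ this)
    | zero => simp
    | add a b _ _ ha hb =>
      have : a + b - T (a + b) = (a - T a) + (b - T b) := by rw [map_add]; abel
      rw [this]
      exact add_mem ha hb
    | smul t a _ ha =>
      rw [map_smul, ← smul_sub]
      exact Submodule.smul_mem _ _ ha
  have k2 := k v hv
  rw [h1, sub_sub_cancel] at k2
  exact Submodule.disjoint_def.1 (T.eigenspaces_iSupIndep 1) u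
    (Module.End.mem_eigenspace_iff.2 (by rw [h2, one_smul])) k2

/-- The map induced on the quotient. -/
def qm (h : ∀ w ∈ I, Θ w ∈ I) (r : ℕ) : Module.End ℂ (R ⧸ Fil I r) :=
  (Fil I r).mapQ (Fil I r) Θ.toLinearMap (fil_map h r)

theorem qm_mk (h : ∀ w ∈ I, Θ w ∈ I) (r : ℕ) (w : R) :
    qm h r ((Fil I r).mkQ w) = (Fil I r).mkQ (Θ w) := rfl

theorem mk_eq {r : ℕ} {a b : R} : (Fil I r).mkQ a = (Fil I r).mkQ b ↔ a - b ∈ Fil I r :=
  Submodule.Quotient.eq _

theorem qm_eig (h : ∀ w ∈ I, Θ w ∈ I) (h0 : I ≤ Submodule.span ℂ (Eig I Θ 0)) {r : ℕ} {w : R}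
    (hw : w ∈ Fil I r) : (Fil I (r + 1)).mkQ w ∈
      Submodule.span ℂ {w | ∃ t : ℂ, qm h (r + 1) w = t • w} := by
  have := Submodule.mem_map_of_mem (f := (Fil I (r + 1)).mkQ) (fil_eig h h0 r hw)
  rw [Submodule.map_span] at this
  refine Submodule.span_mono ?_ this
  rintro _ ⟨a, ⟨-, t, a2⟩, rfl⟩
  exact ⟨t, by rw [qm_mk, ← map_smul, mk_eq]; exact a2⟩

theorem eig_of_cubic (h : ∀ w ∈ I, Θ w ∈ I) {t : ℂ} (t1 : t ≠ 2) (t2 : t ≠ -2)
    (hc : ∀ w ∈ I, Θ (Θ (Θ w)) - (t + 1) • Θ (Θ w) + (t + 1) • Θ w - w ∈ Fil I 1) :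
    I ≤ Submodule.span ℂ (Eig I Θ 0) := by
  obtain ⟨e, he⟩ := IsAlgClosed.exists_pow_nat_eq (t ^ 2 - 4) two_pos
  obtain ⟨a, b, hs, hp, hd⟩ : ∃ a b : ℂ, a + b = t ∧ a * b = 1 ∧ a - b = e :=
    ⟨(t + e) / 2, (t - e) / 2, by ring, by linear_combination -he / 4, by ring⟩
  have n1 : a - 1 ≠ 0 := fun z => t1 (by linear_combination -hs + hp + (1 - b) * z)
  have n2 : b - 1 ≠ 0 := fun z => t1 (by linear_combination -hs + hp + (1 - a) * z)
  have n3 : a - b ≠ 0 := fun z => by
    have e0 : e = 0 := by rw [← hd, z]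
    have : (t - 2) * (t + 2) = 0 := by linear_combination -he + e * e0
    rcases mul_eq_zero.1 this with z | z
    · exact t1 (by linear_combination z)
    · exact t2 (by linear_combination z)
  intro w hw
  have key : ∀ x y z : ℂ, x + y + z = t + 1 → x * y + x * z + y * z = t + 1 → x * y * z = 1 →
      Θ (Θ w) - (x + y) • Θ w + (x * y) • w ∈ Submodule.span ℂ (Eig I Θ 0) := by
    intro x y z e1 e2 e3
    refine Submodule.subset_span ⟨add_mem (sub_mem (h _ (h _ hw)) (I.smul_mem _ (h _ hw)))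
      (I.smul_mem _ hw), z, ?_⟩
    have : Θ (Θ (Θ w) - (x + y) • Θ w + (x * y) • w) -
        z • (Θ (Θ w) - (x + y) • Θ w + (x * y) • w) =
        Θ (Θ (Θ w)) - (t + 1) • Θ (Θ w) + (t + 1) • Θ w - w := by
      simp only [map_add, map_sub, map_smul]
      match_scalars
      · ring
      · linear_combination -e1
      · linear_combination e2
      · linear_combination -e3
    rw [this]
    exact hc w hw
  have k0 := key a b 1 (by linear_combination hs) (by linear_combination hs + hp)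
    (by linear_combination hp)
  have k1 := key 1 b a (by linear_combination hs) (by linear_combination hs + hp)
    (by linear_combination hp)
  have k2 := key 1 a b (by linear_combination hs) (by linear_combination hs + hp)
    (by linear_combination hp)
  have : w = ((a - 1) * (b - 1))⁻¹ • (Θ (Θ w) - (a + b) • Θ w + (a * b) • w) +
      ((a - 1) * (a - b))⁻¹ • (Θ (Θ w) - (1 + b) • Θ w + (1 * b) • w) -
      ((b - 1) * (a - b))⁻¹ • (Θ (Θ w) - (1 + a) • Θ w + (1 * a) • w) := by
    match_scalars <;> field_simp <;> ring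
  rw [this]
  exact sub_mem (add_mem (Submodule.smul_mem _ _ k0) (Submodule.smul_mem _ _ k1))
    (Submodule.smul_mem _ _ k2)

end abstract

section rep

variable (lt : ℕ → Option Lt)

/-- The operator attached to a letter. -/
def mo (i : Lt) : Module.End ℂ (ℕ → ℂ) where
  toFun f j := (-1) ^ j * f j + match j with
    | 0 => 0
    | j + 1 => if lt j = some i then f j else 0
  map_add' f g := by
    funext j
    cases j with
    | zero => simp
    | succ j => simp only [Pi.add_apply]; split_ifs <;> ring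
  map_smul' t f := by
    funext j
    cases j with
    | zero => simp
    | succ j => simp only [Pi.smul_apply, smul_eq_mul, RingHom.id_apply]; split_ifs <;> ring

theorem mo_zero (i : Lt) (f : ℕ → ℂ) : mo lt i f 0 = f 0 := by simp [mo]

theorem mo_succ (i : Lt) (f : ℕ → ℂ) (j : ℕ) :
    mo lt i f (j + 1) = (-1) ^ (j + 1) * f (j + 1) + if lt j = some i then f j else 0 := rfl

variable {lt} (hl : ∀ j i, lt j = some i → lt (j + 1) ≠ some i)
include hl

theorem mo_sq (i : Lt) : mo lt i * mo lt i = 1 := by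
  refine LinearMap.ext fun f => funext fun j => ?_
  rw [Module.End.mul_apply, Module.End.one_apply]
  have e : ∀ n : ℕ, ((-1 : ℂ) ^ n) * (-1) ^ n = 1 := fun n => by rw [← mul_pow]; simp
  rcases j with _ | _ | j
  · rw [mo_zero, mo_zero]
  · simp only [mo_succ, mo_zero]
    split_ifs <;> ring
  · simp only [mo_succ]
    have := e j
    split_ifs with h1 h2
    · exact absurd h1 (hl _ _ h2)
    · linear_combination f (j + 1 + 1) * this
    · linear_combination f (j + 1 + 1) * this

/-- The representation. -/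
def eta : K →* Module.End ℂ (ℕ → ℂ) :=
  (Units.coeHom _).comp (klift (fun i => ⟨mo lt i, mo lt i, mo_sq hl i, mo_sq hl i⟩)
    fun i => Units.ext (mo_sq hl i))

theorem eta_x (i : Lt) : eta hl (x i) = mo lt i := by
  rw [eta, MonoidHom.comp_apply, klift_x]
  rfl

theorem eta_fil (u : K) (m : ℕ) (f : ℕ → ℂ) (hf : ∀ j < m, f j = 0) :
    (∀ j < m, eta hl u f j = 0) ∧ eta hl u f m = (sg u : ℤ) ^ m * f m := by
  induction u using K.ind with
  | h1 => simpa using hf
  | hx i u ih =>
    rw [map_mul, map_mul, eta_x, Module.End.mul_apply, sg_x]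
    have k : ∀ j ≤ m, mo lt i (eta hl u f) j = (-1) ^ j * eta hl u f j := fun j hj => by
      cases j with
      | zero => simp [mo_zero]
      | succ j => rw [mo_succ, ih.1 j hj]; simp
    refine ⟨fun j hj => by rw [k j hj.le, ih.1 j hj, mul_zero], ?_⟩
    rw [k m le_rfl, ih.2]
    push_cast
    ring

theorem eta_top (s : List Lt) (hs : ∀ j < s.length, lt j = s.reverse[j]?) :
    eta hl (ev s) (Pi.single 0 1) s.length = 1 ∧
      ∀ j, s.length < j → eta hl (ev s) (Pi.single 0 1) j = 0 := by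
  induction s with
  | nil => exact ⟨by simp, fun j hj => by simp [Pi.single_apply]; omega⟩
  | cons i s ih =>
    obtain ⟨h1, h2⟩ := ih fun j hj => by
      rw [hs j (by simp; omega), List.reverse_cons, List.getElem?_append_left (by simpa using hj)]
    rw [ev_cons, map_mul, eta_x, Module.End.mul_apply, List.length_cons]
    refine ⟨?_, fun j hj => ?_⟩
    · rw [mo_succ, h1, h2 _ (by omega), if_pos]
      · ring
      · rw [hs _ (by simp)]
        simp
    · obtain ⟨j, rfl⟩ : ∃ n, j = n + 1 := ⟨j - 1, by omega⟩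
      rw [mo_succ, h2 _ (by omega), h2 _ (by omega)]
      simp

end rep

abbrev RK : Type := MonoidAlgebra ℂ K

noncomputable def og : K →* RK := MonoidAlgebra.of ℂ K

/-- The even elements without the letter `0`. -/
def Ev (f : K) : Prop := sg f = 1 ∧ In b4 1 f

theorem Ev.mul {f g : K} (hf : Ev f) (hg : Ev g) : Ev (f * g) :=
  ⟨by rw [map_mul, hf.1, hg.1, mul_one], hf.2.mul hg.2⟩

theorem Ev.inv {f : K} (hf : Ev f) : Ev f⁻¹ := ⟨by rw [map_inv, hf.1, inv_one], hf.2.inv⟩

noncomputable def I0 : Submodule ℂ RK := Submodule.span ℂ {w | ∃ f, Ev f ∧ w = og f - 1}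

theorem Ev.mem {f : K} (hf : Ev f) : og f - 1 ∈ I0 := Submodule.subset_span ⟨f, hf, rfl⟩

theorem og_mul (f g : K) : og (f * g) - 1 - (og f - 1 + (og g - 1)) = (og f - 1) * (og g - 1) := by
  rw [map_mul]
  noncomm_ring

theorem I0_mul : I0 * I0 ≤ I0 := by
  rw [I0, Submodule.span_mul_span, Submodule.span_le]
  rintro _ ⟨_, ⟨f, hf, rfl⟩, _, ⟨g, hg, rfl⟩, rfl⟩
  change (og f - 1) * (og g - 1) ∈ I0
  rw [← og_mul]
  exact sub_mem (hf.mul hg).mem (add_mem hf.mem hg.mem)

theorem resid {f : K} (h : f ≠ 1) : og f - 1 ∉ Fil I0 (len f) := by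
  have hl : ∀ j i, f.l.reverse[j]? = some i → f.l.reverse[j + 1]? ≠ some i := fun j i h1 h2 => by
    obtain ⟨a1, a2⟩ := List.getElem?_eq_some_iff.1 h1
    obtain ⟨b1, b2⟩ := List.getElem?_eq_some_iff.1 h2
    exact List.isChain_iff_getElem.1 (red_reverse f.red) j b1 (a2.trans b2.symm)
  let Φ : RK →ₐ[ℂ] Module.End ℂ (ℕ → ℂ) := MonoidAlgebra.lift ℂ _ K (eta hl)
  have e : ∀ u, Φ (og u) = eta hl u := fun u => MonoidAlgebra.lift_of _ _
  have k0 : ∀ w ∈ I0, ∀ m (g : ℕ → ℂ), (∀ j < m, g j = 0) → ∀ j < m + 1, Φ w g j = 0 := by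
    intro w hw m g hg j hj
    induction hw using Submodule.span_induction with
    | mem w hw =>
      obtain ⟨u, hu, rfl⟩ := hw
      obtain ⟨a1, a2⟩ := eta_fil hl u m g hg
      rw [map_sub, map_one, e, LinearMap.sub_apply, Pi.sub_apply, Module.End.one_apply]
      rcases Nat.lt_succ_iff_lt_or_eq.1 hj with hj | rfl
      · rw [a1 j hj, hg j hj, sub_zero]
      · rw [a2, hu.1]
        simp
    | zero => simp
    | add a b _ _ ha hb => rw [map_add, LinearMap.add_apply, Pi.add_apply, ha, hb, add_zero]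
    | smul t a _ ha => rw [map_smul, LinearMap.smul_apply, Pi.smul_apply, ha, smul_zero]
  have k : ∀ r, ∀ w ∈ Fil I0 r, ∀ m (g : ℕ → ℂ), (∀ j < m, g j = 0) →
      ∀ j < m + r + 1, Φ w g j = 0 := by
    intro r
    induction r with
    | zero => exact k0
    | succ r ih =>
      intro w hw
      refine Submodule.mul_induction_on hw (fun a ha b hb m g hg j hj => ?_)
        fun a b ha hb m g hg j hj => ?_
      · rw [map_mul, Module.End.mul_apply]
        exact ih a ha (m + 1) _ (k0 b hb m g hg) j (by omega)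
      · rw [map_add, LinearMap.add_apply, Pi.add_apply, ha m g hg j hj, hb m g hg j hj, add_zero]
  intro hf
  have h1 := k _ _ hf 0 (Pi.single 0 1) (by simp) (len f) (by omega)
  have h2 := (eta_top hl f.l fun _ _ => rfl).1
  have h3 : f.l.length ≠ 0 := fun e => h (l_eq_nil.1 (List.length_eq_zero_iff.1 e))
  rw [ev_self] at h2
  rw [map_sub, map_one, e, LinearMap.sub_apply, Pi.sub_apply, Module.End.one_apply, len, h2,
    Pi.single_eq_of_ne h3] at h1
  simp at h1

end Pool.Agent.P.MP_5aeb4a_al
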