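import Pool.Agent.P.MP_5aeb4a_al.Defs

/-! The Artin group of type `D₄`. -/

set_option autoImplicit false

namespace Pool.Agent.P.MP_5aeb4a_al

/-- The edges of the Coxeter graph `D₄` on the vertices `0, 1, 2, 3`; the centre is `1`. -/
def edgesD4 : List (Fin 4 × Fin 4) := [(0, 1), (1, 2), (1, 3)]

/-- The Artin group `A[D₄]`. -/
abbrev AD4 : Type := Artin edgesD4

/-- The standard generators of `A[D₄]`. -/
def s4 (i : Fin 4) : AD4 := PresentedGroup.of i

/-- The generator of the centre of `A[D₄]`. -/
def c4 : AD4 := (s4 0 * s4 1 * s4 2 * s4 3) ^ 3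

/-- For two different leaves `i, j`, the generator of the centre of the parabolic subgroup
generated by `s4 i, s4 1, s4 j`. -/
def zz (i j : Fin 4) : AD4 := (s4 i * s4 1 * s4 j) ^ 4

end Pool.Agent.P.MP_5aeb4a_al
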