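import Pool.Agent.P.MP_5aeb4a_al.K3

/-! The free product on the letters `1, 2, 3, 4`. -/

set_option autoImplicit false

namespace Pool.Agent.P.MP_5aeb4a_al

def e4 : Fin 4 → Lt := ![1, 2, 3, 4]

def ps4 (s : Fin 4) : K := x (e4 s) * x (e4 (s + 1)) * x (e4 (s + 2)) * x (e4 (s + 3))

def p4 : K := ps4 0

theorem p4_eq : p4 = x 1 * x 2 * x 3 * x 4 := rfl

def qs4 (s : Fin 4) : K := ev (List.take s.val [1, 2, 3])

theorem cr_ps4 : ∀ s, CR (ps4 s) := by
  unfold CR
  decide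

theorem len_ps4 (s : Fin 4) (j : ℕ) : len (ps4 s ^ (j + 1)) = (j + 1) * 4 := by
  have : ∀ s, len (ps4 s) = 4 := by decide
  rw [((cr_ps4 s).pow j).1, this]

theorem len_p4_zpow (j : ℤ) : len (p4 ^ j) = j.natAbs * 4 := by
  have h : ∀ n : ℕ, len (p4 ^ n) = n * 4 := fun n => by
    cases n with
    | zero => rfl
    | succ n => exact len_ps4 0 n
  rcases Int.natAbs_eq j with e | e
  · rw [← h, ← zpow_natCast, ← e]
  · rw [← h, ← zpow_natCast, ← len_inv (p4 ^ (j.natAbs : ℤ)), ← zpow_neg, ← e]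

theorem cent_aux4 (j : ℕ) (g : K) : ∀ s, g * ps4 s ^ (j + 1) * g⁻¹ = p4 ^ (j + 1) →
    ∃ m : ℤ, g = p4 ^ m * qs4 s := by
  induction h : len g using Nat.strong_induction_on generalizing g with
  | _ n ih =>
    intro s hs
    have f1 : ∀ s, hb id (ps4 s) = some (e4 s) := by decide
    have f2 : ∀ s, hb id (ps4 s)⁻¹ = some (e4 (s + 3)) := by decide
    have g1 : ∀ s, hb id (ps4 s ^ (j + 1)) = some (e4 s) := fun s => by
      rw [((cr_ps4 s).pow j).2, f1]
    have g2 : hb id (ps4 s ^ (j + 1))⁻¹ = some (e4 (s + 3)) := by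
      rw [← inv_pow, ((cr_ps4 s).inv.pow j).2, f2]
    cases e : hb id g⁻¹ with
    | none =>
      have hg : g = 1 := inv_eq_one.1 (hb_eq_none.1 e)
      subst hg
      have h2 := g1 s
      rw [one_mul, inv_one, mul_one] at hs
      rw [hs, p4, g1] at h2
      have h3 : ∀ s, some (e4 0) = some (e4 s) → 1 = p4 ^ (0 : ℤ) * qs4 s := by decide
      exact ⟨0, h3 s h2⟩
    | some i =>
      have hl : len (g * x i) < n := by
        have := (pop e).1
        rw [len_inv, ← len_inv, mul_inv_rev, inv_inv, x_inv] at this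
        omega
      have step : ∀ t, x i * ps4 s * (x i)⁻¹ = ps4 t → (∃ a : ℤ, qs4 t * x i = p4 ^ a * qs4 s) →
          ∃ m : ℤ, g = p4 ^ m * qs4 s := by
        rintro t ht ⟨a, ha⟩
        obtain ⟨m, hm⟩ := ih _ hl (g * x i) rfl t (by
          rw [← ht, conj_pow, ← hs]
          simp [mul_assoc])
        refine ⟨m + a, ?_⟩
        rw [zpow_add, mul_assoc, ← ha, ← mul_assoc, ← hm, mul_assoc, x_mul_x, mul_one]
      by_cases h1 : i = e4 s
      · subst h1
        have t1 : ∀ s, x (e4 s) * ps4 s * (x (e4 s))⁻¹ = ps4 (s + 1) := by decide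
        have t2 : ∀ s, qs4 (s + 1) * x (e4 s) = qs4 s ∨ qs4 (s + 1) * x (e4 s) = p4⁻¹ * qs4 s := by
          decide
        refine step (s + 1) (t1 s) ?_
        rcases t2 s with t | t
        · exact ⟨0, by simpa using t⟩
        · exact ⟨-1, by simpa using t⟩
      by_cases h2 : i = e4 (s + 3)
      · subst h2
        have t1 : ∀ s, x (e4 (s + 3)) * ps4 s * (x (e4 (s + 3)))⁻¹ = ps4 (s + 3) := by decide
        have t2 : ∀ s, qs4 (s + 3) * x (e4 (s + 3)) = qs4 s ∨
            qs4 (s + 3) * x (e4 (s + 3)) = p4 * qs4 s := by decide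
        refine step (s + 3) (t1 s) ?_
        rcases t2 s with t | t
        · exact ⟨0, by simpa using t⟩
        · exact ⟨1, by simpa using t⟩
      exfalso
      have h3 := conj_l (w := ps4 s ^ (j + 1)) e (fun h0 => by
        have := g1 s
        rw [h0, hb_one] at this
        cases this) (by rw [g1]; rintro ⟨rfl⟩; exact h1 rfl) (by rw [g2]; rintro ⟨rfl⟩; exact h2 rfl)
      rw [hs] at h3
      have h4 := congrArg List.length h3
      have h5 := len_ps4 s j
      have h6 := len_ps4 0 j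
      simp only [List.length_append, List.length_reverse] at h4
      unfold len at h h5 h6
      rw [← p4] at h6
      omega

theorem cent4 {g : K} {j : ℤ} (hj : j ≠ 0) (h : g * p4 ^ j * g⁻¹ = p4 ^ j) :
    ∃ m : ℤ, g = p4 ^ m := by
  obtain ⟨n, hn⟩ : ∃ n : ℕ, j.natAbs = n + 1 := ⟨j.natAbs - 1, by omega⟩
  have h1 : g * p4 ^ (n + 1) * g⁻¹ = p4 ^ (n + 1) := by
    rw [← hn, ← zpow_natCast]
    rcases Int.natAbs_eq j with e | e
    · rw [← e, h]
    · have : (j.natAbs : ℤ) = -j := by omega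
      rw [this, zpow_neg, ← conj_inv, h]
  obtain ⟨m, hm⟩ := cent_aux4 n g 0 h1
  exact ⟨m, by simpa [qs4] using hm⟩

def b4 (j : Lt) : Lt := if 1 ≤ j then 1 else j

def Inv4 (v : K) : Prop := ∀ i : Fin 4, 1 ≤ i → IsConj (alh i v) v

theorem Inv4.conj {u v : K} (h : Inv4 u) (c : IsConj u v) : Inv4 v := fun i hi =>
  (((alh i).map_isConj c).symm.trans (h i hi)).trans c

def Good4 (w : List Lt) : Prop := Red w ∧ CR (ev w) ∧ Inv4 (ev w) ∧ ∀ j ∈ w, 1 ≤ j

theorem Good4.rot {a b : Lt} {l : List Lt} (h : Good4 (a :: b :: l)) : Good4 (b :: l ++ [a]) := by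
  obtain ⟨h1, h2, h3, h4⟩ := h
  have e1 : Red (b :: l ++ [a]) := by
    refine List.isChain_append.2 ⟨h1.tail, List.IsChain.singleton a, fun s hs t ht e => ?_⟩
    have ht' : t = a := by simpa using (Option.mem_def.1 ht).symm
    subst ht' e
    refine h2 s ?_ (by rw [hb_ev h1]; rfl)
    rw [hb_ev_inv h1, List.getLast?_cons_cons, Option.mem_def.1 hs]
    rfl
  refine ⟨e1, fun k g1 g2 => ?_, h3.conj (isConj_iff.2 ⟨x a, by simp [mul_assoc]⟩),
    fun j hj => h4 j (by simp at hj ⊢; tauto)⟩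
  rw [hb_ev_inv e1, List.getLast?_concat] at g1
  rw [hb_ev e1] at g2
  cases g1
  cases g2
  exact (List.isChain_cons_cons.1 h1).1 rfl

theorem Good4.rotate (n : ℕ) : ∀ {w : List Lt}, Good4 w → 2 ≤ w.length → Good4 (w.rotate n) := by
  induction n with
  | zero => intro w h _; simpa using h
  | succ n ih =>
    intro w h hl
    match w, h, hl with
    | a :: b :: l, h, hl =>
      rw [List.rotate_cons_succ]
      exact ih h.rot (by simp)

theorem Good4.piece {i : Fin 4} {a c : Lt} {s l : List Lt} (h : Good4 (s ++ (c :: l ++ [a])))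
    (hi : 1 ≤ i) (hs : ∃ m : ℤ, ev s = r i ^ m * x i.castSucc) (ha : bl i a ≠ i.castSucc)
    (hc : bl i c ≠ i.castSucc) : False := by
  obtain ⟨m, hm⟩ := hs
  have h1 : Red (c :: l ++ [a]) := h.1.right_of_append
  have h2 := h.2.2.1 i hi
  rw [ev_append, hm] at h2
  refine odd_piece (d := ev (c :: l ++ [a])) (ev_ne_one h1) ?_ ?_ h2
  · rw [hb_ev h1]
    simpa using hc
  · rw [hb_ev_inv h1, List.getLast?_concat]
    simpa using ha

def T34 (a b c : Lt) : Prop :=
  1 ≤ a ∧ 1 ≤ b ∧ 1 ≤ c ∧ a ≠ b ∧ b ≠ c ∧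
    ∀ i : Fin 4, 1 ≤ i → bl i b = i.castSucc → bl i a = i.castSucc ∨ bl i c = i.castSucc

instance (a b c : Lt) : Decidable (T34 a b c) := by unfold T34; infer_instance

theorem Good4.t3 {a b c : Lt} {l : List Lt} (h : Good4 (a :: b :: c :: l)) : T34 a b c := by
  have h1 := List.isChain_cons_cons.1 h.1
  refine ⟨h.2.2.2 a (by simp), h.2.2.2 b (by simp), h.2.2.2 c (by simp), h1.1,
    (List.isChain_cons_cons.1 h1.2).1, fun i i2 hi => ?_⟩
  by_contra hc
  push Not at hc
  refine Good4.piece (s := [b]) (l := l) h.rot i2 ?_ hc.1 hc.2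
  have : ∀ (i : Fin 4) b, bl i b = i.castSucc →
      ev [b] = r i ^ (0 : ℤ) * x i.castSucc ∨ ev [b] = r i ^ (-1 : ℤ) * x i.castSucc := by decide
  exact (this i b hi).elim (fun e => ⟨_, e⟩) fun e => ⟨_, e⟩

def nx4 : Bool → Lt → Lt
  | true => ![0, 2, 3, 4, 1]
  | false => ![0, 4, 1, 2, 3]

theorem Good4.mid {a b c d e : Lt} {l : List Lt} (h : Good4 (a :: b :: c :: d :: e :: l)) :
    1 ≤ b ∧ ∃ t, c = nx4 t b ∧ d = nx4 t c := by
  have h1 := h.t3
  have h2 : T34 b c d := h.rot.t3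
  have h3 : T34 c d e := h.rot.rot.t3
  have h4 : ¬ (a = 3 ∧ b = 2 ∧ c = 1 ∧ d = 2 ∧ e = 3) := by
    rintro ⟨rfl, rfl, rfl, rfl, rfl⟩
    exact Good4.piece (i := 1) (s := [2, 1, 2]) (l := l) h.rot le_rfl ⟨-2, by decide⟩ (by decide)
      (by decide)
  have h5 : ¬ (a = 2 ∧ b = 3 ∧ c = 4 ∧ d = 3 ∧ e = 2) := by
    rintro ⟨rfl, rfl, rfl, rfl, rfl⟩
    exact Good4.piece (i := 3) (s := [3, 4, 3]) (l := l) h.rot (by decide) ⟨1, by decide⟩
      (by decide) (by decide)
  clear h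
  refine ⟨h2.1, ?_⟩
  have k1 : ∀ b c d : Lt, T34 b c d → (∃ t, c = nx4 t b ∧ d = nx4 t c) ∨ (c = 1 ∨ c = 4) := by decide
  rcases k1 b c d h2 with k | rfl | rfl
  · exact k
  · revert a b d e
    decide
  · revert a b d e
    decide

theorem ev_iter4 (t : Bool) (s : Lt) (m : ℕ) : ev ((List.range (m * 4)).map fun n => (nx4 t)^[n] s) =
    ev ((List.range 4).map fun n => (nx4 t)^[n] s) ^ m := by
  have h5 : ∀ t s, (nx4 t)^[4] s = s := by decide
  induction m with
  | zero => simp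
  | succ m ih =>
    rw [add_mul, one_mul, List.range_add, List.map_append, ev_append, ih, pow_succ, List.map_map]
    congr 3
    funext n
    simp only [Function.comp, Function.iterate_add_apply]
    rw [mul_comm, ← Function.iterate_add_apply, add_comm, Function.iterate_add_apply,
      Function.iterate_mul, Function.iterate_fixed (h5 t s)]

theorem Good4.form {w : List Lt} {m : ℕ} (h : Good4 w) (hm : w.length = (m + 2) * 4) :
    IsConj (ev w) (p4 ^ (m + 2)) ∨ IsConj (ev w) (p4⁻¹ ^ (m + 2)) := by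
  let f : ℕ → Lt := fun n => w[n % w.length]'(Nat.mod_lt _ (by omega))
  have h1 : ∀ n, 1 ≤ f (n + 1) ∧ ∃ t, f (n + 2) = nx4 t (f (n + 1)) ∧ f (n + 3) = nx4 t (f (n + 2)) := by
    intro n
    have g1 := Good4.rotate n h (by omega)
    have g2 : ∀ k (hk : k < (w.rotate n).length), (w.rotate n)[k] = f (n + k) := fun k hk => by
      simp only [List.getElem_rotate, f, add_comm]
    have g3 : 5 ≤ (w.rotate n).length := by rw [List.length_rotate]; omega
    generalize w.rotate n = v at g1 g2 g3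
    match v, g1, g2, g3 with
    | a :: b :: c :: d :: e :: l, g1, g2, g3 =>
      rw [← g2 1 (by simp), ← g2 2 (by simp), ← g2 3 (by simp)]
      exact g1.mid
  obtain ⟨t, ht⟩ := (h1 0).2
  have h2 : ∀ n, f (n + 2) = nx4 t (f (n + 1)) := fun n => by
    have ne : ∀ t t' (a : Lt), 1 ≤ a → nx4 t a = nx4 t' a → t = t' := by decide
    induction n with
    | zero => exact ht.1
    | succ n ih =>
      obtain ⟨a, t', k⟩ := h1 n
      rw [ne t t' _ a (ih.symm.trans k.1)]
      exact k.2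
  have h3 : ∀ n, f (n + 1) = (nx4 t)^[n] (f 1) := by
    intro n
    induction n with
    | zero => rfl
    | succ n ih => rw [Function.iterate_succ_apply', ← ih, h2]
  have h4 : w.rotate 1 = (List.range ((m + 2) * 4)).map fun n => (nx4 t)^[n] (f 1) := by
    refine List.ext_getElem (by simp [hm]) fun k _ _ => ?_
    rw [List.getElem_rotate, List.getElem_map, List.getElem_range, ← h3]
  have h5 : IsConj (ev w) (ev (w.rotate 1)) := by
    match w, hm with
    | a :: l, _ => exact isConj_iff.2 ⟨x a, by simp⟩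
  rw [h4, ev_iter4] at h5
  have k1 : ∀ s : Lt, 1 ≤ s → ∃ i, qs4 i * ev ((List.range 4).map fun n => (nx4 true)^[n] s) *
      (qs4 i)⁻¹ = p4 := by decide
  have k2 : ∀ s : Lt, 1 ≤ s → ∃ i, qs4 i * ev ((List.range 4).map fun n => (nx4 false)^[n] s) *
      (qs4 i)⁻¹ = p4⁻¹ := by decide
  cases t
  · obtain ⟨i, hi⟩ := k2 _ (h1 0).1
    exact Or.inr (h5.trans ((isConj_iff.2 ⟨_, hi⟩).pow _))
  · obtain ⟨i, hi⟩ := k1 _ (h1 0).1
    exact Or.inl (h5.trans ((isConj_iff.2 ⟨_, hi⟩).pow _))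

theorem lemA4 {v : K} (hv : In b4 1 v) (h : Inv4 v) (h1 : v ≠ 1) :
    ∃ (g : K) (j : ℤ), j ≠ 0 ∧ g * v ^ 8 * g⁻¹ = p4 ^ j := by
  obtain ⟨u, c, hu3, hu⟩ := exists_cr_in v hv
  have h2 := h.conj c
  have hb : ∀ j, b4 j = 1 → 1 ≤ j := by decide
  rcases hu with hu | ⟨j, rfl⟩
  · have u1 : u ≠ 1 := fun e => h1 (isConj_one_left.1 (e ▸ c))
    obtain ⟨m, hm⟩ : ∃ m, len u = m + 1 := ⟨len u - 1, by
      have : len u ≠ 0 := fun e => u1 (l_eq_nil.1 (List.length_eq_zero_iff.1 e))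
      omega⟩
    have i6 : In b4 1 (u ^ 8) := by
      simp only [pow_succ, pow_zero]
      exact (((((((in_one.mul hu3).mul hu3).mul hu3).mul hu3).mul hu3).mul hu3).mul hu3).mul hu3
    have g : Good4 (u ^ 8).l := ⟨(u ^ 8).red, by rw [ev_self]; exact hu.cr_pow 7,
      by rw [ev_self]; exact fun i hi => by rw [map_pow]; exact (h2 i hi).pow 8,
      fun j hj => hb j (i6 j hj)⟩
    have g2 := g.form (m := 2 * m) (by
      have := (hu.pow 7).1
      unfold len at this hm
      rw [this, hm]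
      ring)
    rw [ev_self] at g2
    rcases g2 with g2 | g2
    · obtain ⟨g, hg⟩ := isConj_iff.1 ((c.pow 8).trans g2)
      exact ⟨g, (2 * m + 2 : ℕ), by omega, by rw [hg, zpow_natCast]⟩
    · obtain ⟨g, hg⟩ := isConj_iff.1 ((c.pow 8).trans g2)
      exact ⟨g, -(2 * m + 2 : ℕ), by omega, by rw [hg, zpow_neg, zpow_natCast, inv_pow]⟩
  · exfalso
    have h3 := fun i hi => cls (h2 i hi)
    have : ∀ j : Lt, 1 ≤ j → ¬ ∀ i : Fin 4, 1 ≤ i → j ≠ i.castSucc ∧ j ≠ i.succ := by decide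
    exact this j (hb j (hu3 j (by simp [x_l]))) h3

end Pool.Agent.P.MP_5aeb4a_al
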