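import Pool.Agent.P.MP_5aeb4a_al.S4
import Pool.Agent.P.MP_5aeb4a_al.EK4
import Pool.Agent.P.MP_5aeb4a_al.EDefs

/-! The Artin group of type `D₄` inside a semidirect product over four strands. -/

set_option autoImplicit false

namespace Pool.Agent.P.MP_5aeb4a_al

open SemidirectProduct

theorem rels_al4 : Rels edges4 ![al 3, al 2, al 1] := fun i j =>
  ⟨fun e => al_ext (by revert i j; decide), fun e e' => al_ext (by revert i j; decide)⟩

def ac4 : B4 →* MulAut K := rels_al4.lift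

theorem ac4_0 : ac4 (τ 0) = al 3 := rels_al4.lift_of 0

theorem ac4_1 : ac4 (τ 1) = al 2 := rels_al4.lift_of 1

theorem ac4_2 : ac4 (τ 2) = al 1 := rels_al4.lift_of 2

theorem ac4_inc3 (b : B3) : ac4 (inc3 b) = act3 b :=
  DFunLike.congr_fun (uext (f := ac4.comp inc3) (g := act3) fun i => by
    rw [MonoidHom.comp_apply, inc3_υ]
    fin_cases i
    exacts [ac4_0.trans act3_0.symm, ac4_1.trans act3_1.symm]) b

abbrev G4 : Type := K ⋊[ac4] B4

theorem equiv_gen4 {H : Type} [Group H] (fN : K →* H) (fG : B4 →* H)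
    (h : ∀ i j, fN (ac4 (τ i) (x j)) = fG (τ i) * fN (x j) * (fG (τ i))⁻¹) (g : B4) :
    fN.comp (ac4 g).toMonoidHom = (MulAut.conj (fG g)).toMonoidHom.comp fN :=
  MonoidHom.ext (by
    change ∀ u, fN (ac4 g u) = fG g * fN u * (fG g)⁻¹
    induction g using art_ind with
    | h1 => simp
    | hm a b ha hb =>
      intro u
      rw [map_mul, MulAut.mul_apply, ha, hb]
      simp [mul_assoc]
    | hi a ha =>
      intro u
      have := ha (ac4 a⁻¹ u)
      rw [map_inv, MulAut.apply_inv_self] at this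
      rw [this]
      simp [mul_assoc]
    | hg i =>
      exact fun u => DFunLike.congr_fun (khom_ext (f := fN.comp (ac4 (τ i)).toMonoidHom)
        (g := (MulAut.conj (fG (τ i))).toMonoidHom.comp fN) (h i)) u)

def par4 : G4 →* ℤˣ := lift sg 1 (equiv_gen4 sg 1 (by decide))

theorem par4_inl (u : K) : par4 (inl u) = sg u := lift_inl _ _ _ _

theorem par4_inr (b : B4) : par4 (inr b) = 1 := lift_inr _ _ _ _

def kap4 : K →* K := klift (fun j => if 1 ≤ j then x j else 1) (by decide)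

theorem in_kap4 (u : K) : In b4 1 (kap4 u) := by
  induction u using K.ind with
  | h1 => simpa using in_one
  | hx i u ih =>
    rw [map_mul]
    refine In.mul ?_ ih
    revert i
    unfold In
    decide

theorem kap4_kap4 (u : K) : kap4 (kap4 u) = kap4 u :=
  DFunLike.congr_fun (khom_ext (f := kap4.comp kap4) (g := kap4) (by decide)) u

theorem kap4_of_in {u : K} (h : In b4 1 u) : kap4 u = u := by
  refine hom_eq_of_letters (g := MonoidHom.id K) fun j hj => ?_
  have : ∀ j, b4 j = 1 → kap4 (x j) = x j := by decide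
  exact this j (h j hj)

theorem kap_of_in {u : K} (h : In b3 2 u) : kap u = u := by
  refine hom_eq_of_letters (g := MonoidHom.id K) fun j hj => ?_
  have : ∀ j, b3 j = 2 → kap (x j) = x j := by decide
  exact this j (h j hj)

def kh4 : G4 →* G4 := lift (inl.comp kap4) inr (equiv_gen4 _ _ fun i j => by
  rw [MonoidHom.comp_apply, MonoidHom.comp_apply, ← map_inv, ← inl_aut]
  congr 1
  revert i j
  decide)

theorem kh4_inl (u : K) : kh4 (inl u) = inl (kap4 u) := lift_inl _ _ _ _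

theorem kh4_inr (b : B4) : kh4 (inr b) = inr b := lift_inr _ _ _ _

theorem kap4_ac4 (b : B4) (u : K) : kap4 (ac4 b u) = ac4 b (kap4 u) := by
  apply (inl_injective : Function.Injective (inl : K → G4))
  rw [← kh4_inl, inl_aut, map_mul, map_mul, kh4_inr, kh4_inr, kh4_inl, inl_aut]

theorem kh4_left (g : G4) : (kh4 g).left = kap4 g.left := by
  conv_lhs => rw [← inl_left_mul_inr_right g, map_mul, kh4_inl, kh4_inr]
  simp

theorem kh4_right (g : G4) : (kh4 g).right = g.right := by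
  conv_lhs => rw [← inl_left_mul_inr_right g, map_mul, kh4_inl, kh4_inr]
  simp

theorem par4_left (g : G4) : par4 g = sg g.left := by
  conv_lhs => rw [← inl_left_mul_inr_right g, map_mul, par4_inl, par4_inr, mul_one]

theorem eq_inl4 {g : G4} (h : g.right = 1) : g = inl g.left := SemidirectProduct.ext rfl h

section rels

variable {G : Type} [Group G] {t : Fin 4 → G}

theorem rels_D4 (hb : ∀ i, i ≠ 1 → t i * t 1 * t i = t 1 * t i * t 1)
    (hc : ∀ i j, i ≠ 1 → j ≠ 1 → t i * t j = t j * t i) : Rels edgesD4 t := fun i j =>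
  ⟨fun e => by
    have : ∀ i j : Fin 4, (i, j) ∈ edgesD4 → (i ≠ 1 ∧ j = 1) ∨ (i = 1 ∧ j ≠ 1) := by decide
    rcases this i j e with ⟨h, rfl⟩ | ⟨rfl, h⟩
    exacts [hb i h, (hb j h).symm], fun e e' => by
    have : ∀ i j : Fin 4, (i, j) ∉ edgesD4 → (j, i) ∉ edgesD4 → i = j ∨ (i ≠ 1 ∧ j ≠ 1) := by
      decide
    rcases this i j e e' with rfl | h
    exacts [rfl, hc i j h.1 h.2]⟩

theorem Rels.br4 (R : Rels edgesD4 t) {i : Fin 4} (h : i ≠ 1) :
    t i * t 1 * t i = t 1 * t i * t 1 := by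
  have : ∀ i : Fin 4, i ≠ 1 → (i, 1) ∈ edgesD4 ∨ (1, i) ∈ edgesD4 := by decide
  rcases this i h with e | e
  exacts [(R i 1).1 e, ((R 1 i).1 e).symm]

theorem Rels.cm4 (R : Rels edgesD4 t) {i j : Fin 4} (h : i ≠ 1) (h' : j ≠ 1) :
    t i * t j = t j * t i :=
  (R i j).2 (by revert i j; decide) (by revert i j; decide)

theorem Rels.tri (R : Rels edgesD4 t) {i j : Fin 4} (h : i ≠ 1) (h' : j ≠ 1) :
    Rels edges4 ![t i, t 1, t j] := fun a b => by
  refine ⟨fun e => ?_, fun e e' => ?_⟩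
  · fin_cases a <;> fin_cases b <;>
      first | exact absurd e (by decide) | exact R.br4 h | exact (R.br4 h').symm
  · fin_cases a <;> fin_cases b <;>
      first | rfl | exact absurd (by decide) e | exact absurd (by decide) e' | exact R.cm4 h h' |
        exact R.cm4 h' h

theorem Rels.perm (R : Rels edgesD4 t) {f : Fin 4 → Fin 4} (h1 : f 1 = 1)
    (h : ∀ i, i ≠ 1 → f i ≠ 1) : Rels edgesD4 fun i => t (f i) :=
  rels_D4 (fun i hi => by rw [h1]; exact R.br4 (h i hi))
    fun i j hi hj => R.cm4 (h i hi) (h j hj)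

end rels

def f4 : Fin 4 → Fin 3 := ![2, 1, 0, 0]

def th4 : Fin 4 → G4 := ![inr (τ 2), inr (τ 1), inr (τ 0), inl (x 4 * x 3) * inr (τ 0)]

theorem th4_right (i : Fin 4) : (th4 i).right = τ (f4 i) := by fin_cases i <;> simp [th4, f4]

theorem rels_th4 : Rels edgesD4 th4 := by
  intro i j
  refine ⟨fun e => SemidirectProduct.ext ?_ ?_, fun e e' => SemidirectProduct.ext ?_ ?_⟩
  · revert i j
    decide
  · simp only [mul_right, th4_right]
    exact ((rels_τ _ _).1 (by revert i j; decide)).symm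
  · revert i j
    decide
  · simp only [mul_right, th4_right]
    exact (rels_τ _ _).2 (by revert i j; decide) (by revert i j; decide)

theorem rels_s4 : Rels edgesD4 s4 := rels_of _

theorem dext {G : Type} [Group G] {f g : AD4 →* G} (h : ∀ i, f (s4 i) = g (s4 i)) : f = g :=
  PresentedGroup.ext h

def Th4 : AD4 →* G4 := rels_th4.lift

theorem Th4_s (i : Fin 4) : Th4 (s4 i) = th4 i := rels_th4.lift_of i

def pr4 : AD4 →* B4 := rightHom.comp Th4

theorem Th4_right (a : AD4) : (Th4 a).right = pr4 a := rfl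

theorem pr4_s (i : Fin 4) : pr4 (s4 i) = τ (f4 i) := by
  rw [← th4_right, ← Th4_s]
  rfl

/-- The parabolic subgroup on two leaves. -/
def tr4 {i j : Fin 4} (h : i ≠ 1) (h' : j ≠ 1) : B4 →* AD4 := (rels_s4.tri h h').lift

theorem tr4_τ {i j : Fin 4} (h : i ≠ 1) (h' : j ≠ 1) (l : Fin 3) :
    tr4 h h' (τ l) = ![s4 i, s4 1, s4 j] l := (rels_s4.tri h h').lift_of l

theorem tr4_z4 {i j : Fin 4} (h : i ≠ 1) (h' : j ≠ 1) : tr4 h h' z4 = zz i j := by
  simp [z4, zz, tr4_τ]

def in4 : B4 →* AD4 := tr4 (i := 2) (j := 0) (by decide) (by decide)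

theorem in4_τ (l : Fin 3) : in4 (τ l) = ![s4 2, s4 1, s4 0] l := tr4_τ _ _ l

theorem in4_0 : in4 (τ 0) = s4 2 := in4_τ 0

theorem in4_1 : in4 (τ 1) = s4 1 := in4_τ 1

theorem in4_2 : in4 (τ 2) = s4 0 := in4_τ 2

theorem Th4_in4 (b : B4) : Th4 (in4 b) = inr b :=
  DFunLike.congr_fun (text (f := Th4.comp in4) (g := inr) fun i => by
    rw [MonoidHom.comp_apply, in4_τ]
    fin_cases i
    exacts [Th4_s 2, Th4_s 1, Th4_s 0]) b

theorem pr4_in4 (b : B4) : pr4 (in4 b) = b := by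
  rw [← Th4_right, Th4_in4]
  rfl

theorem par4_Th4 (a : AD4) : par4 (Th4 a) = 1 :=
  DFunLike.congr_fun (dext (f := par4.comp Th4) (g := 1) fun i => by
    rw [MonoidHom.comp_apply, Th4_s]
    fin_cases i <;> simp [th4, par4_inl, par4_inr, sg_x]) a

theorem kap4_x : kap4 (x 3) = x 3 ∧ kap4 (x 4) = x 4 ∧ kap4 p4 = p4 := by decide

theorem kh4_Th4 (a : AD4) : kh4 (Th4 a) = Th4 a :=
  DFunLike.congr_fun (dext (f := kh4.comp Th4) (g := Th4) fun i => by
    rw [MonoidHom.comp_apply, Th4_s]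
    fin_cases i <;> simp [th4, kh4_inl, kh4_inr, kap4_x]) a

def cc4 : G4 := inl p4⁻¹ * inr z4

theorem cc4_comm {g : G4} (h : kh4 g = g) : cc4 * g = g * cc4 := by
  have : (MulAut.conj cc4).toMonoidHom.comp kh4 = kh4 := by
    refine hom_ext (khom_ext fun j => ?_) (text fun i => ?_)
    · simp only [MonoidHom.comp_apply, kh4_inl, MulEquiv.coe_toMonoidHom, MulAut.conj_apply]
      refine SemidirectProduct.ext ?_ (by simp [cc4])
      revert j
      decide
    · simp only [MonoidHom.comp_apply, kh4_inr, MulEquiv.coe_toMonoidHom, MulAut.conj_apply,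
        mul_inv_eq_iff_eq_mul]
      refine SemidirectProduct.ext ?_ (by simp [cc4, z4_comm])
      revert i
      decide
  have h2 := DFunLike.congr_fun this g
  simpa [mul_inv_eq_iff_eq_mul, h] using h2

theorem kh4_cc4 : kh4 cc4 = cc4 := by simp [cc4, kh4_inl, kh4_inr, kap4_x]

theorem ac4_p4 (b : B4) : ac4 b p4 = p4 := by
  have := congrArg SemidirectProduct.left (cc4_comm (kh4_inr b))
  simpa [cc4] using this.symm

theorem sg_p4 : sg p4 = 1 := by decide

theorem par4_cc4 : par4 cc4 = 1 := by simp [cc4, par4_inl, par4_inr, sg_p4]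

theorem pr4_c4 : pr4 c4 = z4 := by
  simpa [z4, c4, pr4_s, f4, pow_succ, mul_assoc] using rels_τ.steps
    [3, 4, 5, 7, 6, 9, 7, 5, 3, 1, 0, 3, 1, 3, 10, 8, 6, 5]
    (w := [2, 1, 0, 0, 2, 1, 0, 0, 2, 1, 0, 0]) (w' := [0, 1, 2, 0, 1, 2, 0, 1, 2, 0, 1, 2])
    (by decide)

theorem Th4_c4 : Th4 c4 = cc4 := by
  refine SemidirectProduct.ext ?_ (by simp [Th4_right, pr4_c4, cc4])
  simp only [c4, map_pow, map_mul, Th4_s]
  decide

theorem Th4_zz20 : Th4 (zz 2 0) = inr z4 := by
  rw [← Th4_in4, in4, tr4_z4]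

def io : G3 →* G4 := lift inl (inr.comp inc3) (equiv_gen3 _ _ fun i j => by
  rw [MonoidHom.comp_apply, ← map_inv, ← inl_aut, ac4_inc3])

theorem io_inl (u : K) : io (inl u) = inl u := lift_inl _ _ _ _

theorem io_inr (b : B3) : io (inr b) = inr (inc3 b) := lift_inr _ _ _ _

theorem io_left (g : G3) : (io g).left = g.left := by
  conv_lhs => rw [← inl_left_mul_inr_right g, map_mul, io_inl, io_inr]
  simp

theorem io_right (g : G3) : (io g).right = inc3 g.right := by
  conv_lhs => rw [← inl_left_mul_inr_right g, map_mul, io_inl, io_inr]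
  simp

theorem io_inj : Function.Injective io := fun a b h =>
  SemidirectProduct.ext (by rw [← io_left, h, io_left])
    (by rw [← r4_inc3 a.right, ← io_right, h, io_right, r4_inc3])

theorem io_th3 : io (th3 0) = th4 2 ∧ io (th3 1) = th4 1 ∧ io (th3 2) = th4 3 := by
  simp [th3, th4, io_inl, io_inr, inc3_υ]

/-- The parabolic subgroup on the two folded leaves. -/
def in23 : B4 →* AD4 := tr4 (i := 2) (j := 3) (by decide) (by decide)

theorem Th4_in23 (b : B4) : Th4 (in23 b) = io (Th3 b) :=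
  DFunLike.congr_fun (text (f := Th4.comp in23) (g := io.comp Th3) fun i => by
    rw [MonoidHom.comp_apply, MonoidHom.comp_apply, in23, tr4_τ, Th3_τ]
    fin_cases i
    exacts [(Th4_s 2).trans io_th3.1.symm, (Th4_s 1).trans io_th3.2.1.symm,
      (Th4_s 3).trans io_th3.2.2.symm]) b

theorem Th4_zz23 : Th4 (zz 2 3) = io (c3 * c3) := by
  rw [← Th3_z4, ← Th4_in23, in23, tr4_z4]

theorem perm_ne {π : Equiv.Perm (Fin 4)} (h : π 1 = 1) (i : Fin 4) (hi : i ≠ 1) : π i ≠ 1 :=
  fun e => hi (π.injective (e.trans h.symm))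

/-- The graph automorphisms. -/
def gr (π : Equiv.Perm (Fin 4)) (h : π 1 = 1) : AD4 →* AD4 := (rels_s4.perm h (perm_ne h)).lift

theorem gr_s (π : Equiv.Perm (Fin 4)) (h : π 1 = 1) (i : Fin 4) : gr π h (s4 i) = s4 (π i) :=
  (rels_s4.perm h (perm_ne h)).lift_of i

theorem gr_zz (π : Equiv.Perm (Fin 4)) (h : π 1 = 1) (i j : Fin 4) :
    gr π h (zz i j) = zz (π i) (π j) := by simp [zz, gr_s, h]

theorem gr_gr {π π' : Equiv.Perm (Fin 4)} (h : π 1 = 1) (h' : π' 1 = 1) (y : AD4) :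
    gr π h (gr π' h' y) = gr (π * π') (by rw [Equiv.Perm.mul_apply, h', h]) y :=
  DFunLike.congr_fun (dext (f := (gr π h).comp (gr π' h')) (g := gr (π * π') _) fun i => by
    simp [gr_s]) y

theorem gr_one (h : (1 : Equiv.Perm (Fin 4)) 1 = 1) (y : AD4) : gr 1 h y = y :=
  DFunLike.congr_fun (dext (f := gr 1 h) (g := MonoidHom.id _) fun i => by simp [gr_s]) y

def sw23 : Equiv.Perm (Fin 4) := Equiv.swap 2 3

theorem sw23_one : sw23 1 = 1 := by decide

theorem zd_zd : (gr sw23 sw23_one).comp (gr sw23 sw23_one) = MonoidHom.id AD4 := dext fun i => by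
  simp [gr_s, sw23]

def zd : MulAut AD4 := MonoidHom.toMulEquiv (gr sw23 sw23_one) (gr sw23 sw23_one) zd_zd zd_zd

theorem zd_s (i : Fin 4) : zd (s4 i) = s4 (sw23 i) := gr_s _ sw23_one i

theorem zd_sq : zd * zd = 1 := MulEquiv.ext fun a => DFunLike.congr_fun zd_zd a

abbrev HD : Type := AD4 ⋊[MonoidHom.id (MulAut AD4)] MulAut AD4

theorem zd_inv : (inr zd * inr zd : HD) = 1 := by rw [← map_mul, zd_sq, map_one]

theorem zd_conj (a : AD4) : (inr zd * inl a * inr zd : HD) = inl (zd a) :=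
  SemidirectProduct.ext (by simp) (by simp [zd_sq])

theorem zd_comm {a : AD4} (h : zd a = a) : Commute (inl a : HD) (inr zd) :=
  SemidirectProduct.ext (by simp [h]) (by simp)

def xs4 : Lt → HD :=
  ![1, inl (s4 0) * (inl (s4 1) * (inl (s4 2) * inr zd * (inl (s4 2))⁻¹) * (inl (s4 1))⁻¹) *
      (inl (s4 0))⁻¹, inl (s4 1) * (inl (s4 2) * inr zd * (inl (s4 2))⁻¹) * (inl (s4 1))⁻¹,
    inl (s4 2) * inr zd * (inl (s4 2))⁻¹, inr zd]

theorem xs4_sq (j : Lt) : xs4 j * xs4 j = 1 := by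
  fin_cases j <;> simp [xs4, zd_inv, conj_mul, -mul_inv_rev]

def La4 : G4 →* HD :=
  lift (klift xs4 xs4_sq) (inl.comp in4) (equiv_gen4 _ _ fun i j => by
    have R := rels_s4.map (inl : AD4 →* HD)
    have b01 := R.br4 (i := 0) (by decide)
    have b12 := (R.br4 (i := 2) (by decide)).symm
    have c02 : Commute (inl (s4 0) : HD) (inl (s4 2)) := R.cm4 (by decide) (by decide)
    have h0 : Commute (inl (s4 0) : HD) (xs4 4) := zd_comm (zd_s 0)
    have h1 : Commute (inl (s4 1) : HD) (xs4 4) := zd_comm (zd_s 1)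
    have h2 : Commute (inl (s4 2) : HD) (inr zd * inl (s4 2) * inr zd) := by
      rw [zd_conj, zd_s]
      exact R.cm4 (by decide) (by decide)
    have a03 : Commute (inl (s4 0) : HD) (xs4 3) := cj_comm c02 h0
    have u22 : Commute (inl (s4 2) : HD) (xs4 2) := cj_up b12 h1
    have u21 : Commute (inl (s4 2) : HD) (xs4 1) := cj_comm c02.symm u22
    have u11 : Commute (inl (s4 1) : HD) (xs4 1) := cj_up b01 a03
    have d1 : Commute (inl (s4 1) : HD) (xs4 3 * inl (s4 1) * xs4 3) := cj_down b12 h1 h2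
    have d0 : Commute (inl (s4 0) : HD) (xs4 2 * inl (s4 0) * xs4 2) := cj_down b01 a03 d1
    have g2 : xs4 3 * xs4 4 * xs4 3 = inl (s4 2) * xs4 3 * (inl (s4 2))⁻¹ := cj_self zd_inv h2
    have g1 : xs4 2 * xs4 3 * xs4 2 = inl (s4 1) * xs4 2 * (inl (s4 1))⁻¹ := cj_self (xs4_sq 3) d1
    have g0 : xs4 1 * xs4 2 * xs4 1 = inl (s4 0) * xs4 1 * (inl (s4 0))⁻¹ := cj_self (xs4_sq 2) d0
    rw [klift_x, MonoidHom.comp_apply, in4_τ]
    fin_cases i
    · simp only [Fin.zero_eta, ac4_0, al_apply, alh_x]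
      fin_cases j
      · simp [alf, xs4]
      · simpa [alf, eq_mul_inv_iff_mul_eq] using u21.eq.symm
      · simpa [alf, eq_mul_inv_iff_mul_eq] using u22.eq.symm
      · simpa [alf] using g2
      · simp [alf, xs4]
    · simp only [Fin.mk_one, ac4_1, al_apply, alh_x]
      fin_cases j
      · simp [alf, xs4]
      · simpa [alf, eq_mul_inv_iff_mul_eq] using u11.eq.symm
      · simpa [alf] using g1
      · simp [alf, xs4]
      · simpa [alf, eq_mul_inv_iff_mul_eq] using h1.eq.symm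
    · simp only [Fin.reduceFinMk, ac4_2, al_apply, alh_x]
      fin_cases j
      · simp [alf, xs4]
      · simpa [alf] using g0
      · simp [alf, xs4]
      · simpa [alf, eq_mul_inv_iff_mul_eq] using a03.eq.symm
      · simpa [alf, eq_mul_inv_iff_mul_eq] using h0.eq.symm)

theorem th4_three : th4 3 = inl (x 4) * inr (τ 0) * inl (x 4) :=
  SemidirectProduct.ext (by decide) (by simp [th4])

theorem Th4_inj : Function.Injective Th4 := by
  have : La4.comp Th4 = inl := dext fun i => by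
    rw [MonoidHom.comp_apply, Th4_s]
    have k : ∀ i : Fin 3, La4 (inr (τ i)) = inl (![s4 2, s4 1, s4 0] i) := fun i => by
      rw [La4, lift_inr, MonoidHom.comp_apply, in4_τ]
    fin_cases i
    · exact k 2
    · exact k 1
    · exact k 0
    · have e : La4 (inl (x 4)) = inr zd := by
        rw [La4, lift_inl, klift_x]
        rfl
      change La4 (th4 3) = inl (s4 3)
      rw [th4_three, map_mul, map_mul, e, k, zd_conj]
      exact congrArg inl (zd_s 2)
  intro a b h
  apply (inl_injective : Function.Injective (inl : AD4 → HD))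
  rw [← this, MonoidHom.comp_apply, h]
  rfl

theorem c4_comm (a : AD4) : c4 * a = a * c4 := by
  apply Th4_inj
  rw [map_mul, map_mul, Th4_c4, cc4_comm (kh4_Th4 a)]

theorem gr_c4 (π : Equiv.Perm (Fin 4)) (h : π 1 = 1) : gr π h c4 = c4 := by
  have k : ∀ a b c : Fin 4, a ≠ 1 → b ≠ 1 → c ≠ 1 → a ≠ b → a ≠ c → b ≠ c →
      ∃ ks ∈ [[], [0], [1], [0, 1], [1, 0], [0, 1, 0]],
        ks.foldl (fun l k => step edgesD4 k l) [b, c, a] = [2, 3, 0] := by decide
  obtain ⟨ks, -, hk⟩ := k (π 0) (π 2) (π 3) (perm_ne h _ (by decide)) (perm_ne h _ (by decide))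
    (perm_ne h _ (by decide)) (π.injective.ne (by decide)) (π.injective.ne (by decide))
    (π.injective.ne (by decide))
  have e : s4 (π 2) * (s4 (π 3) * s4 (π 0)) = s4 2 * (s4 3 * s4 0) := by
    simpa using rels_s4.steps ks hk
  have e1 : (s4 1 * (s4 2 * (s4 3 * s4 0))) ^ 3 = c4 := by
    have : c4 = s4 0 * (s4 1 * (s4 2 * (s4 3 * s4 0))) ^ 3 * (s4 0)⁻¹ := by
      rw [← conj_pow, c4]
      simp [mul_assoc]
    rw [eq_mul_inv_iff_mul_eq, c4_comm] at this
    exact (mul_left_cancel this).symm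
  have e2 : gr π h c4 = s4 (π 0) * (s4 1 * (s4 (π 2) * (s4 (π 3) * s4 (π 0)))) ^ 3 *
      (s4 (π 0))⁻¹ := by
    rw [← conj_pow, c4]
    simp [mul_assoc, gr_s, h]
  rw [e2, e, e1, ← c4_comm, mul_inv_cancel_right]

theorem zz_comm {i j l : Fin 4} (hi : i ≠ 1) (hj : j ≠ 1) (_ : i ≠ j)
    (hl : l = i ∨ l = j ∨ l = 1) : zz i j * s4 l = s4 l * zz i j := by
  have k : ∀ m, zz i j * tr4 hi hj (τ m) = tr4 hi hj (τ m) * zz i j := fun m => by
    rw [← tr4_z4 hi hj, ← map_mul, z4_comm, map_mul]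
  simp only [tr4_τ] at k
  rcases hl with rfl | rfl | rfl
  exacts [k 0, k 2, k 1]

theorem x4_Th4 (y : AD4) : inl (x 4) * Th4 y * (inl (x 4))⁻¹ = Th4 (gr sw23 sw23_one y) :=
  DFunLike.congr_fun (dext (f := (MulAut.conj (inl (x 4))).toMonoidHom.comp Th4)
    (g := Th4.comp (gr sw23 sw23_one)) fun i => by
      simp only [MonoidHom.comp_apply, MulEquiv.coe_toMonoidHom, MulAut.conj_apply, gr_s, Th4_s]
      refine SemidirectProduct.ext ?_ ?_
      · revert i
        decide
      · have : ∀ i, f4 (sw23 i) = f4 i := by decide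
        simp [th4_right, this]) y

theorem conj_by_Th4 {g : G4} (h : kh4 g = g) : ∃ (a : AD4) (π : Equiv.Perm (Fin 4)) (hπ : π 1 = 1),
    ∀ y, g * Th4 y * g⁻¹ = Th4 (a * gr π hπ y * a⁻¹) := by
  let P : G4 → Prop := fun g => ∃ (a : AD4) (π : Equiv.Perm (Fin 4)) (hπ : π 1 = 1),
    ∀ y, g * Th4 y * g⁻¹ = Th4 (a * gr π hπ y * a⁻¹)
  have mul : ∀ a b, P a → P b → P (a * b) := by
    rintro a b ⟨h, π, hπ, ha⟩ ⟨k, π', hπ', hb⟩
    refine ⟨h * gr π hπ k, π * π', by rw [Equiv.Perm.mul_apply, hπ', hπ], fun y => ?_⟩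
    have := ha (k * gr π' hπ' y * k⁻¹)
    rw [← hb, map_mul (gr π hπ), map_mul (gr π hπ), gr_gr] at this
    simpa [mul_assoc] using this
  have hr : ∀ b : B4, P (inr b) := fun b =>
    ⟨in4 b, 1, rfl, fun y => by rw [gr_one]; simp [Th4_in4]⟩
  have h1 : P 1 := by simpa using hr 1
  rw [← h, ← inl_left_mul_inr_right g, map_mul, kh4_inl, kh4_inr]
  refine mul _ _ ?_ (hr _)
  induction g.left using K.ind with
  | h1 => simpa using h1
  | hx i u ih =>
    rw [map_mul, map_mul]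
    refine mul _ _ ?_ ih
    have h4 : kap4 (x i) = 1 ∨ ∃ b : B4, kap4 (x i) = ac4 b (x 4) := by
      fin_cases i
      · exact Or.inl (by decide)
      · exact Or.inr ⟨τ 2 * τ 1 * τ 0, by decide⟩
      · exact Or.inr ⟨τ 1 * τ 0, by decide⟩
      · exact Or.inr ⟨τ 0, by decide⟩
      · exact Or.inr ⟨1, by decide⟩
    rcases h4 with e | ⟨b, e⟩ <;> rw [e]
    · simpa using h1
    · rw [inl_aut]
      exact mul _ _ (mul _ _ (hr _) ⟨1, sw23, sw23_one, fun y => by simpa using x4_Th4 y⟩) (hr _)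

end Pool.Agent.P.MP_5aeb4a_al
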