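import Pool.Agent.P.MP_5aeb4a_al.EA
import Pool.Agent.P.MP_5aeb4a_al.EG4

/-! The graded lemma: constraints on a triple whose leaves have the same projection. -/

set_option autoImplicit false

namespace Pool.Agent.P.MP_5aeb4a_al

open SemidirectProduct

/-- The action of the semidirect product on its normal factor. -/
def cj (g : G4) : MulAut K := MulAut.conj g.left * ac4 g.right

theorem cj_apply (g : G4) (u : K) : cj g u = g.left * ac4 g.right u * g.left⁻¹ := rfl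

theorem cj_inl (g : G4) (u : K) : g * inl u * g⁻¹ = inl (cj g u) :=
  SemidirectProduct.ext (by simp [cj_apply]) (by simp)

theorem cj_mul (g h : G4) (u : K) : cj (g * h) u = cj g (cj h u) :=
  (inl_injective : Function.Injective (inl : K → G4)) (by
    rw [← cj_inl, ← cj_inl, ← cj_inl]
    group)

/-- Even elements without the letter `0`. -/
def Ok (g : G4) : Prop := kh4 g = g ∧ par4 g = 1

theorem Ok.mul {g h : G4} (hg : Ok g) (hh : Ok h) : Ok (g * h) :=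
  ⟨by rw [map_mul, hg.1, hh.1], by rw [map_mul, hg.2, hh.2, mul_one]⟩

theorem Ok.inv {g : G4} (hg : Ok g) : Ok g⁻¹ :=
  ⟨by rw [map_inv, hg.1], by rw [map_inv, hg.2, inv_one]⟩

theorem ok_one : Ok 1 := ⟨map_one _, map_one _⟩

theorem Ok.ev {g : G4} (hg : Ok g) : Ev g.left :=
  ⟨by rw [← par4_left, hg.2], by rw [← hg.1, kh4_left]; exact in_kap4 _⟩

theorem Ev.ok {f : K} (hf : Ev f) : Ok (inl f) :=
  ⟨by rw [kh4_inl, kap4_of_in hf.2], by rw [par4_inl, hf.1]⟩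

theorem ok_inr (b : B4) : Ok (inr b) := ⟨kh4_inr b, par4_inr b⟩

theorem Ev.cj {f : K} {g : G4} (hf : Ev f) (hg : Ok g) : Ev (cj g f) := by
  have := ((hg.mul hf.ok).mul hg.inv).ev
  rwa [cj_inl] at this

theorem Ev.ac {f : K} (hf : Ev f) (b : B4) : Ev (ac4 b f) := by
  simpa [cj_apply] using hf.cj (ok_inr b)

theorem ev_r : Ev (r 3) ∧ Ev (r 2) ∧ Ev p4 := by
  unfold Ev In
  decide

section additive

variable {M : Type} [AddCommGroup M] {J : K → M}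

/-- `J` is additive on even elements. -/
def Ad (J : K → M) : Prop := ∀ f g, Ev f → Ev g → J (f * g) = J f + J g

theorem ev_one : Ev 1 := ⟨map_one _, in_one⟩

theorem Ad.one (h : Ad J) : J 1 = 0 := by simpa using h 1 1 ev_one ev_one

theorem Ad.inv (h : Ad J) {f : K} (hf : Ev f) : J f⁻¹ = -J f := by
  have := h f f⁻¹ hf hf.inv
  rw [mul_inv_cancel, h.one] at this
  exact (neg_eq_of_add_eq_zero_right this.symm).symm

theorem Ad.comp (h : Ad J) (b : B4) : Ad fun f => J (ac4 b f) := fun f g hf hg => by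
  simp only [map_mul]
  exact h _ _ (hf.ac b) (hg.ac b)

theorem Ad.cj (h : Ad J) {g : G4} (hg : Ok g) {f : K} (hf : Ev f) :
    J (cj g f) = J (ac4 g.right f) := by
  rw [cj_apply, h _ _ (hg.ev.mul (hf.ac _)) hg.ev.inv, h _ _ hg.ev (hf.ac _), h.inv hg.ev]
  abel

variable [Module ℂ M]

theorem act_mat (b : B4) : ∀ J : K → M, Ad J → ∃ n n' : ℂ,
    J (ac4 b (r 3)) = ((ρ (r4 b)).a : ℂ) • J (r 3) - ((ρ (r4 b)).c : ℂ) • J (r 2) + n • J p4 ∧
    J (ac4 b (r 2)) = ((ρ (r4 b)).d : ℂ) • J (r 2) - ((ρ (r4 b)).b : ℂ) • J (r 3) + n' • J p4 := by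
  induction b using art_ind with
  | h1 => exact fun J _ => ⟨0, 0, by simp, by simp⟩
  | hm g h hg hh =>
    intro J hJ
    obtain ⟨n, n', e1, e2⟩ := hg J hJ
    obtain ⟨m, m', f1, f2⟩ := hh _ (hJ.comp g)
    simp only [ac4_p4, e1, e2] at f1 f2
    refine ⟨(ρ (r4 h)).a * n - (ρ (r4 h)).c * n' + m, (ρ (r4 h)).d * n' - (ρ (r4 h)).b * n + m',
      ?_, ?_⟩
    · simp only [map_mul, MulAut.mul_apply, f1, Af.mul_a, Af.mul_c]
      push_cast
      module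
    · simp only [map_mul, MulAut.mul_apply, f2, Af.mul_d, Af.mul_b]
      push_cast
      module
  | hi g hg =>
    intro J hJ
    obtain ⟨n, n', e1, e2⟩ := hg _ (hJ.comp g⁻¹)
    have hd : ((ρ (r4 g)).a : ℂ) * (ρ (r4 g)).d - (ρ (r4 g)).b * (ρ (r4 g)).c = 1 := by
      exact_mod_cast (ρ (r4 g)).det
    simp only [ac4_p4] at e1 e2
    simp only [map_inv, MulAut.inv_apply_self] at e1 e2
    refine ⟨-((ρ (r4 g)).d * n + (ρ (r4 g)).c * n'), -((ρ (r4 g)).b * n + (ρ (r4 g)).a * n'),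
      ?_, ?_⟩
    · simp only [map_inv, Af.inv_a, Af.inv_c]
      rw [e1, e2]
      match_scalars
      · linear_combination -hd
      · ring
      · ring
    · simp only [map_inv, Af.inv_d, Af.inv_b]
      rw [e1, e2]
      match_scalars
      · linear_combination -hd
      · ring
      · ring
  | hg i =>
    intro J hJ
    obtain ⟨a3, a2, a4⟩ := ev_r
    change ∃ n n' : ℂ, J (ac4 (τ i) _) = ((ρ (r4 (τ i))).a : ℂ) • _ - ((ρ (r4 (τ i))).c : ℂ) • _ + _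
      ∧ J (ac4 (τ i) _) = ((ρ (r4 (τ i))).d : ℂ) • _ - ((ρ (r4 (τ i))).b : ℂ) • _ + _
    rw [r4_τ]
    fin_cases i
    · have e1 : ac4 (τ 0) (r 3) = r 3 := by decide
      have e2 : ac4 (τ 0) (r 2) = r 2 * (r 3)⁻¹ := by decide
      refine ⟨0, 0, by simp [e1, f3, ρ_υ0, mT], ?_⟩
      simp [e2, f3, ρ_υ0, mT, hJ _ _ a2 a3.inv, hJ.inv a3, sub_eq_add_neg]
    · have e1 : ac4 (τ 1) (r 3) = r 2 * r 3 := by decide
      have e2 : ac4 (τ 1) (r 2) = r 2 := by decide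
      refine ⟨0, 0, ?_, by simp [e2, f3, ρ_υ1, mU]⟩
      simp [e1, f3, ρ_υ1, mU, hJ _ _ a2 a3, add_comm]
    · have e1 : ac4 (τ 2) (r 3) = r 3 := by decide
      have e2 : ac4 (τ 2) (r 2) = p4 * (r 3)⁻¹ * r 2 := by decide
      refine ⟨0, 1, by simp [e1, f3, ρ_υ0, mT], ?_⟩
      simp only [Fin.reduceFinMk, e2, hJ _ _ (a4.mul a3.inv) a2, hJ _ _ a4 a3.inv, hJ.inv a3]
      simp [f3, ρ_υ0, mT]
      abel

theorem Ad.span (h : Ad J) {f : K} (hf : Ev f) :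
    J f ∈ Submodule.span ℂ {J (r 3), J (r 2), J p4} := by
  obtain ⟨a3, a2, a4⟩ := ev_r
  set S := Submodule.span ℂ {J (r 3), J (r 2), J p4}
  have mul : ∀ f g, Ev f ∧ J f ∈ S → Ev g ∧ J g ∈ S → Ev (f * g) ∧ J (f * g) ∈ S :=
    fun f g hf hg => ⟨hf.1.mul hg.1, by rw [h _ _ hf.1 hg.1]; exact add_mem hf.2 hg.2⟩
  have inv : ∀ f, Ev f ∧ J f ∈ S → Ev f⁻¹ ∧ J f⁻¹ ∈ S :=
    fun f hf => ⟨hf.1.inv, by rw [h.inv hf.1]; exact neg_mem hf.2⟩
  have b3 : Ev (r 3) ∧ J (r 3) ∈ S := ⟨a3, Submodule.subset_span (by simp)⟩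
  have b2 : Ev (r 2) ∧ J (r 2) ∈ S := ⟨a2, Submodule.subset_span (by simp)⟩
  have b4' : Ev p4 ∧ J p4 ∈ S := ⟨a4, Submodule.subset_span (by simp)⟩
  have b1 : Ev 1 ∧ J 1 ∈ S := ⟨ev_one, by rw [h.one]; exact zero_mem _⟩
  have k : ∀ i, b4 i = 1 → Ev (x i * x 4) ∧ J (x i * x 4) ∈ S := fun i hi => by
    have : x i * x 4 = 1 ∨ x i * x 4 = r 3 ∨ x i * x 4 = r 2 * r 3 ∨
        x i * x 4 = p4 * (r 3)⁻¹ * (r 2 * r 3) := by revert i; decide
    rcases this with e | e | e | e <;> rw [e]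
    exacts [b1, b3, mul _ _ b2 b3, mul _ _ (mul _ _ b4' (inv _ b3)) (mul _ _ b2 b3)]
  have key : ∀ l : List Lt, (∀ j ∈ l, b4 j = 1) →
      (sg (ev l) = 1 ∧ Ev (ev l) ∧ J (ev l) ∈ S) ∨
        (sg (ev l) = -1 ∧ Ev (x 4 * ev l) ∧ J (x 4 * ev l) ∈ S) := by
    intro l hl
    induction l with
    | nil => exact Or.inl ⟨map_one _, b1⟩
    | cons i l ih =>
      have k1 := k i (hl i (by simp))
      rw [ev_cons, map_mul, sg_x]
      rcases ih fun j hj => hl j (List.mem_cons_of_mem _ hj) with e | e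
      · refine Or.inr ⟨by rw [e.1, mul_one], ?_⟩
        simpa [mul_assoc] using mul _ _ (inv _ k1) e.2
      · refine Or.inl ⟨by rw [e.1]; rfl, ?_⟩
        simpa [mul_assoc] using mul _ _ k1 e.2
  have := key f.l hf.2
  rw [ev_self] at this
  rcases this with e | e
  · exact e.2.2
  · exact absurd (hf.1.symm.trans e.1) (by decide)

end additive

/-- The induced endomorphism of the group algebra. -/
noncomputable def TH (g : G4) : RK →ₐ[ℂ] RK :=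
  MonoidAlgebra.lift ℂ RK K (og.comp (cj g).toMonoidHom)

theorem TH_og (g : G4) (u : K) : TH g (og u - 1) = og (cj g u) - 1 := by
  rw [map_sub, map_one]
  congr 1
  exact MonoidAlgebra.lift_of _ _

theorem TH_mul (g h : G4) (w : RK) : TH (g * h) w = TH g (TH h w) := by
  have : TH (g * h) = (TH g).comp (TH h) := by
    refine MonoidAlgebra.algHom_ext (fun u => ?_) (Subsingleton.elim _ _)
    have k : ∀ g u, TH g (og u) = og (cj g u) := fun g u => MonoidAlgebra.lift_of _ _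
    change TH (g * h) (og u) = TH g (TH h (og u))
    rw [k, k, k, cj_mul]
  rw [this]
  rfl

theorem TH_one (w : RK) : TH 1 w = w := by
  have : TH 1 = AlgHom.id ℂ RK := by
    refine MonoidAlgebra.algHom_ext (fun u => ?_) (Subsingleton.elim _ _)
    have k : ∀ g u, TH g (og u) = og (cj g u) := fun g u => MonoidAlgebra.lift_of _ _
    change TH 1 (og u) = og u
    simp [k, cj_apply]
  rw [this]
  rfl

theorem I0_ind {P : RK → Prop} (h : ∀ f, Ev f → P (og f - 1)) (h0 : P 0)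
    (ha : ∀ a b, P a → P b → P (a + b)) (hs : ∀ (t : ℂ) a, P a → P (t • a)) :
    ∀ w ∈ I0, P w := fun w hw => by
  induction hw using Submodule.span_induction with
  | mem w hw => obtain ⟨f, hf, rfl⟩ := hw; exact h f hf
  | zero => exact h0
  | add a b _ _ h1 h2 => exact ha a b h1 h2
  | smul t a _ h1 => exact hs t a h1

theorem Ok.TH {g : G4} (hg : Ok g) : ∀ w ∈ I0, TH g w ∈ I0 :=
  I0_ind (fun f hf => by rw [TH_og]; exact (hf.cj hg).mem) (by simp)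
    (fun a b h1 h2 => by rw [map_add]; exact add_mem h1 h2)
    fun t a h1 => by rw [map_smul]; exact I0.smul_mem _ h1

/-- The class of `f - 1`. -/
noncomputable def JJ (n : ℕ) (f : K) : RK ⧸ Fil I0 n := (Fil I0 n).mkQ (og f - 1)

theorem JJ_mul {n : ℕ} {f g : K} (hf : og f - 1 ∈ Fil I0 n) (hg : Ev g) :
    JJ (n + 1) (f * g) = JJ (n + 1) f + JJ (n + 1) g := by
  rw [JJ, JJ, JJ, ← map_add, mk_eq, og_mul]
  exact fil_mul hf hg.mem

theorem ad_JJ : Ad (JJ 1) := fun _ _ hf hg => JJ_mul (n := 0) hf.mem hg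

theorem qm_JJ {g : G4} (hg : Ok g) (n : ℕ) (f : K) : qm hg.TH n (JJ n f) = JJ n (cj g f) := by
  rw [JJ, qm_mk, TH_og, JJ]

theorem qm_mul {g h : G4} (hg : Ok g) (hh : Ok h) (n : ℕ) (y : RK ⧸ Fil I0 n) :
    qm (hg.mul hh).TH n y = qm hg.TH n (qm hh.TH n y) := by
  obtain ⟨w, rfl⟩ := (Fil I0 n).mkQ_surjective y
  rw [qm_mk, qm_mk, qm_mk, TH_mul]

theorem qm_cancel {g : G4} (hg : Ok g) (n : ℕ) (y : RK ⧸ Fil I0 n) :
    qm hg.inv.TH n (qm hg.TH n y) = y := by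
  obtain ⟨w, rfl⟩ := (Fil I0 n).mkQ_surjective y
  rw [qm_mk, qm_mk, ← TH_mul, inv_mul_cancel, TH_one]

theorem mk_span {w : RK} (hw : w ∈ I0) :
    (Fil I0 1).mkQ w ∈ Submodule.span ℂ {JJ 1 (r 3), JJ 1 (r 2), JJ 1 p4} :=
  I0_ind (P := fun w => (Fil I0 1).mkQ w ∈ Submodule.span ℂ {JJ 1 (r 3), JJ 1 (r 2), JJ 1 p4})
    (fun _ hf => ad_JJ.span hf) (by simp)
    (fun a b h1 h2 => by rw [map_add]; exact add_mem h1 h2)
    (fun t a h1 => by rw [map_smul]; exact Submodule.smul_mem _ _ h1) w hw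

theorem qm_mat {g : G4} (hg : Ok g) : ∃ n n' : ℂ,
    qm hg.TH 1 (JJ 1 (r 3)) = ((ρ (r4 g.right)).a : ℂ) • JJ 1 (r 3) -
      ((ρ (r4 g.right)).c : ℂ) • JJ 1 (r 2) + n • JJ 1 p4 ∧
    qm hg.TH 1 (JJ 1 (r 2)) = ((ρ (r4 g.right)).d : ℂ) • JJ 1 (r 2) -
      ((ρ (r4 g.right)).b : ℂ) • JJ 1 (r 3) + n' • JJ 1 p4 ∧ qm hg.TH 1 (JJ 1 p4) = JJ 1 p4 := by
  obtain ⟨n, n', e1, e2⟩ := act_mat g.right _ ad_JJ
  obtain ⟨a3, a2, a4⟩ := ev_r
  refine ⟨n, n', ?_, ?_, ?_⟩ <;> rw [qm_JJ hg, ad_JJ.cj hg ‹_›]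
  exacts [e1, e2, by rw [ac4_p4]]

theorem lin_zero {L : Module.End ℂ (RK ⧸ Fil I0 1)} (h1 : L (JJ 1 (r 3)) = 0)
    (h2 : L (JJ 1 (r 2)) = 0) (h3 : L (JJ 1 p4) = 0) {w : RK} (hw : w ∈ I0) :
    L ((Fil I0 1).mkQ w) = 0 := by
  have : Submodule.span ℂ {JJ 1 (r 3), JJ 1 (r 2), JJ 1 p4} ≤ LinearMap.ker L :=
    Submodule.span_le.2 (by
      rintro _ (rfl | rfl | rfl)
      exacts [h1, h2, h3])
  exact this (mk_span hw)

theorem cubic {g : G4} (hg : Ok g) {t : ℂ} (ht : t = (ρ (r4 g.right)).a + (ρ (r4 g.right)).d) :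
    ∀ w ∈ I0, TH g (TH g (TH g w)) - (t + 1) • TH g (TH g w) + (t + 1) • TH g w - w ∈
      Fil I0 1 := by
  intro w hw
  obtain ⟨n, n', e1, e2, e3⟩ := qm_mat hg
  have hd : ((ρ (r4 g.right)).a : ℂ) * (ρ (r4 g.right)).d -
      (ρ (r4 g.right)).b * (ρ (r4 g.right)).c = 1 := by exact_mod_cast (ρ (r4 g.right)).det
  set T := qm hg.TH 1
  have k : ∀ y (m : ℂ), T (T y) - t • T y + y = m • JJ 1 p4 →
      ((T - 1) * (T * T - t • T + 1)) y = 0 := fun y m e => by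
    simp only [Module.End.mul_apply, LinearMap.add_apply, LinearMap.sub_apply,
      LinearMap.smul_apply, Module.End.one_apply, e, map_smul, e3, sub_self, smul_zero]
  have := lin_zero (L := (T - 1) * (T * T - t • T + 1))
    (k _ ((ρ (r4 g.right)).a * n - (ρ (r4 g.right)).c * n' + n - t * n) (by
      simp only [e1, e2, e3, map_add, map_sub, map_smul]
      subst ht
      match_scalars
      · linear_combination -hd
      · ring
      · ring))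
    (k _ ((ρ (r4 g.right)).d * n' - (ρ (r4 g.right)).b * n + n' - t * n') (by
      simp only [e1, e2, e3, map_add, map_sub, map_smul]
      subst ht
      match_scalars
      · linear_combination -hd
      · ring
      · ring))
    (k _ (2 - t) (by rw [e3, e3]; module)) hw
  rw [← Submodule.Quotient.mk_eq_zero, ← Submodule.mkQ_apply, ← this]
  simp only [Module.End.mul_apply, LinearMap.add_apply, LinearMap.sub_apply,
    LinearMap.smul_apply, Module.End.one_apply, map_add, map_sub, map_smul, T, qm_mk]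
  module

theorem qm_eq {g h : G4} (hg : Ok g) (hh : Ok h)
    (e : ∀ w ∈ I0, qm hg.TH 1 ((Fil I0 1).mkQ w) = qm hh.TH 1 ((Fil I0 1).mkQ w)) {n : ℕ} {f : K}
    (hf : og f - 1 ∈ Fil I0 n) :
    qm hg.TH (n + 1) (JJ (n + 1) f) = qm hh.TH (n + 1) (JJ (n + 1) f) := by
  rw [JJ, qm_mk, qm_mk, mk_eq]
  exact fil_sub hg.TH hh.TH (fun w hw => mk_eq.1 (e w hw)) n _ hf

theorem JJ_conj {n : ℕ} {f k : K} (hf : og f - 1 ∈ Fil I0 n) (hk : Ev k) :
    JJ (n + 1) (k * f * k⁻¹) = JJ (n + 1) f := by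
  obtain ⟨a3, a2, a4⟩ := ev_r
  have k1 : ∀ f, Ev f → (qm hk.ok.TH 1 - qm ok_one.TH 1) (JJ 1 f) = 0 := fun f hf => by
    rw [LinearMap.sub_apply, qm_JJ hk.ok, qm_JJ ok_one, ad_JJ.cj hk.ok hf, ad_JJ.cj ok_one hf]
    simp
  have := qm_eq hk.ok ok_one
    (fun w hw => sub_eq_zero.1 (lin_zero (k1 _ a3) (k1 _ a2) (k1 _ a4) hw)) hf
  rw [qm_JJ hk.ok, qm_JJ ok_one] at this
  simpa [cj_apply] using this

theorem graded {a d : G4} (ha : Ok a) (hd : Ok d) {u v : K} (hu : Ev u) (hv : Ev v)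
    (e1 : cj a u = u) (e2 : cj a v = v * u⁻¹) (e3 : cj d u = v * u) (e4 : cj d v = v)
    (u1 : u ≠ 1) :
    ((ρ (r4 a.right)).a + (ρ (r4 a.right)).d = 2 ∨ (ρ (r4 a.right)).a + (ρ (r4 a.right)).d = -2) ∧
      ρ (r4 a.right) ≠ ρ (r4 d.right) ∧ (∀ k, Ev k → cj d u ≠ k * u * k⁻¹) ∧
      ∀ k, Ev k → cj a v ≠ k * v * k⁻¹ := by
  classical
  have ex : ∃ n, ¬ (og u - 1 ∈ Fil I0 n ∧ og v - 1 ∈ Fil I0 n) := ⟨len u, fun h => resid u1 h.1⟩
  obtain ⟨n, hn⟩ : ∃ n, Nat.find ex = n + 1 := Nat.exists_eq_succ_of_ne_zero fun h => by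
    have := Nat.find_spec ex
    rw [h] at this
    exact this ⟨hu.mem, hv.mem⟩
  have n1 := Nat.find_spec ex
  obtain ⟨un, vn⟩ := not_not.1 (Nat.find_min ex (m := n) (by omega))
  rw [hn] at n1
  have j1 : JJ (n + 1) 1 = 0 := by simp [JJ]
  have ji : JJ (n + 1) u⁻¹ = -JJ (n + 1) u := by
    have := JJ_mul un hu.inv
    rw [mul_inv_cancel, j1] at this
    exact (neg_eq_of_add_eq_zero_right this.symm).symm
  have au : qm ha.TH (n + 1) (JJ (n + 1) u) = JJ (n + 1) u := by rw [qm_JJ ha, e1]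
  have av : qm ha.TH (n + 1) (JJ (n + 1) v) = JJ (n + 1) v - JJ (n + 1) u := by
    rw [qm_JJ ha, e2, JJ_mul vn hu.inv, ji, sub_eq_add_neg]
  have du : qm hd.TH (n + 1) (JJ (n + 1) u) = JJ (n + 1) v + JJ (n + 1) u := by
    rw [qm_JJ hd, e3, JJ_mul vn hu]
  have dv : qm hd.TH (n + 1) (JJ (n + 1) v) = JJ (n + 1) v := by rw [qm_JJ hd, e4]
  have nz : ¬ (JJ (n + 1) u = 0 ∧ JJ (n + 1) v = 0) := fun h =>
    n1 ⟨(Submodule.Quotient.mk_eq_zero _).1 h.1, (Submodule.Quotient.mk_eq_zero _).1 h.2⟩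
  have u0 : JJ (n + 1) u ≠ 0 := fun h => nz ⟨h, by simpa [h] using du.symm⟩
  have v0 : JJ (n + 1) v ≠ 0 := fun h => u0 (by simpa [h] using av.symm)
  refine ⟨?_, fun h => v0 ?_, fun k hk h => v0 ?_, fun k hk h => u0 ?_⟩
  · by_contra ht
    push Not at ht
    exact u0 (no_jordan0 _ (qm_eig ha.TH (eig_of_cubic ha.TH (by exact_mod_cast ht.1)
      (by exact_mod_cast ht.2) (cubic ha rfl)) vn) av au)
  · have g1 := ha.mul hd.inv
    have g2 := hd.inv.mul ha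
    obtain ⟨n1, m1, a1, a2, a3⟩ := qm_mat g1
    obtain ⟨n2, m2, b1, b2, b3⟩ := qm_mat g2
    have r1 : ρ (r4 (a * d⁻¹).right) = 1 := by simp [h]
    have r2 : ρ (r4 (d⁻¹ * a).right) = 1 := by simp [h]
    rw [r1] at a1 a2
    rw [r2] at b1 b2
    have c := qm_eq (g1.mul g2) (g2.mul g1) (fun w hw => by
      rw [qm_mul g1 g2, qm_mul g2 g1]
      refine sub_eq_zero.1 (lin_zero (L := qm g1.TH 1 * qm g2.TH 1 - qm g2.TH 1 * qm g1.TH 1)
        ?_ ?_ ?_ hw) <;>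
      simp [a1, a2, a3, b1, b2, b3] <;> module) un
    have iv : qm hd.inv.TH (n + 1) (JJ (n + 1) v) = JJ (n + 1) v := by
      conv_lhs => rw [← dv, qm_cancel hd]
    have iu : qm hd.inv.TH (n + 1) (JJ (n + 1) u) = JJ (n + 1) u - JJ (n + 1) v := by
      have := qm_cancel hd (n + 1) (JJ (n + 1) u)
      rw [du, map_add, iv] at this
      exact eq_sub_of_add_eq' this
    rw [qm_mul g1 g2, qm_mul g2 g1] at c
    simp only [qm_mul ha hd.inv, qm_mul hd.inv ha, au, av, iu, iv, map_sub] at c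
    linear_combination (norm := module) (1 / 2 : ℂ) • c
  · rw [qm_JJ hd, h, JJ_conj un hk] at du
    simpa using du
  · rw [qm_JJ ha, h, JJ_conj vn hk] at av
    exact sub_eq_self.1 av.symm

theorem Th3_uu : Th3 (τ 0 * (τ 2)⁻¹) = inl (r 3) :=
  SemidirectProduct.ext (by decide) (by simp [Th3_τ, th3_right, f3])

theorem uv_rel : τ 0 * (τ 1 * (τ 0 * (τ 2)⁻¹) * (τ 1)⁻¹ * (τ 0 * (τ 2)⁻¹)⁻¹) * (τ 0)⁻¹ =
      τ 1 * (τ 0 * (τ 2)⁻¹) * (τ 1)⁻¹ * (τ 0 * (τ 2)⁻¹)⁻¹ * (τ 0 * (τ 2)⁻¹)⁻¹ ∧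
    τ 1 * (τ 1 * (τ 0 * (τ 2)⁻¹) * (τ 1)⁻¹ * (τ 0 * (τ 2)⁻¹)⁻¹) * (τ 1)⁻¹ =
      τ 1 * (τ 0 * (τ 2)⁻¹) * (τ 1)⁻¹ * (τ 0 * (τ 2)⁻¹)⁻¹ := by
  generalize h : τ 0 * (τ 2)⁻¹ = y
  have e : Th3 y = inl (r 3) := h ▸ Th3_uu
  constructor <;> apply Th3_inj <;> simp only [map_mul, map_inv, e, Th3_τ] <;>
    exact SemidirectProduct.ext (by decide) (by simp)

/-- The graded lemma for a triple. -/
theorem graded3 {T : Fin 3 → G4} (R : Rels edges4 T) (ok : ∀ i, Ok (T i))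
    (hr : (T 0).right = (T 2).right) (hn : T 0 ≠ T 2) :
    (((ρ (r4 (T 0).right)).a + (ρ (r4 (T 0).right)).d = 2 ∨
      (ρ (r4 (T 0).right)).a + (ρ (r4 (T 0).right)).d = -2) ∧
      ρ (r4 (T 0).right) ≠ ρ (r4 (T 1).right)) ∧
    ∃ u v : K, u ≠ 1 ∧ v ≠ 1 ∧ Ev u ∧ Ev v ∧ inl u = T 0 * (T 2)⁻¹ ∧
      inl v = T 1 * inl u * (T 1)⁻¹ * (inl u)⁻¹ ∧ cj (T 0) u = u ∧ cj (T 1) v = v ∧
      (∀ k, Ev k → cj (T 1) u ≠ k * u * k⁻¹) ∧ ∀ k, Ev k → cj (T 0) v ≠ k * v * k⁻¹ := by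
  have inj : Function.Injective (inl : K → G4) := inl_injective
  obtain ⟨u, hu⟩ : ∃ u, inl u = T 0 * (T 2)⁻¹ :=
    ⟨(T 0 * (T 2)⁻¹).left, SemidirectProduct.ext rfl (by simp [hr])⟩
  have eu : Ev u := by simpa [← hu] using ((ok 0).mul (ok 2).inv).ev
  have hv : (inl (cj (T 1) u * u⁻¹) : G4) = T 1 * inl u * (T 1)⁻¹ * (inl u)⁻¹ := by
    rw [cj_inl, map_mul, map_inv]
  have ev := (eu.cj (ok 1)).mul eu.inv
  have e3 : cj (T 1) u = cj (T 1) u * u⁻¹ * u := by simp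
  generalize cj (T 1) u * u⁻¹ = v at hv ev e3
  have hs : ∀ i, R.lift (τ i) = T i := R.lift_of
  have k1 := congrArg R.lift uv_rel.1
  have k2 := congrArg R.lift uv_rel.2
  have k0 : R.lift (τ 0 * (τ 2)⁻¹) = inl u := by rw [map_mul, map_inv, hs, hs, hu]
  generalize τ 0 * (τ 2)⁻¹ = y at k0 k1 k2
  simp only [map_mul, map_inv, hs, k0, ← hv] at k1 k2
  have u1 : u ≠ 1 := fun h => hn (by rwa [h, map_one, eq_comm, mul_inv_eq_one] at hu)
  have e1 : cj (T 0) u = u := inj (by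
    have c : Commute (T 0) (T 2) := (R 0 2).2 (by decide) (by decide)
    rw [← cj_inl, hu, ((Commute.refl _).mul_right c.inv_right).eq, mul_inv_cancel_right])
  have e2 : cj (T 0) v = v * u⁻¹ := inj (by rw [← cj_inl, k1, map_mul, map_inv])
  have e4 : cj (T 1) v = v := inj (by rw [← cj_inl, k2])
  obtain ⟨g1, g2, g3, g4⟩ := graded (ok 0) (ok 1) eu ev e1 e2 e3 e4 u1
  refine ⟨⟨g1, g2⟩, u, v, u1, fun h => g4 1 ev_one (by simp [h]), eu, ev, hu, hv, e1, e4, g3, g4⟩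

end Pool.Agent.P.MP_5aeb4a_al
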