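import Pool.Agent.P.MP_5aeb4a_al.EGd

/-! Stability of the two rigid families, and the easy direction. -/

set_option autoImplicit false

namespace Pool.Agent.P.MP_5aeb4a_al

variable {t : Fin 4 → AD4}

theorem et_c4z (k : ℤ) (y : AD4) : c4 ^ k * y = y * c4 ^ k := (Commute.zpow_left (c4_comm y) k).eq

theorem Gd.conj (h : Gd t) (a : AD4) : Gd fun l => a * t l * a⁻¹ := by
  rcases h with ⟨f, i, j, b, ε, m, q, hε, hi, hj, hn, h1, hf, h⟩ | ⟨f, b, ε, q, hε, h1, h⟩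
  · exact Or.inl ⟨f, i, j, a * b, ε, m, q, hε, hi, hj, hn, h1, hf, fun l => by
      simp [h, mul_assoc]⟩
  · exact Or.inr ⟨f, a * b, ε, q, hε, h1, fun l => by simp [h, mul_assoc]⟩

theorem Gd.gr (h : Gd t) (π : Equiv.Perm (Fin 4)) (hπ : π 1 = 1) :
    Gd fun l => gr π hπ (t l) := by
  rcases h with ⟨f, i, j, b, ε, m, q, hε, hi, hj, hn, h1, hf, h⟩ | ⟨f, b, ε, q, hε, h1, h⟩
  · exact Or.inl ⟨fun l => π (f l), π i, π j, MP_5aeb4a_al.gr π hπ b, ε, m, q, hε, perm_ne hπ i hi,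
      perm_ne hπ j hj, π.injective.ne hn, (congrArg π h1).trans hπ,
      fun l hl => (hf l hl).imp (congrArg π) (congrArg π), fun l => by
        simp [h, gr_s, gr_zz, gr_c4]⟩
  · exact Or.inr ⟨π * f, MP_5aeb4a_al.gr π hπ b, ε, q, hε, by rw [Equiv.Perm.mul_apply, h1, hπ],
      fun l => by simp [h, gr_s, gr_c4]⟩

theorem zz_f {f : Fin 4 → Fin 4} {i j : Fin 4} (hi : i ≠ 1) (hj : j ≠ 1) (hn : i ≠ j)
    (h1 : f 1 = 1) (hf : ∀ l, l ≠ 1 → f l = i ∨ f l = j) (l : Fin 4) :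
    Commute (zz i j) (s4 (f l)) := zz_comm hi hj hn (by
  by_cases e : l = 1
  · exact Or.inr (Or.inr (e ▸ h1))
  · exact (hf l e).imp_right Or.inl)

theorem Gd.inv (h : Gd t) : Gd fun l => (t l)⁻¹ := by
  rcases h with ⟨f, i, j, b, ε, m, q, hε, hi, hj, hn, h1, hf, h⟩ | ⟨f, b, ε, q, hε, h1, h⟩
  · refine Or.inl ⟨f, i, j, b, -ε, -m, -q, by omega, hi, hj, hn, h1, hf, fun l => ?_⟩
    beta_reduce
    rw [h, conj_inv, ← et_c4z, mul_inv_rev, ← ((zz_f hi hj hn h1 hf l).zpow_zpow m ε).eq,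
      mul_inv_rev, zpow_neg, zpow_neg, zpow_neg]
  · refine Or.inr ⟨f, b, -ε, -q, by omega, h1, fun l => ?_⟩
    beta_reduce
    rw [h, conj_inv, ← et_c4z, mul_inv_rev, zpow_neg, zpow_neg]

theorem Gd.tv (h : Gd t) (k : ℤ) : Gd fun l => t l * c4 ^ k := by
  rcases h with ⟨f, i, j, b, ε, m, q, hε, hi, hj, hn, h1, hf, h⟩ | ⟨f, b, ε, q, hε, h1, h⟩
  · refine Or.inl ⟨f, i, j, b, ε, m, q + k, hε, hi, hj, hn, h1, hf, fun l => ?_⟩
    beta_reduce
    rw [h, mul_assoc _ b⁻¹, ← et_c4z k b⁻¹, zpow_add]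
    simp only [mul_assoc]
  · refine Or.inr ⟨f, b, ε, q + k, hε, h1, fun l => ?_⟩
    beta_reduce
    rw [h, mul_assoc _ b⁻¹, ← et_c4z k b⁻¹, zpow_add]
    simp only [mul_assoc]

theorem Gd.perm (h : Gd t) (π : Equiv.Perm (Fin 4)) (hπ : π 1 = 1) : Gd fun l => t (π l) := by
  rcases h with ⟨f, i, j, b, ε, m, q, hε, hi, hj, hn, h1, hf, h⟩ | ⟨f, b, ε, q, hε, h1, h⟩
  · exact Or.inl ⟨fun l => f (π l), i, j, b, ε, m, q, hε, hi, hj, hn, (congrArg f hπ).trans h1,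
      fun l hl => hf _ (perm_ne hπ l hl), fun l => h _⟩
  · exact Or.inr ⟨f * π, b, ε, q, hε, by rw [Equiv.Perm.mul_apply, hπ, h1], fun l => h _⟩

theorem et_mulc {n : ℕ} {E : List (Fin n × Fin n)} {G : Type} [Group G] {f : Fin n → G}
    (h : Rels E f) {y : G} (hy : ∀ i, y * f i = f i * y) : Rels E fun i => f i * y := by
  have k : ∀ i t, y * (f i * t) = f i * (y * t) := fun i t => by rw [← mul_assoc, hy, mul_assoc]
  refine fun i j => ⟨fun e => ?_, fun e e' => ?_⟩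
  · have := congrArg (· * (y * (y * y))) ((h i j).1 e)
    simpa only [mul_assoc, k i, k j] using this
  · have := congrArg (· * (y * y)) ((h i j).2 e e')
    simpa only [mul_assoc, k i, k j] using this

theorem et_eps {n : ℕ} {E : List (Fin n × Fin n)} {G : Type} [Group G] {f : Fin n → G}
    (h : Rels E f) {ε : ℤ} (hε : ε = 1 ∨ ε = -1) : Rels E fun i => f i ^ ε := by
  rcases hε with rfl | rfl
  · simpa using h
  · simpa using h.inv

theorem Gd.rels (h : Gd t) : Rels edgesD4 t := by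
  rcases h with ⟨f, i, j, b, ε, m, q, hε, hi, hj, hn, h1, hf, h⟩ | ⟨f, b, ε, q, hε, h1, h⟩
  · have R := et_eps (rels_s4.perm h1 fun l hl => by
      rcases hf l hl with e | e <;> rwa [e]) hε
    rw [funext h]
    exact ((et_mulc R fun l => ((zz_f hi hj hn h1 hf l).zpow_zpow m ε).eq).mul_central
      (et_c4z q)).map (MulAut.conj b).toMonoidHom
  · rw [funext h]
    exact ((et_eps (rels_s4.perm h1 (perm_ne h1)) hε).mul_central (et_c4z q)).map
      (MulAut.conj b).toMonoidHom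

theorem Gd.of_conj {a : AD4} (h : Gd fun l => a * t l * a⁻¹) : Gd t := by
  simpa [mul_assoc] using h.conj a⁻¹

theorem Gd.of_inv (h : Gd fun l => (t l)⁻¹) : Gd t := by simpa using h.inv

theorem Gd.of_tv {k : ℤ} (h : Gd fun l => t l * c4 ^ k) : Gd t := by
  simpa [mul_assoc] using h.tv (-k)

theorem Gd.of_perm {π : Equiv.Perm (Fin 4)} (hπ : π 1 = 1) (h : Gd fun l => t (π l)) : Gd t := by
  simpa using h.perm π⁻¹ (by rw [Equiv.Perm.inv_eq_iff_eq, hπ])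

theorem Gd.of_gr {π : Equiv.Perm (Fin 4)} (hπ : π 1 = 1)
    (h : Gd fun l => MP_5aeb4a_al.gr π hπ (t l)) : Gd t := by
  have := h.gr π⁻¹ (by rw [Equiv.Perm.inv_eq_iff_eq, hπ])
  simp only [gr_gr, inv_mul_cancel] at this
  rwa [funext fun l => gr_one _ (t l)] at this

end Pool.Agent.P.MP_5aeb4a_al
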