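import Pool.Agent.P.MP_5aeb4a_al.E6
import Pool.Agent.P.MP_5aeb4a_al.ET

/-! The classification of the quadruples satisfying the relations of type `D₄`. -/

set_option autoImplicit false

namespace Pool.Agent.P.MP_5aeb4a_al

variable {t : Fin 4 → AD4}

theorem em_std (R : Rels edgesD4 t) (h2 : pr4 (t 2) = τ 0) (h1 : pr4 (t 1) = τ 1)
    (h0 : pr4 (t 0) = τ 2) : Gd t := by
  have R' := R.map pr4
  rcases third (y := pr4 (t 3)) (h2 ▸ R'.cm4 (i := 3) (j := 2) (by decide) (by decide))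
    (h0 ▸ R'.cm4 (i := 3) (j := 0) (by decide) (by decide))
    (h1 ▸ R'.br4 (i := 3) (by decide)) with h3 | h3
  · refine core4 R fun i => ?_
    fin_cases i
    exacts [h0, h1, h2, h3]
  · have hπ : Equiv.swap (0 : Fin 4) 2 1 = 1 := by decide
    refine Gd.of_perm hπ (Gd.of_conj (a := in4 Dl4) (core4
      ((R.perm hπ (perm_ne hπ)).map (MulAut.conj (in4 Dl4)).toMonoidHom) fun i => ?_))
    have k : ∀ (y : AD4) (l : Fin 3), pr4 y = τ l →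
        pr4 (in4 Dl4 * y * (in4 Dl4)⁻¹) = τ (sw4 l) := fun y l e => by
      rw [map_mul, map_mul, map_inv, pr4_in4, e, Dl4_τ, mul_inv_cancel_right]
    fin_cases i
    exacts [k _ 0 h2, k _ 1 h1, k _ 2 h0, k _ 2 h3]

theorem em_20 (R : Rels edgesD4 t) (hn : pr4 (t 2) ≠ pr4 (t 0)) : Gd t := by
  obtain ⟨h, ε, q, hε, e⟩ := endB4 ((R.tri (i := 2) (j := 0) (by decide) (by decide)).map pr4) hn
  have R1 := (R.map (MulAut.conj (in4 h)⁻¹).toMonoidHom).mul_central (et_c4z (-q))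
  have k : ∀ (y : AD4) (l : Fin 3), pr4 y = h * (τ l ^ ε * z4 ^ q) * h⁻¹ →
      pr4 ((in4 h)⁻¹ * y * (in4 h)⁻¹⁻¹ * c4 ^ (-q)) = τ l ^ ε := fun y l e => by
    simp [e, pr4_in4, pr4_c4, mul_assoc]
  refine Gd.of_conj (a := (in4 h)⁻¹) (Gd.of_tv (k := -q) ?_)
  rcases hε with rfl | rfl
  · exact em_std R1 ((k _ 0 (e 0)).trans (zpow_one _)) ((k _ 1 (e 1)).trans (zpow_one _))
      ((k _ 2 (e 2)).trans (zpow_one _))
  · have k2 : ∀ (y : AD4) (l : Fin 3), pr4 y = τ l ^ (-1 : ℤ) → pr4 y⁻¹ = τ l := fun y l e => by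
      rw [map_inv, e, zpow_neg_one, inv_inv]
    exact Gd.of_inv (em_std R1.inv (k2 _ 0 (k _ 0 (e 0))) (k2 _ 1 (k _ 1 (e 1)))
      (k2 _ 2 (k _ 2 (e 2))))

theorem em_pair (R : Rels edgesD4 t) {i j : Fin 4} (hi : i ≠ 1) (hj : j ≠ 1)
    (hn : pr4 (t i) ≠ pr4 (t j)) : Gd t := by
  have k : ∀ i j : Fin 4, i ≠ 1 → j ≠ 1 → i ≠ j →
      ∃ π : Equiv.Perm (Fin 4), π 1 = 1 ∧ π 2 = i ∧ π 0 = j := by decide
  obtain ⟨π, hπ, rfl, rfl⟩ := k i j hi hj fun e => hn (by rw [e])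
  exact Gd.of_perm hπ (em_20 (R.perm hπ (perm_ne hπ)) hn)

theorem em_ne : τ 0 ≠ τ 2 := fun e => by
  have := congrArg (fun b => (Th3 b).left) e
  simp only [Th3_τ] at this
  revert this
  decide

theorem em_any (R : Rels edgesD4 t) {i j : Fin 4} (hi : i ≠ 1) (hj : j ≠ 1) (hn : t i ≠ t j) :
    Gd t := by
  by_cases c : pr4 (t i) = pr4 (t j)
  swap
  · exact em_pair R hi hj c
  obtain ⟨a, π, hπ, ε, m, q, hε, e⟩ := fold4A (R.tri hi hj) c hn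
  have hπ' : π⁻¹ 1 = 1 := by rw [Equiv.Perm.inv_eq_iff_eq, hπ]
  have hs : Equiv.swap (0 : Fin 4) 3 1 = 1 := by decide
  refine Gd.of_conj (a := a⁻¹) (Gd.of_gr hπ' (Gd.of_gr hs (em_pair
    (((R.map (MulAut.conj a⁻¹).toMonoidHom).map (gr _ hπ')).map (gr _ hs)) hi hj ?_)))
  have k : ∀ y w : AD4, y = a * gr π hπ w * a⁻¹ → gr _ hπ' (a⁻¹ * y * a⁻¹⁻¹) = w := fun y w e => by
    have e2 : a⁻¹ * y * a⁻¹⁻¹ = gr π hπ w := by rw [e]; group
    rw [e2, gr_gr]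
    simp only [inv_mul_cancel]
    exact gr_one _ w
  change pr4 (gr _ hs (gr _ hπ' (a⁻¹ * t i * a⁻¹⁻¹))) ≠ pr4 (gr _ hs (gr _ hπ' (a⁻¹ * t j * a⁻¹⁻¹)))
  rw [k (t i) _ (e 0), k (t j) _ (e 2)]
  intro z
  simp only [map_mul, mul_left_inj, map_zpow] at z
  have e0 : pr4 (gr _ hs (![s4 2, s4 1, s4 3] 0)) = τ 0 :=
    (congrArg pr4 (gr_s _ hs 2)).trans (pr4_s 2)
  have e2 : pr4 (gr _ hs (![s4 2, s4 1, s4 3] 2)) = τ 2 :=
    (congrArg pr4 (gr_s _ hs 3)).trans (pr4_s 0)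
  rw [e0, e2] at z
  rcases hε with rfl | rfl
  · exact em_ne (by simpa using z)
  · exact em_ne (by simpa using z)

theorem main4 (R : Rels edgesD4 t) : (t 0 = t 2 ∧ t 2 = t 3) ∨ Gd t := by
  by_cases h1 : t 0 = t 2
  · by_cases h2 : t 2 = t 3
    · exact Or.inl ⟨h1, h2⟩
    · exact Or.inr (em_any R (by decide) (by decide) h2)
  · exact Or.inr (em_any R (by decide) (by decide) h1)

end Pool.Agent.P.MP_5aeb4a_al
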