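import Pool.Agent.P.MP_5aeb4a_al.FW

/-! Blocks of letters, cyclically reduced words and centralisers in the free group. -/

set_option autoImplicit false

namespace Pool.Agent.P.MP_5aeb4a_al.Fr

variable {X : Type} {γ : Lt → X} {β : Fin 4 → Fin 4} {k : Fin 4} {u v s d : F}

/-- All letters of `u` lie in the block `k`. -/
def In (β : Fin 4 → Fin 4) (k : Fin 4) (u : F) : Prop := ∀ j ∈ u.l, β j.1 = k

/-- The image of the first letter. -/
def hd (γ : Lt → X) (u : F) : Option X := u.l.head?.map γ

/-- The block of the first letter. -/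
abbrev hb (β : Fin 4 → Fin 4) (u : F) : Option (Fin 4) := hd (fun a => β a.1) u

theorem In.mul (hu : In β k u) (hv : In β k v) : In β k (u * v) :=
  fun j hj => (mem_mul hj).elim (hu j) (hv j)

theorem In.inv (hu : In β k u) : In β k u⁻¹ := fun j hj => by
  simp only [inv_l, List.mem_map, List.mem_reverse] at hj
  obtain ⟨i, hi, rfl⟩ := hj
  exact hu i hi

theorem in_one : In β k 1 := fun j hj => by simp [one_l] at hj

theorem in_y (j : Fin 4) : In β (β j) (y j) := fun i hi => by
  simp only [y, x_l, List.mem_singleton] at hi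
  rw [hi]

theorem hd_one : hd γ 1 = none := rfl

theorem hd_eq_none : hd γ u = none ↔ u = 1 := by simp [hd, l_eq_nil]

theorem In.hb_eq (hu : In β k u) (h1 : u ≠ 1) : hb β u = some k := by
  unfold hb hd
  cases e : u.l with
  | nil => exact absurd (l_eq_nil.1 e) h1
  | cons i l => simp [hu i (by simp [e])]

theorem cat (h : ∀ k, hd γ u⁻¹ = some k → hd γ v ≠ some k) : (u * v).l = u.l ++ v.l := by
  apply mul_l_of_red
  refine List.isChain_append.2 ⟨u.red, v.red, fun a ha b hb' e => ?_⟩
  subst e
  refine h (γ (iv a)) ?_ ?_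
  · simp only [hd, inv_l, List.head?_map, List.head?_reverse]
    rw [Option.mem_def.1 ha]
    rfl
  · simp only [hd]
    rw [Option.mem_def.1 hb']
    rfl

theorem hd_mul (h1 : u ≠ 1) (h : ∀ k, hd γ u⁻¹ = some k → hd γ v ≠ some k) :
    hd γ (u * v) = hd γ u := by
  unfold hd
  rw [cat h]
  cases e : u.l with
  | nil => exact absurd (l_eq_nil.1 e) h1
  | cons i l => rfl

theorem In.nc (hs : In β k s) (hd' : hb β d ≠ some k) :
    ∀ k', hb β s⁻¹ = some k' → hb β d ≠ some k' := by
  intro k' h
  by_cases h1 : s⁻¹ = 1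
  · rw [h1] at h
    cases h
  · rw [hs.inv.hb_eq h1] at h
    cases h
    exact hd'

theorem In.hb_cat (hs : In β k s) (h1 : s ≠ 1) (hd' : hb β d ≠ some k) :
    hb β (s * d) = some k := by
  rw [hb, hd_mul h1 (hs.nc hd')]
  exact hs.hb_eq h1

theorem block_ind (β : Fin 4 → Fin 4) {P : F → Prop} (h1 : P 1)
    (hs : ∀ k s d, s ≠ 1 → In β k s → hb β d ≠ some k → P d → P (s * d)) (u : F) : P u := by
  induction h : len u using Nat.strong_induction_on generalizing u with
  | _ n ih =>
    cases e : u.l with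
    | nil => rw [l_eq_nil.1 e]; exact h1
    | cons i l =>
      have hr := u.red
      have h2 := List.takeWhile_append_dropWhile (p := fun j => decide (β j.1 = β i.1)) (l := u.l)
      rw [← h2] at hr
      let s : F := ⟨_, hr.left_of_append⟩
      let d : F := ⟨_, hr.right_of_append⟩
      have hu : u = s * d := F.ext (by rw [mul_l_of_red hr, h2])
      have hs1 : s.l = i :: l.takeWhile fun j => decide (β j.1 = β i.1) := by
        simp only [s, e]
        simp
      rw [hu]
      refine hs (β i.1) s d (fun h0 => by rw [h0, one_l] at hs1; cases hs1)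
        (fun j hj => by simpa using List.mem_takeWhile_imp hj) ?_ (ih _ ?_ d rfl)
      · intro h3
        have h4 := List.head?_dropWhile_not (fun j => decide (β j.1 = β i.1)) u.l
        simp only [hb, hd, d] at h3
        cases e2 : (u.l.dropWhile fun j => decide (β j.1 = β i.1)).head? with
        | none => rw [e2] at h3; cases h3
        | some j =>
          rw [e2] at h3 h4
          simp at h3 h4
          exact h4 h3
      · have h5 := congrArg List.length h2
        have h6 := congrArg List.length hs1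
        simp only [List.length_append, List.length_cons, len, s, d] at h5 h6 h ⊢
        omega

theorem block_uniq {s' d' : F} (hs : In β k s) (hs' : In β k s') (hd1 : hb β d ≠ some k)
    (hd' : hb β d' ≠ some k) (e : s * d = s' * d') : s = s' ∧ d = d' := by
  have h1 : s'⁻¹ * s = 1 := by
    by_contra h
    have h2 := (hs'.inv.mul hs).hb_cat h hd1
    rw [mul_assoc, e, inv_mul_cancel_left] at h2
    exact hd' h2
  have h3 : s = s' := (inv_mul_eq_one.1 h1).symm
  subst h3
  exact ⟨rfl, mul_left_cancel e⟩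

/-- `θ` respects the blocks. -/
def Resp (β : Fin 4 → Fin 4) (θ : F →* F) : Prop :=
  Function.Injective θ ∧ ∀ i, In β (β i) (θ (y i))

theorem Resp.in {θ : F →* F} (h : Resp β θ) (hu : In β k u) : In β k (θ u) := by
  rw [← ev_self u]
  unfold In at hu
  generalize u.l = m at hu ⊢
  induction m with
  | nil => simpa using in_one
  | cons i l ih =>
    rw [ev_cons, map_mul]
    refine In.mul ?_ (ih fun j hj => hu j (List.mem_cons_of_mem _ hj))
    have := hu i (by simp) ▸ h.2 i.1
    rcases x_cases i with e | e <;> rw [e]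
    · exact this
    · rw [map_inv]
      exact this.inv

theorem Resp.hb_eq {θ : F →* F} (h : Resp β θ) (u : F) : hb β (θ u) = hb β u := by
  induction u using block_ind β with
  | h1 => rw [map_one]
  | hs k s d h1 hs hd ih =>
    rw [map_mul, hs.hb_cat h1 hd, (h.in hs).hb_cat _ (ih ▸ hd)]
    intro h0
    exact h1 (h.1 (h0.trans (map_one θ).symm))

theorem split_block (β : Fin 4 → Fin 4) (k : Fin 4) (u : F) :
    ∃ s d, In β k s ∧ hb β d ≠ some k ∧ u = s * d ∧ len u = len s + len d := by
  induction u using block_ind β with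
  | h1 => exact ⟨1, 1, in_one, by simp [hd_one], by simp, rfl⟩
  | hs k' s d h1 hs hd _ =>
    by_cases e : k' = k
    · exact ⟨s, d, e ▸ hs, e ▸ hd, rfl, by simp [len, cat (hs.nc hd)]⟩
    · refine ⟨1, s * d, in_one, ?_, by simp, by simp [len, one_l]⟩
      rw [hs.hb_cat h1 hd]
      simpa using e

theorem hb_mul_in (hd1 : hb β d ≠ some k) (h1 : d ≠ 1) (hs : In β k s) :
    hb β (d * s) = hb β d := by
  obtain ⟨t, e, ht, he, h, -⟩ := split_block β k d⁻¹
  have h2 : d = e⁻¹ * t⁻¹ := by rw [← mul_inv_rev, ← h, inv_inv]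
  have e1 : e⁻¹ ≠ 1 := fun h0 => by
    rw [h0, one_mul] at h2
    exact hd1 (h2 ▸ ht.inv.hb_eq (h2 ▸ h1))
  have key : ∀ w, In β k w → hb β (e⁻¹ * w) = hb β e⁻¹ := fun w hw => by
    refine hd_mul e1 fun k' hk' => ?_
    by_cases s1 : w = 1
    · simp [s1, hd_one]
    · have := hw.hb_eq s1
      rw [hb] at this
      rw [this]
      rintro ⟨rfl⟩
      exact he (by simpa using hk')
  rw [h2, mul_assoc, key _ (ht.inv.mul hs), key _ ht.inv]

/-- Cyclically reduced elements. -/
def CR (u : F) : Prop := ∀ k, hd id u⁻¹ = some k → hd id u ≠ some k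

theorem cr_of_hd (h : ∀ k, hd γ u⁻¹ = some k → hd γ u ≠ some k) : CR u := by
  intro k h1 h2
  refine h (γ k) ?_ ?_
  · simp only [hd, Option.map_id_fun, id] at h1 ⊢
    rw [h1]
    rfl
  · simp only [hd, Option.map_id_fun, id] at h2 ⊢
    rw [h2]
    rfl

theorem CR.pow (h : CR u) (m : ℕ) : len (u ^ (m + 1)) = (m + 1) * len u ∧
    hd id (u ^ (m + 1)) = hd id u := by
  induction m with
  | zero => simp
  | succ m ih =>
    by_cases h1 : u = 1
    · simp [h1, len, one_l]
    have h2 : ∀ k, hd id u⁻¹ = some k → hd id (u ^ (m + 1)) ≠ some k := by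
      rw [ih.2]
      exact h
    rw [pow_succ' u (m + 1)]
    refine ⟨?_, hd_mul h1 h2⟩
    have h3 := ih.1
    unfold len at h3 ⊢
    rw [cat h2, List.length_append, h3]
    ring

theorem CR.len_le (hv : CR v) (h : IsConj u v) : len v ≤ len u := by
  obtain ⟨g, rfl⟩ := isConj_iff.1 h
  by_contra hc
  have h1 := (hv.pow (2 * len g)).1
  have h2 : ∀ m : ℕ, len (u ^ m) ≤ m * len u := by
    intro m
    induction m with
    | zero => simp [len, one_l]
    | succ m ih =>
      have := len_mul (u ^ m) u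
      rw [pow_succ]
      nlinarith
  rw [conj_pow] at h1
  have h3 := len_mul (g * u ^ (2 * len g + 1)) g⁻¹
  have h4 := len_mul g (u ^ (2 * len g + 1))
  have h5 := h2 (2 * len g + 1)
  rw [len_inv] at h3
  nlinarith

theorem exists_blk (β : Fin 4 → Fin 4) (u : F) : ∃ v, IsConj u v ∧
    ((∃ k, In β k v) ∨ ∀ k, hb β v⁻¹ = some k → hb β v ≠ some k) := by
  induction h : len u using Nat.strong_induction_on generalizing u with
  | _ n ih =>
    by_cases hc : ∀ k, hb β u⁻¹ = some k → hb β u ≠ some k
    · exact ⟨u, IsConj.refl u, Or.inr hc⟩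
    simp only [not_forall, not_not] at hc
    obtain ⟨k, h1, h2⟩ := hc
    obtain ⟨s, d, hs, hd1, e, hl⟩ := split_block β k u
    by_cases d1 : d = 1
    · exact ⟨u, IsConj.refl u, Or.inl ⟨k, by rw [e, d1, mul_one]; exact hs⟩⟩
    have c : IsConj u (d * s) := isConj_iff.2 ⟨s⁻¹, by simp [e, mul_assoc]⟩
    obtain ⟨t, f, ht, hf, e2, hl2⟩ := split_block β k d⁻¹
    by_cases t1 : s⁻¹ * t = 1
    · have e3 : d * s = f⁻¹ := by
        rw [← inv_inj, mul_inv_rev, e2, ← mul_assoc, t1, one_mul, inv_inv]
      have s1 : len s ≠ 0 := fun h0 => by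
        rw [e, l_eq_nil.1 (List.length_eq_zero_iff.1 h0), one_mul] at h2
        exact hd1 h2
      obtain ⟨v, c2, hv⟩ := ih (len (d * s)) (by rw [e3, len_inv]; rw [len_inv] at hl2; omega)
        (d * s) rfl
      exact ⟨v, c.trans c2, hv⟩
    · refine ⟨d * s, c, Or.inr fun k' hk => ?_⟩
      rw [mul_inv_rev, e2, ← mul_assoc, (hs.inv.mul ht).hb_cat t1 hf] at hk
      cases hk
      rwa [hb_mul_in hd1 d1 hs]

/-- The comparison with the free group of Mathlib. -/
def toFG : F ≃* FreeGroup (Fin 4) :=
  MonoidHom.toMulEquiv (flift FreeGroup.of) (FreeGroup.lift y) (fhom_ext fun i => by simp)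
    (by ext i; simp)

theorem root_uniq {n : ℕ} (hn : n ≠ 0) (h : u ^ n = v ^ n) : u = v :=
  toFG.injective (pow_left_injective hn (by simpa using congrArg toFG h))

theorem comm_root (h : Commute u v) : ∃ (w : F) (a b : ℤ), u = w ^ a ∧ v = w ^ b := by
  haveI : IsFreeGroup F := IsFreeGroup.ofMulEquiv toFG.symm
  let H := Subgroup.closure ({u, v} : Set F)
  have hc : ∀ a b : H, a * b = b * a := by
    letI : CommGroup H := Subgroup.closureCommGroupOfComm (by
      rintro a (rfl | rfl) b (rfl | rfl)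
      exacts [rfl, h.eq, h.eq.symm, rfl])
    exact fun a b => mul_comm a b
  have h1 : ∀ a b : IsFreeGroup.Generators H, a = b := fun a b => by
    by_contra ne
    classical
    have := congrArg (IsFreeGroup.lift fun g => if g = a then Equiv.swap (0 : Fin 3) 1
      else Equiv.swap 1 2) (hc (IsFreeGroup.of a) (IsFreeGroup.of b))
    simp only [map_mul, IsFreeGroup.lift_of, if_true, if_neg (Ne.symm ne)] at this
    exact absurd this (by decide)
  have h2 : ∃ w : H, ∀ g : H, ∃ a : ℤ, g = w ^ a := by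
    by_cases hn : Nonempty (IsFreeGroup.Generators H)
    · obtain ⟨a⟩ := hn
      refine ⟨IsFreeGroup.of a, fun g => ?_⟩
      let θ : H →* Multiplicative ℤ := IsFreeGroup.lift fun _ => Multiplicative.ofAdd 1
      have := IsFreeGroup.ext_hom (f := MonoidHom.id H)
        (g := (zpowersHom H (IsFreeGroup.of a)).comp θ) fun b => by simp [θ, h1 b a]
      exact ⟨_, DFunLike.congr_fun this g⟩
    · refine ⟨1, fun g => ⟨0, ?_⟩⟩
      have := IsFreeGroup.ext_hom (f := MonoidHom.id H) (g := 1) fun b => absurd ⟨b⟩ hn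
      simpa using DFunLike.congr_fun this g
  obtain ⟨w, hw⟩ := h2
  obtain ⟨a, ha⟩ := hw ⟨u, Subgroup.subset_closure (by simp)⟩
  obtain ⟨b, hb⟩ := hw ⟨v, Subgroup.subset_closure (by simp)⟩
  exact ⟨w, a, b, congrArg Subtype.val ha, congrArg Subtype.val hb⟩

/-- The exponent of one generator. -/
def ex (j : Fin 4) : F →* Multiplicative ℤ :=
  flift fun i => Multiplicative.ofAdd (if i = j then 1 else 0)

theorem comm_prim {j : Fin 4} (h : Commute u v) (hv : ex j v = Multiplicative.ofAdd 1) :
    ∃ m : ℤ, u = v ^ m := by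
  obtain ⟨w, a, b, rfl, rfl⟩ := comm_root h
  rw [map_zpow] at hv
  have h1 : b * (ex j w).toAdd = 1 := by simpa using congrArg Multiplicative.toAdd hv
  rcases Int.eq_one_or_neg_one_of_mul_eq_one h1 with rfl | rfl
  · exact ⟨a, by simp⟩
  · exact ⟨-a, by simp⟩

end Pool.Agent.P.MP_5aeb4a_al.Fr
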