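import Pool.Agent.P.MP_5aeb4a_al.FB
import Pool.Agent.P.MP_5aeb4a_al.Art

/-! The action of the braid group on four strands on the free group. -/

set_option autoImplicit false

namespace Pool.Agent.P.MP_5aeb4a_al

def edges4 : List (Fin 3 × Fin 3) := [(0, 1), (1, 2)]

/-- The braid group on four strands. -/
abbrev B4 : Type := Artin edges4

def τ (i : Fin 3) : B4 := PresentedGroup.of i

theorem rels_τ : Rels edges4 τ := rels_of _

theorem art_ind {n : ℕ} {E : List (Fin n × Fin n)} {P : Artin E → Prop} (h1 : P 1)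
    (hm : ∀ a b, P a → P b → P (a * b)) (hi : ∀ a, P a → P a⁻¹)
    (hg : ∀ i, P (PresentedGroup.of i)) (g : Artin E) : P g :=
  PresentedGroup.generated_by _
    { carrier := {g | P g}
      one_mem' := h1
      mul_mem' := fun ha hb => hm _ _ ha hb
      inv_mem' := fun ha => hi _ ha } hg g

namespace Fr

def faf (i : Fin 3) (j : Fin 4) : F :=
  if j = i.castSucc then (y i.castSucc)⁻¹ * y i.succ * y i.castSucc
  else if j = i.succ then y i.castSucc else y j

def fag (i : Fin 3) (j : Fin 4) : F :=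
  if j = i.castSucc then y i.succ
  else if j = i.succ then y i.succ * y i.castSucc * (y i.succ)⁻¹ else y j

def fh (i : Fin 3) : F →* F := flift (faf i)

def fk (i : Fin 3) : F →* F := flift (fag i)

theorem fk_fh : ∀ i j, fk i (fh i (y j)) = y j := by decide

theorem fh_fk : ∀ i j, fh i (fk i (y j)) = y j := by decide

def fa (i : Fin 3) : MulAut F :=
  MonoidHom.toMulEquiv (fh i) (fk i) (fhom_ext (fk_fh i)) (fhom_ext (fh_fk i))

theorem fa_apply (i : Fin 3) (u : F) : fa i u = fh i u := rfl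

theorem fh_y (i : Fin 3) (j : Fin 4) : fh i (y j) = faf i j := flift_y _ _

theorem fh_inj (i : Fin 3) : Function.Injective (fh i) := (fa i).injective

theorem fa_ext {a b : MulAut F} (h : ∀ j, a (y j) = b (y j)) : a = b :=
  MulEquiv.toMonoidHom_injective (fhom_ext h)

theorem rels_fa : Rels edges4 fa := fun i j =>
  ⟨fun e => fa_ext (by revert i j; decide), fun e e' => fa_ext (by revert i j; decide)⟩

def act4 : B4 →* MulAut F := rels_fa.lift

theorem act4_τ (i : Fin 3) : act4 (τ i) = fa i := rels_fa.lift_of i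

def bl (i : Fin 3) (j : Fin 4) : Fin 4 := if j = i.succ then i.castSucc else j

theorem resp_fa (i : Fin 3) : Resp (bl i) (fh i) :=
  ⟨fh_inj i, by
    have : ∀ i j, ∀ k ∈ (fh i (y j)).l, bl i k.1 = bl i j := by decide
    exact this i⟩

def r (i : Fin 3) : F := y i.succ * y i.castSucc

theorem fh_r : ∀ i, fh i (r i) = r i := by decide

theorem fix_of_in {i : Fin 3} {k : Fin 4} {s : F} (h : In (bl i) k s) (hk : k ≠ i.castSucc) :
    fh i s = s := by
  refine hom_eq_of_letters (g := MonoidHom.id F) fun j hj => ?_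
  have : ∀ (i : Fin 3) j, bl i j ≠ i.castSucc → fh i (y j) = y j := by decide
  exact this i j.1 (h j hj ▸ hk)

theorem sq_of_in {i : Fin 3} {s : F} (h : In (bl i) i.castSucc s) :
    fh i (fh i s) = (r i)⁻¹ * s * r i := by
  have := hom_eq_of_letters (f := (fh i).comp (fh i)) (g := (MulAut.conj (r i)⁻¹).toMonoidHom)
    (u := s) fun j hj => by
      have : ∀ (i : Fin 3) j, bl i j = i.castSucc →
        fh i (fh i (y j)) = (r i)⁻¹ * y j * (r i)⁻¹⁻¹ := by decide
      exact this i j.1 (h j hj)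
  simpa using this

theorem resp_pow (i : Fin 3) (n : ℕ) : Resp (bl i) (fa i ^ n).toMonoidHom := by
  refine ⟨(fa i ^ n).injective, fun j => ?_⟩
  induction n with
  | zero => exact in_y j
  | succ n ih =>
    rw [pow_succ']
    exact (resp_fa i).in ih

theorem fix_pow {i : Fin 3} {n : ℕ} {u : F} (h : (fa i ^ (n + 1)) u = u) : fh i u = u := by
  have R := resp_pow i (n + 1)
  induction u using block_ind (bl i) with
  | h1 => simp
  | hs k s d h1 hs hd ih =>
    rw [map_mul] at h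
    obtain ⟨e1, e2⟩ := block_uniq (R.in hs) hs (fun e => hd ((R.hb_eq d).symm.trans e)) hd h
    rw [map_mul, ih e2]
    congr 1
    by_cases hk : k = i.castSucc
    swap
    · exact fix_of_in hs hk
    subst hk
    have h2 : ∀ m : ℕ, (fa i ^ (2 * m)) s = (r i ^ m)⁻¹ * s * r i ^ m := fun m => by
      induction m with
      | zero => simp
      | succ m ih =>
        rw [mul_add, pow_add, MulAut.mul_apply, mul_one, pow_two, MulAut.mul_apply, fa_apply,
          fa_apply, sq_of_in hs, map_mul, map_mul, map_inv, ih]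
        have : (fa i ^ (2 * m)) (r i) = r i := by
          induction 2 * m with
          | zero => rfl
          | succ l ih => rw [pow_succ, MulAut.mul_apply, fa_apply, fh_r, ih]
        rw [this, pow_succ]
        simp [mul_assoc]
    have h3 := h2 (n + 1)
    have e3 : (fa i ^ (n + 1)) s = s := e1
    rw [two_mul, pow_add, MulAut.mul_apply, e3, e3] at h3
    have h4 : s * r i * s⁻¹ = r i := root_uniq (n := n + 1) (by omega) (by
      rw [conj_pow, mul_inv_eq_iff_eq_mul, ← inv_mul_eq_iff_eq_mul, ← mul_assoc, ← h3])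
    have h5 : ∀ i : Fin 3, ex i.succ (r i) = Multiplicative.ofAdd 1 := by decide
    obtain ⟨m, rfl⟩ := comm_prim (mul_inv_eq_iff_eq_mul.1 h4) (h5 i)
    rw [map_zpow, fh_r]

theorem inv_fix {v : F} (h : IsConj (fh 0 v) v) (h3 : ex 3 v = Multiplicative.ofAdd 1) :
    ∃ g, fh 0 (g * v * g⁻¹) = g * v * g⁻¹ := by
  obtain ⟨u, c, hu⟩ := exists_blk (bl 0) v
  obtain ⟨g, rfl⟩ := isConj_iff.1 c
  refine ⟨g, ?_⟩
  generalize g * v * g⁻¹ = u at c hu ⊢
  rcases hu with ⟨k, hk⟩ | hu
  · refine fix_of_in hk fun e => ?_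
    have h4 := isConj_iff_eq.1 ((ex 3).map_isConj c)
    have h5 : ex 3 u = (1 : F →* Multiplicative ℤ) u := hom_eq_of_letters fun j hj => by
      have : ∀ j, bl 0 j = (0 : Fin 3).castSucc → ex 3 (y j) = 1 := by decide
      exact this _ ((hk j hj).trans e)
    rw [h3, h5, MonoidHom.one_apply] at h4
    exact absurd h4 (by decide)
  have h1 : IsConj u (fh 0 u) := (c.symm.trans h.symm).trans ((fh 0).map_isConj c)
  have h2 : ∀ n : ℕ, IsConj u ((fa 0 ^ n) u) := fun n => by
    induction n with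
    | zero => exact IsConj.refl u
    | succ n ih =>
      rw [pow_succ']
      exact h1.trans ((fh 0).map_isConj ih)
  have h4 : ∀ n : ℕ, ((fa 0 ^ n) u).l ∈ {l : List Lt | l.length ≤ len u} := fun n => by
    refine CR.len_le (cr_of_hd (γ := fun a => bl 0 a.1) fun k => ?_) (h2 n)
    have e1 := (resp_pow 0 n).hb_eq u
    have e2 := (resp_pow 0 n).hb_eq u⁻¹
    rw [map_inv] at e2
    exact fun a b => hu k (e2.symm.trans a) (e1.symm.trans b)
  obtain ⟨a, b, ab, e⟩ := (List.finite_length_le Lt (len u)).exists_lt_map_eq_of_forall_mem h4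
  obtain ⟨n, rfl⟩ : ∃ n, b = a + (n + 1) := ⟨b - a - 1, by omega⟩
  have e2 := F.ext e
  rw [pow_add, MulAut.mul_apply] at e2
  exact fix_pow ((fa 0 ^ a).injective e2).symm

theorem solve {w : F} (h1 : w * (y 2 * fh 2 w * (y 2)⁻¹) = 1) (h2 : fh 1 w = w * fh 2 (fh 1 w)) :
    ∃ a : ℤ, w = y 3 ^ a * y 2 ^ (-a) := by
  have R := resp_fa 2
  have e1 : fh 2 w = (y 2)⁻¹ * w⁻¹ * y 2 := by
    rw [← eq_inv_of_mul_eq_one_right h1]
    simp [mul_assoc]
  have e2 : r 2 * fh 2 (fh 2 w) * (r 2)⁻¹ = w := by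
    have t : fh 2 (y 2) = (y 2)⁻¹ * r 2 := by decide
    rw [e1, map_mul, map_mul, map_inv, map_inv, e1, t]
    simp [mul_assoc]
  obtain ⟨s, d, hs, hd1, e, -⟩ := split_block (bl 2) (2 : Fin 3).castSucc w
  have ir : In (bl 2) (2 : Fin 3).castSucc (r 2) := by
    unfold In
    decide
  have d1 : d = 1 := by
    by_contra d1
    have d2 : fh 2 (fh 2 d) ≠ 1 := fun h0 =>
      d1 (fh_inj 2 (fh_inj 2 (by rw [h0, map_one, map_one])))
    have d3 : hb (bl 2) (fh 2 (fh 2 d)) ≠ some (2 : Fin 3).castSucc := by rwa [R.hb_eq, R.hb_eq]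
    rw [e, map_mul, map_mul, sq_of_in hs] at e2
    have := (block_uniq (s := s * r 2) (d := fh 2 (fh 2 d) * (r 2)⁻¹) (hs.mul ir) hs
      (by rwa [hb_mul_in d3 d2 ir.inv]) hd1 (by rw [← e2]; simp [mul_assoc])).1
    exact absurd (mul_eq_left.1 this) (by decide)
  rw [d1, mul_one] at e
  subst e
  have hl : ∀ j ∈ w.l, j.1 = 2 ∨ j.1 = 3 := fun j hj => by
    have : ∀ j, bl 2 j = (2 : Fin 3).castSucc → j = 2 ∨ j = 3 := by decide
    exact this _ (hs j hj)
  let κ : F →* F := flift fun j => if j = 2 then 1 else y j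
  have k1 : κ (fh 1 w) = fh 1 w := hom_eq_of_letters (f := κ.comp (fh 1)) fun j hj => by
    rcases hl j hj with e | e <;> rw [e] <;> decide
  have k2 : κ w = y 3 ^ (ex 3 w).toAdd :=
    hom_eq_of_letters (g := (zpowersHom F (y 3)).comp (ex 3)) fun j hj => by
      rcases hl j hj with e | e <;> rw [e] <;> decide
  have k3 : κ (fh 2 (fh 1 w)) = y 1 ^ (ex 2 w).toAdd :=
    hom_eq_of_letters (f := κ.comp ((fh 2).comp (fh 1))) (g := (zpowersHom F (y 1)).comp (ex 2))
      fun j hj => by rcases hl j hj with e | e <;> rw [e] <;> decide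
  have k4 := congrArg κ h2
  rw [map_mul, k1, k2, k3] at k4
  have k5 : ex 3 (fh 2 w) = ex 2 w := hom_eq_of_letters (f := (ex 3).comp (fh 2)) fun j hj => by
    rcases hl j hj with e | e <;> rw [e] <;> decide
  have k6 : (ex 2 w).toAdd = -(ex 3 w).toAdd := by
    rw [← k5, e1]
    simp
  refine ⟨(ex 3 w).toAdd, fh_inj 1 ?_⟩
  rw [map_mul, map_zpow, map_zpow, ← k6]
  exact k4

theorem act_conj (b : B4) : ∀ j, ∃ k, IsConj (act4 b (y j)) (y k) := by
  have key : (∀ j, ∃ k, IsConj (act4 b (y j)) (y k)) ∧ ∀ j, ∃ k, IsConj (act4 b⁻¹ (y j)) (y k) := by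
    induction b using art_ind with
    | h1 => exact ⟨fun j => ⟨j, isConj_iff.2 ⟨1, by simp⟩⟩, fun j => ⟨j, isConj_iff.2 ⟨1, by simp⟩⟩⟩
    | hm a b ha hb =>
      refine ⟨fun j => ?_, fun j => ?_⟩
      · obtain ⟨k, hk⟩ := hb.1 j
        obtain ⟨l, hl⟩ := ha.1 k
        exact ⟨l, by rw [map_mul]; exact ((act4 a).toMonoidHom.map_isConj hk).trans hl⟩
      · obtain ⟨k, hk⟩ := ha.2 j
        obtain ⟨l, hl⟩ := hb.2 k
        exact ⟨l, by
          rw [mul_inv_rev, map_mul]
          exact ((act4 b⁻¹).toMonoidHom.map_isConj hk).trans hl⟩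
    | hi a ha => exact ⟨ha.2, by simpa using ha.1⟩
    | hg i =>
      have k1 : ∀ i j, ∃ k l, act4 (τ i) (y j) = y k ∨ y l * act4 (τ i) (y j) * (y l)⁻¹ = y k := by
        decide
      have k2 : ∀ i j, ∃ k l, act4 (τ i)⁻¹ (y j) = y k ∨
          (y l)⁻¹ * act4 (τ i)⁻¹ (y j) * (y l)⁻¹⁻¹ = y k := by decide
      refine ⟨fun j => ?_, fun j => ?_⟩
      · obtain ⟨k, l, h | h⟩ := k1 i j
        · exact ⟨k, h ▸ IsConj.refl _⟩
        · exact ⟨k, isConj_iff.2 ⟨_, h⟩⟩
      · obtain ⟨k, l, h | h⟩ := k2 i j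
        · exact ⟨k, h ▸ IsConj.refl _⟩
        · exact ⟨k, isConj_iff.2 ⟨_, h⟩⟩
  exact key.1

end Fr

end Pool.Agent.P.MP_5aeb4a_al
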