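import Mathlib

/-! The free group of rank four, as reduced words. -/

set_option autoImplicit false

namespace Pool.Agent.P.MP_5aeb4a_al.Fr

abbrev Lt : Type := Fin 4 × Bool

def iv (a : Lt) : Lt := (a.1, !a.2)

@[simp] theorem iv_iv (a : Lt) : iv (iv a) = a := by simp [iv]

@[simp] theorem iv_fst (a : Lt) : (iv a).1 = a.1 := rfl

abbrev Red (l : List Lt) : Prop := l.IsChain fun a b => iv a ≠ b

def push (i : Lt) : List Lt → List Lt
  | [] => [i]
  | j :: l => if iv i = j then l else i :: j :: l

theorem push_red {i : Lt} {l : List Lt} (h : Red l) : Red (push i l) := by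
  cases l with
  | nil => simp [push]
  | cons j l =>
    simp only [push]
    split_ifs with e
    · exact h.tail
    · exact List.IsChain.cons_cons e h

theorem push_cons {i : Lt} {l : List Lt} (h : Red (i :: l)) : push i l = i :: l := by
  cases l with
  | nil => rfl
  | cons j l => simp [push, (List.isChain_cons_cons.1 h).1]

theorem push_push {i : Lt} {l : List Lt} (h : Red l) : push (iv i) (push i l) = l := by
  cases l with
  | nil => simp [push]
  | cons j l =>
    by_cases e : iv i = j
    · subst e
      simp only [push, if_true]
      exact push_cons h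
    · simp [push, e]

theorem fold_red {u : List Lt} (h : Red u) (l : List Lt) : Red (l.foldr push u) := by
  induction l with
  | nil => exact h
  | cons i l ih => exact push_red ih

theorem fold_push {u : List Lt} (h : Red u) (i : Lt) (l : List Lt) :
    (push i l).foldr push u = push i (l.foldr push u) := by
  cases l with
  | nil => rfl
  | cons j l =>
    by_cases e : iv i = j
    · subst e
      have := (push_push (i := iv i) (fold_red h l)).symm
      rw [iv_iv] at this
      rw [List.foldr_cons, ← this]
      simp only [push, if_true]
    · simp [push, e]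

theorem fold_append {l u : List Lt} (h : Red (l ++ u)) : l.foldr push u = l ++ u := by
  induction l with
  | nil => rfl
  | cons i l ih =>
    rw [List.foldr_cons, ih h.tail]
    exact push_cons h

theorem push_len (i : Lt) (l : List Lt) : (push i l).length ≤ l.length + 1 := by
  cases l with
  | nil => simp [push]
  | cons j l =>
    simp only [push]
    split_ifs <;> simp
    omega

theorem mem_push {i j : Lt} {l : List Lt} (h : j ∈ push i l) : j = i ∨ j ∈ l := by
  cases l with
  | nil => simpa [push] using h
  | cons k l =>
    simp only [push] at h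
    split_ifs at h
    · exact Or.inr (List.mem_cons_of_mem _ h)
    · exact List.mem_cons.1 h

theorem red_reverse {l : List Lt} (h : Red l) : Red (l.reverse.map iv) := by
  rw [Red, List.isChain_map, List.isChain_reverse]
  exact h.imp fun _ _ e e' => e (by simpa using e'.symm)

/-- Reduced words. -/
@[ext]
structure F where
  l : List Lt
  red : Red l

instance : DecidableEq F := fun u v => decidable_of_iff (u.l = v.l) F.ext_iff.symm

instance : Group F where
  mul u v := ⟨u.l.foldr push v.l, fold_red v.red _⟩
  one := ⟨[], List.IsChain.nil⟩
  inv u := ⟨u.l.reverse.map iv, red_reverse u.red⟩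
  mul_assoc u v w := by
    ext1
    change (u.l.foldr push v.l).foldr push w.l = u.l.foldr push (v.l.foldr push w.l)
    induction u.l with
    | nil => rfl
    | cons i l ih => rw [List.foldr_cons, fold_push w.red, ih, List.foldr_cons]
  one_mul _ := rfl
  mul_one u := by
    ext1
    change u.l.foldr push [] = u.l
    rw [fold_append (by simpa using u.red), List.append_nil]
  inv_mul_cancel u := by
    ext1
    change (u.l.reverse.map iv).foldr push u.l = []
    induction u.l with
    | nil => rfl
    | cons i l ih =>
      rw [List.reverse_cons, List.map_append, List.foldr_append]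
      simpa [push] using ih

theorem mul_l (u v : F) : (u * v).l = u.l.foldr push v.l := rfl

theorem inv_l (u : F) : u⁻¹.l = u.l.reverse.map iv := rfl

theorem one_l : (1 : F).l = [] := rfl

theorem l_eq_nil {u : F} : u.l = [] ↔ u = 1 := ⟨fun h => F.ext h, fun h => h ▸ rfl⟩

theorem mul_l_of_red {u v : F} (h : Red (u.l ++ v.l)) : (u * v).l = u.l ++ v.l := fold_append h

/-- The generators. -/
def x (i : Lt) : F := ⟨[i], List.IsChain.singleton i⟩

theorem x_l (i : Lt) : (x i).l = [i] := rfl

theorem x_mul_l (i : Lt) (u : F) : (x i * u).l = push i u.l := rfl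

theorem x_inv (i : Lt) : (x i)⁻¹ = x (iv i) := rfl

/-- The free generators. -/
def y (j : Fin 4) : F := x (j, true)

/-- The value of a word. -/
def ev (l : List Lt) : F := (l.map x).prod

@[simp] theorem ev_nil : ev [] = 1 := rfl

@[simp] theorem ev_cons (i : Lt) (l : List Lt) : ev (i :: l) = x i * ev l := by simp [ev]

@[simp] theorem ev_append (l m : List Lt) : ev (l ++ m) = ev l * ev m := by simp [ev]

theorem ev_l {l : List Lt} (h : Red l) : (ev l).l = l := by
  induction l with
  | nil => rfl
  | cons i l ih => rw [ev_cons, x_mul_l, ih h.tail, push_cons h]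

theorem ev_self (u : F) : ev u.l = u := F.ext (ev_l u.red)

theorem F.ind {P : F → Prop} (h1 : P 1) (hx : ∀ i u, P u → P (x i * u)) (u : F) : P u := by
  rw [← ev_self u]
  induction u.l with
  | nil => exact h1
  | cons i l ih => rw [ev_cons]; exact hx i _ ih

/-- The length. -/
def len (u : F) : ℕ := u.l.length

theorem len_mul (u v : F) : len (u * v) ≤ len u + len v := by
  unfold len
  rw [mul_l]
  induction u.l with
  | nil => simp
  | cons i l ih =>
    have := push_len i (l.foldr push v.l)
    simp only [List.foldr_cons, List.length_cons]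
    omega

theorem len_inv (u : F) : len u⁻¹ = len u := by simp [len, inv_l]

theorem mem_mul {u v : F} {j : Lt} (h : j ∈ (u * v).l) : j ∈ u.l ∨ j ∈ v.l := by
  rw [mul_l] at h
  generalize u.l = m at h ⊢
  induction m with
  | nil => exact Or.inr h
  | cons i l ih =>
    rcases mem_push h with rfl | h
    · simp
    · exact (ih h).imp_left (List.mem_cons_of_mem _)

section lift

variable {G : Type*} [Group G]

def sgf (f : Fin 4 → G) (a : Lt) : G := if a.2 then f a.1 else (f a.1)⁻¹

theorem sgf_iv (f : Fin 4 → G) (a : Lt) : sgf f a * sgf f (iv a) = 1 := by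
  rcases a with ⟨j, _ | _⟩ <;> simp [sgf, iv]

theorem prod_push (f : Fin 4 → G) (i : Lt) (l : List Lt) :
    ((push i l).map (sgf f)).prod = sgf f i * (l.map (sgf f)).prod := by
  cases l with
  | nil => simp [push]
  | cons j l =>
    by_cases e : iv i = j
    · subst e
      simp [push, ← mul_assoc, sgf_iv]
    · simp [push, e]

/-- The universal property. -/
def flift (f : Fin 4 → G) : F →* G where
  toFun u := (u.l.map (sgf f)).prod
  map_one' := rfl
  map_mul' u v := by
    rw [mul_l]
    induction u.l with
    | nil => simp
    | cons i l ih => rw [List.foldr_cons, prod_push f, ih]; simp [mul_assoc]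

@[simp] theorem flift_y (f : Fin 4 → G) (i : Fin 4) : flift f (y i) = f i := by
  simp [flift, y, x_l, sgf]

theorem x_cases (a : Lt) : x a = y a.1 ∨ x a = (y a.1)⁻¹ := by
  rcases a with ⟨j, _ | _⟩
  · exact Or.inr rfl
  · exact Or.inl rfl

theorem hom_eq_of_letters {f g : F →* G} {u : F} (h : ∀ i ∈ u.l, f (y i.1) = g (y i.1)) :
    f u = g u := by
  rw [← ev_self u]
  generalize u.l = m at h ⊢
  induction m with
  | nil => simp
  | cons i l ih =>
    rw [ev_cons, map_mul, map_mul, ih fun j hj => h j (List.mem_cons_of_mem _ hj)]
    rcases x_cases i with e | e <;> simp [e, h i (by simp)]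

theorem fhom_ext {f g : F →* G} (h : ∀ i, f (y i) = g (y i)) : f = g :=
  MonoidHom.ext fun _ => hom_eq_of_letters fun i _ => h i.1

end lift

end Pool.Agent.P.MP_5aeb4a_al.Fr
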