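import Pool.Agent.P.MP_5aeb4a_al.R5

/-! Homomorphisms from `A[D₅]` to the braid group on five strands. -/

set_option autoImplicit false

namespace Pool.Agent.P.MP_5aeb4a_al

open SemidirectProduct Fr

def NN : Subgroup AD := Subgroup.normalClosure {s 2 * (s 3)⁻¹}

instance : NN.Normal := Subgroup.normalClosure_normal

theorem mem_NN (i : Fin 5) : s i * (s 0)⁻¹ ∈ NN := by
  have R := rels_s.map (QuotientGroup.mk' NN)
  have e := R.all_eq (by
    rw [← mul_inv_eq_one, ← map_inv, ← map_mul]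
    exact (QuotientGroup.eq_one_iff _).2 (Subgroup.subset_normalClosure rfl)) i
  rw [← mul_inv_eq_one, ← map_inv, ← map_mul] at e
  exact (QuotientGroup.eq_one_iff _).1 e

theorem stepN {H : Type} [Group H] (θ : NN →* H)
    (h : ∀ a b, θ a * θ b * θ a = θ b * θ a * θ b → θ a = θ b) (a : NN) : θ a = 1 := by
  have c2 : Commute (s 0)⁻¹ (s 2) := Commute.inv_left ((rels_s 0 2).2 (by decide) (by decide))
  have c3 : Commute (s 0)⁻¹ (s 3) := Commute.inv_left ((rels_s 0 3).2 (by decide) (by decide))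
  have b : s 2 * (s 0)⁻¹ * (s 3 * (s 0)⁻¹) * (s 2 * (s 0)⁻¹) =
      s 3 * (s 0)⁻¹ * (s 2 * (s 0)⁻¹) * (s 3 * (s 0)⁻¹) := by
    have := congrArg (· * ((s 0)⁻¹ * ((s 0)⁻¹ * (s 0)⁻¹))) ((rels_s 2 3).1 (by decide))
    simpa only [mul_assoc, c2.left_comm, c3.left_comm] using this
  obtain ⟨a, ha⟩ := a
  induction ha using Subgroup.closure_induction with
  | mem a ha =>
    obtain ⟨t, rfl, c⟩ := Group.mem_conjugatesOfSet_iff.1 ha
    obtain ⟨w, rfl⟩ := isConj_iff.1 c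
    have n : NN.Normal := inferInstance
    have := h ⟨_, n.conj_mem _ (mem_NN 2) w⟩ ⟨_, n.conj_mem _ (mem_NN 3) w⟩ (by
      simp only [← map_mul]
      congr 1
      exact Subtype.ext (by simp only [Subgroup.coe_mul, conj_mul, b]))
    rw [← mul_inv_eq_one, ← map_inv, ← map_mul] at this
    rw [← this]
    congr 1
    exact Subtype.ext (by simp [mul_assoc])
  | one => exact map_one θ
  | mul a b ha hb iha ihb =>
    have := map_mul θ ⟨a, ha⟩ ⟨b, hb⟩
    rw [iha, ihb, mul_one] at this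
    exact this
  | inv a ha iha =>
    have := map_inv θ ⟨a, ha⟩
    rw [iha, inv_one] at this
    exact this

theorem braid_F {a b : F} (h : a * b * a = b * a * b) : a = b := by
  have h1 : (a * b * a) ^ 2 = (a * b) ^ 3 := by
    rw [pow_two]
    nth_rewrite 2 [h]
    simp only [pow_succ, pow_zero, one_mul, mul_assoc]
  have h2 : ((a * b) * (a * b * a) * (a * b)⁻¹) ^ 2 = (a * b * a) ^ 2 := by
    rw [conj_pow, h1, ← pow_succ', pow_succ, mul_inv_cancel_right]
  have h3 := root_uniq two_ne_zero h2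
  refine braid_comm h ?_
  have := congrArg (fun t => a⁻¹ * ((a * b)⁻¹ * t) * (a * b)) h3
  simpa [mul_assoc] using this.symm

theorem tr_pure {b : B4} (h : pm (inc4 b) = 1) : (ρ (r4 b)).a + (ρ (r4 b)).d ≠ 1 := by
  intro e
  rw [← lin_aff] at e
  change (aff b).a + (aff b).d = 1 at e
  have h1 := pm_apu b
  have : ∀ a b c d e f : ZMod 2, (∀ j, j = apf a b c d e f j) → a + d ≠ 1 := by decide
  rw [h] at h1
  refine this _ _ _ _ _ _ h1 ?_
  change (((aff b).a : ℤ) : ZMod 2) + ((aff b).d : ℤ) = 1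
  exact_mod_cast congrArg (Int.cast : ℤ → ZMod 2) e

theorem cyc5 (f : AD →* B5) (h : pm (f (s 2)) = pm (f (s 3))) : f (s 2) = f (s 3) := by
  have hp : ∀ a : NN, pm (f a) = 1 := fun a =>
    (Subgroup.normalClosure_le_normal (N := (pm.comp f).ker) (by
      rintro _ rfl
      simp [h]) : NN ≤ _) a.2
  have h4 : ∀ a : NN, La5 ((Ph (f a)).μ 4) = f a := fun a => La5_surj (by rw [hp]; rfl)
  let θ : NN →* MM := MonoidHom.mk' (fun a => (Ph (f a)).μ 4) fun a b => La5_inj (by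
    rw [map_mul La5, h4, h4, h4, Subgroup.coe_mul, map_mul])
  have hθ : ∀ a, La5 (θ a) = f a := h4
  have p4 : ∀ a, pm (inc4 (θ a).right) = 1 := fun a => by
    rw [← hp a, ← hθ, La5_eq, map_mul, pm_inl, one_mul]
  have s1 := stepN (ρ.comp (r4.comp (rightHom.comp θ))) fun a b e => by
    by_contra ne
    have := Af.braid_tr2 e (by
      simp only [MonoidHom.comp_apply, lin_ρ]
      exact ne)
    rw [← map_mul] at this
    exact tr_pure (p4 (a * b)) this
  have s2 := stepN (r4.comp (rightHom.comp θ)) fun a b e => by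
    obtain ⟨m, hm⟩ := ker_ρ (s1 a)
    obtain ⟨n, hn⟩ := ker_ρ (s1 b)
    refine braid_comm e ?_
    rw [hm, hn, ← zpow_add, ← zpow_add, add_comm]
  have s3 := stepN (Th3.comp (rightHom.comp θ)) fun a b e => by
    have k : ∀ a, ∃ u, sg u = 1 ∧ Th3.comp (rightHom.comp θ) a = inl u := fun a => by
      have e := eq_inl3 (g := Th3.comp (rightHom.comp θ) a) (s2 a)
      exact ⟨_, by rw [← par3_inl, ← e]; exact par3_Th3 _, e⟩
    obtain ⟨u, u1, u2⟩ := k a
    obtain ⟨v, v1, v2⟩ := k b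
    rw [u2, v2] at e ⊢
    rw [braid_even u1 v1 (inl_injective (by simpa using e))]
  have s4 := stepN θ fun a b e => by
    have k : ∀ a, θ a = inl (θ a).left := fun a =>
      SemidirectProduct.ext rfl (Th3_inj ((s3 a).trans (map_one _).symm))
    rw [k a, k b] at e ⊢
    rw [braid_F (a := (θ a).left) (b := (θ b).left) (inl_injective (by simpa only [map_mul] using e))]
  have := hθ ⟨_, Subgroup.subset_normalClosure rfl⟩
  rw [s4, map_one, map_mul, map_inv] at this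
  exact mul_inv_eq_one.1 this.symm

theorem hom5 (f : AD →* B5) : (∀ i, f (s i) = f (s 0)) ∨ ∃ (g : B5) (ε k : ℤ), (ε = 1 ∨ ε = -1) ∧
    ∀ i, f (s i) = g * (σ (fold i) ^ ε * zB ^ k) * g⁻¹ := by
  have R := rels_s.map f
  rcases perm_class (R.map pm) with e | ⟨π, hπ⟩
  · exact Or.inl (R.all_eq (cyc5 f e))
  right
  obtain ⟨c, rfl⟩ := pm_surj π
  have R1 := R.map (MulAut.conj c).toMonoidHom
  have hm : ∀ i : Fin 3, ∃ m, La5 m = c * f (s i.castSucc.castSucc) * c⁻¹ := fun i =>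
    ⟨_, La5_surj (by
      rw [map_mul, map_mul, map_inv, hπ]
      revert i
      decide)⟩
  choose m hm using hm
  have Rm : Rels edges4 m := fun i j => ⟨fun e => La5_inj (by
      simp only [map_mul, hm]
      exact (R1 _ _).1 (by revert i j; decide)), fun e e' => La5_inj (by
      simp only [map_mul, hm]
      exact (R1 _ _).2 (by revert i j; decide) (by revert i j; decide))⟩
  obtain ⟨h, ε, k, hε, hh⟩ := rigid4 (Rm.map rightHom) fun i => by
    have := congrArg pm (hm i)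
    rw [La5_eq, map_mul, pm_inl, one_mul, map_mul, map_mul, map_inv, hπ, fold_cs] at this
    exact this
  obtain ⟨mz, z1, z2⟩ := La5_zB
  have cz : ∀ (n : ℤ) (a : B5), zB ^ n * a = a * zB ^ n := fun n a =>
    (Commute.zpow_left (zB_comm a) n).eq
  have R2 := (R1.map (MulAut.conj (inc4 h)⁻¹).toMonoidHom).mul_central (cz (-k))
  have r2 : ∀ i : Fin 3, ∃ n : MM, (inc4 h)⁻¹ * (c * f (s i.castSucc.castSucc) * c⁻¹) *
      (inc4 h)⁻¹⁻¹ * zB ^ (-k) = La5 n ∧ n.right = τ i ^ ε := fun i => by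
    refine ⟨(inr h)⁻¹ * m i * inr h * mz ^ (-k), by simp [La5_inr, hm, z1], ?_⟩
    have e : (mz ^ (-k)).right = z4 ^ (-k) := by rw [← z2, ← rightHom_eq_right, map_zpow]
    have e2 : (m i).right = _ := hh i
    rw [mul_right, e]
    simp [e2, mul_assoc]
  have nice : ∀ g : Fin 5 → B5, Rels edgesD g →
      (∀ i : Fin 3, ∃ n : MM, g i.castSucc.castSucc = La5 n ∧ n.right = τ i) → Std g := by
    intro g Rg hg
    have M : ∀ i : Fin 3, ∃ w, g i.castSucc.castSucc = La5 (inl w * inr (τ i)) := fun i => by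
      obtain ⟨n, h1, h2⟩ := hg i
      exact ⟨n.left, by rw [h1, ← h2, inl_left_mul_inr_right]⟩
    have P : ∀ i : Fin 3, pm (g i.castSucc.castSucc) = sp i.castSucc := fun i => by
      obtain ⟨w, hw⟩ := M i
      rw [hw, La5_τ, map_mul, pm_inl, one_mul, pm_σ]
    exact Nice.std ⟨Rg, perm_last (Rg.map pm) (P 0) (P 1) (P 2), M⟩
  have fin : (∃ d : B5, ∀ i, (inc4 h)⁻¹ * (c * f (s i) * c⁻¹) * (inc4 h)⁻¹⁻¹ * zB ^ (-k) =
      d * σ (fold i) ^ ε * d⁻¹) → ∃ (g : B5) (ε k : ℤ), (ε = 1 ∨ ε = -1) ∧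
      ∀ i, f (s i) = g * (σ (fold i) ^ ε * zB ^ k) * g⁻¹ := by
    rintro ⟨d, hd⟩
    refine ⟨c⁻¹ * inc4 h * d, ε, k, hε, fun i => ?_⟩
    have := congrArg (fun a => c⁻¹ * inc4 h * (a * zB ^ k) * (inc4 h)⁻¹ * c) (hd i)
    rw [mul_assoc _ d⁻¹, ← cz k d⁻¹] at this
    simpa [mul_assoc] using this
  rcases hε with rfl | rfl
  · obtain ⟨d, hd⟩ := nice _ R2 fun i => by
      obtain ⟨n, h1, h2⟩ := r2 i
      exact ⟨n, h1, h2.trans (zpow_one _)⟩
    exact fin ⟨d, fun i => (hd i).trans (by rw [zpow_one])⟩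
  · obtain ⟨d, hd⟩ := nice _ R2.inv fun i => by
      obtain ⟨n, h1, h2⟩ := r2 i
      exact ⟨n⁻¹, by rw [map_inv La5, ← h1]; rfl, by simp [h2]⟩
    exact fin ⟨d, fun i => (inv_eq_iff_eq_inv.1 (hd i)).trans (by simp [mul_assoc])⟩

theorem main_all (φ : AD →* AD) :
    (∀ i, φ (s i) = φ (s 0)) ∨
    (∃ (a : AD) (ε m q : ℤ), (ε = 1 ∨ ε = -1) ∧
      ∀ i, φ (s i) = a * (s (fold i).castSucc ^ ε * z ^ m * c ^ q) * a⁻¹) ∨
    ∃ (a : AD) (ε q : ℤ), (ε = 1 ∨ ε = -1) ∧ ∀ i, φ (s i) = a * (s i ^ ε * c ^ q) * a⁻¹ :=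
  main φ (hom5 (proj.comp φ))

end Pool.Agent.P.MP_5aeb4a_al
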