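import Pool.Agent.P.MP_5aeb4a_al.KW

/-! Blocks of letters, cyclically reduced words, centralisers. -/

set_option autoImplicit false

namespace Pool.Agent.P.MP_5aeb4a_al

variable {β : Lt → Lt} {k : Lt} {u v s d : K}

/-- All letters of `u` lie in the block `k`. -/
def In (β : Lt → Lt) (k : Lt) (u : K) : Prop := ∀ j ∈ u.l, β j = k

/-- The block of the first letter. -/
def hb (β : Lt → Lt) (u : K) : Option Lt := u.l.head?.map β

theorem In.mul (hu : In β k u) (hv : In β k v) : In β k (u * v) :=
  fun j hj => (mem_mul hj).elim (hu j) (hv j)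

theorem In.inv (hu : In β k u) : In β k u⁻¹ := fun j hj => hu j (by simpa [inv_l] using hj)

theorem in_one : In β k 1 := fun j hj => by simp [one_l] at hj

theorem in_x (j : Lt) : In β (β j) (x j) := fun i hi => by
  simp only [x_l, List.mem_singleton] at hi
  rw [hi]

theorem hb_one : hb β 1 = none := rfl

theorem hb_eq_none : hb β u = none ↔ u = 1 := by simp [hb, l_eq_nil]

theorem In.hb_eq (hu : In β k u) (h1 : u ≠ 1) : hb β u = some k := by
  unfold hb
  cases e : u.l with
  | nil => exact absurd (l_eq_nil.1 e) h1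
  | cons i l => simp [hu i (by simp [e])]

theorem cat (h : ∀ k, hb β u⁻¹ = some k → hb β v ≠ some k) : (u * v).l = u.l ++ v.l := by
  apply mul_l_of_red
  refine List.isChain_append.2 ⟨u.red, v.red, fun a ha b hb' e => ?_⟩
  subst e
  refine h (β a) ?_ ?_
  · simp only [hb, inv_l, List.head?_reverse]
    rw [Option.mem_def.1 ha]
    rfl
  · simp only [hb]
    rw [Option.mem_def.1 hb']
    rfl

theorem hb_mul (h1 : u ≠ 1) (h : ∀ k, hb β u⁻¹ = some k → hb β v ≠ some k) :
    hb β (u * v) = hb β u := by
  unfold hb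
  rw [cat h]
  cases e : u.l with
  | nil => exact absurd (l_eq_nil.1 e) h1
  | cons i l => rfl

theorem In.nc (hs : In β k s) (hd : hb β d ≠ some k) :
    ∀ k', hb β s⁻¹ = some k' → hb β d ≠ some k' := by
  intro k' h
  by_cases h1 : s⁻¹ = 1
  · rw [h1, hb_one] at h
    cases h
  · rw [hs.inv.hb_eq h1] at h
    cases h
    exact hd

theorem In.hb_cat (hs : In β k s) (h1 : s ≠ 1) (hd : hb β d ≠ some k) :
    hb β (s * d) = some k := by
  rw [hb_mul h1 (hs.nc hd), hs.hb_eq h1]

theorem block_ind (β : Lt → Lt) {P : K → Prop} (h1 : P 1)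
    (hs : ∀ k s d, s ≠ 1 → In β k s → hb β d ≠ some k → P d → P (s * d)) (u : K) : P u := by
  induction h : len u using Nat.strong_induction_on generalizing u with
  | _ n ih =>
    cases e : u.l with
    | nil => rw [l_eq_nil.1 e]; exact h1
    | cons i l =>
      have hr := u.red
      have h2 := List.takeWhile_append_dropWhile (p := fun j => decide (β j = β i)) (l := u.l)
      rw [← h2] at hr
      let s : K := ⟨_, hr.left_of_append⟩
      let d : K := ⟨_, hr.right_of_append⟩
      have hu : u = s * d := K.ext (by rw [mul_l_of_red hr, h2])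
      have hs1 : s.l = i :: l.takeWhile fun j => decide (β j = β i) := by
        simp only [s, e]
        simp
      rw [hu]
      refine hs (β i) s d (fun h0 => by rw [h0, one_l] at hs1; cases hs1)
        (fun j hj => by simpa using List.mem_takeWhile_imp hj) ?_ (ih _ ?_ d rfl)
      · intro h3
        have h4 := List.head?_dropWhile_not (fun j => decide (β j = β i)) u.l
        simp only [hb, d] at h3
        cases e2 : (u.l.dropWhile fun j => decide (β j = β i)).head? with
        | none => rw [e2] at h3; cases h3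
        | some j =>
          rw [e2] at h3 h4
          simp at h3 h4
          exact h4 h3
      · have h5 := congrArg List.length h2
        have h6 := congrArg List.length hs1
        simp only [List.length_append, List.length_cons, len, s, d] at h5 h6 h ⊢
        omega

theorem block_uniq {s' d' : K} (hs : In β k s) (hs' : In β k s') (hd : hb β d ≠ some k)
    (hd' : hb β d' ≠ some k) (e : s * d = s' * d') : s = s' ∧ d = d' := by
  have h1 : s'⁻¹ * s = 1 := by
    by_contra h
    have h2 := (hs'.inv.mul hs).hb_cat h hd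
    rw [mul_assoc, e, inv_mul_cancel_left] at h2
    exact hd' h2
  have h3 : s = s' := (inv_mul_eq_one.1 h1).symm
  subst h3
  exact ⟨rfl, mul_left_cancel e⟩

/-- `θ` respects the blocks. -/
def Resp (β : Lt → Lt) (θ : K →* K) : Prop :=
  Function.Injective θ ∧ ∀ i, In β (β i) (θ (x i))

theorem Resp.in {θ : K →* K} (h : Resp β θ) (hu : In β k u) : In β k (θ u) := by
  rw [← ev_self u]
  unfold In at hu
  generalize u.l = m at hu ⊢
  induction m with
  | nil => simpa using in_one
  | cons i l ih =>
    rw [ev_cons, map_mul]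
    exact In.mul (hu i (by simp) ▸ h.2 i) (ih fun j hj => hu j (List.mem_cons_of_mem _ hj))

theorem Resp.hb_eq {θ : K →* K} (h : Resp β θ) (u : K) : hb β (θ u) = hb β u := by
  induction u using block_ind β with
  | h1 => rw [map_one]
  | hs k s d h1 hs hd ih =>
    rw [map_mul, hs.hb_cat h1 hd, (h.in hs).hb_cat _ (ih ▸ hd)]
    intro h0
    exact h1 (h.1 (h0.trans (map_one θ).symm))

/-- Cyclically reduced elements. -/
def CR (u : K) : Prop := ∀ k, hb id u⁻¹ = some k → hb id u ≠ some k

theorem cr_of_hb (h : ∀ k, hb β u⁻¹ = some k → hb β u ≠ some k) : CR u := by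
  intro k h1 h2
  refine h (β k) ?_ ?_
  · simp only [hb, Option.map_id_fun, id] at h1 ⊢
    rw [h1]
    rfl
  · simp only [hb, Option.map_id_fun, id] at h2 ⊢
    rw [h2]
    rfl

theorem CR.inv (h : CR u) : CR u⁻¹ := fun k h1 h2 => h k h2 (by simpa using h1)

theorem CR.pow (h : CR u) (m : ℕ) : len (u ^ (m + 1)) = (m + 1) * len u ∧
    hb id (u ^ (m + 1)) = hb id u := by
  induction m with
  | zero => simp
  | succ m ih =>
    by_cases h1 : u = 1
    · simp [h1, len, one_l]
    have h2 : ∀ k, hb id u⁻¹ = some k → hb id (u ^ (m + 1)) ≠ some k := by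
      rw [ih.2]
      exact h
    rw [pow_succ' u (m + 1)]
    refine ⟨?_, hb_mul h1 h2⟩
    have h3 := ih.1
    unfold len at h3 ⊢
    rw [cat h2, List.length_append, h3]
    ring

theorem CR.cr_pow (h : CR u) (m : ℕ) : CR (u ^ (m + 1)) := by
  intro k
  rw [← inv_pow, (h.inv.pow m).2, (h.pow m).2]
  exact h k

theorem CR.len_le (hv : CR v) (h : IsConj u v) : len v ≤ len u := by
  obtain ⟨g, rfl⟩ := isConj_iff.1 h
  by_contra hc
  have h1 := (hv.pow (2 * len g)).1
  have h2 : ∀ m : ℕ, len (u ^ m) ≤ m * len u := by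
    intro m
    induction m with
    | zero => simp [len, one_l]
    | succ m ih =>
      have := len_mul (u ^ m) u
      rw [pow_succ]
      nlinarith
  rw [conj_pow] at h1
  have h3 := len_mul (g * u ^ (2 * len g + 1)) g⁻¹
  have h4 := len_mul g (u ^ (2 * len g + 1))
  have h5 := h2 (2 * len g + 1)
  rw [len_inv] at h3
  nlinarith

theorem pop {i : Lt} (h : hb id u = some i) : len (x i * u) + 1 = len u ∧
    u.l = i :: (x i * u).l := by
  unfold len
  rw [x_mul_l]
  cases e : u.l with
  | nil => simp [hb, e] at h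
  | cons j l =>
    have : j = i := by simpa [hb, e] using h
    simp [push, this]

theorem exists_cr (v : K) : ∃ u, IsConj v u ∧ (CR u ∨ ∃ j, u = x j) := by
  induction h : len v using Nat.strong_induction_on generalizing v with
  | _ n ih =>
    by_cases hc : CR v
    · exact ⟨v, IsConj.refl v, Or.inl hc⟩
    simp only [CR, not_forall, not_not] at hc
    obtain ⟨i, h1, h2⟩ := hc
    by_cases h3 : v = x i
    · exact ⟨v, IsConj.refl v, Or.inr ⟨i, h3⟩⟩
    obtain ⟨p1, p2⟩ := pop h2
    have h4 : hb id (x i * v)⁻¹ = some i := by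
      have h5 : (x i * v).l ≠ [] := fun h0 => h3 (by
        have := l_eq_nil.1 h0
        rw [← x_x_mul i v, this, mul_one])
      simp only [hb, inv_l, List.head?_reverse] at h1 ⊢
      rwa [p2, List.getLast?_cons_of_ne_nil h5] at h1
    have p3 := (pop h4).1
    rw [len_inv, ← len_inv] at p3
    obtain ⟨u, hu, hu'⟩ := ih _ (by omega) (x i * (x i * v)⁻¹)⁻¹ rfl
    refine ⟨u, IsConj.trans (isConj_iff.2 ⟨x i, ?_⟩) hu, hu'⟩
    simp [mul_assoc]

/-- Reduced form of a conjugate. -/
theorem conj_l {g w : K} {i : Lt} (hg : hb id g⁻¹ = some i) (hw : w ≠ 1) (h1 : hb id w ≠ some i)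
    (h2 : hb id w⁻¹ ≠ some i) : (g * w * g⁻¹).l = g.l ++ (w.l ++ g.l.reverse) := by
  have e1 : ∀ k, hb id w⁻¹ = some k → hb id g⁻¹ ≠ some k := fun k hk e =>
    h2 (hk.trans (e.symm.trans hg))
  have e2 : ∀ k, hb id g⁻¹ = some k → hb id (w * g⁻¹) ≠ some k := fun k hk e => by
    rw [hb_mul hw e1] at e
    exact h1 (e.trans (hk.symm.trans hg))
  rw [mul_assoc, cat e2, cat e1, inv_l]

theorem x_ne_one (j : Lt) : x j ≠ 1 := fun h => by
  have := congrArg K.l h
  simp [x_l, one_l] at this

theorem comm_x {g : K} {j : Lt} (h : g * x j * g⁻¹ = x j) : g = 1 ∨ g = x j := by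
  have key : ∀ g : K, hb id g⁻¹ ≠ some j → g * x j * g⁻¹ = x j → g = 1 := by
    intro g hg h
    cases e : hb id g⁻¹ with
    | none => exact inv_eq_one.1 (hb_eq_none.1 e)
    | some i =>
      have hij : hb id (x j) ≠ some i := fun h0 => hg (e.trans h0.symm)
      have h2 := conj_l e (w := x j) (x_ne_one j) hij hij
      rw [h] at h2
      have h3 := congrArg List.length h2
      simp only [x_l, List.length_append, List.length_reverse, List.length_singleton] at h3
      exact l_eq_nil.1 (List.length_eq_zero_iff.1 (by omega))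
  by_cases hg : hb id g⁻¹ = some j
  · right
    have h1 : hb id (g * x j)⁻¹ ≠ some j := by
      intro h2
      have h3 := (pop hg).2
      have h4 := g⁻¹.red
      rw [mul_inv_rev, x_inv] at h2
      rw [h3, (pop h2).2] at h4
      exact (List.isChain_cons_cons.1 h4).1 rfl
    have h5 := key (g * x j) h1 (by simpa [mul_assoc] using h)
    rw [← x_inv]
    exact eq_inv_of_mul_eq_one_left h5
  · exact Or.inl (key g hg h)

end Pool.Agent.P.MP_5aeb4a_al
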