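import Pool.Agent.P.MP_5aeb4a_al.KB

/-! The braid automorphisms of the free product and the element `p`. -/

set_option autoImplicit false

namespace Pool.Agent.P.MP_5aeb4a_al

def alf (i : Fin 4) (j : Lt) : K :=
  if j = i.castSucc then x i.castSucc * x i.succ * x i.castSucc
  else if j = i.succ then x i.castSucc else x j

def alg (i : Fin 4) (j : Lt) : K :=
  if j = i.castSucc then x i.succ
  else if j = i.succ then x i.succ * x i.castSucc * x i.succ else x j

theorem alf_sq : ∀ i j, alf i j * alf i j = 1 := by decide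

theorem alg_sq : ∀ i j, alg i j * alg i j = 1 := by decide

def alh (i : Fin 4) : K →* K := klift (alf i) (alf_sq i)

def alk (i : Fin 4) : K →* K := klift (alg i) (alg_sq i)

theorem alk_alh : ∀ i j, alk i (alh i (x j)) = x j := by decide

theorem alh_alk : ∀ i j, alh i (alk i (x j)) = x j := by decide

/-- The automorphism attached to the braid generator `i`. -/
def al (i : Fin 4) : MulAut K :=
  MonoidHom.toMulEquiv (alh i) (alk i) (khom_ext (alk_alh i)) (khom_ext (alh_alk i))

theorem al_apply (i : Fin 4) (u : K) : al i u = alh i u := rfl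

theorem alh_x (i : Fin 4) (j : Lt) : alh i (x j) = alf i j := klift_x _ _ _

theorem alh_inj (i : Fin 4) : Function.Injective (alh i) := (al i).injective

/-- The blocks of `al i`. -/
def bl (i : Fin 4) (j : Lt) : Lt := if j = i.succ then i.castSucc else j

theorem resp_al (i : Fin 4) : Resp (bl i) (alh i) :=
  ⟨alh_inj i, by
    have : ∀ i j, ∀ k ∈ (alh i (x j)).l, bl i k = bl i j := by decide
    exact this i⟩

def r (i : Fin 4) : K := x i.castSucc * x i.succ

theorem alh_r : ∀ i, alh i (r i) = r i := by decide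

theorem alh_a : ∀ i, alh i (x i.castSucc) = r i * x i.castSucc := by decide

theorem a_r : ∀ i : Fin 4, x i.castSucc * r i * (x i.castSucc)⁻¹ = (r i)⁻¹ := by decide

theorem b_eq : ∀ i : Fin 4, x i.succ = (r i)⁻¹ * x i.castSucc := by decide

theorem a_rz (i : Fin 4) (m : ℤ) : x i.castSucc * r i ^ m = r i ^ (-m) * x i.castSucc := by
  have := congrArg (· ^ m) (a_r i)
  simp only [conj_zpow, inv_zpow'] at this
  rw [← this]
  simp [mul_assoc]

theorem alh_odd (i : Fin 4) (m : ℤ) :
    alh i (r i ^ m * x i.castSucc) = r i ^ (m + 1) * x i.castSucc := by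
  rw [map_mul, map_zpow, alh_r, alh_a, zpow_add_one, mul_assoc]

theorem in_form {i : Fin 4} {s : K} (h : In (bl i) i.castSucc s) :
    ∃ m : ℤ, s = r i ^ m ∨ s = r i ^ m * x i.castSucc := by
  rw [← ev_self s]
  unfold In at h
  generalize s.l = l at h ⊢
  induction l with
  | nil => exact ⟨0, Or.inl (by simp)⟩
  | cons j l ih =>
    obtain ⟨m, hm⟩ := ih fun k hk => h k (List.mem_cons_of_mem _ hk)
    have hj : ∀ (i : Fin 4) j, bl i j = i.castSucc → j = i.castSucc ∨ j = i.succ := by decide
    rw [ev_cons]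
    rcases hj i j (h j (by simp)) with rfl | rfl
    · refine ⟨-m, ?_⟩
      rcases hm with e | e <;> rw [e]
      · exact Or.inr (a_rz i m)
      · left
        rw [← mul_assoc, a_rz, mul_assoc, x_mul_x, mul_one]
    · refine ⟨-1 + -m, ?_⟩
      rw [b_eq, zpow_add, zpow_neg_one]
      rcases hm with e | e <;> rw [e]
      · right
        rw [mul_assoc, a_rz, mul_assoc]
      · left
        rw [mul_assoc, ← mul_assoc (x _), a_rz, mul_assoc, x_mul_x, mul_one]

theorem fix_of_in {i : Fin 4} {k : Lt} {s : K} (h : In (bl i) k s) (hk : k ≠ i.castSucc) :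
    alh i s = s := by
  refine hom_eq_of_letters (g := MonoidHom.id K) fun j hj => ?_
  have : ∀ (i : Fin 4) j, bl i j ≠ i.castSucc → alh i (x j) = x j := by decide
  exact this i j (h j hj ▸ hk)

theorem cr_r : ∀ i, CR (r i) := by
  unfold CR
  decide

theorem len_r : ∀ i, len (r i) = 2 := by decide

theorem in_r (i : Fin 4) : In (bl i) i.castSucc (r i) := by
  have : ∀ i : Fin 4, ∀ k ∈ (r i).l, bl i k = i.castSucc := by decide
  exact this i

theorem in_a (i : Fin 4) : In (bl i) i.castSucc (x i.castSucc) := by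
  have : ∀ i : Fin 4, ∀ k ∈ (x i.castSucc).l, bl i k = i.castSucc := by decide
  exact this i

theorem r_ne_one : ∀ i, r i ≠ 1 := by decide

/-- An invariant class has no piece of odd length in the block. -/
theorem odd_piece {i : Fin 4} {m : ℤ} {d : K} (h1 : d ≠ 1) (h2 : hb (bl i) d ≠ some i.castSucc)
    (h3 : hb (bl i) d⁻¹ ≠ some i.castSucc)
    (hc : IsConj (alh i (r i ^ m * x i.castSucc * d)) (r i ^ m * x i.castSucc * d)) : False := by
  have key : ∀ n : ℕ, ∃ e : K, e ≠ 1 ∧ hb (bl i) e ≠ some i.castSucc ∧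
      hb (bl i) e⁻¹ ≠ some i.castSucc ∧
      IsConj (r i ^ m * x i.castSucc * d) (r i ^ (m + n) * x i.castSucc * e) := by
    intro n
    induction n with
    | zero => exact ⟨d, h1, h2, h3, by rw [Nat.cast_zero, add_zero]⟩
    | succ n ih =>
      obtain ⟨e, e1, e2, e3, e4⟩ := ih
      refine ⟨alh i e, fun h => e1 (alh_inj i (h.trans (map_one _).symm)), ?_, ?_, ?_⟩
      · rwa [(resp_al i).hb_eq]
      · rwa [← map_inv, (resp_al i).hb_eq]
      · have := (alh i).map_isConj e4
        rw [map_mul (alh i) _ e, alh_odd] at this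
        push_cast
        rw [← add_assoc]
        exact hc.symm.trans this
  set L := len (r i ^ m * x i.castSucc * d)
  obtain ⟨e, e1, e2, e3, e4⟩ := key (m.natAbs + L + 1)
  obtain ⟨N, hN, hN'⟩ : ∃ N : ℕ, m + (m.natAbs + L + 1 : ℕ) = (N + 1 : ℕ) ∧ L ≤ N :=
    ⟨(m + m.natAbs + L).toNat, by omega, by omega⟩
  rw [hN, zpow_natCast] at e4
  have s1 : In (bl i) i.castSucc (r i ^ (N + 1) * x i.castSucc) := by
    refine In.mul ?_ (in_a i)
    induction N + 1 with
    | zero => simpa using in_one
    | succ n ih => rw [pow_succ]; exact ih.mul (in_r i)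
  have s2 : 2 * N + 1 ≤ len (r i ^ (N + 1) * x i.castSucc) := by
    have t1 := ((cr_r i).pow N).1
    have t2 := len_mul (r i ^ (N + 1) * x i.castSucc) (x i.castSucc)
    rw [mul_assoc, x_mul_x, mul_one, t1, len_r] at t2
    have t3 : len (x i.castSucc) = 1 := rfl
    omega
  have s3 : r i ^ (N + 1) * x i.castSucc ≠ 1 := fun h => by
    rw [h] at s2
    simp [len, one_l] at s2
  have s4 : CR (r i ^ (N + 1) * x i.castSucc * e) := by
    refine cr_of_hb (β := bl i) fun k hk => ?_
    rw [s1.hb_cat s3 e2]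
    rw [mul_inv_rev, hb_mul (inv_ne_one.2 e1)] at hk
    · rintro ⟨rfl⟩
      exact e3 hk
    · intro k' hk'
      rw [s1.inv.hb_eq (inv_ne_one.2 s3)]
      rintro ⟨rfl⟩
      exact e2 (by simpa using hk')
  have s5 := s4.len_le e4
  have s6 := congrArg List.length (cat (s1.nc e2))
  rw [List.length_append] at s6
  unfold len at s2 s5
  have : L = (r i ^ m * x i.castSucc * d).l.length := rfl
  omega

/-- The rotations of `p`. -/
def ps (s : Lt) : K := x s * x (s + 1) * x (s + 2) * x (s + 3) * x (s + 4)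

def p : K := ps 0

def qs (s : Lt) : K := ev (List.take s.val [0, 1, 2, 3])

theorem cr_ps : ∀ s, CR (ps s) := by
  unfold CR
  decide

theorem alh_p : ∀ i, alh i p = p := by decide

theorem len_ps (s : Lt) (j : ℕ) : len (ps s ^ (j + 1)) = (j + 1) * 5 := by
  have : ∀ s, len (ps s) = 5 := by decide
  rw [((cr_ps s).pow j).1, this]

theorem p_zpow_eq_one {j : ℤ} (h : p ^ j = 1) : j = 0 := by
  by_contra h0
  obtain ⟨n, hn⟩ : ∃ n : ℕ, j.natAbs = n + 1 := ⟨j.natAbs - 1, by omega⟩
  have h1 : p ^ j.natAbs = 1 := pow_natAbs_eq_one.2 h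
  have h2 := len_ps 0 n
  rw [← hn, ← p, h1] at h2
  simp [len, one_l] at h2
  omega

theorem cent_aux (j : ℕ) (g : K) : ∀ s, g * ps s ^ (j + 1) * g⁻¹ = p ^ (j + 1) →
    ∃ m : ℤ, g = p ^ m * qs s := by
  induction h : len g using Nat.strong_induction_on generalizing g with
  | _ n ih =>
    intro s hs
    have f1 : ∀ s, hb id (ps s) = some s := by decide
    have f2 : ∀ s, hb id (ps s)⁻¹ = some (s + 4) := by decide
    have g1 : ∀ s, hb id (ps s ^ (j + 1)) = some s := fun s => by
      rw [((cr_ps s).pow j).2, f1]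
    have g2 : hb id (ps s ^ (j + 1))⁻¹ = some (s + 4) := by
      rw [← inv_pow, ((cr_ps s).inv.pow j).2, f2]
    cases e : hb id g⁻¹ with
    | none =>
      have hg : g = 1 := inv_eq_one.1 (hb_eq_none.1 e)
      subst hg
      have h2 := g1 s
      rw [one_mul, inv_one, mul_one] at hs
      rw [hs, p, g1] at h2
      cases h2
      exact ⟨0, rfl⟩
    | some i =>
      have hl : len (g * x i) < n := by
        have := (pop e).1
        rw [len_inv, ← len_inv, mul_inv_rev, inv_inv, x_inv] at this
        omega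
      have step : ∀ t, x i * ps s * (x i)⁻¹ = ps t → (∃ a : ℤ, qs t * x i = p ^ a * qs s) →
          ∃ m : ℤ, g = p ^ m * qs s := by
        rintro t ht ⟨a, ha⟩
        obtain ⟨m, hm⟩ := ih _ hl (g * x i) rfl t (by
          rw [← ht, conj_pow, ← hs]
          simp [mul_assoc])
        refine ⟨m + a, ?_⟩
        rw [zpow_add, mul_assoc, ← ha, ← mul_assoc, ← hm, mul_assoc, x_mul_x, mul_one]
      by_cases h1 : i = s
      · subst h1
        have t1 : ∀ s, x s * ps s * (x s)⁻¹ = ps (s + 1) := by decide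
        have t2 : ∀ s, qs (s + 1) * x s = qs s ∨ qs (s + 1) * x s = p⁻¹ * qs s := by decide
        refine step (i + 1) (t1 i) ?_
        rcases t2 i with t | t
        · exact ⟨0, by simpa using t⟩
        · exact ⟨-1, by simpa using t⟩
      by_cases h2 : i = s + 4
      · subst h2
        have t1 : ∀ s, x (s + 4) * ps s * (x (s + 4))⁻¹ = ps (s + 4) := by decide
        have t2 : ∀ s, qs (s + 4) * x (s + 4) = qs s ∨ qs (s + 4) * x (s + 4) = p * qs s := by
          decide
        refine step (s + 4) (t1 s) ?_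
        rcases t2 s with t | t
        · exact ⟨0, by simpa using t⟩
        · exact ⟨1, by simpa using t⟩
      exfalso
      have h3 := conj_l (w := ps s ^ (j + 1)) e (fun h0 => by
        have := g1 s
        rw [h0, hb_one] at this
        cases this) (by rw [g1]; rintro ⟨rfl⟩; exact h1 rfl) (by rw [g2]; rintro ⟨rfl⟩; exact h2 rfl)
      rw [hs] at h3
      have h4 := congrArg List.length h3
      have h5 := len_ps s j
      have h6 := len_ps 0 j
      simp only [List.length_append, List.length_reverse] at h4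
      unfold len at h h5 h6
      rw [← p] at h6
      omega

/-- The centraliser of a nontrivial power of `p`. -/
theorem cent {g : K} {j : ℤ} (hj : j ≠ 0) (h : g * p ^ j * g⁻¹ = p ^ j) : ∃ m : ℤ, g = p ^ m := by
  obtain ⟨n, hn⟩ : ∃ n : ℕ, j.natAbs = n + 1 := ⟨j.natAbs - 1, by omega⟩
  have h1 : g * p ^ (n + 1) * g⁻¹ = p ^ (n + 1) := by
    rw [← hn, ← zpow_natCast]
    rcases Int.natAbs_eq j with e | e
    · rw [← e, h]
    · have : (j.natAbs : ℤ) = -j := by omega
      rw [this, zpow_neg, ← conj_inv, h]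
  obtain ⟨m, hm⟩ := cent_aux n g 0 h1
  exact ⟨m, by simpa [qs] using hm⟩

end Pool.Agent.P.MP_5aeb4a_al
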