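import Pool.Agent.P.MP_5aeb4a_al.KC

/-! Conjugacy classes invariant under all braid automorphisms. -/

set_option autoImplicit false

namespace Pool.Agent.P.MP_5aeb4a_al

/-- The class of `v` is invariant. -/
def Inv (v : K) : Prop := ∀ i, IsConj (alh i v) v

theorem Inv.conj {u v : K} (h : Inv u) (c : IsConj u v) : Inv v := fun i =>
  (((alh i).map_isConj c).symm.trans (h i)).trans c

theorem Inv.pow {u : K} (h : Inv u) (n : ℕ) : Inv (u ^ n) := fun i => by
  rw [map_pow]
  exact (h i).pow n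

/-- The sign character of one letter. -/
def chi (j : Lt) : K →* ℤˣ := klift (fun i => if i = j then -1 else 1) (by decide +revert)

theorem cls {i : Fin 4} {j : Lt} (h : IsConj (alh i (x j)) (x j)) : j ≠ i.castSucc ∧ j ≠ i.succ := by
  have h1 := isConj_iff_eq.1 ((chi j).map_isConj h)
  have : ∀ (i : Fin 4) (j : Lt), chi j (alh i (x j)) = chi j (x j) → j ≠ i.castSucc ∧ j ≠ i.succ := by
    decide
  exact this _ _ h1

/-- Cyclically reduced invariant words. -/
def Good (w : List Lt) : Prop := Red w ∧ CR (ev w) ∧ Inv (ev w)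

theorem hb_ev {β : Lt → Lt} {w : List Lt} (h : Red w) : hb β (ev w) = w.head?.map β := by
  rw [hb, ev_l h]

theorem hb_ev_inv {β : Lt → Lt} {w : List Lt} (h : Red w) : hb β (ev w)⁻¹ = w.getLast?.map β := by
  rw [hb, inv_l, ev_l h, List.head?_reverse]

theorem ev_ne_one {a : Lt} {w : List Lt} (h : Red (a :: w)) : ev (a :: w) ≠ 1 := fun e => by
  have := ev_l h
  rw [e, one_l] at this
  cases this

theorem Good.rot {a b : Lt} {l : List Lt} (h : Good (a :: b :: l)) : Good (b :: l ++ [a]) := by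
  obtain ⟨h1, h2, h3⟩ := h
  have e1 : Red (b :: l ++ [a]) := by
    refine List.isChain_append.2 ⟨h1.tail, List.IsChain.singleton a, fun s hs t ht e => ?_⟩
    have ht' : t = a := by simpa using (Option.mem_def.1 ht).symm
    subst ht' e
    refine h2 s ?_ (by rw [hb_ev h1]; rfl)
    rw [hb_ev_inv h1, List.getLast?_cons_cons, Option.mem_def.1 hs]
    rfl
  refine ⟨e1, fun k g1 g2 => ?_, h3.conj (isConj_iff.2 ⟨x a, by simp [mul_assoc]⟩)⟩
  rw [hb_ev_inv e1, List.getLast?_concat] at g1
  rw [hb_ev e1] at g2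
  cases g1
  cases g2
  exact (List.isChain_cons_cons.1 h1).1 rfl

theorem Good.rotate (n : ℕ) : ∀ {w : List Lt}, Good w → 2 ≤ w.length → Good (w.rotate n) := by
  induction n with
  | zero => intro w h _; simpa using h
  | succ n ih =>
    intro w h hl
    match w, h, hl with
    | a :: b :: l, h, hl =>
      rw [List.rotate_cons_succ]
      exact ih h.rot (by simp)

theorem Good.piece {i : Fin 4} {a c : Lt} {s l : List Lt} (h : Good (s ++ (c :: l ++ [a])))
    (hs : ∃ m : ℤ, ev s = r i ^ m * x i.castSucc) (ha : bl i a ≠ i.castSucc)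
    (hc : bl i c ≠ i.castSucc) : False := by
  obtain ⟨m, hm⟩ := hs
  have h1 : Red (c :: l ++ [a]) := h.1.right_of_append
  have h2 := h.2.2 i
  rw [ev_append, hm] at h2
  refine odd_piece (d := ev (c :: l ++ [a])) (ev_ne_one h1) ?_ ?_ h2
  · rw [hb_ev h1]
    simpa using hc
  · rw [hb_ev_inv h1, List.getLast?_concat]
    simpa using ha

/-- The condition on three consecutive letters. -/
def T3 (a b c : Lt) : Prop :=
  a ≠ b ∧ b ≠ c ∧ ∀ i : Fin 4, bl i b = i.castSucc → bl i a = i.castSucc ∨ bl i c = i.castSucc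

instance (a b c : Lt) : Decidable (T3 a b c) := by unfold T3; infer_instance

theorem Good.t3 {a b c : Lt} {l : List Lt} (h : Good (a :: b :: c :: l)) : T3 a b c := by
  have h1 := List.isChain_cons_cons.1 h.1
  refine ⟨h1.1, (List.isChain_cons_cons.1 h1.2).1, fun i hi => ?_⟩
  by_contra hc
  push Not at hc
  refine Good.piece (s := [b]) (l := l) h.rot ?_ hc.1 hc.2
  have : ∀ (i : Fin 4) b, bl i b = i.castSucc →
      ev [b] = r i ^ (0 : ℤ) * x i.castSucc ∨ ev [b] = r i ^ (-1 : ℤ) * x i.castSucc := by decide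
  exact (this i b hi).elim (fun e => ⟨_, e⟩) fun e => ⟨_, e⟩

theorem Good.mid {a b c d e : Lt} {l : List Lt} (h : Good (a :: b :: c :: d :: e :: l)) :
    (c = b + 1 ∧ d = c + 1) ∨ (c = b + 4 ∧ d = c + 4) := by
  have h1 := h.t3
  have h2 : T3 b c d := h.rot.t3
  have h3 : T3 c d e := h.rot.rot.t3
  have h4 : ¬ (a = 2 ∧ b = 1 ∧ c = 0 ∧ d = 1 ∧ e = 2) := by
    rintro ⟨rfl, rfl, rfl, rfl, rfl⟩
    exact Good.piece (i := 0) (s := [1, 0, 1]) (l := l) h.rot ⟨-2, by decide⟩ (by decide) (by decide)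
  have h5 : ¬ (a = 2 ∧ b = 3 ∧ c = 4 ∧ d = 3 ∧ e = 2) := by
    rintro ⟨rfl, rfl, rfl, rfl, rfl⟩
    exact Good.piece (i := 3) (s := [3, 4, 3]) (l := l) h.rot ⟨1, by decide⟩ (by decide) (by decide)
  clear h
  have k1 : ∀ b c d : Lt, T3 b c d → (c = b + 1 ∧ d = c + 1) ∨ (c = b + 4 ∧ d = c + 4) ∨
      (c = 0 ∨ c = 4) := by decide
  rcases k1 b c d h2 with k | k | rfl | rfl
  · exact Or.inl k
  · exact Or.inr k
  · revert a b d e
    decide
  · revert a b d e
    decide

theorem ev_iter (e s : Lt) (m : ℕ) : ev ((List.range (m * 5)).map fun t => (· + e)^[t] s) =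
    ev ((List.range 5).map fun t => (· + e)^[t] s) ^ m := by
  have h5 : ∀ e s : Lt, (· + e)^[5] s = s := by decide
  induction m with
  | zero => simp
  | succ m ih =>
    rw [add_mul, one_mul, List.range_add, List.map_append, ev_append, ih, pow_succ, List.map_map]
    congr 3
    funext t
    simp only [Function.comp, Function.iterate_add_apply]
    rw [mul_comm, ← Function.iterate_add_apply, add_comm, Function.iterate_add_apply,
      Function.iterate_mul, Function.iterate_fixed (h5 e s)]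

theorem Good.form {w : List Lt} {m : ℕ} (h : Good w) (hm : w.length = (m + 1) * 5) :
    IsConj (ev w) (p ^ (m + 1)) ∨ IsConj (ev w) (p⁻¹ ^ (m + 1)) := by
  let f : ℕ → Lt := fun n => w[n % w.length]'(Nat.mod_lt _ (by omega))
  have h1 : ∀ n, (f (n + 2) = f (n + 1) + 1 ∧ f (n + 3) = f (n + 2) + 1) ∨
      (f (n + 2) = f (n + 1) + 4 ∧ f (n + 3) = f (n + 2) + 4) := by
    intro n
    have g1 := Good.rotate n h (by omega)
    have g2 : ∀ k (hk : k < (w.rotate n).length), (w.rotate n)[k] = f (n + k) := fun k hk => by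
      simp only [List.getElem_rotate, f, add_comm]
    have g3 : 5 ≤ (w.rotate n).length := by rw [List.length_rotate]; omega
    generalize w.rotate n = v at g1 g2 g3
    match v, g1, g2, g3 with
    | a :: b :: c :: d :: e :: l, g1, g2, g3 =>
      rw [← g2 1 (by simp), ← g2 2 (by simp), ← g2 3 (by simp)]
      exact g1.mid
  have h2 : ∃ e, (e = 1 ∨ e = 4) ∧ ∀ n, f (n + 2) = f (n + 1) + e := by
    have ne : ∀ a : Lt, a + 1 ≠ a + 4 := by decide
    rcases h1 0 with g | g
    · refine ⟨1, Or.inl rfl, fun n => ?_⟩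
      induction n with
      | zero => exact g.1
      | succ n ih => exact (h1 n).elim (·.2) fun k => absurd (ih.symm.trans k.1) (ne _)
    · refine ⟨4, Or.inr rfl, fun n => ?_⟩
      induction n with
      | zero => exact g.1
      | succ n ih => exact (h1 n).elim (fun k => absurd (k.1.symm.trans ih) (ne _)) (·.2)
  obtain ⟨e, he, h2⟩ := h2
  have h3 : ∀ n, f (n + 1) = (· + e)^[n] (f 1) := by
    intro n
    induction n with
    | zero => rfl
    | succ n ih => rw [Function.iterate_succ_apply', ← ih, h2]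
  have h4 : w.rotate 1 = (List.range ((m + 1) * 5)).map fun t => (· + e)^[t] (f 1) := by
    refine List.ext_getElem (by simp [hm]) fun k _ _ => ?_
    rw [List.getElem_rotate, List.getElem_map, List.getElem_range, ← h3]
  have h5 : IsConj (ev w) (ev (w.rotate 1)) := by
    match w, hm with
    | a :: l, _ => exact isConj_iff.2 ⟨x a, by simp⟩
  rw [h4, ev_iter] at h5
  have k1 : ∀ s : Lt, qs s * ev ((List.range 5).map fun t => (· + 1)^[t] s) * (qs s)⁻¹ = p := by
    decide
  have k2 : ∀ s : Lt, qs (s + 1) * ev ((List.range 5).map fun t => (· + 4)^[t] s) * (qs (s + 1))⁻¹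
      = p⁻¹ := by decide
  rcases he with rfl | rfl
  · exact Or.inl (h5.trans ((isConj_iff.2 ⟨_, k1 _⟩).pow _))
  · exact Or.inr (h5.trans ((isConj_iff.2 ⟨_, k2 _⟩).pow _))

/-- A nontrivial invariant class has a power conjugate to a power of `p`. -/
theorem lemA {v : K} (h : Inv v) (h1 : v ≠ 1) : ∃ (g : K) (j : ℤ), j ≠ 0 ∧ g * v ^ 5 * g⁻¹ = p ^ j := by
  obtain ⟨u, c, hu⟩ := exists_cr v
  have h2 := h.conj c
  rcases hu with hu | ⟨j, rfl⟩
  · have u1 : u ≠ 1 := fun e => h1 (isConj_one_left.1 (e ▸ c))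
    obtain ⟨m, hm⟩ : ∃ m, len u = m + 1 := ⟨len u - 1, by
      have : len u ≠ 0 := fun e => u1 (l_eq_nil.1 (List.length_eq_zero_iff.1 e))
      omega⟩
    have g : Good (u ^ 5).l := ⟨(u ^ 5).red, by rw [ev_self]; exact hu.cr_pow 4,
      by rw [ev_self]; exact h2.pow 5⟩
    have g2 := g.form (m := m) (by
      have := (hu.pow 4).1
      unfold len at this hm
      rw [this, hm, mul_comm])
    rw [ev_self] at g2
    rcases g2 with g2 | g2
    · obtain ⟨g, hg⟩ := isConj_iff.1 ((c.pow 5).trans g2)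
      exact ⟨g, (m + 1 : ℕ), by omega, by rw [hg, zpow_natCast]⟩
    · obtain ⟨g, hg⟩ := isConj_iff.1 ((c.pow 5).trans g2)
      exact ⟨g, -(m + 1 : ℕ), by omega, by rw [hg, zpow_neg, zpow_natCast, inv_pow]⟩
  · exfalso
    have := fun i => cls (h2 i)
    revert j
    have : ∀ j : Lt, ¬ ∀ i : Fin 4, j ≠ i.castSucc ∧ j ≠ i.succ := by decide
    exact fun j _ _ h => this j h

end Pool.Agent.P.MP_5aeb4a_al
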