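import Pool.Agent.P.MP_5aeb4a_al.KD

/-! Fixed points, involutions and braid pairs in the free product. -/

set_option autoImplicit false

namespace Pool.Agent.P.MP_5aeb4a_al

open SemidirectProduct

def bl2 (j : Lt) : Lt := if j = 1 then 0 else if j = 3 then 2 else j

theorem fix2 {g : K} (h : alh 0 g = alh 2 g) : alh 0 g = g := by
  have r0 : Resp bl2 (alh 0) := ⟨alh_inj 0, by unfold In; decide⟩
  have r2 : Resp bl2 (alh 2) := ⟨alh_inj 2, by unfold In; decide⟩
  induction g using block_ind bl2 with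
  | h1 => simp
  | hs k s d h1 hs hd ih =>
    rw [map_mul, map_mul] at h
    obtain ⟨e1, e2⟩ := block_uniq (r0.in hs) (r2.in hs) (by rwa [r0.hb_eq]) (by rwa [r2.hb_eq]) h
    rw [map_mul, ih e2]
    congr 1
    by_cases hk : k = 0
    · rw [e1]
      refine hom_eq_of_letters (g := MonoidHom.id K) fun j hj => ?_
      have : ∀ j, bl2 j = 0 → alh 2 (x j) = x j := by decide
      exact this j ((hs j hj).trans hk)
    · refine hom_eq_of_letters (g := MonoidHom.id K) fun j hj => ?_
      have : ∀ j, bl2 j ≠ 0 → alh 0 (x j) = x j := by decide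
      exact this j (hs j hj ▸ hk)

theorem split_block (β : Lt → Lt) (k : Lt) (u : K) :
    ∃ s d, In β k s ∧ hb β d ≠ some k ∧ u = s * d := by
  induction u using block_ind β with
  | h1 => exact ⟨1, 1, in_one, by simp [hb_one], by simp⟩
  | hs k' s d h1 hs hd _ =>
    by_cases e : k' = k
    · exact ⟨s, d, e ▸ hs, e ▸ hd, rfl⟩
    · refine ⟨1, s * d, in_one, ?_, by simp⟩
      rw [hs.hb_cat h1 hd]
      simpa using e

theorem hb_conj {β : Lt → Lt} {k : Lt} {d y : K} (hd : hb β d ≠ some k) (h1 : d ≠ 1)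
    (hy : In β k y) (y1 : y ≠ 1) : hb β (d * y * d⁻¹) = hb β d := by
  obtain ⟨s, e, hs, he, h⟩ := split_block β k d⁻¹
  have h2 : d = e⁻¹ * s⁻¹ := by rw [← mul_inv_rev, ← h, inv_inv]
  have e1 : e⁻¹ ≠ 1 := fun h0 => by
    rw [h0, one_mul] at h2
    exact hd (h2 ▸ hs.inv.hb_eq (h2 ▸ h1))
  have h3 : hb β d = hb β e⁻¹ := by
    rw [h2]
    refine hb_mul e1 fun k' hk' => ?_
    by_cases s1 : s⁻¹ = 1
    · simp [s1, hb_one]
    · rw [hs.inv.hb_eq s1]
      rintro ⟨rfl⟩
      exact he (by simpa using hk')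
  have h4 : d * y * d⁻¹ = e⁻¹ * (s⁻¹ * y * s * e) := by
    rw [h, h2]
    simp [mul_assoc]
  rw [h4, h3]
  refine hb_mul e1 fun k' hk' => ?_
  rw [((hs.inv.mul hy).mul hs).hb_cat (fun h0 => y1 (by
    have := congrArg (fun t => s * t * s⁻¹) h0
    simpa [mul_assoc] using this)) he]
  rintro ⟨rfl⟩
  exact he (by simpa using hk')

theorem lem4 (g : K) (h : alh 3 (g * x 4 * g⁻¹ * alh 3 (g * x 4 * g⁻¹)) =
    g * x 4 * g⁻¹ * alh 3 (g * x 4 * g⁻¹)) :
    ∃ g', g * x 4 * g⁻¹ = g' * x 4 * g'⁻¹ ∧ alh 3 g' = g' := by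
  induction g using block_ind (bl 3) with
  | h1 => exact ⟨1, rfl, map_one _⟩
  | hs k s d h1 hs hd ih =>
    by_cases hf : alh 3 s = s
    · obtain ⟨g', e1, e2⟩ := ih (by
        simp only [map_mul, map_inv, hf, mul_inv_rev, mul_assoc, inv_mul_cancel_left] at h ⊢
        have h2 := mul_left_cancel h
        simpa [← mul_assoc] using h2)
      refine ⟨s * g', ?_, by rw [map_mul, hf, e2]⟩
      simp only [mul_inv_rev, mul_assoc] at e1 ⊢
      rw [← mul_assoc (x 4), ← mul_assoc d, e1]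
      simp only [mul_assoc]
    have hk : k = (3 : Fin 4).castSucc := by
      by_contra hk
      exact hf (fix_of_in hs hk)
    subst hk
    obtain ⟨m, e | e⟩ := in_form hs
    · exact absurd (by rw [e, map_zpow, alh_r]) hf
    by_cases d1 : d = 1
    · refine ⟨r 3 ^ (m + 1), ?_, by rw [map_zpow, alh_r]⟩
      have t : x (3 : Fin 4).castSucc = r 3 * x 4 := by decide
      rw [d1, e, t, zpow_add_one]
      simp [mul_assoc]
    exfalso
    apply hf
    have x4 : In (bl 3) (3 : Fin 4).castSucc (x 4) := by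
      unfold In
      decide
    have c1 := hb_conj hd d1 x4 (x_ne_one 4)
    set y := d * x 4 * d⁻¹ with hy
    have y0 : y⁻¹ = y := by simp [hy, mul_assoc]
    have y1 : y ≠ 1 := fun h0 => d1 (hb_eq_none.1 (by rw [← c1, h0, hb_one]))
    have R := resp_al 3
    have a1 : alh 3 y ≠ 1 := fun h0 => y1 (alh_inj 3 (h0.trans (map_one _).symm))
    have s2 : s⁻¹ * alh 3 s = (r 3)⁻¹ := by
      rw [e, alh_odd, zpow_add_one, ← a_r]
      simp [mul_assoc]
    have c2 : hb (bl 3) (alh 3 y * (alh 3 s)⁻¹) ≠ some (3 : Fin 4).castSucc := by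
      rw [hb_mul a1, R.hb_eq, c1]
      · exact hd
      · intro k' hk'
        rw [(R.in hs).inv.hb_eq fun h0 => h1 (alh_inj 3 ((inv_eq_one.1 h0).trans (map_one _).symm))]
        rintro ⟨rfl⟩
        rw [← map_inv, R.hb_eq, y0, c1] at hk'
        exact hd hk'
    have c3 : hb (bl 3) (y * ((r 3)⁻¹ * (alh 3 y * (alh 3 s)⁻¹))) ≠ some (3 : Fin 4).castSucc := by
      rw [hb_mul y1, c1]
      · exact hd
      · intro k' hk'
        rw [(in_r 3).inv.hb_cat (inv_ne_one.2 (r_ne_one 3)) c2]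
        rintro ⟨rfl⟩
        rw [y0, c1] at hk'
        exact hd hk'
    have e2 : s * d * x 4 * (s * d)⁻¹ * alh 3 (s * d * x 4 * (s * d)⁻¹) =
        s * (y * ((r 3)⁻¹ * (alh 3 y * (alh 3 s)⁻¹))) := by
      rw [← s2, hy]
      simp [mul_assoc]
    rw [e2, map_mul] at h
    exact (block_uniq (R.in hs) hs (by rwa [R.hb_eq]) c3 h).1

theorem invol {u : K} (h : u * u = 1) (h1 : u ≠ 1) : ∃ g j, u = g * x j * g⁻¹ := by
  obtain ⟨v, c, hv | ⟨j, rfl⟩⟩ := exists_cr u
  · exfalso
    have h2 := (hv.pow 1).1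
    have h3 : v ^ 2 = 1 := isConj_one_right.1 (by simpa [pow_two, h] using c.pow 2)
    rw [h3] at h2
    have h4 : v = 1 := l_eq_nil.1 (List.length_eq_zero_iff.1 (by
      unfold len at h2
      rw [one_l] at h2
      simp only [List.length_nil] at h2
      omega))
    exact h1 (isConj_one_left.1 (h4 ▸ c))
  · obtain ⟨g, hg⟩ := isConj_iff.1 c.symm
    exact ⟨g, j, hg.symm⟩

/-- The parity of the length. -/
def sg : K →* ℤˣ := klift (fun _ => -1) (by simp)

theorem sg_x (i : Lt) : sg (x i) = -1 := klift_x _ _ _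

theorem sg_alh (i : Fin 4) (u : K) : sg (alh i u) = sg u := by
  have : ∀ i j, sg (alh i (x j)) = sg (x j) := by decide
  exact DFunLike.congr_fun (khom_ext (f := sg.comp (alh i)) (g := sg) (this i)) u

theorem sg_p : sg p = -1 := by decide

abbrev FF : Type := FreeGroup Lt

def tauh : FF →* FF := FreeGroup.lift fun i => (FreeGroup.of i)⁻¹

theorem tauh_tauh : tauh.comp tauh = MonoidHom.id FF := by
  ext i
  simp [tauh]

def tau : MulAut FF := MonoidHom.toMulEquiv tauh tauh tauh_tauh tauh_tauh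

theorem tau_of (i : Lt) : tau (FreeGroup.of i) = (FreeGroup.of i)⁻¹ := by simp [tau, tauh]

theorem tau_tau : tau * tau = 1 := MulEquiv.ext fun a => DFunLike.congr_fun tauh_tauh a

def emb : K →* FF ⋊[MonoidHom.id (MulAut FF)] MulAut FF :=
  klift (fun i => ⟨FreeGroup.of i, tau⟩) fun i => by
    ext1
    · simp [tau_of]
    · simp [tau_tau]

def rr : FF →* K := FreeGroup.lift x

theorem rr_tau (a : FF) : rr (tau a) = rr a := by
  have : rr.comp tauh = rr := by
    ext1 i
    simp [rr, tauh]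
  exact DFunLike.congr_fun this a

theorem emb_spec (u : K) : rr (emb u).left = u ∧
    ((sg u = 1 ∧ (emb u).right = 1) ∨ (sg u = -1 ∧ (emb u).right = tau)) := by
  induction u using K.ind with
  | h1 => simp
  | hx i u ih =>
    have e : emb (x i) = ⟨FreeGroup.of i, tau⟩ := klift_x _ _ _
    rw [map_mul, map_mul, e, mul_left, mul_right, map_mul, sg_x]
    refine ⟨?_, ?_⟩
    · rw [MonoidHom.id_apply, rr_tau, ih.1]
      simp [rr]
    · rcases ih.2 with h | h
      · simp [h.1, h.2]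
      · simp [h.1, h.2, tau_tau]

theorem braid_free {a b : FF} (h : a * b * a = b * a * b) : a = b := by
  have h1 : (a * b * a) ^ 2 = (a * b) ^ 3 := by
    rw [pow_two]
    nth_rewrite 2 [h]
    simp only [pow_succ, pow_zero, one_mul, mul_assoc]
  have h2 : ((a * b) * (a * b * a) * (a * b)⁻¹) ^ 2 = (a * b * a) ^ 2 := by
    rw [conj_pow, h1, ← pow_succ', pow_succ, mul_inv_cancel_right]
  have h3 := pow_left_injective two_ne_zero h2
  have h4 : b * a = a * b := by
    have := congrArg (fun t => a⁻¹ * ((a * b)⁻¹ * t) * (a * b)) h3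
    simpa [mul_assoc] using this
  rw [mul_assoc, h4, ← mul_assoc] at h
  exact mul_left_cancel (mul_right_cancel h)

theorem braid_even {u v : K} (hu : sg u = 1) (hv : sg v = 1) (h : u * v * u = v * u * v) :
    u = v := by
  have k : ∀ u, sg u = 1 → (emb u).right = 1 := fun u hu =>
    (emb_spec u).2.elim (·.2) fun e => absurd (hu.symm.trans e.1) (by decide)
  have h1 := congrArg (fun t => (emb t).left) h
  simp only [map_mul, mul_left, mul_right, k u hu, k v hv, mul_one, map_one, MulAut.one_apply] at h1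
  rw [← (emb_spec u).1, ← (emb_spec v).1, braid_free h1]

end Pool.Agent.P.MP_5aeb4a_al
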