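import Mathlib

/-! The free product of five groups of order two, as reduced words. -/

set_option autoImplicit false

namespace Pool.Agent.P.MP_5aeb4a_al

abbrev Lt : Type := Fin 5

abbrev Red (l : List Lt) : Prop := l.IsChain (· ≠ ·)

def push (i : Lt) : List Lt → List Lt
  | [] => [i]
  | j :: l => if i = j then l else i :: j :: l

theorem push_red {i : Lt} {l : List Lt} (h : Red l) : Red (push i l) := by
  cases l with
  | nil => simp [push]
  | cons j l =>
    simp only [push]
    split_ifs with e
    · exact h.tail
    · exact List.IsChain.cons_cons e h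

theorem push_cons {i : Lt} {l : List Lt} (h : Red (i :: l)) : push i l = i :: l := by
  cases l with
  | nil => rfl
  | cons j l => simp [push, (List.isChain_cons_cons.1 h).1]

theorem push_push {i : Lt} {l : List Lt} (h : Red l) : push i (push i l) = l := by
  cases l with
  | nil => simp [push]
  | cons j l =>
    by_cases e : i = j
    · subst e
      simp only [push, if_true]
      exact push_cons h
    · simp [push, e]

theorem fold_red {u : List Lt} (h : Red u) (l : List Lt) : Red (l.foldr push u) := by
  induction l with
  | nil => exact h
  | cons i l ih => exact push_red ih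

theorem fold_push {u : List Lt} (h : Red u) (i : Lt) (l : List Lt) :
    (push i l).foldr push u = push i (l.foldr push u) := by
  cases l with
  | nil => rfl
  | cons j l =>
    by_cases e : i = j
    · subst e
      simp only [push, if_true, List.foldr_cons]
      exact (push_push (fold_red h l)).symm
    · simp [push, e]

theorem fold_append {l u : List Lt} (h : Red (l ++ u)) : l.foldr push u = l ++ u := by
  induction l with
  | nil => rfl
  | cons i l ih =>
    rw [List.foldr_cons, ih h.tail]
    exact push_cons h

theorem push_len (i : Lt) (l : List Lt) : (push i l).length ≤ l.length + 1 := by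
  cases l with
  | nil => simp [push]
  | cons j l =>
    simp only [push]
    split_ifs <;> simp
    omega

theorem mem_push {i j : Lt} {l : List Lt} (h : j ∈ push i l) : j = i ∨ j ∈ l := by
  cases l with
  | nil => simpa [push] using h
  | cons k l =>
    simp only [push] at h
    split_ifs at h
    · exact Or.inr (List.mem_cons_of_mem _ h)
    · exact List.mem_cons.1 h

theorem red_reverse {l : List Lt} (h : Red l) : Red l.reverse := by
  rw [Red, List.isChain_reverse]
  exact h.imp fun _ _ e => e.symm

/-- Reduced words. -/
@[ext]
structure K where
  l : List Lt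
  red : Red l

instance : DecidableEq K := fun u v => decidable_of_iff (u.l = v.l) K.ext_iff.symm

instance : Group K where
  mul u v := ⟨u.l.foldr push v.l, fold_red v.red _⟩
  one := ⟨[], List.IsChain.nil⟩
  inv u := ⟨u.l.reverse, red_reverse u.red⟩
  mul_assoc u v w := by
    ext1
    change (u.l.foldr push v.l).foldr push w.l = u.l.foldr push (v.l.foldr push w.l)
    induction u.l with
    | nil => rfl
    | cons i l ih => rw [List.foldr_cons, fold_push w.red, ih, List.foldr_cons]
  one_mul _ := rfl
  mul_one u := by
    ext1
    change u.l.foldr push [] = u.l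
    rw [fold_append (by simpa using u.red), List.append_nil]
  inv_mul_cancel u := by
    ext1
    change u.l.reverse.foldr push u.l = []
    induction u.l with
    | nil => rfl
    | cons i l ih => rw [List.reverse_cons, List.foldr_append]; simpa [push] using ih

theorem mul_l (u v : K) : (u * v).l = u.l.foldr push v.l := rfl

theorem inv_l (u : K) : u⁻¹.l = u.l.reverse := rfl

theorem one_l : (1 : K).l = [] := rfl

theorem l_eq_nil {u : K} : u.l = [] ↔ u = 1 := ⟨fun h => K.ext h, fun h => h ▸ rfl⟩

theorem mul_l_of_red {u v : K} (h : Red (u.l ++ v.l)) : (u * v).l = u.l ++ v.l := fold_append h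

/-- The generators. -/
def x (i : Lt) : K := ⟨[i], List.IsChain.singleton i⟩

theorem x_l (i : Lt) : (x i).l = [i] := rfl

theorem x_mul_l (i : Lt) (u : K) : (x i * u).l = push i u.l := rfl

@[simp] theorem x_mul_x (i : Lt) : x i * x i = 1 := K.ext (by simp [x_mul_l, x_l, push, one_l])

@[simp] theorem x_inv (i : Lt) : (x i)⁻¹ = x i := rfl

@[simp] theorem x_x_mul (i : Lt) (u : K) : x i * (x i * u) = u := by
  rw [← mul_assoc, x_mul_x, one_mul]

/-- The value of a word. -/
def ev (l : List Lt) : K := (l.map x).prod

@[simp] theorem ev_nil : ev [] = 1 := rfl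

@[simp] theorem ev_cons (i : Lt) (l : List Lt) : ev (i :: l) = x i * ev l := by simp [ev]

@[simp] theorem ev_append (l m : List Lt) : ev (l ++ m) = ev l * ev m := by simp [ev]

theorem ev_l {l : List Lt} (h : Red l) : (ev l).l = l := by
  induction l with
  | nil => rfl
  | cons i l ih => rw [ev_cons, x_mul_l, ih h.tail, push_cons h]

theorem ev_self (u : K) : ev u.l = u := K.ext (ev_l u.red)

theorem K.ind {P : K → Prop} (h1 : P 1) (hx : ∀ i u, P u → P (x i * u)) (u : K) : P u := by
  rw [← ev_self u]
  induction u.l with
  | nil => exact h1
  | cons i l ih => rw [ev_cons]; exact hx i _ ih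

/-- The length. -/
def len (u : K) : ℕ := u.l.length

theorem len_mul (u v : K) : len (u * v) ≤ len u + len v := by
  unfold len
  rw [mul_l]
  induction u.l with
  | nil => simp
  | cons i l ih =>
    have := push_len i (l.foldr push v.l)
    simp only [List.foldr_cons, List.length_cons]
    omega

theorem len_inv (u : K) : len u⁻¹ = len u := by simp [len, inv_l]

theorem mem_mul {u v : K} {j : Lt} (h : j ∈ (u * v).l) : j ∈ u.l ∨ j ∈ v.l := by
  rw [mul_l] at h
  generalize u.l = m at h ⊢
  induction m with
  | nil => exact Or.inr h
  | cons i l ih =>
    rcases mem_push h with rfl | h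
    · simp
    · exact (ih h).imp_left (List.mem_cons_of_mem _)

section lift

variable {G : Type*} [Group G]

theorem prod_push (f : Lt → G) (hf : ∀ i, f i * f i = 1) (i : Lt) (l : List Lt) :
    ((push i l).map f).prod = f i * (l.map f).prod := by
  cases l with
  | nil => simp [push]
  | cons j l =>
    by_cases e : i = j
    · subst e
      simp [push, ← mul_assoc, hf]
    · simp [push, e]

/-- The universal property. -/
def klift (f : Lt → G) (hf : ∀ i, f i * f i = 1) : K →* G where
  toFun u := (u.l.map f).prod
  map_one' := rfl
  map_mul' u v := by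
    rw [mul_l]
    induction u.l with
    | nil => simp
    | cons i l ih => rw [List.foldr_cons, prod_push f hf, ih]; simp [mul_assoc]

@[simp] theorem klift_x (f : Lt → G) (hf : ∀ i, f i * f i = 1) (i : Lt) :
    klift f hf (x i) = f i := by
  simp [klift, x_l]

theorem khom_ext {f g : K →* G} (h : ∀ i, f (x i) = g (x i)) : f = g := by
  ext u
  induction u using K.ind with
  | h1 => simp
  | hx i u ih => rw [map_mul, map_mul, h, ih]

theorem hom_eq_of_letters {f g : K →* G} {u : K} (h : ∀ i ∈ u.l, f (x i) = g (x i)) :
    f u = g u := by
  rw [← ev_self u]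
  generalize u.l = m at h ⊢
  induction m with
  | nil => simp
  | cons i l ih =>
    rw [ev_cons, map_mul, map_mul, h i (by simp), ih fun j hj => h j (List.mem_cons_of_mem _ hj)]

end lift

end Pool.Agent.P.MP_5aeb4a_al
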