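import Pool.Agent.P.MP_5aeb4a_al.Core

/-! Endomorphisms of `A[D₅]` with a standard projection. -/

set_option autoImplicit false

namespace Pool.Agent.P.MP_5aeb4a_al

open SemidirectProduct

theorem cyc (φ : AD →* AD) (h : ∀ i, proj (φ (s i)) = proj (φ (s 0))) (i : Fin 5) :
    φ (s i) = φ (s 0) := by
  have R := rels_s.map φ
  refine R.all_eq ?_ i
  have k : ∀ i, ∃ u : K, sg u = 1 ∧ Th (φ (s i) * (φ (s 0))⁻¹) = inl u := fun i => by
    have e := eq_inl (g := Th (φ (s i) * (φ (s 0))⁻¹)) (by simp [Th_right, h i])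
    exact ⟨_, by rw [← par_inl, ← e, par_Th], e⟩
  obtain ⟨u, u1, u2⟩ := k 2
  obtain ⟨v, v1, v2⟩ := k 3
  have c2 : Commute (φ (s 0))⁻¹ (φ (s 2)) := Commute.inv_left ((R 0 2).2 (by decide) (by decide))
  have c3 : Commute (φ (s 0))⁻¹ (φ (s 3)) := Commute.inv_left ((R 0 3).2 (by decide) (by decide))
  have b := (R 2 3).1 (by decide)
  have e : u = v := braid_even u1 v1 (by
    apply (inl_injective : Function.Injective (inl : K → GG))
    simp only [map_mul (inl : K →* GG), ← u2, ← v2, ← map_mul Th]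
    congr 1
    have := congrArg (· * ((φ (s 0))⁻¹ * ((φ (s 0))⁻¹ * (φ (s 0))⁻¹))) b
    simpa only [mul_assoc, c2.left_comm, c3.left_comm] using this)
  rw [e, ← v2] at u2
  exact mul_right_cancel (Th_inj u2)

theorem cc_even {m : ℤ} (h : par (cc ^ m) = 1) : ∃ q : ℤ, cc ^ m = Th (c ^ q) := by
  rcases Int.even_or_odd' m with ⟨q, rfl | rfl⟩
  · exact ⟨q, by rw [map_zpow, Th_c, zpow_mul, zpow_two]⟩
  · exfalso
    rw [map_zpow, par_cc, zpow_add, zpow_mul] at h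
    simp at h

theorem pos (φ : AD →* AD) (g : B5) (k : ℤ)
    (h : ∀ i, proj (φ (s i)) = g * (σ (fold i) * zB ^ k) * g⁻¹) :
    (∃ (a : AD) (m q : ℤ), ∀ i, φ (s i) = a * (s (fold i).castSucc * z ^ m * c ^ q) * a⁻¹) ∨
      ∃ (a : AD) (q : ℤ), ∀ i, φ (s i) = a * (s i * c ^ q) * a⁻¹ := by
  have ck : ∀ (m : ℤ) (y : GG), cc ^ m * y = y * cc ^ m := fun m y =>
    (Commute.zpow_left (cc_comm y) m).eq
  have R := (((rels_s.map φ).map Th).map (MulAut.conj (inr g⁻¹)).toMonoidHom).mul_central (ck (-k))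
  have hs : ∀ i, R.lift (s i) = inr g⁻¹ * Th (φ (s i)) * (inr g⁻¹)⁻¹ * cc ^ (-k) := R.lift_of
  have hc : (cc ^ (-k)).right = zB ^ (-k) := by
    rw [← rightHom_eq_right, map_zpow]
    simp [cc]
  have fin : ∀ (γ : GG) (t : Fin 5 → GG), (∀ i, R.lift (s i) = γ * t i * γ⁻¹) →
      ∃ a : AD, ∀ i, Th (φ (s i)) = Th a * (t i * cc ^ k) * (Th a)⁻¹ := fun γ t ht => by
    obtain ⟨a, ha⟩ := conj_by_Th (inr g * γ)
    refine ⟨a, fun i => ?_⟩
    have e := congrArg (fun y => inr g * (y * cc ^ k) * (inr g)⁻¹) ((hs i).symm.trans (ht i))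
    rw [mul_assoc _ γ⁻¹, ← ck k γ⁻¹] at e
    rw [← ha]
    simpa [mul_assoc] using e
  rcases core (ψ := R.lift) (fun i => by
    rw [hs, mul_right, hc]
    simp [Th_right, h, mul_assoc]) with ⟨γ, m, e⟩ | ⟨γ, e⟩
  · obtain ⟨a, ha⟩ := fin γ _ e
    have e1 : (inl p : GG) = cc⁻¹ * inr zB := by
      rw [(Commute.inv_left (cc_comm _)).eq, eq_mul_inv_iff_mul_eq, cc, ← mul_assoc, ← map_mul]
      simp
    have e2 : ∀ i, (inl (p ^ m) * inr (σ (fold i)) * cc ^ k : GG) =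
        Th (s (fold i).castSucc * z ^ m) * cc ^ (k - m) := fun i => by
      rw [map_zpow, e1, (Commute.inv_left (cc_comm _)).mul_zpow, map_mul, map_zpow, Th_z, ← inc_σ,
        Th_inc, inv_zpow', ← map_zpow inr, ← map_mul, mul_assoc (cc ^ _), ← map_mul,
        (Commute.zpow_left (zB_comm (σ (fold i))) m).eq, ck, mul_assoc, ← zpow_add, neg_add_eq_sub]
    obtain ⟨q, hq⟩ := cc_even (m := k - m) (by
      have := congrArg par (ha 0)
      rw [e2] at this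
      simpa only [map_mul par, map_inv, par_Th, one_mul, inv_one, mul_one] using this.symm)
    refine Or.inl ⟨a, m, q, fun i => Th_inj ?_⟩
    rw [ha, e2, hq]
    simp only [map_mul, map_inv]
  · obtain ⟨a, ha⟩ := fin γ _ e
    obtain ⟨q, hq⟩ := cc_even (m := k) (by
      have := congrArg par (ha 0)
      rw [← Th_s] at this
      simpa only [map_mul par, map_inv, par_Th, one_mul, inv_one, mul_one] using this.symm)
    refine Or.inr ⟨a, q, fun i => Th_inj ?_⟩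
    rw [ha, hq, ← Th_s]
    simp only [map_mul, map_inv]

theorem main (φ : AD →* AD)
    (h : (∀ i, proj (φ (s i)) = proj (φ (s 0))) ∨ ∃ (g : B5) (ε k : ℤ), (ε = 1 ∨ ε = -1) ∧
      ∀ i, proj (φ (s i)) = g * (σ (fold i) ^ ε * zB ^ k) * g⁻¹) :
    (∀ i, φ (s i) = φ (s 0)) ∨
    (∃ (a : AD) (ε m q : ℤ), (ε = 1 ∨ ε = -1) ∧
      ∀ i, φ (s i) = a * (s (fold i).castSucc ^ ε * z ^ m * c ^ q) * a⁻¹) ∨
    ∃ (a : AD) (ε q : ℤ), (ε = 1 ∨ ε = -1) ∧ ∀ i, φ (s i) = a * (s i ^ ε * c ^ q) * a⁻¹ := by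
  rcases h with h | ⟨g, ε, k, rfl | rfl, h⟩
  · exact Or.inl (cyc φ h)
  · rcases pos φ g k (by simpa using h) with ⟨a, m, q, e⟩ | ⟨a, q, e⟩
    · exact Or.inr (Or.inl ⟨a, 1, m, q, Or.inl rfl, by simpa using e⟩)
    · exact Or.inr (Or.inr ⟨a, 1, q, Or.inl rfl, by simpa using e⟩)
  · have R := (rels_s.map φ).inv
    have hs : ∀ i, φ (s i) = (R.lift (s i))⁻¹ := fun i => by
      rw [show R.lift (s i) = (φ (s i))⁻¹ from R.lift_of i, inv_inv]
    have cq : ∀ (q : ℤ) (y : AD), c ^ q * y = y * c ^ q := fun q y =>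
      (Commute.zpow_left (c_comm y) q).eq
    rcases pos R.lift g (-k) (fun i => by
      rw [← inv_inj, ← map_inv, ← hs, h, ← (Commute.zpow_left (zB_comm (σ (fold i))) (-k)).eq]
      simp [mul_assoc]) with ⟨a, m, q, e⟩ | ⟨a, q, e⟩
    · refine Or.inr (Or.inl ⟨a, -1, -m, -q, Or.inr rfl, fun i => ?_⟩)
      rw [hs, e, (Commute.zpow_right (z_comm (fold i)) m).eq, ← cq q]
      simp [mul_assoc]
    · refine Or.inr (Or.inr ⟨a, -1, -q, Or.inr rfl, fun i => ?_⟩)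
      rw [hs, e, ← cq q]
      simp [mul_assoc]

end Pool.Agent.P.MP_5aeb4a_al
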