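import Pool.Agent.P.MP_5aeb4a_al.Wr

/-! Homomorphisms to the symmetric group on five points. -/

set_option autoImplicit false

namespace Pool.Agent.P.MP_5aeb4a_al

set_option synthInstance.maxSize 4096

def enc (a : S5) : ℕ :=
  (a 0).val + 8 * (a 1).val + 64 * (a 2).val + 512 * (a 3).val + 4096 * (a 4).val

def apN (c i : ℕ) : ℕ := c / 8 ^ i % 8

def muN (c d : ℕ) : ℕ :=
  apN c (apN d 0) + 8 * apN c (apN d 1) + 64 * apN c (apN d 2) + 512 * apN c (apN d 3) +
    4096 * apN c (apN d 4)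

def allN : List ℕ :=
  ([0, 1, 2, 3, 4] : List ℕ).permutations'.map fun l => l.foldr (fun a s => a + 8 * s) 0

theorem enc_mem : ∀ a : S5, enc a ∈ allN := by decide +kernel

theorem apN_enc : ∀ (a : S5) (i : Fin 5), apN (enc a) i.val = (a i).val := by decide +kernel

theorem enc_mul (a b : S5) : enc (a * b) = muN (enc a) (enc b) := by
  have h0 : apN (enc b) 0 = (b 0).val := apN_enc b 0
  have h1 : apN (enc b) 1 = (b 1).val := apN_enc b 1
  have h2 : apN (enc b) 2 = (b 2).val := apN_enc b 2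
  have h3 : apN (enc b) 3 = (b 3).val := apN_enc b 3
  have h4 : apN (enc b) 4 = (b 4).val := apN_enc b 4
  rw [muN, h0, h1, h2, h3, h4, apN_enc, apN_enc, apN_enc, apN_enc, apN_enc]
  rfl

theorem enc_inj {a b : S5} (h : enc a = enc b) : a = b :=
  Equiv.ext fun i => Fin.ext (by rw [← apN_enc, h, apN_enc])

theorem chk : ∀ a ∈ allN, a = enc 1 ∨ (∃ i j, i ≠ j ∧ a = enc (Equiv.swap i j)) ∨
    ∀ b ∈ allN, muN a b = muN b a → ∀ c ∈ allN, muN a c = muN c a →
      muN (muN b c) b = muN (muN c b) c → b = c := by decide +kernel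

theorem perm1 (a b : S5) (h1 : a * b = b * a) (c : S5) (h2 : a * c = c * a)
    (h3 : b * c * b = c * b * c) : b = c ∨ a = 1 ∨ ∃ i j, i ≠ j ∧ a = Equiv.swap i j := by
  rcases chk _ (enc_mem a) with h | ⟨i, j, ij, h⟩ | h
  · exact Or.inr (Or.inl (enc_inj h))
  · exact Or.inr (Or.inr ⟨i, j, ij, enc_inj h⟩)
  · exact Or.inl (enc_inj (h _ (enc_mem b) (by simp only [← enc_mul, h1]) _ (enc_mem c)
      (by simp only [← enc_mul, h2]) (by simp only [← enc_mul, h3])))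

theorem perm2 : ∀ i j : Fin 5, i ≠ j → ∃ π : S5, π * Equiv.swap i j * π⁻¹ = sp 0 := by
  decide +kernel

theorem perm3 : ∀ b : S5, sp 0 * b * sp 0 = b * sp 0 * b → b ≠ sp 0 → ∀ c : S5,
    sp 0 * c = c * sp 0 → b * c * b = c * b * c → c ≠ sp 0 →
    ∃ π : S5, π * sp 0 * π⁻¹ = sp 0 ∧ π * b * π⁻¹ = sp 1 ∧ π * c * π⁻¹ = sp 2 := by decide +kernel

theorem perm4 : ∀ d : S5, sp 0 * d = d * sp 0 → sp 1 * d = d * sp 1 →
    sp 2 * d * sp 2 = d * sp 2 * d → d = sp 3 := by decide +kernel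

theorem perm_last {t : Fin 5 → S5} (R : Rels edgesD t) (h0 : t 0 = sp 0) (h1 : t 1 = sp 1)
    (h2 : t 2 = sp 2) (i : Fin 5) : t i = sp (fold i) := by
  fin_cases i
  · exact h0
  · exact h1
  · exact h2
  · exact perm4 _ (h0 ▸ (R 0 3).2 (by decide) (by decide)) (h1 ▸ (R 1 3).2 (by decide) (by decide))
      (h2 ▸ (R 2 3).1 (by decide))
  · exact perm4 _ (h0 ▸ (R 0 4).2 (by decide) (by decide)) (h1 ▸ (R 1 4).2 (by decide) (by decide))
      (h2 ▸ (R 2 4).1 (by decide))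

theorem braid_comm {G : Type} [Group G] {a b : G} (h1 : a * b * a = b * a * b)
    (h2 : a * b = b * a) : a = b := by
  rw [mul_assoc, ← h2, ← mul_assoc] at h1
  rw [mul_assoc a a b, h2, ← mul_assoc, h2, mul_assoc b a a, mul_assoc] at h1
  exact mul_left_cancel (mul_left_cancel h1)

theorem perm_class {t : Fin 5 → S5} (R : Rels edgesD t) :
    t 2 = t 3 ∨ ∃ π : S5, ∀ i, π * t i * π⁻¹ = sp (fold i) := by
  by_cases e : t 2 = t 3
  · exact Or.inl e
  right
  have b01 := (R 0 1).1 (by decide)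
  have b12 := (R 1 2).1 (by decide)
  have b23 := (R 2 3).1 (by decide)
  have c02 := (R 0 2).2 (by decide) (by decide)
  have c03 := (R 0 3).2 (by decide) (by decide)
  have n2 : t 2 ≠ t 0 := fun h => e (braid_comm b23 (h ▸ c03))
  have n1 : t 1 ≠ t 0 := fun h => n2 ((braid_comm b12 (h ▸ c02)).symm.trans h)
  rcases perm1 _ _ c02 _ c03 b23 with h | h | ⟨i, j, ij, h⟩
  · exact absurd h e
  · exact absurd (braid_comm b01 (by simp [h])).symm n1
  obtain ⟨π, hπ⟩ := perm2 i j ij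
  rw [← h] at hπ
  have R1 := R.map (MulAut.conj π).toMonoidHom
  obtain ⟨κ, k0, k1, k2⟩ := perm3 (π * t 1 * π⁻¹) (hπ ▸ (R1 0 1).1 (by decide))
    (by rw [← hπ]; simpa using n1) (π * t 2 * π⁻¹) (hπ ▸ (R1 0 2).2 (by decide) (by decide))
    ((R1 1 2).1 (by decide)) (by rw [← hπ]; simpa using n2)
  refine ⟨κ * π, perm_last (R.map (MulAut.conj (κ * π)).toMonoidHom) ?_ ?_ ?_⟩
  · rw [← k0, ← hπ]
    simp [mul_assoc]
  · rw [← k1]
    simp [mul_assoc]
  · rw [← k2]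
    simp [mul_assoc]

end Pool.Agent.P.MP_5aeb4a_al
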