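import Pool.Agent.P.MP_5aeb4a_al.S4

/-! Rigidity of the braid group on four strands over the symmetric group. -/

set_option autoImplicit false

namespace Pool.Agent.P.MP_5aeb4a_al

open SemidirectProduct

theorem pm_inc4 (b : B4) : pm (inc4 b) 4 = 4 := by
  rw [← La5_inr]
  exact (La5_spec _).1

theorem Lk_z3 : (Lk (inc4 z3)).π = 1 ∧ (Lk (inc4 z3)).μ (0, 1) = Multiplicative.ofAdd 2 ∧
    (Lk (inc4 z3)).μ (1, 0) = Multiplicative.ofAdd 2 ∧
    (Lk (inc4 z3)).μ (0, 2) = Multiplicative.ofAdd 2 ∧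
    (Lk (inc4 z3)).μ (1, 2) = Multiplicative.ofAdd 2 ∧ (Lk (inc4 z3)).μ (0, 3) = 1 ∧
    (Lk (inc4 z3)).μ (1, 3) = 1 := by decide +kernel

theorem Lk_z4 : (Lk (inc4 z4)).π = 1 ∧ (Lk (inc4 z4)).μ (0, 1) = Multiplicative.ofAdd 2 ∧
    (Lk (inc4 z4)).μ (1, 0) = Multiplicative.ofAdd 2 ∧
    (Lk (inc4 z4)).μ (0, 2) = Multiplicative.ofAdd 2 ∧
    (Lk (inc4 z4)).μ (1, 2) = Multiplicative.ofAdd 2 ∧
    (Lk (inc4 z4)).μ (0, 3) = Multiplicative.ofAdd 2 ∧
    (Lk (inc4 z4)).μ (1, 3) = Multiplicative.ofAdd 2 := by decide +kernel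

theorem core3b {φ : B4 →* B4} (hr : ∀ i, r4 (φ (τ i)) = υ (f3 i))
    (hn : pm (inc4 (φ (τ 0))) ≠ pm (inc4 (φ (τ 2)))) {j : ℤ} (hj : j ≠ 0)
    (hv : (Th3 (φ z3) * c3⁻¹) ^ 6 = inl (p3 ^ j)) : ∃ h, ∀ i, φ (τ i) = h * τ i * h⁻¹ := by
  have hr' : ∀ i, (Th3 (φ (τ i))).right = υ (f3 i) := hr
  have hR : ∀ a, (Th3 (φ a)).right = r4 a := fun a =>
    DFunLike.congr_fun (text (f := r4.comp φ) (g := r4) fun i => by simp [hr, r4_τ]) a
  have hc : ∀ a : B4, a * z3 = z3 * a → Th3 (φ a) * inl (p3 ^ j) = inl (p3 ^ j) * Th3 (φ a) :=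
    fun a ha => by
      have h1 : Commute (Th3 (φ a)) (Th3 (φ z3)) := (Commute.map ha φ).map Th3
      have h2 : Commute (Th3 (φ a)) c3 := (c3_comm (kh_Th3 _)).symm
      exact hv ▸ ((h1.mul_right h2.inv_right).pow_right 6).eq
  have h1 : ∀ i : Fin 2, ∃ a : ℤ, (Th3 (φ (τ i.castSucc))).left = p3 ^ a := fun i => by
    have := congrArg SemidirectProduct.left (hc _ (z3_comm i))
    simp only [mul_left, left_inl, right_inl, map_one, MulAut.one_apply] at this
    rw [map_zpow, act3_p] at this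
    exact cent3 hj (mul_inv_eq_iff_eq_mul.2 this)
  obtain ⟨a, ha⟩ : ∃ a : ℤ, (Th3 (φ (τ 0))).left = p3 ^ a := h1 0
  obtain ⟨a', ha'⟩ : ∃ a : ℤ, (Th3 (φ (τ 1))).left = p3 ^ a := h1 1
  have R := rels_τ.map φ
  have e0 : a' = a := by
    have := congrArg SemidirectProduct.left (((R.map Th3) 0 1).1 (by decide))
    simp only [mul_left, ha, ha', map_zpow, act3_p, ← zpow_add] at this
    have h3 := len_p3_zpow (a + a' + a - (a' + a + a'))
    rw [zpow_sub, this, mul_inv_cancel] at h3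
    have : len 1 = 0 := rfl
    omega
  subst e0
  have h4 : Th3 (φ (τ 0)) = inl (p3 ^ a') * inr (υ 0) :=
    SemidirectProduct.ext (by simp [ha, -map_zpow]) (by simp [hr', f3, -map_zpow])
  have h5 : Th3 (φ (τ 1)) = inl (p3 ^ a') * inr (υ 1) :=
    SemidirectProduct.ext (by simp [ha', -map_zpow]) (by simp [hr', f3, -map_zpow])
  obtain ⟨b, hb, hb'⟩ := p3_even (a := a') (by
    have := par3_Th3 (φ (τ 0))
    rwa [h4, map_mul, par3_inr, mul_one, par3_inl] at this)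
  have a0 : a' = 0 := by
    have t0 : φ (τ 0) = z3 ^ a' * z4 ^ (-b) * τ 0 :=
      Th3_inj (by rw [h4, hb', map_mul _ _ (τ 0), Th3_τ]; rfl)
    have t1 : φ (τ 1) = z3 ^ a' * z4 ^ (-b) * τ 1 :=
      Th3_inj (by rw [h5, hb', map_mul _ _ (τ 1), Th3_τ]; rfl)
    have z1 := zpowP Lk_z3.1 a'
    have z2 := zpowP Lk_z4.1 (-b)
    have s0 : (Lk (inc4 (φ (τ 0)))).π = sp 0 := by
      simp only [t0, map_mul, map_zpow, Wr.mul_π, z1.1, z2.1, one_mul, inc4_τ, Lk_σ]
      rfl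
    have s1 : (Lk (inc4 (φ (τ 1)))).π = sp 1 := by
      simp only [t1, map_mul, map_zpow, Wr.mul_π, z1.1, z2.1, one_mul, inc4_τ, Lk_σ]
      rfl
    have R2 := (R.map inc4).map pm
    have s2 : pm (inc4 (φ (τ 2))) = sp 2 := by
      have k : ∀ π : S5, π 4 = 4 → sp 0 ≠ π → sp 0 * π = π * sp 0 → sp 1 * π * sp 1 = π * sp 1 * π →
          π = sp 2 := by decide +kernel
      rw [Lk_π] at s0 s1
      exact k _ (pm_inc4 _) (s0 ▸ hn) (s0 ▸ (R2 0 2).2 (by decide) (by decide))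
        (s1 ▸ (R2 1 2).1 (by decide))
    have c02 : Commute (Lk (inc4 (φ (τ 2)))) (Lk (inc4 (φ (τ 0)))) :=
      (((R.map inc4).map Lk) 2 0).2 (by decide) (by decide)
    have := commP (a := Lk (inc4 (φ (τ 0))) * Lk (inc4 (φ (τ 0)))) (by rw [Wr.mul_π, s0]; decide)
      (c02.mul_right c02).eq (0, 2)
    rw [Lk_π, s2, show sp 2 • ((0, 2) : Fin 5 × Fin 5) = (0, 3) by decide, Wr.mul_μ, Wr.mul_μ, s0,
      show sp 0 • ((0, 2) : Fin 5 × Fin 5) = (1, 2) by decide,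
      show sp 0 • ((0, 3) : Fin 5 × Fin 5) = (1, 3) by decide] at this
    have l0 : ∀ q, (Lk (inc4 (φ (τ 0)))).μ q = (Lk (inc4 z3)).μ (sp 0 • q) ^ a' *
        (Lk (inc4 z4)).μ (sp 0 • q) ^ (-b) * (lkg 0).μ q := fun q => by
      simp only [t0, map_mul, map_zpow, Wr.mul_μ, z1.2, z2.2, z2.1, one_smul, inc4_τ, Lk_σ]
      rfl
    rw [l0, l0, l0, l0, show sp 0 • ((0, 2) : Fin 5 × Fin 5) = (1, 2) by decide,
      show sp 0 • ((0, 3) : Fin 5 × Fin 5) = (1, 3) by decide,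
      show sp 0 • ((1, 2) : Fin 5 × Fin 5) = (0, 2) by decide,
      show sp 0 • ((1, 3) : Fin 5 × Fin 5) = (0, 3) by decide] at this
    simp only [Lk_z3, Lk_z4] at this
    have := congrArg Multiplicative.toAdd this
    simp [lkg] at this
    omega
  subst a0
  simp only [zpow_zero, map_one, one_mul] at h4 h5
  obtain ⟨ρ, hρ⟩ : ∃ ρ : K, Th3 (φ Dl4) * c3⁻¹ = inl ρ := ⟨_, eq_inl3 (by
    have := congrArg SemidirectProduct.right Th3_Dl4
    rw [mul_right, hR, inv_right, mul_inv_eq_one]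
    rw [mul_right, right_inl, one_mul] at this
    exact this)⟩
  have q1 : sg ρ = -1 := by
    rw [← par3_inl, ← hρ, map_mul, map_inv, par3_c3, par3_Th3]
    rfl
  have q0 : kap ρ = ρ := inl_injective (by
    rw [← kh_inl, ← hρ, map_mul, map_inv, kh_Th3, kh_c3])
  have ci : ∀ a, c3⁻¹ * Th3 a = Th3 a * c3⁻¹ := fun a =>
    (Commute.inv_left (c3_comm (kh_Th3 a))).eq
  have q2 : ∀ i, inl ρ * Th3 (φ (τ i)) = Th3 (φ (τ (sw4 i))) * inl ρ := fun i => by
    rw [← hρ, mul_assoc, ci, ← mul_assoc, ← map_mul, ← map_mul, Dl4_τ, map_mul, map_mul, mul_assoc]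
  have q3 : ρ * ρ * p3 ^ j * (ρ * ρ)⁻¹ = p3 ^ j := by
    have e : (inl (ρ * ρ) : G3) = Th3 (φ z4) * (c3⁻¹ * c3⁻¹) := by
      rw [map_mul, ← hρ, ← Dl4_sq, map_mul, map_mul, mul_assoc, ← mul_assoc c3⁻¹, ci (φ Dl4)]
      simp only [mul_assoc]
    have cp : Commute c3⁻¹ (inl (p3 ^ j) : G3) :=
      Commute.inv_left (c3_comm (by rw [kh_inl, map_zpow, kap_x.2.2]))
    rw [mul_inv_eq_iff_eq_mul]
    apply (inl_injective : Function.Injective (inl : K → G3))
    rw [map_mul _ _ (p3 ^ j), map_mul _ (p3 ^ j), e]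
    exact (Commute.mul_left (hc z4 (z4_comm z3)) (cp.mul_left cp)).eq
  obtain ⟨m, hm⟩ := cent3 hj q3
  by_cases m0 : m ≠ 0
  · obtain ⟨l, hl⟩ := cent3 (g := ρ) m0 (by rw [← hm]; simp [mul_assoc])
    exfalso
    have e2 : inl ρ * Th3 (φ (τ 0)) = Th3 (φ (τ 0)) * inl ρ := by
      rw [h4, hl]
      refine SemidirectProduct.ext ?_ (by simp [-map_zpow])
      simp only [mul_left, left_inl, left_inr, right_inr, map_one, one_mul, mul_one]
      rw [map_zpow, act3_p]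
    exact hn (congrArg (fun t => pm (inc4 t))
      (Th3_inj (mul_right_cancel ((q2 0).symm.trans e2))).symm)
  rw [not_not.1 m0, zpow_zero] at hm
  obtain ⟨g, k, hg⟩ := invol hm (fun h => by
    rw [h, map_one] at q1
    exact absurd q1 (by decide))
  have q4 : alh 2 ρ = ρ := by
    have := q2 1
    rw [show sw4 1 = 1 from rfl, h5] at this
    simpa [act3_1, al_apply] using (congrArg SemidirectProduct.left this).symm
  have q5 : (g⁻¹ * alh 2 g) * alh 2 (x k) * (g⁻¹ * alh 2 g)⁻¹ = x k := by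
    have := congrArg (fun t => g⁻¹ * t * g) q4
    simpa [hg, mul_assoc] using this
  have q6 : k = 4 := by
    have k1 := cls (isConj_iff.2 ⟨_, q5⟩)
    have k2 : chi k (kap (x k)) = chi k (x k) := by
      have := congrArg (chi k) q0
      rw [hg] at this
      simpa only [map_mul, map_inv, mul_inv_cancel_comm] using this
    have key : ∀ k : Lt, k ≠ (2 : Fin 4).castSucc ∧ k ≠ (2 : Fin 4).succ →
      chi k (kap (x k)) = chi k (x k) → k = 4 := by decide
    exact key k k1 k2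
  subst q6
  have e4 : alh 2 (x 4) = x 4 := by decide
  have q9 : alh 2 g = g := by
    rw [e4] at q5
    rcases comm_x q5 with h | h
    · exact (inv_mul_eq_one.1 h).symm
    · have := congrArg sg h
      rw [map_mul, sg_alh, map_inv, inv_mul_cancel, sg_x] at this
      exact absurd this (by decide)
  have t4 : Th3 (φ (τ 2)) = inl ρ * inr (υ 0) * inl ρ := by
    have := q2 0
    rw [h4] at this
    rw [this, mul_assoc, ← map_mul, hm, map_one, mul_one]
    rfl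
  have q10 : alh 3 (ρ * alh 3 ρ) = ρ * alh 3 ρ := by
    have := congrArg SemidirectProduct.left (((R.map Th3) 0 2).2 (by decide) (by decide))
    beta_reduce at this
    rw [h4, t4] at this
    simpa [act3_0, al_apply] using this
  rw [hg] at q10
  obtain ⟨g', e1, e2⟩ := lem4 g q10
  have q11 : alh 2 g' = g' := by
    rcases comm_x (g := g⁻¹ * g') (j := 4) (by
      have := congrArg (fun t => g⁻¹ * t * g) e1
      simpa [mul_assoc] using this.symm) with h | h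
    · rw [← inv_mul_eq_one.1 h, q9]
    · rw [inv_mul_eq_iff_eq_mul.1 h, map_mul, q9, e4]
  have q12 : (inr (υ 0) : G3) = inl g' * inr (υ 0) * (inl g')⁻¹ :=
    SemidirectProduct.ext (by simp [act3_0, al_apply, e2]) (by simp)
  have q13 : (inr (υ 1) : G3) = inl g' * inr (υ 1) * (inl g')⁻¹ :=
    SemidirectProduct.ext (by simp [act3_1, al_apply, q11]) (by simp)
  have q14 : ∀ i, Th3 (φ (τ i)) = inl g' * Th3 (τ i) * (inl g')⁻¹ := fun i => by
    fin_cases i
    · exact h4.trans q12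
    · exact h5.trans q13
    · change Th3 (φ (τ 2)) = inl g' * th3 2 * (inl g')⁻¹
      rw [t4, th3_two, hg, e1]
      nth_rewrite 1 [q12]
      simp [mul_assoc]
  obtain ⟨h, hh⟩ := conj_by_Th3 g'
  refine ⟨h, fun i => Th3_inj ?_⟩
  rw [← hh, ← kh_Th3 (φ _), q14, map_mul, map_mul, map_inv, kh_inl, kh_Th3]

theorem core3 {t : Fin 3 → B4} (R : Rels edges4 t) (hr : ∀ i, r4 (t i) = υ (f3 i))
    (hn : pm (inc4 (t 0)) ≠ pm (inc4 (t 2))) : ∃ h, ∀ i, t i = h * τ i * h⁻¹ := by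
  have hs : ∀ i, R.lift (τ i) = t i := R.lift_of
  generalize R.lift = φ at hs
  simp only [← hs] at hr hn ⊢
  have hR : ∀ a, (Th3 (φ a)).right = r4 a := fun a =>
    DFunLike.congr_fun (text (f := r4.comp φ) (g := r4) fun i => by simp [hr, r4_τ]) a
  obtain ⟨v, hv⟩ : ∃ v : K, Th3 (φ z3) * c3⁻¹ = inl v := ⟨_, eq_inl3 (by
    rw [mul_right, hR, inv_right, z3, r4_inc3]
    simp [c3, -map_pow])⟩
  have q1 : sg v = -1 := by
    rw [← par3_inl, ← hv, map_mul, map_inv, par3_c3, par3_Th3]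
    rfl
  have q0 : kap v = v := inl_injective (by
    rw [← kh_inl, ← hv, map_mul, map_inv, kh_Th3, kh_c3])
  have q2 : ∀ i : Fin 2, IsConj (act3 (υ i) v) v := fun i => by
    have h1 : Commute (Th3 (φ (τ i.castSucc))) (Th3 (φ z3)) := (Commute.map (z3_comm i) φ).map Th3
    have h2 : Commute (Th3 (φ (τ i.castSucc))) c3 := (c3_comm (kh_Th3 _)).symm
    have h3 := (h1.mul_right h2.inv_right).eq
    rw [hv] at h3
    have h4 := congrArg SemidirectProduct.left h3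
    have e : υ (f3 i.castSucc) = υ i := by fin_cases i <;> rfl
    simp only [mul_left, left_inl, right_inl, map_one, MulAut.one_apply, hR, r4_τ, e] at h4
    exact isConj_iff.2 ⟨_, mul_inv_eq_iff_eq_mul.2 h4⟩
  obtain ⟨g, j, hj, hg⟩ := lemA3 (q0 ▸ in_kap v) (fun i hi => by
    have : i = 2 ∨ i = 3 := by revert i; decide
    rcases this with rfl | rfl
    exacts [q2 1, q2 0]) (fun h => by
    rw [h, map_one] at q1
    exact absurd q1 (by decide))
  obtain ⟨h, hh⟩ := conj_by_Th3 g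
  have hg' := congrArg kap hg
  rw [map_mul, map_mul, map_pow, map_inv, q0, map_zpow, kap_x.2.2] at hg'
  obtain ⟨k, hk⟩ := core3b (φ := (MulAut.conj h).toMonoidHom.comp φ) (fun i => by
      change (Th3 (h * φ (τ i) * h⁻¹)).right = _
      rw [← hh]
      simp [hR, r4_τ])
    (fun e => hn (by simpa using e)) hj (by
      change (Th3 (h * φ z3 * h⁻¹) * c3⁻¹) ^ 6 = _
      have ci : c3⁻¹ * (inl (kap g))⁻¹ = (inl (kap g))⁻¹ * c3⁻¹ :=
        (Commute.inv_inv (c3_comm (by rw [kh_inl, kap_kap]))).eq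
      rw [← hh, mul_assoc, ← ci, ← mul_assoc, mul_assoc (inl _), hv, ← hg', conj_pow]
      simp)
  refine ⟨h⁻¹ * k, fun i => ?_⟩
  have := congrArg (fun a => h⁻¹ * a * h) (hk i)
  simpa [mul_assoc] using this

theorem rels_aff : Rels edges4 ![(⟨1, 1, 0, 1, 1, 0, by decide⟩ : Af ℤ), mU, mT] := fun i j =>
  ⟨fun e => by revert i j; decide, fun e e' => by revert i j; decide⟩

def aff : B4 →* Af ℤ := rels_aff.lift

theorem lin_aff (g : B4) : Af.lin (aff g) = ρ (r4 g) :=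
  DFunLike.congr_fun (text (f := Af.lin.comp aff) (g := ρ.comp r4) (by decide)) g

def ptx : Fin 5 → ZMod 2 := ![0, 1, 1, 0, 0]

def pty : Fin 5 → ZMod 2 := ![0, 0, 1, 1, 0]

def apf (a b c d e f : ZMod 2) (j : Fin 5) : Fin 5 :=
  if j = 4 then 4 else
    if c * ptx j + d * pty j + f = 0 then (if a * ptx j + b * pty j + e = 0 then 0 else 1)
    else if a * ptx j + b * pty j + e = 0 then 3 else 2

def apu (u : Af (ZMod 2)) : Fin 5 → Fin 5 := apf u.a u.b u.c u.d u.e u.f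

theorem apu_mul (u v : Af (ZMod 2)) (j : Fin 5) : apu (u * v) j = apu u (apu v j) := by
  have : ∀ a b c d e f a' b' c' d' e' f' : ZMod 2, ∀ j,
      apf (a * a' + b * c') (a * b' + b * d') (c * a' + d * c') (c * b' + d * d')
        (a * e' + b * f' + e) (c * e' + d * f' + f) j =
      apf a b c d e f (apf a' b' c' d' e' f' j) := by decide +kernel
  exact this _ _ _ _ _ _ _ _ _ _ _ _ j

theorem pm_apu (g : B4) : ∀ j, pm (inc4 g) j = apu (Af.red (aff g)) j := by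
  induction g using art_ind with
  | h1 => simp only [map_one]; decide
  | hm a b ha hb => intro j; simp only [map_mul, Equiv.Perm.mul_apply, apu_mul, ha, hb]
  | hi a ha =>
    intro j
    have k : ∀ j, apu 1 j = j := by decide
    simp only [map_inv]
    obtain ⟨l, rfl⟩ := (pm (inc4 a)).surjective j
    rw [Equiv.Perm.inv_def, Equiv.symm_apply_apply, ha, ← apu_mul, inv_mul_cancel, k]
  | hg i =>
    revert i
    decide

set_option synthInstance.maxSize 2048 in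
theorem lin_ne {a b : B4} {i k : Fin 4} (ha : pm (inc4 a) = sp i) (hb : pm (inc4 b) = sp k)
    (h : (i, k) ∈ edgesA) (hk : k ≠ 3) : ρ (r4 a) ≠ ρ (r4 b) := by
  intro e
  rw [← lin_aff, ← lin_aff, Af.ext_iff] at e
  have h1 := pm_apu a
  have h2 := pm_apu b
  have : ∀ a b c d e f e' f' : ZMod 2, ∀ i k : Fin 4, (i, k) ∈ edgesA → k ≠ 3 →
      (∀ j, sp i j = apf a b c d e f j) → ¬ ∀ j, sp k j = apf a b c d e' f' j := by decide +kernel
  rw [ha] at h1
  rw [hb] at h2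
  refine this _ _ _ _ _ _ (aff b).e (aff b).f i k h hk h1 fun j => (h2 j).trans ?_
  obtain ⟨e1, e2, e3, e4, -⟩ := e
  change (aff a).a = (aff b).a at e1
  change (aff a).b = (aff b).b at e2
  change (aff a).c = (aff b).c at e3
  change (aff a).d = (aff b).d at e4
  change apf (aff b).a (aff b).b (aff b).c (aff b).d _ _ j =
    apf (aff a).a (aff a).b (aff a).c (aff a).d _ _ j
  rw [e1, e2, e3, e4]
  rfl

theorem normal3 {a b : B3} (h : a * b * a = b * a * b) (hn : ρ a ≠ ρ b) {e f : ℤ}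
    (h0 : e ≠ 0 ∨ f ≠ 0) (h1 : (ρ a).a * e + (ρ a).b * f = e) (h2 : (ρ a).c * e + (ρ a).d * f = f) :
    ∃ (g : B3) (ε : ℤ), (ε = 1 ∨ ε = -1) ∧ ρ (g * a * g⁻¹) = ρ (υ 0 ^ ε) ∧
      ρ (g * b * g⁻¹) = ρ (υ 1 ^ ε) := by
  obtain ⟨g, hg⟩ := euclid e f
  have dg := (ρ g).det
  have n0 : (ρ g).a * e + (ρ g).b * f ≠ 0 := fun z => by
    rcases h0 with h0 | h0
    · exact h0 (by linear_combination (ρ g).d * z - (ρ g).b * hg - e * dg)
    · exact h0 (by linear_combination (ρ g).a * hg - (ρ g).c * z - f * dg)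
  have a1 : (ρ (g * a * g⁻¹)).a = 1 := mul_right_cancel₀ n0 (by
    simp only [map_mul, map_inv, Af.mul_a, Af.mul_b, Af.inv_a, Af.inv_c]
    linear_combination (ρ g).a * h1 + (ρ g).b * h2 +
      (((ρ g).a * (ρ a).a + (ρ g).b * (ρ a).c) * e + ((ρ g).a * (ρ a).b + (ρ g).b * (ρ a).d) * f) * dg
      + (((ρ g).a * (ρ a).a + (ρ g).b * (ρ a).c) * (ρ g).b
        - ((ρ g).a * (ρ a).b + (ρ g).b * (ρ a).d) * (ρ g).a) * hg)
  have a2 : (ρ (g * a * g⁻¹)).c = 0 := mul_right_cancel₀ n0 (by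
    simp only [map_mul, map_inv, Af.mul_c, Af.mul_d, Af.inv_a, Af.inv_c]
    linear_combination (ρ g).c * h1 + (ρ g).d * h2 + hg +
      (((ρ g).c * (ρ a).a + (ρ g).d * (ρ a).c) * e + ((ρ g).c * (ρ a).b + (ρ g).d * (ρ a).d) * f) * dg
      + (((ρ g).c * (ρ a).a + (ρ g).d * (ρ a).c) * (ρ g).b
        - ((ρ g).c * (ρ a).b + (ρ g).d * (ρ a).d) * (ρ g).a) * hg)
  have hb : ρ (g * a * g⁻¹) * ρ (g * b * g⁻¹) * ρ (g * a * g⁻¹) =
      ρ (g * b * g⁻¹) * ρ (g * a * g⁻¹) * ρ (g * b * g⁻¹) := by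
    simp only [← map_mul, conj_mul, h]
  have t1 := Af.braid_tr hb
  have t2 := Af.braid_tr2 hb (by
    rw [lin_ρ, lin_ρ]
    simpa using hn)
  have la := lin_ρ (g * a * g⁻¹)
  have lb := lin_ρ (g * b * g⁻¹)
  have key : ∀ (m : ℤ) (y : B3), ρ (υ 0 ^ m * g * y * (υ 0 ^ m * g)⁻¹) =
      mT ^ m * ρ (g * y * g⁻¹) * mT ^ (-m) := fun m y => by simp [ρ_υ0, mul_assoc]
  obtain ⟨A, hA⟩ : ∃ A, ρ (g * a * g⁻¹) = A := ⟨_, rfl⟩
  obtain ⟨B, hB⟩ : ∃ B, ρ (g * b * g⁻¹) = B := ⟨_, rfl⟩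
  rw [hA] at a1 a2 la
  rw [hB] at lb
  rw [hA, hB] at t1 t2
  have dA := A.det
  have dB := B.det
  rw [a1, a2] at dA
  have a3 : A.d = 1 := by linear_combination dA
  simp only [Af.mul_a, Af.mul_d, a1, a2, a3] at t1 t2
  have t3 : A.b * -B.c = 1 := by linear_combination -t2 - t1
  have ae : A.e = 0 := (congrArg Af.e la).symm
  have af : A.f = 0 := (congrArg Af.f la).symm
  have be : B.e = 0 := (congrArg Af.e lb).symm
  have bf : B.f = 0 := (congrArg Af.f lb).symm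
  have bd : B.d = 2 - B.a := by linear_combination -t1
  refine ⟨υ 0 ^ ((B.a - 1) * A.b) * g, A.b, Int.eq_one_or_neg_one_of_mul_eq_one t3, ?_, ?_⟩
  · rw [key, hA, map_zpow, ρ_υ0, mT_zpow, mT_zpow, mT_zpow]
    ext <;> simp [a1, a2, a3, ae, af]
  · rw [key, hB, map_zpow, ρ_υ1, mT_zpow, mT_zpow]
    rcases Int.eq_one_or_neg_one_of_mul_eq_one' t3 with ⟨e1, e2⟩ | ⟨e1, e2⟩
    · have e3 : B.c = -1 := by linear_combination -e2
      rw [e3, bd] at dB
      ext <;> simp [e1, e3, bd, be, bf, mU] <;> first | ring1 | linear_combination dB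
    · have e3 : B.c = 1 := by linear_combination -e2
      rw [e3, bd] at dB
      ext <;> simp [e1, e3, bd, be, bf, mU] <;> first | ring1 | linear_combination -dB

theorem r4_z4 : r4 z4 = D3 ^ 4 := by simp [z4, r4_τ, f3, D3]

theorem ex3_D3 : ex3 (D3 ^ 4) = Multiplicative.ofAdd 12 := by decide

theorem rigid4 {t : Fin 3 → B4} (R : Rels edges4 t) (hp : ∀ i, pm (inc4 (t i)) = sp i.castSucc) :
    ∃ (h : B4) (ε k : ℤ), (ε = 1 ∨ ε = -1) ∧ ∀ i, t i = h * (τ i ^ ε * z4 ^ k) * h⁻¹ := by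
  have n01 := lin_ne (hp 0) (hp 1) (by decide) (by decide)
  have n12 := lin_ne (hp 1) (hp 2) (by decide) (by decide)
  have Ra := R.map aff
  have R4 := R.map r4
  have e02 : Af.lin (aff (t 0)) = Af.lin (aff (t 2)) :=
    Af.comm_braid ((Ra 0 1).1 (by decide)) ((Ra 1 2).1 (by decide))
      ((Ra 0 2).2 (by decide) (by decide)) (by rwa [lin_aff, lin_aff]) (by rwa [lin_aff, lin_aff])
  have hn : pm (inc4 (t 0)) ≠ pm (inc4 (t 2)) := by
    rw [hp, hp]
    decide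
  have c02 := (Ra 0 2).2 (by decide) (by decide)
  have ea : (aff (t 0)).a = (aff (t 2)).a := (congrArg Af.a e02 :)
  have eb : (aff (t 0)).b = (aff (t 2)).b := (congrArg Af.b e02 :)
  have ec : (aff (t 0)).c = (aff (t 2)).c := (congrArg Af.c e02 :)
  have ed : (aff (t 0)).d = (aff (t 2)).d := (congrArg Af.d e02 :)
  obtain ⟨g, ε, hε, g0, g1⟩ := normal3 (a := r4 (t 0)) (b := r4 (t 1)) ((R4 0 1).1 (by decide)) n01
    (e := (aff (t 2)).e - (aff (t 0)).e) (f := (aff (t 2)).f - (aff (t 0)).f) (by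
      by_contra z
      push Not at z
      have : aff (t 0) = aff (t 2) :=
        Af.ext ea eb ec ed (sub_eq_zero.1 z.1).symm (sub_eq_zero.1 z.2).symm
      exact hn (Equiv.ext fun j => by rw [pm_apu, pm_apu, this])) (by
      have := congrArg Af.e c02
      simp only [Af.mul_e, ← ea, ← eb] at this
      rw [← lin_aff]
      change (aff (t 0)).a * _ + (aff (t 0)).b * _ = _
      linear_combination this) (by
      have := congrArg Af.f c02
      simp only [Af.mul_f, ← ec, ← ed] at this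
      rw [← lin_aff]
      change (aff (t 0)).c * _ + (aff (t 0)).d * _ = _
      linear_combination this)
  have g2 : ρ (g * r4 (t 2) * g⁻¹) = ρ (υ 0 ^ ε) := by
    rw [← g0]
    simp only [map_mul, ← lin_aff, e02]
  have kb : ∀ a b : Multiplicative ℤ, a * b * a = b * a * b → a = b := fun a b h => by
    have := congrArg Multiplicative.toAdd h
    simp only [toAdd_mul] at this
    exact Multiplicative.toAdd.injective (by omega)
  have x01 := kb _ _ (((R4.map ex3) 0 1).1 (by decide))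
  have x12 := kb _ _ (((R4.map ex3) 1 2).1 (by decide))
  have gi : ∀ i, ρ (g * r4 (t i) * g⁻¹) = ρ (υ (f3 i) ^ ε) := fun i => by
    fin_cases i
    exacts [g0, g1, g2]
  have ki : ∀ i, ∃ k : ℤ, g * r4 (t i) * g⁻¹ * (υ (f3 i) ^ ε)⁻¹ = (D3 ^ 4) ^ k := fun i =>
    ker_ρ (by rw [map_mul, map_inv, gi, mul_inv_cancel])
  choose k hk using ki
  have xi : ∀ i, (ex3 (r4 (t i))).toAdd - ε = 12 * k i := fun i => by
    have := congrArg (fun a => (ex3 a).toAdd) (hk i)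
    have e : ex3 (υ (f3 i)) = Multiplicative.ofAdd 1 := (rels_one edges3).lift_of _
    simp only [map_mul, map_inv, map_zpow, ex3_D3, e] at this
    simp at this
    omega
  have kk : ∀ i, k i = k 0 := fun i => by
    have h0 := xi 0
    have h1 := xi 1
    have h2 := xi 2
    beta_reduce at x01 x12
    rw [← x01] at h1
    rw [← x12, ← x01] at h2
    fin_cases i <;> simp <;> omega
  have cz : ∀ (m : ℤ) (y : B4), z4 ^ m * y = y * z4 ^ m := fun m y =>
    (Commute.zpow_left (z4_comm y) m).eq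
  have R1 := (R.map (MulAut.conj (inc3 g)).toMonoidHom).mul_central (cz (-k 0))
  have r1 : ∀ i, r4 (inc3 g * t i * (inc3 g)⁻¹ * z4 ^ (-k 0)) = υ (f3 i) ^ ε := fun i => by
    have := hk i
    have c : Commute (D3 ^ 4) (υ (f3 i)) := by
      have := Commute.pow_left (D3_sq_comm (υ (f3 i))) 2
      rwa [← pow_mul] at this
    rw [mul_inv_eq_iff_eq_mul, kk, (c.zpow_zpow _ _).eq] at this
    rw [map_mul, map_mul, map_mul, map_inv, r4_inc3, this, map_zpow, r4_z4, zpow_neg,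
      mul_inv_cancel_right]
  have fin : (∃ h : B4, ∀ i, inc3 g * t i * (inc3 g)⁻¹ * z4 ^ (-k 0) = h * τ i ^ ε * h⁻¹) →
      ∃ (h : B4) (ε k : ℤ), (ε = 1 ∨ ε = -1) ∧ ∀ i, t i = h * (τ i ^ ε * z4 ^ k) * h⁻¹ := by
    rintro ⟨h, hh⟩
    refine ⟨(inc3 g)⁻¹ * h, ε, k 0, hε, fun i => ?_⟩
    have := congrArg (fun a => (inc3 g)⁻¹ * (a * z4 ^ k 0) * inc3 g) (hh i)
    rw [mul_assoc _ h⁻¹, ← cz (k 0) h⁻¹] at this
    simpa [mul_assoc] using this
  rcases hε with rfl | rfl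
  · obtain ⟨h, hh⟩ := core3 R1 (fun i => (r1 i).trans (zpow_one _)) (fun e => hn (by simpa using e))
    exact fin ⟨h, fun i => (hh i).trans (by rw [zpow_one])⟩
  · obtain ⟨h, hh⟩ := core3 R1.inv (fun i => by
      rw [map_inv]
      exact inv_eq_iff_eq_inv.2 ((r1 i).trans (zpow_neg_one _)))
      (fun e => hn (by simpa using e))
    exact fin ⟨h, fun i => (inv_eq_iff_eq_inv.1 (hh i)).trans (by simp [mul_assoc])⟩

end Pool.Agent.P.MP_5aeb4a_al
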