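import Pool.Agent.P.MP_5aeb4a_al.R4
import Pool.Agent.P.MP_5aeb4a_al.P5
import Pool.Agent.P.MP_5aeb4a_al.Main

/-! Lifting rigidity from four strands to five strands. -/

set_option autoImplicit false

namespace Pool.Agent.P.MP_5aeb4a_al

open SemidirectProduct Fr

theorem pm_inl (u : F) : pm (La5 (inl u)) = 1 := by rw [← Lk_π, (Lk_inl u).1]

theorem La5_eq (m : MM) : La5 m = La5 (inl m.left) * inc4 m.right := by
  rw [← La5_inr, ← map_mul, inl_left_mul_inr_right]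

theorem La5_τ (w : F) (i : Fin 3) : La5 (inl w * inr (τ i)) = La5 (inl w) * σ i.castSucc := by
  rw [map_mul, La5_inr, inc4_τ]

theorem La5_y3 : La5 (inl (y 3)) = σ 3 * σ 3 := La5_y 3

structure Nice (g : Fin 5 → B5) : Prop where
  R : Rels edgesD g
  Q : ∀ i, pm (g i) = sp (fold i)
  M : ∀ i : Fin 3, ∃ w, g i.castSucc.castSucc = La5 (inl w * inr (τ i))

def Std (g : Fin 5 → B5) : Prop := ∃ h, ∀ i, g i = h * σ (fold i) * h⁻¹

theorem Nice.conj {g : Fin 5 → B5} (h : Nice g) (c : F) :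
    Nice fun i => La5 (inl c) * g i * (La5 (inl c))⁻¹ :=
  ⟨h.R.map (MulAut.conj (La5 (inl c))).toMonoidHom, fun i => by simp [pm_inl, h.Q], fun i => by
    obtain ⟨w, hw⟩ := h.M i
    refine ⟨(inl c * (inl w * inr (τ i)) * (inl c)⁻¹ : MM).left, ?_⟩
    rw [hw, ← map_inv, ← map_mul, ← map_mul]
    congr 1
    exact SemidirectProduct.ext (by simp) (by simp)⟩

theorem Std.of_conj {g : Fin 5 → B5} {c : B5} (h : Std fun i => c * g i * c⁻¹) : Std g := by
  obtain ⟨k, hk⟩ := h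
  refine ⟨c⁻¹ * k, fun i => ?_⟩
  have := congrArg (fun a => c⁻¹ * a * c) (hk i)
  simpa [mul_assoc] using this

theorem braid_conj {G : Type} [Group G] {a b : G} (h : a * b * a = b * a * b) :
    b = a * b * a * (a * b)⁻¹ := by
  rw [h]
  group

theorem lkstep {a b a' b' : B5} (h : a * b * a = b * a * b) (h' : a' * b' * a' = b' * a' * b')
    (pa : pm a = pm a') (pb : pm b = pm b') (p1 : pm (a' * a') = 1)
    (e : Lk (a * a) = Lk (a' * a')) : Lk (b * b) = Lk (b' * b') := by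
  have k : ∀ a b : B5, a * b * a = b * a * b → b * b = a * b * (a * a) * (a * b)⁻¹ := fun a b h => by
    rw [← conj_mul, ← braid_conj h]
  rw [k a b h, k a' b' h', map_mul, map_mul, map_inv, e, map_mul _ _ (a' * b')⁻¹,
    map_mul _ (a' * b'), map_inv]
  exact conjP (by rw [Lk_π, p1]) (by rw [Lk_π, Lk_π, map_mul, map_mul, pa, pb])

theorem Nice.lk {g : Fin 5 → B5} (h : Nice g) (i : Fin 5) :
    Lk (g i * g i) = Lk (σ (fold i) * σ (fold i)) := by
  have p1 : (Lk (g 0 * g 0)).π = 1 := by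
    rw [Lk_π, map_mul, h.Q]
    decide
  have h0 : Lk (g 0 * g 0) = Lk (σ 0 * σ 0) := by
    obtain ⟨w, hw⟩ := h.M 0
    have e : g 0 * g 0 = La5 (inl (w * act4 (τ 0) w)) * (σ 0 * σ 0) := by
      change g 0 = _ at hw
      rw [hw, ← map_mul, La5_eq]
      simp [inc4_τ]
    have p0 : (Lk (σ 0 * σ 0)).π = 1 := by decide
    have e1 : ∀ i j : Fin 4, (Lk (g 0 * g 0)).μ (i.castSucc, j.castSucc) =
        (Lk (σ 0 * σ 0)).μ (i.castSucc, j.castSucc) := fun i j => by
      rw [e, map_mul, Wr.mul_μ, p0, one_smul, (Lk_inl _).2.2, one_mul]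
    have cm : ∀ k, g 0 * g k = g k * g 0 → ∀ q, (Lk (g 0 * g 0)).μ (sp (fold k) • q) =
        (Lk (g 0 * g 0)).μ q := fun k hk q => by
      have c : Commute (g k) (g 0) := hk.symm
      have := commP p1 ((c.mul_right c).map Lk).eq q
      rwa [Lk_π, h.Q] at this
    have c2 := cm 2 ((h.R 0 2).2 (by decide) (by decide))
    have c3 := cm 3 ((h.R 0 3).2 (by decide) (by decide))
    have key : ∀ q : Fin 5 × Fin 5, ∃ i j : Fin 4, (q = (i.castSucc, j.castSucc) ∨
        sp (fold 3) • q = (i.castSucc, j.castSucc) ∨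
        sp (fold 3) • sp (fold 2) • q = (i.castSucc, j.castSucc)) ∧
        (Lk (σ 0 * σ 0)).μ (i.castSucc, j.castSucc) = (Lk (σ 0 * σ 0)).μ q := by decide +kernel
    refine Wr.ext (p1.trans p0.symm) (funext fun q => ?_)
    obtain ⟨i, j, e2 | e2 | e2, e3⟩ := key q
    · rw [e2, e1]
    · rw [← c3, e2, e1, e3]
    · rw [← c2, ← c3, e2, e1, e3]
  have st : ∀ i j, (i, j) ∈ edgesD → Lk (g i * g i) = Lk (σ (fold i) * σ (fold i)) →
      Lk (g j * g j) = Lk (σ (fold j) * σ (fold j)) := fun i j e =>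
    lkstep ((h.R i j).1 e) ((rels_fold i j).1 e) (by rw [h.Q, pm_σ]) (by rw [h.Q, pm_σ])
      (by rw [map_mul, pm_σ, sp, Equiv.swap_mul_self])
  have h1 := st 0 1 (by decide) h0
  have h2 := st 1 2 (by decide) h1
  fin_cases i
  exacts [h0, h1, h2, st 2 3 (by decide) h2, st 2 4 (by decide) h2]

theorem right_comm {a : B5} {m : MM} (ha : La5 m = a) {w : F} {b : B4}
    (h : a * La5 (inl w * inr b) = La5 (inl w * inr b) * a) : m.right * b = b * m.right := by
  rw [← ha, ← map_mul, ← map_mul] at h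
  simpa using congrArg SemidirectProduct.right (La5_inj h)

theorem Lk_zz (u : F) (a b : ℤ) :
    (Lk (La5 (inl u) * inc4 (z3 ^ a * z4 ^ b))).π = 1 ∧
    (Lk (La5 (inl u) * inc4 (z3 ^ a * z4 ^ b))).μ (0, 1) = Multiplicative.ofAdd (2 * a + 2 * b) ∧
    (Lk (La5 (inl u) * inc4 (z3 ^ a * z4 ^ b))).μ (0, 3) = Multiplicative.ofAdd (2 * b) := by
  have z1 := zpowP Lk_z3.1 a
  have z2 := zpowP Lk_z4.1 b
  have e1 : (Lk (La5 (inl u))).μ (0, 1) = 1 := (Lk_inl u).2.2 0 1
  have e2 : (Lk (La5 (inl u))).μ (0, 3) = 1 := (Lk_inl u).2.2 0 3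
  simp only [map_mul, map_zpow, Wr.mul_π, Wr.mul_μ, z1.1, z1.2, z2.1, z2.2, (Lk_inl u).1, mul_one,
    one_smul, e1, e2, Lk_z3, Lk_z4, one_mul, true_and]
  constructor <;> apply Multiplicative.toAdd.injective <;> simp [mul_comm]

theorem Nice.sqF {g : Fin 5 → B5} (h : Nice g) {i : Fin 5} (hi : fold i = 3) :
    ∃ u, g i * g i = La5 (inl u) ∧ ex 3 u = Multiplicative.ofAdd 1 := by
  have l := h.lk i
  rw [hi] at l
  have p : pm (g i * g i) = 1 := by
    rw [← Lk_π, l]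
    decide
  have hm := La5_surj (g := g i * g i) (by rw [p]; rfl)
  generalize (Ph (g i * g i)).μ 4 = m at hm
  have c : ∀ k : Fin 3, k ≠ 2 → m.right * τ k = τ k * m.right := fun k hk => by
    have ed : ∀ (i : Fin 5) (k : Fin 3), fold i = 3 → k ≠ 2 →
      (i, k.castSucc.castSucc) ∉ edgesD ∧ (k.castSucc.castSucc, i) ∉ edgesD := by decide
    have c1 : Commute (g i) (g k.castSucc.castSucc) :=
      (h.R _ _).2 (ed i k hi hk).1 (ed i k hi hk).2
    obtain ⟨w, hw⟩ := h.M k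
    exact right_comm hm (hw ▸ (c1.mul_left c1).eq)
  obtain ⟨a, b, hab⟩ := cent_B4 (c 0 (by decide)) (c 1 (by decide))
  have z := Lk_zz m.left a b
  rw [← hab, ← La5_eq, hm, l] at z
  have z1 : (0 : ℤ) = 2 * a + 2 * b := congrArg Multiplicative.toAdd z.2.1
  have z2 : (0 : ℤ) = 2 * b := congrArg Multiplicative.toAdd z.2.2
  rw [show a = 0 by omega, show b = 0 by omega, zpow_zero, zpow_zero, one_mul] at hab
  rw [La5_eq, hab, map_one, mul_one] at hm
  refine ⟨m.left, hm.symm, ?_⟩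
  have z3 := (Lk_inl m.left).2.1
  rw [hm, l] at z3
  have z4 : (2 : ℤ) = (ex 3 m.left ^ 2).toAdd := congrArg Multiplicative.toAdd z3
  apply Multiplicative.toAdd.injective
  simp at z4 ⊢
  omega

theorem Nice.fixw {g : Fin 5 → B5} (h : Nice g) (i : Fin 3) {u : F}
    (hu : ex 3 u = Multiplicative.ofAdd 1) (hf : fh i u = u)
    (hc : g i.castSucc.castSucc * La5 (inl u) = La5 (inl u) * g i.castSucc.castSucc) :
    g i.castSucc.castSucc = σ i.castSucc := by
  obtain ⟨w, hw⟩ := h.M i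
  have l := h.lk i.castSucc.castSucc
  rw [fold_cs] at l
  rw [hw, ← map_mul, ← map_mul] at hc
  have c1 := congrArg SemidirectProduct.left (La5_inj hc)
  simp only [mul_left, left_inl, right_inl, left_inr, mul_right, right_inr, map_one, one_mul,
    mul_one, MulAut.one_apply, act4_τ, fa_apply, hf] at c1
  obtain ⟨k, rfl⟩ := comm_prim c1 hu
  have e : g i.castSucc.castSucc * g i.castSucc.castSucc =
      La5 (inl (u ^ k * u ^ k)) * (σ i.castSucc * σ i.castSucc) := by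
    rw [hw, ← map_mul, La5_eq]
    simp [inc4_τ, act4_τ, fa_apply, hf, -map_zpow, map_zpow (fh i)]
  rw [e, map_mul, mul_eq_right] at l
  have z := (Lk_inl (u ^ k * u ^ k)).2.1
  rw [l, map_mul, map_zpow, hu] at z
  have z1 := congrArg Multiplicative.toAdd z
  simp at z1
  rw [hw, show k = 0 by omega, La5_τ]
  simp

theorem last3 {a : B5} (p : pm a = sp 3) (c0 : σ 0 * a = a * σ 0) (c1 : σ 1 * a = a * σ 1)
    (b : σ 2 * a * σ 2 = a * σ 2 * a) (e : a * a = σ 3 * σ 3) : a = σ 3 := by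
  have hm := La5_surj (g := a * (σ 3)⁻¹) (by rw [map_mul, map_inv, p, pm_σ, mul_inv_cancel]; rfl)
  generalize (Ph (a * (σ 3)⁻¹)).μ 4 = m at hm
  have s0 : Commute (σ 3) (σ 0) := (rels_σ 3 0).2 (by decide) (by decide)
  have s1 : Commute (σ 3) (σ 1) := (rels_σ 3 1).2 (by decide) (by decide)
  have k : ∀ a : B5, σ 2 * a * σ 2 = a * σ 2 * a → a⁻¹ * (σ 2 * σ 2) * a = σ 2 * (a * a) * (σ 2)⁻¹ :=
    fun a b => by
      have : a⁻¹ * σ 2 * a = σ 2 * a * (σ 2)⁻¹ := by
        rw [eq_mul_inv_iff_mul_eq, mul_assoc, mul_assoc, ← mul_assoc (σ 2), b]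
        group
      rw [← conj_mul, ← this]
      group
  have c2 : a * (σ 3)⁻¹ * (σ 2 * σ 2) = σ 2 * σ 2 * (a * (σ 3)⁻¹) := by
    have := (k a b).trans (e ▸ (k _ ((rels_σ 2 3).1 (by decide))).symm)
    calc _ = a * ((σ 3)⁻¹ * (σ 2 * σ 2) * σ 3) * (σ 3)⁻¹ := by group
      _ = _ := by rw [← this]; group
  have r0 := right_comm hm (w := 1) (b := τ 0) (by
    rw [La5_τ, map_one, map_one, one_mul]
    exact (Commute.mul_left c0.symm s0.inv_left).eq)
  have r1 := right_comm hm (w := 1) (b := τ 1) (by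
    rw [La5_τ, map_one, map_one, one_mul]
    exact (Commute.mul_left c1.symm s1.inv_left).eq)
  have r2 := right_comm hm (w := 1) (b := τ 2 * τ 2) (by
    rw [map_one, one_mul, La5_inr, map_mul, inc4_τ]
    exact c2)
  obtain ⟨p3, q, hpq⟩ := cent_B4 r0 r1
  have p0 : p3 = 0 := z3_τ2 (by
    have cz := (Commute.zpow_left (z4_comm (τ 2 * τ 2)) q).eq
    rw [hpq, mul_assoc, cz, ← mul_assoc, ← mul_assoc (τ 2 * τ 2)] at r2
    exact mul_right_cancel r2)
  have z := Lk_zz m.left p3 q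
  rw [← hpq, ← La5_eq, hm] at z
  have e2 : a * (σ 3)⁻¹ * σ 3 * (a * (σ 3)⁻¹) * σ 3 = σ 3 * σ 3 := by rw [← e]; group
  have z1 := congrArg (fun t => ((Lk t).μ (0, 1)).toAdd) e2
  simp only [map_mul Lk _ (σ 3), map_mul Lk _ (a * (σ 3)⁻¹), Wr.mul_μ, z.1, Lk_σ, one_smul,
    show (lkg 3).π • ((0, 1) : Fin 5 × Fin 5) = (0, 1) by decide, z.2.1,
    show (lkg 3).μ (0, 1) = 1 by decide] at z1
  simp at z1
  rw [p0, show q = 0 by omega, zpow_zero, zpow_zero, one_mul] at hpq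
  rw [La5_eq, hpq, map_one, mul_one] at hm
  have c3 : Commute (a * (σ 3)⁻¹) (σ 3 * σ 3) :=
    Commute.mul_left (e ▸ (Commute.refl a).mul_right (Commute.refl a))
      ((Commute.refl _).mul_right (Commute.refl _)).inv_left
  rw [← hm, ← La5_y3] at c3
  obtain ⟨j, hj⟩ := comm_prim (u := m.left) (v := y 3) (j := 3)
    (inl_injective (La5_inj (by simpa using c3.eq))) (by decide)
  rw [hj, map_zpow, map_zpow, La5_y3, eq_mul_inv_iff_mul_eq] at hm
  have e3 : La5 (inl (y 3 ^ j * y 3 ^ j)) = La5 (inl 1) := by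
    have cj : Commute (σ 3) ((σ 3 * σ 3) ^ j) :=
      ((Commute.refl _).mul_right (Commute.refl _)).zpow_right j
    rw [← hm, mul_assoc, ← mul_assoc (σ 3), cj.eq, mul_assoc, ← mul_assoc, mul_eq_right] at e
    simpa [La5_y3] using e
  have e4 := congrArg (fun t => (ex 3 t).toAdd) (inl_injective (La5_inj e3))
  have e5 : ex 3 (y 3) = Multiplicative.ofAdd 1 := by decide
  simp [e5] at e4
  rw [← hm, e4]
  simp

theorem Nice.stD {g : Fin 5 → B5} (h : Nice g) (h0 : g 0 = σ 0) (h1 : g 1 = σ 1) (h2 : g 2 = σ 2)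
    (h3 : g 3 * g 3 = σ 3 * σ 3) : Std g := by
  have k : ∀ i, fold i = 3 → g i * g i = σ 3 * σ 3 → g i = σ 3 := fun i hi =>
    last3 (hi ▸ h.Q i) (h0 ▸ (h.R 0 i).2 (by revert i; decide) (by revert i; decide))
      (h1 ▸ (h.R 1 i).2 (by revert i; decide) (by revert i; decide))
      (h2 ▸ (h.R 2 i).1 (by revert i; decide))
  have e3 := k 3 rfl h3
  obtain ⟨u, hu, hu'⟩ := h.sqF (i := 4) rfl
  have c : Commute (g 4) (g 3) := (h.R 4 3).2 (by decide) (by decide)
  have c2 := (c.mul_left c).mul_right (c.mul_left c)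
  rw [hu, h3, ← La5_y3] at c2
  have e5 : ex 3 (y 3) = Multiplicative.ofAdd 1 := by decide
  obtain ⟨j, rfl⟩ := comm_prim (u := u) (v := y 3) (j := 3)
    (inl_injective (La5_inj (by simpa using c2.eq))) e5
  have e4 := congrArg Multiplicative.toAdd hu'
  simp [e5] at e4
  rw [e4, zpow_one, La5_y3] at hu
  refine ⟨1, fun i => ?_⟩
  rw [one_mul, inv_one, mul_one]
  fin_cases i
  exacts [h0, h1, h2, e3, k 4 rfl hu]

theorem b2_gen {G : Type} [Group G] {a b : G} (h : a * b * a = b * a * b) :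
    a * (b * b) * a * (b * b) = b * b * (a * (b * b) * a) := by
  calc _ = a * b * (b * a * b) * b := by simp only [mul_assoc]
    _ = a * b * (a * b * a) * b := by rw [h]
    _ = a * b * a * (b * a * b) := by simp only [mul_assoc]
    _ = b * a * b * (a * b * a) := by rw [h]
    _ = b * (a * b * a) * b * a := by simp only [mul_assoc]
    _ = _ := by rw [h]; simp only [mul_assoc]

theorem Nice.stC {g : Fin 5 → B5} (h : Nice g) (h3 : g 3 * g 3 = σ 3 * σ 3) : Std g := by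
  have e5 : ex 3 (y 3) = Multiplicative.ofAdd 1 := by decide
  have k : ∀ i : Fin 3, i ≠ 2 → g i.castSucc.castSucc = σ i.castSucc := fun i hi => by
    have f : fh i (y 3) = y 3 := by revert i; decide
    have c : Commute (g i.castSucc.castSucc) (g 3) :=
      (h.R _ _).2 (by clear f; revert i; decide) (by clear f; revert i; decide)
    exact h.fixw i e5 f (by rw [La5_y3, ← h3]; exact (c.mul_right c).eq)
  have h0 : g 0 = σ 0 := k 0 (by decide)
  have h1 : g 1 = σ 1 := k 1 (by decide)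
  obtain ⟨w, hw⟩ : ∃ w, g 2 = La5 (inl w * inr (τ 2)) := h.M 2
  have b := b2_gen ((h.R 2 3).1 (by decide))
  have e1 : (inl w * inr (τ 2) * inl (y 3) * (inl w * inr (τ 2)) : MM) =
      inl (w * (y 2 * fh 2 w * (y 2)⁻¹)) * (inr (τ 2) * inl (y 3) * inr (τ 2)) := by
    have t : fh 2 (y 3) = y 2 := by decide
    exact SemidirectProduct.ext (by simp [act4_τ, fa_apply, t, mul_assoc]) (by simp)
  have e2 : g 2 * (g 3 * g 3) * g 2 =
      La5 (inl (w * (y 2 * fh 2 w * (y 2)⁻¹))) * (σ 2 * (σ 3 * σ 3) * σ 2) := by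
    rw [hw, h3, ← La5_y3, ← map_mul, ← map_mul, e1, map_mul La5, map_mul La5 _ (inr _),
      map_mul La5 (inr _), La5_inr, inc4_τ]
    rfl
  have b' := b2_gen ((rels_σ 2 3).1 (by decide))
  rw [e2, h3, mul_assoc, b', ← mul_assoc, ← mul_assoc (σ 3 * σ 3), ← La5_y3] at b
  obtain ⟨j, hj⟩ := comm_prim (u := w * (y 2 * fh 2 w * (y 2)⁻¹)) (v := y 3) (j := 3)
    (inl_injective (La5_inj (by simpa only [map_mul] using mul_right_cancel b))) e5
  have l : Lk (g 2 * (g 3 * g 3) * g 2) = Lk (σ 2 * (σ 3 * σ 3) * σ 2) := by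
    have k : ∀ a b : B5, a * b * a = a * b * a⁻¹ * (a * a) := fun a b => by group
    rw [k, k (σ 2), map_mul, h.lk 2, h3, map_mul _ _ (σ 2 * σ 2)]
    congr 1
    simp only [map_mul Lk _ (_)⁻¹, map_mul Lk _ (σ 3 * σ 3), map_inv]
    exact conjP (by decide) (by rw [Lk_π, Lk_π, h.Q, pm_σ]; rfl)
  rw [e2, map_mul, mul_eq_right, hj] at l
  have z := (Lk_inl (y 3 ^ j)).2.1
  rw [l, map_zpow, e5] at z
  have z1 := congrArg Multiplicative.toAdd z
  simp at z1
  rw [z1, zpow_zero] at hj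
  have b1 := (h.R 1 2).1 (by decide)
  rw [h1, hw, show σ 1 = La5 (inr (τ 1)) by rw [La5_inr, inc4_τ]; rfl] at b1
  simp only [← map_mul] at b1
  obtain ⟨a, ha⟩ := solve hj (by
    simpa [act4_τ, fa_apply] using congrArg SemidirectProduct.left (La5_inj b1))
  have cs : ∀ t, Commute (σ 3) t → La5 (inl (y 3 ^ (-a))) * t * (La5 (inl (y 3 ^ (-a))))⁻¹ = t :=
    fun t ht => by
      rw [map_zpow, map_zpow, La5_y3, ((ht.mul_left ht).zpow_left _).eq, mul_inv_cancel_right]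
  refine Std.of_conj ((h.conj (y 3 ^ (-a))).stD ?_ ?_ ?_ ?_)
  · rw [h0]
    exact cs _ ((rels_σ 3 0).2 (by decide) (by decide))
  · rw [h1]
    exact cs _ ((rels_σ 3 1).2 (by decide) (by decide))
  · have t : fh 2 (y 3) = y 2 := by decide
    rw [hw, ha, ← map_inv, ← map_mul, ← map_mul, show σ 2 = La5 (inr (τ 2)) by
      rw [La5_inr, inc4_τ]; rfl]
    congr 1
    refine SemidirectProduct.ext ?_ (by simp [-map_zpow])
    simp [act4_τ, fa_apply, -map_zpow, map_zpow (fh 2), t]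
  · rw [conj_mul, h3]
    exact cs _ ((Commute.refl _).mul_right (Commute.refl _))

theorem Nice.stB {g : Fin 5 → B5} (h : Nice g) (h0 : g 0 = σ 0) : Std g := by
  obtain ⟨u, hu, hu'⟩ := h.sqF (i := 3) rfl
  have k : ∀ t : Fin 5 → B5, Rels edgesD t → t 3 = t 2 * t 3 * (t 1 * t 2) * (t 0 * t 1) * t 0 *
      (t 2 * t 3 * (t 1 * t 2) * (t 0 * t 1))⁻¹ := fun t R => by
    have e1 := braid_conj ((R 0 1).1 (by decide))
    have e2 := braid_conj ((R 1 2).1 (by decide))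
    have e3 := braid_conj ((R 2 3).1 (by decide))
    calc t 3 = _ := e3
      _ = t 2 * t 3 * (t 1 * t 2 * t 1 * (t 1 * t 2)⁻¹) * (t 2 * t 3)⁻¹ := by rw [← e2]
      _ = t 2 * t 3 * (t 1 * t 2 * (t 0 * t 1 * t 0 * (t 0 * t 1)⁻¹) * (t 1 * t 2)⁻¹) *
          (t 2 * t 3)⁻¹ := by rw [← e1]
      _ = _ := by group
  have k1 := k g h.R
  have k2 := k _ rels_fold
  set W := g 2 * g 3 * (g 1 * g 2) * (g 0 * g 1) with hW
  set V := σ (fold 2) * σ (fold 3) * (σ (fold 1) * σ (fold 2)) * (σ (fold 0) * σ (fold 1)) with hV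
  have hm := La5_surj (g := W * V⁻¹) (by
    have : pm W = pm V := by simp only [hW, hV, map_mul, h.Q, pm_σ]
    rw [map_mul, map_inv, this, mul_inv_cancel]
    rfl)
  generalize (Ph (W * V⁻¹)).μ 4 = m at hm
  have e1 : g 3 = W * V⁻¹ * σ 3 * (W * V⁻¹)⁻¹ := by
    change σ 3 = V * σ 0 * V⁻¹ at k2
    rw [k2, ← h0]
    nth_rewrite 1 [k1]
    group
  have e2 : (inl u : MM) = m * inl (y 3) * m⁻¹ := La5_inj (by
    rw [← hu, map_mul, map_mul, map_inv, hm, La5_y3, ← conj_mul, ← e1])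
  have e3 : u = m.left * act4 m.right (y 3) * m.left⁻¹ := by
    simpa using congrArg SemidirectProduct.left e2
  obtain ⟨j, hj⟩ := act_conj m.right 3
  have c : IsConj u (y j) := (isConj_iff.2 ⟨_, e3.symm⟩).symm.trans hj
  have j3 : j = 3 := by
    have := isConj_iff_eq.1 ((ex 3).map_isConj c)
    rw [hu'] at this
    revert j
    have : ∀ j, Multiplicative.ofAdd 1 = ex 3 (y j) → j = 3 := by decide
    exact fun j _ _ h => this j h
  subst j3
  obtain ⟨d, hd⟩ := isConj_iff.1 c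
  refine Std.of_conj ((h.conj d).stC ?_)
  rw [conj_mul, hu, ← La5_y3, ← hd]
  simp

theorem Nice.std {g : Fin 5 → B5} (h : Nice g) : Std g := by
  obtain ⟨u, hu, hu'⟩ := h.sqF (i := 3) rfl
  obtain ⟨w, hw⟩ : ∃ w, g 0 = La5 (inl w * inr (τ 0)) := h.M 0
  have c : Commute (g 0) (g 3) := (h.R 0 3).2 (by decide) (by decide)
  have c1 := (c.mul_right c).eq
  rw [hu, hw, ← map_mul, ← map_mul] at c1
  have c2 : w * fh 0 u = u * w := by
    simpa [act4_τ, fa_apply] using congrArg SemidirectProduct.left (La5_inj c1)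
  obtain ⟨d, hd⟩ := inv_fix (isConj_iff.2 ⟨w, mul_inv_eq_iff_eq_mul.2 c2⟩) hu'
  refine Std.of_conj ((h.conj d).stB ((h.conj d).fixw 0 (u := d * u * d⁻¹) (by simp [hu']) hd ?_))
  have := (c.mul_right c).conj (La5 (inl d))
  rw [hu] at this
  simpa using this.eq

end Pool.Agent.P.MP_5aeb4a_al
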