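import Pool.Agent.P.MP_5aeb4a_al.FC

/-! The braid group on three strands and integral affine maps of the plane. -/

set_option autoImplicit false

namespace Pool.Agent.P.MP_5aeb4a_al

/-- The map `(x, y) ↦ (a x + b y + e, c x + d y + f)` of determinant one. -/
@[ext]
structure Af (R : Type) [CommRing R] where
  a : R
  b : R
  c : R
  d : R
  e : R
  f : R
  det : a * d - b * c = 1

namespace Af

variable {R : Type} [CommRing R]

instance : Mul (Af R) := ⟨fun u v => ⟨u.a * v.a + u.b * v.c, u.a * v.b + u.b * v.d,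
  u.c * v.a + u.d * v.c, u.c * v.b + u.d * v.d, u.a * v.e + u.b * v.f + u.e,
  u.c * v.e + u.d * v.f + u.f, by linear_combination (v.a * v.d - v.b * v.c) * u.det + v.det⟩⟩

instance : One (Af R) := ⟨⟨1, 0, 0, 1, 0, 0, by ring⟩⟩

instance : Inv (Af R) := ⟨fun u => ⟨u.d, -u.b, -u.c, u.a, u.b * u.f - u.d * u.e,
  u.c * u.e - u.a * u.f, by linear_combination u.det⟩⟩

@[simp] theorem mul_a (u v : Af R) : (u * v).a = u.a * v.a + u.b * v.c := rfl
@[simp] theorem mul_b (u v : Af R) : (u * v).b = u.a * v.b + u.b * v.d := rfl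
@[simp] theorem mul_c (u v : Af R) : (u * v).c = u.c * v.a + u.d * v.c := rfl
@[simp] theorem mul_d (u v : Af R) : (u * v).d = u.c * v.b + u.d * v.d := rfl
@[simp] theorem mul_e (u v : Af R) : (u * v).e = u.a * v.e + u.b * v.f + u.e := rfl
@[simp] theorem mul_f (u v : Af R) : (u * v).f = u.c * v.e + u.d * v.f + u.f := rfl
@[simp] theorem one_a : (1 : Af R).a = 1 := rfl
@[simp] theorem one_b : (1 : Af R).b = 0 := rfl
@[simp] theorem one_c : (1 : Af R).c = 0 := rfl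
@[simp] theorem one_d : (1 : Af R).d = 1 := rfl
@[simp] theorem one_e : (1 : Af R).e = 0 := rfl
@[simp] theorem one_f : (1 : Af R).f = 0 := rfl
@[simp] theorem inv_a (u : Af R) : u⁻¹.a = u.d := rfl
@[simp] theorem inv_b (u : Af R) : u⁻¹.b = -u.b := rfl
@[simp] theorem inv_c (u : Af R) : u⁻¹.c = -u.c := rfl
@[simp] theorem inv_d (u : Af R) : u⁻¹.d = u.a := rfl
@[simp] theorem inv_e (u : Af R) : u⁻¹.e = u.b * u.f - u.d * u.e := rfl
@[simp] theorem inv_f (u : Af R) : u⁻¹.f = u.c * u.e - u.a * u.f := rfl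

instance : Group (Af R) :=
  Group.ofLeftAxioms (fun u v w => by ext <;> simp <;> ring) (fun u => by ext <;> simp)
    (fun u => by
      ext <;> simp only [mul_a, mul_b, mul_c, mul_d, mul_e, mul_f, inv_a, inv_b, inv_c, inv_d, inv_e,
        inv_f, one_a, one_b, one_c, one_d, one_e, one_f] <;>
      first | ring1 | linear_combination u.det)

instance [DecidableEq R] : DecidableEq (Af R) := fun u v =>
  decidable_of_iff (u.a = v.a ∧ u.b = v.b ∧ u.c = v.c ∧ u.d = v.d ∧ u.e = v.e ∧ u.f = v.f)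
    Af.ext_iff.symm

/-- The linear part. -/
def lin : Af R →* Af R :=
  MonoidHom.mk' (fun u => ⟨u.a, u.b, u.c, u.d, 0, 0, u.det⟩) fun u v => by ext <;> simp

/-- Reduction modulo two. -/
def red : Af ℤ →* Af (ZMod 2) :=
  MonoidHom.mk' (fun u => ⟨u.a, u.b, u.c, u.d, u.e, u.f, by exact_mod_cast congrArg (Int.cast : ℤ → ZMod 2) u.det⟩)
    fun u v => by ext <;> simp

theorem braid_tr {u v : Af ℤ} (h : u * v * u = v * u * v) : u.a + u.d = v.a + v.d := by
  have e : u = (v * u) * v * (v * u)⁻¹ := by rw [← h]; group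
  have k : ∀ g w : Af ℤ, (g * w * g⁻¹).a + (g * w * g⁻¹).d = w.a + w.d := fun g w => by
    simp only [mul_a, mul_b, mul_c, mul_d, inv_a, inv_b, inv_c, inv_d]
    linear_combination (w.a + w.d) * g.det
  rw [← k (v * u) v, ← e]

theorem braid_tr2 {u v : Af ℤ} (h : u * v * u = v * u * v) (hn : lin u ≠ lin v) :
    (u * v).a + (u * v).d = 1 := by
  have t := braid_tr h
  by_contra hs
  have hs' : (u * v).a + (u * v).d - 1 ≠ 0 := fun e => hs (by linear_combination e)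
  have ha := congrArg Af.a h
  have hb := congrArg Af.b h
  have hc := congrArg Af.c h
  simp only [mul_a, mul_b, mul_c, mul_d] at ha hb hc hs'
  have du := u.det
  have dv := v.det
  have ea : u.a = v.a := sub_eq_zero.1 ((mul_eq_zero_iff_left hs').1 (by
    linear_combination ha + v.d * du - u.d * dv - t))
  have eb : u.b = v.b := sub_eq_zero.1 ((mul_eq_zero_iff_left hs').1 (by
    linear_combination hb - v.b * du + u.b * dv))
  have ec : u.c = v.c := sub_eq_zero.1 ((mul_eq_zero_iff_left hs').1 (by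
    linear_combination hc - v.c * du + u.c * dv))
  exact hn (Af.ext ea eb ec (by change u.d = v.d; linear_combination t - ea) rfl rfl)

theorem comm_braid {u v w : Af ℤ} (h1 : u * v * u = v * u * v) (h2 : v * w * v = w * v * w)
    (h3 : u * w = w * u) (n1 : lin u ≠ lin v) (n2 : lin v ≠ lin w) : lin u = lin w := by
  have t1 := braid_tr h1
  have t2 := braid_tr h2
  have s1 := braid_tr2 h1 n1
  have s2 := braid_tr2 h2 n2
  have ha := congrArg Af.a h3
  have hb := congrArg Af.b h3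
  have hc := congrArg Af.c h3
  simp only [mul_a, mul_b, mul_c, mul_d] at ha hb hc s1 s2
  have hs : 2 - (v.a + v.d) ^ 2 ≠ 0 := fun e => by
    have k : ∀ t : ℤ, 2 - t ^ 2 ≠ 0 := fun t e => by
      have : t ≤ -2 ∨ t = -1 ∨ t = 0 ∨ t = 1 ∨ 2 ≤ t := by omega
      rcases this with h | h | h | h | h <;> nlinarith
    exact k _ e
  have hd : u.d = v.a + v.d - u.a := by linear_combination t1
  have hd' : w.d = v.a + v.d - w.a := by linear_combination -t2
  rw [hd, hd'] at hb hc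
  rw [hd] at s1
  rw [hd'] at s2
  have ea : u.a = w.a := sub_eq_zero.1 ((mul_eq_zero_iff_left hs).1 (by
    linear_combination (-2 * (u.a - w.a) + (2 * u.a - v.a - v.d)) * s1 - (2 * u.a - v.a - v.d) * s2
      + v.c * hb - v.b * hc))
  have eb : u.b = w.b := sub_eq_zero.1 ((mul_eq_zero_iff_left hs).1 (by
    linear_combination (-2 * (u.b - w.b) + 2 * u.b) * s1 - 2 * u.b * s2
      - (v.a - v.d) * hb + 2 * v.b * ha))
  have ec : u.c = w.c := sub_eq_zero.1 ((mul_eq_zero_iff_left hs).1 (by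
    linear_combination (-2 * (u.c - w.c) + 2 * u.c) * s1 - 2 * u.c * s2
      + (v.a - v.d) * hc - 2 * v.c * ha))
  exact Af.ext ea eb ec (by change u.d = w.d; rw [hd, hd', ea]) rfl rfl

end Af

def edges3 : List (Fin 2 × Fin 2) := [(0, 1)]

/-- The braid group on three strands. -/
abbrev B3 : Type := Artin edges3

def υ (i : Fin 2) : B3 := PresentedGroup.of i

theorem rels_υ : Rels edges3 υ := rels_of _

theorem uext {G : Type} [Group G] {f g : B3 →* G} (h : ∀ i, f (υ i) = g (υ i)) : f = g :=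
  PresentedGroup.ext h

theorem br3 : υ 0 * υ 1 * υ 0 = υ 1 * υ 0 * υ 1 := (rels_υ 0 1).1 (by decide)

def mT : Af ℤ := ⟨1, 1, 0, 1, 0, 0, by decide⟩

def mU : Af ℤ := ⟨1, 0, -1, 1, 0, 0, by decide⟩

theorem rels_TU : Rels edges3 ![mT, mU] := fun i j =>
  ⟨fun e => by revert i j; decide, fun e e' => by revert i j; decide⟩

def ρ : B3 →* Af ℤ := rels_TU.lift

theorem ρ_υ0 : ρ (υ 0) = mT := rels_TU.lift_of 0

theorem ρ_υ1 : ρ (υ 1) = mU := rels_TU.lift_of 1

def D3 : B3 := υ 0 * υ 1 * υ 0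

theorem υ0_D3 : υ 0 * D3 = D3 * υ 1 := by
  conv_lhs => rw [D3, br3]
  simp only [D3, mul_assoc]

theorem υ1_D3 : υ 1 * D3 = D3 * υ 0 := by
  conv_rhs => rw [D3, br3]
  simp only [D3, mul_assoc]

theorem υ_D3_zpow (k : ℤ) : ∀ i, ∃ j, υ i * D3 ^ k = D3 ^ k * υ j := by
  have h1 : ∀ i, ∃ j, υ i * D3 = D3 * υ j := fun i => by
    fin_cases i
    exacts [⟨1, υ0_D3⟩, ⟨0, υ1_D3⟩]
  have h2 : ∀ i, ∃ j, υ i * D3⁻¹ = D3⁻¹ * υ j := fun i => by
    simp only [eq_inv_mul_iff_mul_eq, ← mul_assoc, mul_inv_eq_iff_eq_mul]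
    fin_cases i
    exacts [⟨1, υ1_D3.symm⟩, ⟨0, υ0_D3.symm⟩]
  induction k with
  | zero => exact fun i => ⟨i, by simp⟩
  | succ n ih =>
    intro i
    obtain ⟨j, hj⟩ := ih i
    obtain ⟨l, hl⟩ := h1 j
    exact ⟨l, by rw [zpow_add_one, ← mul_assoc, hj, mul_assoc, hl, mul_assoc]⟩
  | pred n ih =>
    intro i
    obtain ⟨j, hj⟩ := ih i
    obtain ⟨l, hl⟩ := h2 j
    exact ⟨l, by rw [zpow_sub_one, ← mul_assoc, hj, mul_assoc, hl, mul_assoc]⟩

def pw (m : List Bool) : B3 := (m.map fun t => if t then υ 0 else (υ 1)⁻¹).prod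

theorem nf3 (g : B3) : ∃ (k l : ℤ) (m : List Bool), g = D3 ^ k * (pw m * D3 ^ l) := by
  have hg : g ∈ Subgroup.closure (Set.range (PresentedGroup.of : Fin 2 → B3)) := by
    rw [PresentedGroup.closure_range_of]
    trivial
  have p0 : ∀ m, pw (true :: m) = υ 0 * pw m := fun m => by simp [pw]
  have p1 : ∀ m, pw (false :: m) = (υ 1)⁻¹ * pw m := fun m => by simp [pw]
  have e1 : υ 1 = D3 * υ 0 * D3⁻¹ := by rw [← υ1_D3, mul_inv_cancel_right]
  have e2 : υ 1 * υ 0 = D3 * (υ 1)⁻¹ := by rw [D3, br3, mul_inv_cancel_right]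
  have e3 : (υ 0)⁻¹ = D3 * (υ 1)⁻¹ * D3⁻¹ := by
    have : υ 0 = D3 * υ 1 * D3⁻¹ := by rw [← υ0_D3, mul_inv_cancel_right]
    rw [this]
    group
  have e4 : (υ 0)⁻¹ * (υ 1)⁻¹ = D3⁻¹ * υ 0 := by rw [D3]; group
  induction hg using Subgroup.closure_induction_left with
  | one => exact ⟨0, 0, [], by simp [pw]⟩
  | mul_left a ha g _ ih =>
    obtain ⟨i, rfl⟩ := ha
    obtain ⟨k, l, m, rfl⟩ := ih
    obtain ⟨j, hj⟩ := υ_D3_zpow k i
    change ∃ k' l' m', υ i * _ = _
    rw [← mul_assoc, hj, mul_assoc]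
    fin_cases j
    · exact ⟨k, l, true :: m, by simp [p0, mul_assoc]⟩
    · rcases m with _ | ⟨_ | _, m⟩
      · refine ⟨k + 1, -1 + l, [true], ?_⟩
        rw [zpow_add, zpow_add, p0]
        conv_lhs => simp only [Fin.mk_one, e1]
        simp [pw, mul_assoc]
      · exact ⟨k, l, m, by simp [p1, mul_assoc]⟩
      · refine ⟨k + 1, l, false :: m, ?_⟩
        simp only [Fin.mk_one, p0, p1, zpow_add_one, mul_assoc]
        rw [← mul_assoc (υ 1), e2, mul_assoc]
  | inv_mul_cancel a ha g _ ih =>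
    obtain ⟨i, rfl⟩ := ha
    obtain ⟨k, l, m, rfl⟩ := ih
    obtain ⟨j, hj⟩ := υ_D3_zpow k i
    have hj' : (υ i)⁻¹ * D3 ^ k = D3 ^ k * (υ j)⁻¹ := by
      rw [inv_mul_eq_iff_eq_mul, ← mul_assoc, hj, mul_inv_cancel_right]
    change ∃ k' l' m', (υ i)⁻¹ * _ = _
    rw [← mul_assoc, hj', mul_assoc]
    fin_cases j
    · rcases m with _ | ⟨_ | _, m⟩
      · refine ⟨k + 1, -1 + l, [false], ?_⟩
        rw [zpow_add, zpow_add, p1]
        conv_lhs => simp only [Fin.zero_eta, e3]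
        simp [pw, mul_assoc]
      · refine ⟨k - 1, l, true :: m, ?_⟩
        simp only [Fin.zero_eta, p0, p1, zpow_sub_one, mul_assoc]
        rw [← mul_assoc (υ 0)⁻¹, e4, mul_assoc]
      · exact ⟨k, l, m, by simp [p0, mul_assoc]⟩
    · exact ⟨k, l, false :: m, by simp [p1, mul_assoc]⟩

theorem pw_pos (m : List Bool) : 1 ≤ (ρ (pw m)).a ∧ 1 ≤ (ρ (pw m)).d ∧ 0 ≤ (ρ (pw m)).b ∧
    0 ≤ (ρ (pw m)).c ∧ (m ≠ [] → 1 ≤ (ρ (pw m)).b + (ρ (pw m)).c) := by
  induction m with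
  | nil => simp [pw]
  | cons t m ih =>
    cases t
    · have : pw (false :: m) = (υ 1)⁻¹ * pw m := by simp [pw]
      simp [this, ρ_υ1, mU]
      omega
    · have : pw (true :: m) = υ 0 * pw m := by simp [pw]
      simp [this, ρ_υ0, mT]
      omega

theorem ker_ρ {g : B3} (h : ρ g = 1) : ∃ n : ℤ, g = (D3 ^ 4) ^ n := by
  obtain ⟨k, l, m, rfl⟩ := nf3 g
  have h1 : ρ (pw m) = ρ D3 ^ (-(k + l)) := by
    simp only [map_mul, map_zpow] at h
    calc _ = (ρ D3 ^ k)⁻¹ * (ρ D3 ^ k * (ρ (pw m) * ρ D3 ^ l)) * (ρ D3 ^ l)⁻¹ := by group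
      _ = _ := by rw [h]; group
  have h4 : ρ D3 ^ (4 : ℤ) = 1 := by decide
  have hp := pw_pos m
  rw [h1, zpow_eq_zpow_emod _ h4] at hp
  have h5 : (-(k + l)) % 4 = 0 := by
    have : (-(k + l)) % 4 = 0 ∨ (-(k + l)) % 4 = 1 ∨ (-(k + l)) % 4 = 2 ∨ (-(k + l)) % 4 = 3 := by
      omega
    rcases this with e | e | e | e
    · exact e
    all_goals
      rw [e] at hp
      exact absurd hp.1 (by decide)
  rw [h5] at hp
  have h6 : m = [] := by
    by_contra e
    simpa using hp.2.2.2.2 e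
  refine ⟨(k + l) / 4, ?_⟩
  rw [h6, ← zpow_natCast, ← zpow_mul]
  simp only [pw, List.map_nil, List.prod_nil, one_mul, ← zpow_add]
  congr 1
  omega

theorem D3_sq_comm (g : B3) : D3 ^ 2 * g = g * D3 ^ 2 := by
  induction g using art_ind with
  | h1 => simp
  | hm a b ha hb => rw [← mul_assoc, ha, mul_assoc, hb, mul_assoc]
  | hi a ha => exact (Commute.inv_right ha).eq
  | hg i =>
    change D3 ^ 2 * υ i = υ i * D3 ^ 2
    fin_cases i
    · simp only [Fin.zero_eta, pow_two]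
      rw [mul_assoc, ← υ1_D3, ← mul_assoc, ← υ0_D3, mul_assoc]
    · simp only [Fin.mk_one, pow_two]
      rw [mul_assoc, ← υ0_D3, ← mul_assoc, ← υ1_D3, mul_assoc]

theorem lin_ρ (g : B3) : Af.lin (ρ g) = ρ g :=
  DFunLike.congr_fun (uext (f := Af.lin.comp ρ) (g := ρ) (by decide)) g

theorem cent_B3 {g : B3} (h0 : g * υ 0 = υ 0 * g) (h1 : g * υ 1 = υ 1 * g) :
    ∃ n : ℤ, g = (D3 ^ 2) ^ n := by
  have a0 := congrArg ρ h0
  have a1 := congrArg ρ h1
  simp only [map_mul, ρ_υ0, ρ_υ1, Af.ext_iff, mT, mU, Af.mul_a, Af.mul_b, Af.mul_c,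
    Af.mul_d] at a0 a1
  have hd := (ρ g).det
  have he := congrArg Af.e (lin_ρ g)
  have hf := congrArg Af.f (lin_ρ g)
  have hc : (ρ g).c = 0 := by linear_combination -a0.1
  have hb : (ρ g).b = 0 := by linear_combination -a1.1
  have ha : (ρ g).a = (ρ g).d := by linear_combination a0.2.1
  rw [hc, ha, mul_zero, sub_zero] at hd
  rcases Int.eq_one_or_neg_one_of_mul_eq_one hd with e | e
  · obtain ⟨n, hn⟩ := ker_ρ (g := g) (Af.ext (ha.trans e) hb hc e he.symm hf.symm)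
    exact ⟨2 * n, by rw [hn, zpow_mul, zpow_two, ← pow_add]⟩
  · have e2 : ρ g = ρ (D3 ^ 2) := Af.ext (ha.trans e) hb hc e he.symm hf.symm
    obtain ⟨n, hn⟩ := ker_ρ (g := g * (D3 ^ 2)⁻¹) (by rw [map_mul, map_inv, e2, mul_inv_cancel])
    exact ⟨2 * n + 1, by
      rw [zpow_add_one, zpow_mul, zpow_two, ← pow_add, ← hn, inv_mul_cancel_right]⟩

theorem mT_zpow (m : ℤ) : mT ^ m = ⟨1, m, 0, 1, 0, 0, by ring⟩ := by
  induction m with
  | zero => rfl
  | succ n ih => rw [zpow_add_one, ih]; ext <;> simp [mT, add_comm]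
  | pred n ih => rw [zpow_sub_one, ih]; ext <;> simp [mT]; ring

theorem euclid (p q : ℤ) : ∃ g : B3, (ρ g).c * p + (ρ g).d * q = 0 := by
  induction h : q.natAbs using Nat.strong_induction_on generalizing p q with
  | _ n ih =>
    by_cases hq : q = 0
    · exact ⟨1, by simp [hq]⟩
    obtain ⟨g, hg⟩ := ih (-(p % q)).natAbs (by
      have := Int.emod_nonneg p hq
      have := Int.emod_lt_abs p hq
      rw [Int.abs_eq_natAbs] at this
      omega) q (-(p % q)) rfl
    refine ⟨g * D3 * υ 0 ^ (-(p / q)), ?_⟩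
    have e : ρ D3 = ⟨0, 1, -1, 0, 0, 0, by decide⟩ := by decide
    simp only [map_mul, map_zpow, ρ_υ0, mT_zpow, e, Af.mul_c, Af.mul_d]
    rw [Int.emod_def] at hg
    linear_combination hg

theorem rels_one {n : ℕ} (E : List (Fin n × Fin n)) :
    Rels E fun _ => Multiplicative.ofAdd (1 : ℤ) := fun _ _ => ⟨fun _ => rfl, fun _ _ => rfl⟩

def ex3 : B3 →* Multiplicative ℤ := (rels_one edges3).lift

end Pool.Agent.P.MP_5aeb4a_al
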