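import Pool.Agent.P.MP_5aeb4a_al.K3
import Pool.Agent.P.MP_5aeb4a_al.T3
import Pool.Agent.P.MP_5aeb4a_al.Cb

/-! The braid group on four strands inside a semidirect product over three strands. -/

set_option autoImplicit false

namespace Pool.Agent.P.MP_5aeb4a_al

open SemidirectProduct

theorem rels_al3 : Rels edges3 ![al 3, al 2] := fun i j =>
  ⟨fun e => al_ext (by revert i j; decide), fun e e' => al_ext (by revert i j; decide)⟩

def act3 : B3 →* MulAut K := rels_al3.lift

theorem act3_0 : act3 (υ 0) = al 3 := rels_al3.lift_of 0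

theorem act3_1 : act3 (υ 1) = al 2 := rels_al3.lift_of 1

abbrev G3 : Type := K ⋊[act3] B3

theorem equiv_gen3 {H : Type} [Group H] (fN : K →* H) (fG : B3 →* H)
    (h : ∀ i j, fN (act3 (υ i) (x j)) = fG (υ i) * fN (x j) * (fG (υ i))⁻¹) (g : B3) :
    fN.comp (act3 g).toMonoidHom = (MulAut.conj (fG g)).toMonoidHom.comp fN :=
  MonoidHom.ext (by
    change ∀ u, fN (act3 g u) = fG g * fN u * (fG g)⁻¹
    induction g using art_ind with
    | h1 => simp
    | hm a b ha hb =>
      intro u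
      rw [map_mul, MulAut.mul_apply, ha, hb]
      simp [mul_assoc]
    | hi a ha =>
      intro u
      have := ha (act3 a⁻¹ u)
      rw [map_inv, MulAut.apply_inv_self] at this
      rw [this]
      simp [mul_assoc]
    | hg i =>
      exact fun u => DFunLike.congr_fun (khom_ext (f := fN.comp (act3 (υ i)).toMonoidHom)
        (g := (MulAut.conj (fG (υ i))).toMonoidHom.comp fN) (h i)) u)

def par3 : G3 →* ℤˣ := lift sg 1 (equiv_gen3 sg 1 (by decide))

theorem par3_inl (u : K) : par3 (inl u) = sg u := lift_inl _ _ _ _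

theorem par3_inr (b : B3) : par3 (inr b) = 1 := lift_inr _ _ _ _

def kap : K →* K := klift (fun j => if 2 ≤ j then x j else 1) (by decide)

theorem in_kap (u : K) : In b3 2 (kap u) := by
  induction u using K.ind with
  | h1 => simpa using in_one
  | hx i u ih =>
    rw [map_mul]
    refine In.mul ?_ ih
    revert i
    unfold In
    decide

theorem kap_kap (u : K) : kap (kap u) = kap u :=
  DFunLike.congr_fun (khom_ext (f := kap.comp kap) (g := kap) (by decide)) u

def kh : G3 →* G3 := lift (inl.comp kap) inr (equiv_gen3 _ _ fun i j => by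
  rw [MonoidHom.comp_apply, MonoidHom.comp_apply, ← map_inv, ← inl_aut]
  congr 1
  revert i j
  decide)

theorem kh_inl (u : K) : kh (inl u) = inl (kap u) := lift_inl _ _ _ _

theorem kh_inr (b : B3) : kh (inr b) = inr b := lift_inr _ _ _ _

def th3 : Fin 3 → G3 := ![inr (υ 0), inr (υ 1), inl (x 4 * x 3) * inr (υ 0)]

def f3 : Fin 3 → Fin 2 := ![0, 1, 0]

theorem th3_right (i : Fin 3) : (th3 i).right = υ (f3 i) := by fin_cases i <;> simp [th3, f3]

theorem rels_th3 : Rels edges4 th3 := by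
  intro i j
  refine ⟨fun e => SemidirectProduct.ext ?_ ?_, fun e e' => SemidirectProduct.ext ?_ ?_⟩
  · revert i j
    decide
  · simp only [mul_right, th3_right]
    fin_cases i <;> fin_cases j <;> first | exact absurd e (by decide) | exact br3 | exact br3.symm
  · revert i j
    decide
  · simp only [mul_right, th3_right]
    fin_cases i <;> fin_cases j <;>
      first | rfl | exact absurd (by decide) e | exact absurd (by decide) e'

def Th3 : B4 →* G3 := rels_th3.lift

theorem Th3_τ (i : Fin 3) : Th3 (τ i) = th3 i := rels_th3.lift_of i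

def r4 : B4 →* B3 := rightHom.comp Th3

theorem r4_τ (i : Fin 3) : r4 (τ i) = υ (f3 i) := by
  rw [← th3_right, ← Th3_τ]
  rfl

theorem rels_inc3 : Rels edges3 fun i => τ i.castSucc := fun i j =>
  ⟨fun e => (rels_τ _ _).1 (by revert i j; decide), fun e e' => by
    have : i = j := by revert i j; decide
    rw [this]⟩

def inc3 : B3 →* B4 := rels_inc3.lift

theorem inc3_υ (i : Fin 2) : inc3 (υ i) = τ i.castSucc := rels_inc3.lift_of i

theorem Th3_inc3 (b : B3) : Th3 (inc3 b) = inr b :=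
  DFunLike.congr_fun (uext (f := Th3.comp inc3) (g := inr) fun i => by
    rw [MonoidHom.comp_apply, inc3_υ, Th3_τ]
    fin_cases i <;> rfl) b

theorem r4_inc3 (b : B3) : r4 (inc3 b) = b := by
  rw [r4, MonoidHom.comp_apply, Th3_inc3]
  rfl

theorem par3_Th3 (a : B4) : par3 (Th3 a) = 1 :=
  DFunLike.congr_fun (text (f := par3.comp Th3) (g := 1) fun i => by
    rw [MonoidHom.comp_apply, Th3_τ]
    fin_cases i <;> simp [th3, par3_inl, par3_inr, sg_x]) a

theorem kap_x : kap (x 3) = x 3 ∧ kap (x 4) = x 4 ∧ kap p3 = p3 := by decide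

theorem kh_Th3 (a : B4) : kh (Th3 a) = Th3 a :=
  DFunLike.congr_fun (text (f := kh.comp Th3) (g := Th3) fun i => by
    rw [MonoidHom.comp_apply, Th3_τ]
    fin_cases i <;> simp [th3, kh_inl, kh_inr, kap_x]) a

def c3 : G3 := inl p3⁻¹ * inr (D3 ^ 2)

theorem c3_comm {g : G3} (h : kh g = g) : c3 * g = g * c3 := by
  have : (MulAut.conj c3).toMonoidHom.comp kh = kh := by
    refine hom_ext (khom_ext fun j => ?_) (uext fun i => ?_)
    · simp only [MonoidHom.comp_apply, kh_inl, MulEquiv.coe_toMonoidHom, MulAut.conj_apply]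
      refine SemidirectProduct.ext ?_ (by simp [c3])
      revert j
      decide
    · simp only [MonoidHom.comp_apply, kh_inr, MulEquiv.coe_toMonoidHom, MulAut.conj_apply,
        mul_inv_eq_iff_eq_mul]
      refine SemidirectProduct.ext ?_ (by simp [c3, D3_sq_comm, -map_pow])
      revert i
      decide
  have h2 := DFunLike.congr_fun this g
  simpa [mul_inv_eq_iff_eq_mul, h] using h2

theorem kh_c3 : kh c3 = c3 := by simp [c3, kh_inl, kh_inr, kap_x, -map_pow]

theorem act3_p (b : B3) : act3 b p3 = p3 := by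
  have := congrArg SemidirectProduct.left (c3_comm (kh_inr b))
  simpa [c3, -map_pow] using this.symm

theorem sg_p3 : sg p3 = -1 := by decide

theorem par3_c3 : par3 c3 = -1 := by simp [c3, par3_inl, par3_inr, sg_p3, -map_pow]

def Dl4 : B4 := (τ 1 * τ 0 * τ 2) ^ 2

def z3 : B4 := inc3 (D3 ^ 2)

theorem Th3_Dl4 : Th3 Dl4 = inl (x 4) * c3 := by
  refine SemidirectProduct.ext (by decide) ?_
  have := rels_υ.steps [2, 0] (w := [1, 0, 0, 1, 0, 0]) (w' := [0, 1, 0, 0, 1, 0]) (by decide)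
  simpa [Dl4, c3, Th3_τ, th3_right, f3, D3, pow_two, mul_assoc] using this

theorem Th3_z4 : Th3 z4 = c3 * c3 := by
  refine SemidirectProduct.ext (by decide) ?_
  simp [z4, c3, Th3_τ, th3_right, f3, D3, pow_succ, mul_assoc]

def sw4 : Fin 3 → Fin 3 := ![2, 1, 0]

theorem rels_sw4 : Rels edges4 fun i => τ (sw4 i) := fun i j =>
  ⟨fun e => ((rels_τ _ _).1 (by revert i j; decide)).symm, fun e e' =>
    (rels_τ _ _).2 (by revert i j; decide) (by revert i j; decide)⟩

theorem zt4_zt4 : rels_sw4.lift.comp rels_sw4.lift = MonoidHom.id B4 := text fun i => by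
  have : ∀ i, sw4 (sw4 i) = i := by decide
  have k : ∀ i, rels_sw4.lift (τ i) = τ (sw4 i) := rels_sw4.lift_of
  simp [k, this]

def zt4 : MulAut B4 := MonoidHom.toMulEquiv rels_sw4.lift rels_sw4.lift zt4_zt4 zt4_zt4

theorem zt4_τ (i : Fin 3) : zt4 (τ i) = τ (sw4 i) := rels_sw4.lift_of i

theorem zt4_sq : zt4 * zt4 = 1 := MulEquiv.ext fun a => DFunLike.congr_fun zt4_zt4 a

abbrev H4 : Type := B4 ⋊[MonoidHom.id (MulAut B4)] MulAut B4

def xs3 : Lt → H4 :=
  ![1, 1, inl (τ 1) * (inl (τ 0) * inr zt4 * (inl (τ 0))⁻¹) * (inl (τ 1))⁻¹,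
    inl (τ 0) * inr zt4 * (inl (τ 0))⁻¹, inr zt4]

theorem zt4_inv : (inr zt4 * inr zt4 : H4) = 1 := by rw [← map_mul, zt4_sq, map_one]

theorem zt4_conj (a : B4) : (inr zt4 * inl a * inr zt4 : H4) = inl (zt4 a) :=
  SemidirectProduct.ext (by simp) (by simp [zt4_sq])

theorem xs3_sq (j : Lt) : xs3 j * xs3 j = 1 := by
  fin_cases j <;> simp [xs3, zt4_inv, conj_mul, -mul_inv_rev]

def La3 : G3 →* H4 :=
  lift (klift xs3 xs3_sq) (inl.comp inc3) (equiv_gen3 _ _ fun i j => by
    have b : (inl (τ 1) * inl (τ 0) * inl (τ 1) : H4) = inl (τ 0) * inl (τ 1) * inl (τ 0) := by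
      simpa using congrArg inl ((rels_τ 0 1).1 (by decide)).symm
    have h1 : Commute (inl (τ 1) : H4) (inr zt4) :=
      SemidirectProduct.ext (by simp [zt4_τ, sw4]) (by simp)
    have h0 : Commute (inl (τ 0) : H4) (inr zt4 * inl (τ 0) * inr zt4) := by
      rw [zt4_conj, zt4_τ]
      exact Commute.map ((rels_τ 0 2).2 (by decide) (by decide)) inl
    have u : Commute (inl (τ 0) : H4) (xs3 2) := cj_up b h1
    have d : Commute (inl (τ 1) : H4) (xs3 3 * inl (τ 1) * xs3 3) := cj_down b h1 h0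
    have g0 : xs3 3 * xs3 4 * xs3 3 = inl (τ 0) * xs3 3 * (inl (τ 0))⁻¹ := cj_self zt4_inv h0
    have g1 : xs3 2 * xs3 3 * xs3 2 = inl (τ 1) * xs3 2 * (inl (τ 1))⁻¹ := cj_self (xs3_sq 3) d
    have g2 : xs3 4 * inl (τ 1) = inl (τ 1) * xs3 4 := h1.eq.symm
    rw [klift_x, MonoidHom.comp_apply, inc3_υ]
    fin_cases i
    · simp only [Fin.zero_eta, act3_0, al_apply, alh_x]
      fin_cases j
      · simp [alf, xs3]
      · simp [alf, xs3]
      · simpa [alf, eq_mul_inv_iff_mul_eq] using u.eq.symm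
      · simpa [alf] using g0
      · simp [alf, xs3]
    · simp only [Fin.mk_one, act3_1, al_apply, alh_x]
      fin_cases j
      · simp [alf, xs3]
      · simp [alf, xs3]
      · simpa [alf] using g1
      · simp [alf, xs3]
      · simpa [alf, eq_mul_inv_iff_mul_eq] using g2)

theorem th3_two : th3 2 = inl (x 4) * inr (υ 0) * inl (x 4) :=
  SemidirectProduct.ext (by decide) (by simp [th3])

theorem Th3_inj : Function.Injective Th3 := by
  have : La3.comp Th3 = inl := text fun i => by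
    rw [MonoidHom.comp_apply, Th3_τ]
    have k : ∀ i : Fin 2, La3 (inr (υ i)) = inl (τ i.castSucc) := fun i => by
      rw [La3, lift_inr, MonoidHom.comp_apply, inc3_υ]
    fin_cases i
    · exact k 0
    · exact k 1
    · have e : La3 (inl (x 4)) = inr zt4 := by
        rw [La3, lift_inl, klift_x]
        rfl
      change La3 (th3 2) = inl (τ 2)
      rw [th3_two, map_mul, map_mul, e, k, zt4_conj, zt4_τ]
      rfl
  intro a b h
  apply (inl_injective : Function.Injective (inl : B4 → H4))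
  rw [← this, MonoidHom.comp_apply, h]
  rfl

theorem conj_by_Th3 (u : K) : ∃ h : B4, ∀ a, inl (kap u) * Th3 a * (inl (kap u))⁻¹ =
    Th3 (h * a * h⁻¹) := by
  induction u using K.ind with
  | h1 => exact ⟨1, by simp⟩
  | hx i u ih =>
    obtain ⟨h, hh⟩ := ih
    have key : ∃ k : B4, ∀ a, inl (kap (x i)) * Th3 a * (inl (kap (x i)))⁻¹ = Th3 (k * a * k⁻¹) := by
      have h4 : kap (x i) = 1 ∨ ∃ b : B3, kap (x i) = act3 b (x 4) := by
        fin_cases i
        · exact Or.inl (by decide)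
        · exact Or.inl (by decide)
        · exact Or.inr ⟨υ 1 * υ 0, by decide⟩
        · exact Or.inr ⟨υ 0, by decide⟩
        · exact Or.inr ⟨1, by decide⟩
      rcases h4 with e | ⟨b, e⟩ <;> rw [e]
      · exact ⟨1, by simp⟩
      · refine ⟨inc3 b * Dl4 * inc3 b⁻¹, fun a => ?_⟩
        have := c3_comm (kh_Th3 (inc3 b⁻¹ * a * (inc3 b⁻¹)⁻¹))
        simp only [map_mul, map_inv, Th3_inc3] at this
        simp only [inl_aut, map_mul, map_inv, Th3_inc3, Th3_Dl4]
        calc _ = inr b * inl (x 4) * ((inr b)⁻¹ * Th3 a * (inr b)⁻¹⁻¹ * c3) * c3⁻¹ *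
              (inl (x 4))⁻¹ * (inr b)⁻¹ := by group
          _ = _ := by rw [← this]; group
    obtain ⟨k, hk⟩ := key
    refine ⟨k * h, fun a => ?_⟩
    have := hk (h * a * h⁻¹)
    rw [← hh] at this
    simpa [mul_assoc] using this

theorem Dl4_τ (i : Fin 3) : Dl4 * τ i = τ (sw4 i) * Dl4 := by
  apply Th3_inj
  rw [map_mul, map_mul, Th3_Dl4, mul_assoc, c3_comm (kh_Th3 _), ← mul_assoc, ← mul_assoc, Th3_τ,
    Th3_τ]
  congr 1
  refine SemidirectProduct.ext ?_ ?_
  · revert i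
    decide
  · fin_cases i <;> simp [th3_right, f3, sw4]

theorem z4_comm (a : B4) : z4 * a = a * z4 := by
  apply Th3_inj
  rw [map_mul, map_mul, Th3_z4, mul_assoc, c3_comm (kh_Th3 _), ← mul_assoc, c3_comm (kh_Th3 _),
    mul_assoc]

theorem Dl4_sq : Dl4 * Dl4 = z4 := by
  apply Th3_inj
  have : kh (inl (x 4)) = inl (x 4) := by rw [kh_inl, kap_x.2.1]
  rw [map_mul, Th3_Dl4, Th3_z4, mul_assoc, ← mul_assoc c3, c3_comm this, ← mul_assoc, ← mul_assoc,
    ← map_mul, x_mul_x, map_one, one_mul]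

theorem z3_comm (i : Fin 2) : τ i.castSucc * z3 = z3 * τ i.castSucc := by
  rw [z3, ← inc3_υ, ← map_mul, ← D3_sq_comm, map_mul]

theorem p3_even {a : ℤ} (h : sg (p3 ^ a) = 1) :
    ∃ b : ℤ, a = 2 * b ∧ inl (p3 ^ a) = Th3 (z3 ^ a * z4 ^ (-b)) := by
  have e1 : (inl p3 : G3) = inr (D3 ^ 2) * c3⁻¹ := by
    rw [eq_mul_inv_iff_mul_eq, c3, ← mul_assoc, ← map_mul]
    simp
  have e2 : Commute (inr (D3 ^ 2) : G3) c3⁻¹ := Commute.inv_right (c3_comm (kh_inr _)).symm
  rcases Int.even_or_odd' a with ⟨q, rfl | rfl⟩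
  · refine ⟨q, rfl, ?_⟩
    rw [map_zpow, e1, e2.mul_zpow, map_mul, map_zpow, map_zpow, z3, Th3_inc3, Th3_z4, ← zpow_two,
      ← zpow_mul, inv_zpow', mul_neg]
  · exfalso
    rw [map_zpow, sg_p3, zpow_add, zpow_mul] at h
    simp at h

theorem eq_inl3 {g : G3} (h : g.right = 1) : g = inl g.left := SemidirectProduct.ext rfl h

theorem cent_B4 {b : B4} (h0 : b * τ 0 = τ 0 * b) (h1 : b * τ 1 = τ 1 * b) :
    ∃ m n : ℤ, b = z3 ^ m * z4 ^ n := by
  obtain ⟨m, hm⟩ := cent_B3 (g := r4 b) (by simpa [r4_τ, f3] using congrArg r4 h0)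
    (by simpa [r4_τ, f3] using congrArg r4 h1)
  have c0 : Commute b (inc3 D3) := by
    simp only [D3, map_mul, inc3_υ]
    exact (Commute.mul_right h0 h1).mul_right h0
  have c1 : Commute (b * z3 ^ (-m)) z3 := by
    refine Commute.mul_left ?_ (Commute.zpow_self _ _)
    rw [z3, map_pow]
    exact c0.pow_right 2
  obtain ⟨w, hw⟩ : ∃ w, Th3 (b * z3 ^ (-m)) = inl w := ⟨_, eq_inl3 (by
    change r4 _ = 1
    rw [map_mul, map_zpow, z3, r4_inc3, hm, ← zpow_add, add_neg_cancel, zpow_zero])⟩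
  have c2 : Commute (inl w : G3) (inr (D3 ^ 2) * c3⁻¹) := by
    rw [← hw]
    exact Commute.mul_right (Th3_inc3 _ ▸ c1.map Th3) (Commute.inv_right (c3_comm (kh_Th3 _)).symm)
  have e1 : (inr (D3 ^ 2) * c3⁻¹ : G3) = inl p3 := by
    rw [mul_inv_eq_iff_eq_mul, c3, ← mul_assoc, ← map_mul]
    simp
  rw [e1] at c2
  obtain ⟨k, rfl⟩ := cent3 (g := w) one_ne_zero (by
    rw [zpow_one, mul_inv_eq_iff_eq_mul]
    exact inl_injective (by simpa using c2.eq))
  obtain ⟨q, -, hq⟩ := p3_even (a := k) (by rw [← par3_inl, ← hw, par3_Th3])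
  refine ⟨k + m, -q, ?_⟩
  have := Th3_inj (hw.trans hq)
  rw [zpow_neg, mul_inv_eq_iff_eq_mul] at this
  rw [this, zpow_add, mul_assoc, mul_assoc, (Commute.zpow_left (z4_comm _) (-q)).eq]

theorem z3_τ2 {m : ℤ} (h : z3 ^ m * (τ 2 * τ 2) = τ 2 * τ 2 * z3 ^ m) : m = 0 := by
  by_contra hm
  have e1 : (inl p3 : G3) = inr (D3 ^ 2) * c3⁻¹ := by
    rw [eq_mul_inv_iff_mul_eq, c3, ← mul_assoc, ← map_mul]
    simp
  have e2 : Commute (inr (D3 ^ 2) : G3) c3⁻¹ := Commute.inv_right (c3_comm (kh_inr _)).symm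
  have c1 : Commute (Th3 (τ 2 * τ 2)) (inl (p3 ^ m)) := by
    rw [map_zpow, e1, e2.mul_zpow]
    refine Commute.mul_right ?_ ((Commute.inv_right (c3_comm (kh_Th3 _)).symm).zpow_right m)
    have := (Commute.map h Th3).symm
    rwa [map_zpow, z3, Th3_inc3] at this
  have c2 := congrArg SemidirectProduct.left c1.eq
  simp only [mul_left, left_inl, right_inl, map_one, MulAut.one_apply] at c2
  rw [map_zpow, act3_p] at c2
  obtain ⟨k, hk⟩ := cent3 hm (mul_inv_eq_iff_eq_mul.2 c2)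
  have h1 := len_p3_zpow k
  have h2 : len (Th3 (τ 2 * τ 2)).left = 4 := by decide
  rw [← hk, h2] at h1
  omega

end Pool.Agent.P.MP_5aeb4a_al
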